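import Pool.Agent.SepCI.Multi

set_option autoImplicit false

namespace SepCI

open MvPolynomial Finset

attribute [local instance] MvPolynomial.gradedAlgebra

theorem countable_bot : ((⊥ : IntermediateField ℚ ℂ) : Set ℂ).Countable := by
  have : ((⊥ : IntermediateField ℚ ℂ) : Set ℂ) = Set.range (algebraMap ℚ ℂ) := by
    rw [IntermediateField.coe_bot]
  rw [this]
  exact Set.countable_range _

theorem gen_gen (k : IntermediateField ℚ ℂ) (A B : Set ℂ) : gen (gen k A) B = gen k (A ∪ B) := by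
  apply le_antisymm
  · apply gen_le
    · exact gen_mono Set.subset_union_left
    · exact Set.subset_union_right.trans (subset_gen _ _)
  · apply gen_le
    · exact (le_gen _ _).trans (le_gen _ _)
    · rintro z (hz | hz)
      · exact le_gen _ _ (subset_gen _ _ hz)
      · exact subset_gen _ _ hz

theorem gen_empty (k : IntermediateField ℚ ℂ) : gen k ∅ = k :=
  le_antisymm (gen_le le_rfl (Set.empty_subset _)) (le_gen _ _)

theorem cof_zero {N r : ℕ} (F : Fin r → S N) : cof F 0 = ∅ := by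
  ext z
  simp [cof]

theorem cof_succ {N r : ℕ} (F : Fin r → S N) (i : ℕ) (hi : i < r) :
    cof F (i + 1) = cof F i ∪ {z | ∃ m, z = coeff m (F ⟨i, hi⟩)} := by
  ext z
  constructor
  · rintro ⟨j, hj, m, rfl⟩
    rcases Nat.lt_or_ge (j : ℕ) i with h | h
    · exact Or.inl ⟨j, h, m, rfl⟩
    · right
      have : j = ⟨i, hi⟩ := by
        apply Fin.ext
        change (j : ℕ) = i
        omega
      exact ⟨m, by rw [this]⟩
  · rintro (⟨j, hj, m, rfl⟩ | ⟨m, rfl⟩)
    · exact ⟨j, by omega, m, rfl⟩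
    · exact ⟨⟨i, hi⟩, by simp, m, rfl⟩

theorem countable_gen_cof {N r : ℕ} (F : Fin r → S N) (i : ℕ) :
    ((gen ⊥ (cof F i) : IntermediateField ℚ ℂ) : Set ℂ).Countable := by
  refine (countable_acl_gen countable_bot (W := cof F i) ?_).mono (le_acl _)
  have : cof F i ⊆ ⋃ j : Fin r, Set.range (fun m => coeff m (F j)) := by
    rintro z ⟨j, -, m, rfl⟩
    exact Set.mem_iUnion.2 ⟨j, m, rfl⟩
  exact (Set.countable_iUnion fun j => Set.countable_range _).mono this

theorem full_aux {N C₁ : ℕ} (hG : GR N C₁) (hC : 1 ≤ C₁) (r c C : ℕ) (hC1 : 1 ≤ C) :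
    ∃ d₀ : ℕ, ∀ (F : Fin r → S N) (d : Fin r → ℕ) (P W : Ideal (S N))
      (k' : IntermediateField ℚ ℂ) (s : ℕ), Monotone d → (∀ i, d₀ ≤ d i) → JGen ⊥ d F → HP P →
      2 ≤ md P → (∀ i, F i ∈ P) → HP W → W ≤ P → md W = md P + r → Small ⊥ k' c →
      DefOver k' W → Bd W (md W) s → 1 ≤ s → (∀ l, s * l ^ (md W - 1) ≤ C * hf W l) →
      ∀ i (hi : i ≤ r), ∃ (Q : Ideal (S N)) (k'' : IntermediateField ℚ ℂ), HP Q ∧ Q ≤ P ∧
        md Q = md P + (r - i) ∧ Small (gen ⊥ (cof F i)) k'' c ∧ DefOver k'' Q ∧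
        Bd Q (md Q) (s * ∏ j : Fin i, d (Fin.castLE hi j)) ∧
        (∀ l, (∀ j : Fin r, (j : ℕ) < i → d j / (C₁ * (N + 2)) ≤ l) →
          (s * ∏ j : Fin i, d (Fin.castLE hi j)) * l ^ (md Q - 1) ≤
            ((2 * (C₁ * (N + 2)) * C₁) ^ i * C) * hf Q l) ∧
        (s = 1 → Chain i (fun j => F (Fin.castLE hi j)) (fun j => d (Fin.castLE hi j)) Q) := by
  have hpos : ∀ i, 1 ≤ (2 * (C₁ * (N + 2)) * C₁) ^ i * C := by
    intro i
    have : 0 < 2 * (C₁ * (N + 2)) * C₁ := by positivity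
    have h2 : 0 < (2 * (C₁ * (N + 2)) * C₁) ^ i := pow_pos this i
    exact Nat.mul_pos h2 hC1
  choose D hD using fun i => bertini_step hG hC ((2 * (C₁ * (N + 2)) * C₁) ^ i * C) c (hpos i)
  refine ⟨∑ i ∈ range r, D i + c + 1, ?_⟩
  intro F d P W k' s hmon hd hgen hP h2 hFP hW hWP hmW hk' hdefW hsW hs1 hLB i
  induction i with
  | zero =>
    intro hi
    refine ⟨W, k', hW, hWP, by omega, ?_, hdefW, ?_, ?_, ?_⟩
    · rw [cof_zero, gen_empty]
      exact hk'
    · simpa using hsW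
    · intro l _
      simpa using hLB l
    · intro h1
      subst h1
      exact ⟨hW, hsW⟩
  | succ i ih =>
    intro hi
    have hir : i < r := hi
    obtain ⟨Q, k'', hQ, hQP, hmQ, hk'', hdefQ, hsQ, hLBQ, hch⟩ := ih (by omega)
    set F0 := F ⟨i, hir⟩ with hF0
    set d0 := d ⟨i, hir⟩ with hd0
    have hdi : D i ≤ d0 ∧ c + 1 ≤ d0 := by
      have h3 := hd ⟨i, hir⟩
      have h4 : D i ≤ ∑ i ∈ range r, D i :=
        Finset.single_le_sum (fun _ _ => Nat.zero_le _) (Finset.mem_range.2 hir)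
      constructor <;> omega
    have hgF : GenOver (gen ⊥ (cof F i)) d0 F0 := hgen ⟨i, hir⟩
    have hFQ : F0 ∉ Q := by
      intro h
      have h3 := count hk'' hQ.hom hdefQ hgF h
      have h4 := hf_lower hQ (by omega) d0
      omega
    have hPp := hP.prime
    have hJP : Q ⊔ Ideal.span {F0} ≤ P :=
      sup_le hQP ((Ideal.span_singleton_le_iff_mem _).2 (hFP _))
    obtain ⟨Q', hQ'm, hQ'P⟩ := Ideal.exists_minimalPrimes_le hJP
    have hQ' : HP Q' := minimal_hom (hom_sup_span hQ.hom hgF.1) hQ'm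
    have hmQ' : md Q' + 1 = md Q := md_minimal hQ hgF.1 hFQ hQ'm
    have hQQ' : Q ≤ Q' := le_sup_left.trans hQ'm.1.2
    have hFQ' : F0 ∈ Q' := hQ'm.1.2 (Ideal.mem_sup_right (Ideal.mem_span_singleton_self F0))
    obtain ⟨μ, hμ⟩ : ∃ μ, md Q' = μ := ⟨_, rfl⟩
    have hmQμ : md Q = μ + 1 := by omega
    rw [hmQμ] at hsQ
    have hprodpos : 1 ≤ s * ∏ j : Fin i, d (Fin.castLE (by omega : i ≤ r) j) := by
      refine Nat.mul_pos hs1 (Finset.prod_pos fun j _ => ?_)
      have := hd (Fin.castLE (by omega : i ≤ r) j)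
      omega
    have hle : ∀ l, d0 / (C₁ * (N + 2)) ≤ l →
        (∀ j : Fin r, (j : ℕ) < i → d j / (C₁ * (N + 2)) ≤ l) := by
      intro l hl j hj
      refine le_trans (Nat.div_le_div_right (hmon ?_)) hl
      rw [Fin.le_def]
      change (j : ℕ) ≤ i
      omega
    obtain ⟨-, hBQ', hLBQ'⟩ := hD i Q Q' (gen ⊥ (cof F i)) k'' μ
      (s * ∏ j : Fin i, d (Fin.castLE (by omega : i ≤ r) j)) d0 F0 hQ hQ' (by omega) hmQμ hμ hsQ
      hprodpos (countable_gen_cof F i) hk'' hdefQ hdi.1 hgF (by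
        intro l hl
        have := hLBQ l (hle l hl)
        rwa [hmQμ] at this) hQQ' hFQ'
    have hprod : s * ∏ j : Fin (i + 1), d (Fin.castLE hi j) =
        (s * ∏ j : Fin i, d (Fin.castLE (by omega : i ≤ r) j)) * d0 := by
      rw [Fin.prod_univ_castSucc, ← mul_assoc]
      rfl
    have hsmall := small_gen hk'' {z | ∃ m, z = coeff m F0}
    rw [gen_gen, ← cof_succ F i hir] at hsmall
    have hJdef : DefOver (acl (gen k'' {z | ∃ m, z = coeff m F0})) (Q ⊔ Ideal.span {F0}) := by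
      have h3 : k'' ≤ acl (gen k'' {z | ∃ m, z = coeff m F0}) := (le_gen _ _).trans (le_acl _)
      refine sup_le ((defOver_mono h3 hdefQ).trans (Ideal.span_mono ?_)) ?_
      · rintro g ⟨hg, hgk⟩
        exact ⟨Ideal.mem_sup_left hg, hgk⟩
      · rw [Ideal.span_singleton_le_iff_mem]
        refine Ideal.subset_span ⟨Ideal.mem_sup_right (Ideal.mem_span_singleton_self F0), ?_⟩
        intro m
        exact le_acl _ (subset_gen _ _ ⟨m, rfl⟩)
    have hac := isAlgClosed_acl (gen k'' {z | ∃ m, z = coeff m F0})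
    have hdefQ' := defOver_minimal hJdef hQ'm
    refine ⟨Q', _, hQ', hQ'P, by omega, hsmall, hdefQ', ?_, ?_, ?_⟩
    · rw [hprod, hμ]
      exact hBQ'
    · intro l hl
      have h3 := hLBQ' l (hl ⟨i, hir⟩ (by simp))
      rw [hprod, hμ, pow_succ]
      calc _ ≤ _ := h3
        _ = _ := by ring
    · intro h1
      refine ⟨hQ', Q, s * ∏ j : Fin i, d (Fin.castLE (by omega : i ≤ r) j),
        (s * ∏ j : Fin i, d (Fin.castLE (by omega : i ≤ r) j)) * d0, hch h1, hQ, hQQ', ?_,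
        hgF.1, ?_, hFQ, hFQ', ?_, ?_, le_rfl⟩
      · exact hmQ'.symm
      · change 1 ≤ d0
        omega
      · rw [hmQμ]
        exact hsQ
      · rw [hμ]
        exact hBQ'

/-- **The general case**: for all degrees larger than a constant. -/
theorem full_chain (N r : ℕ) (hr : 1 ≤ r) : ∃ d₀ : ℕ, ∀ (F : Fin r → S N) (d : Fin r → ℕ)
    (P : Ideal (S N)) (e : ℕ), Monotone d → (∀ i, d₀ ≤ d i) → JGen ⊥ d F → HP P → 2 ≤ md P →
      (∀ i, F i ∈ P) → Bd P (md P) e → e ≤ ∏ i, d i → Chain r F d P := by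
  obtain ⟨C₁, hC, hG⟩ := growth_rel N
  obtain ⟨L₀, d₁, hL₀, hW⟩ := exists_W (hG := (hG : GR N C₁)) hC r hr
  obtain ⟨d₂, hfull⟩ := full_aux (hG : GR N C₁) hC r ((N + 1) * (L₀ + N).choose N)
    (L₀ ^ (N + 1) * (N + 1).factorial)
    (Nat.mul_pos (pow_pos (by omega) _) (Nat.factorial_pos _))
  refine ⟨d₁ + d₂ + 1, ?_⟩
  intro F d P e hmon hd hgen hP h2 hFP he hed
  obtain ⟨W, k', s, hWh, hWP, hmW, hk', hdefW, hsW, hs1, hsL⟩ :=
    hW F d P e hmon (fun i => by have := hd i; omega) hgen hP h2 hFP he hed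
  have hLB : ∀ l, s * l ^ (md W - 1) ≤ L₀ ^ (N + 1) * (N + 1).factorial * hf W l := by
    intro l
    obtain ⟨w, hw⟩ : ∃ w, md W = w + 1 := ⟨md W - 1, by omega⟩
    have h3 := hf_lower' hWh (by omega) l
    have h4 := md_le_top hWh
    rw [hw] at h3 ⊢
    simp only [Nat.add_sub_cancel, show l + (w + 1) - 1 = l + w by omega] at h3 ⊢
    calc s * l ^ w ≤ L₀ ^ (N + 1) * (w.factorial * (l + w).choose w) :=
          Nat.mul_le_mul hsL (pow_le_choose l w)
      _ ≤ L₀ ^ (N + 1) * ((N + 1).factorial * hf W l) :=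
          Nat.mul_le_mul_left _ (Nat.mul_le_mul (Nat.factorial_le (by omega)) h3)
      _ = _ := by ring
  obtain ⟨Q, k'', hQ, hQP, hmQ, -, -, hBQ, -, hch⟩ := hfull F d P W k' s hmon
    (fun i => by have := hd i; omega) hgen hP h2 hFP hWh hWP hmW hk' hdefW hsW hs1 hLB r le_rfl
  have hQeq : Q = P := by
    by_contra hne
    have := md_lt hQ hP (lt_of_le_of_ne hQP hne)
    omega
  subst hQeq
  have hdpos : 0 < ∏ i, d i := Finset.prod_pos fun i _ => by
    have := hd i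
    omega
  have h3 : e = s * ∏ j : Fin r, d (Fin.castLE le_rfl j) := Bd_unique (by omega) he hBQ
  have h4 : ∏ j : Fin r, d (Fin.castLE le_rfl j) = ∏ j, d j := rfl
  rw [h4] at h3
  have h5 : s = 1 := by
    have h6 : s * ∏ j, d j ≤ 1 * ∏ j, d j := by omega
    have := Nat.le_of_mul_le_mul_right h6 hdpos
    omega
  exact hch h5

end SepCI
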