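import Pool.Agent.SepCI.Dim

/-!
# M21: Krull dimension equals transcendence degree
-/

set_option autoImplicit false

namespace SepCI

open MvPolynomial

attribute [local instance] MvPolynomial.gradedAlgebra

theorem krull_le {N : ℕ} {P : Ideal (S N)} (hP : P.IsPrime) :
    ringKrullDim (S N ⧸ P) ≤ (md P : ℕ) := by
  rw [ringKrullDim, Order.krullDim]
  apply iSup_le
  intro l
  let c : PrimeSpectrum (S N ⧸ P) → Ideal (S N) := fun q => q.asIdeal.comap (Ideal.Quotient.mk P)
  have hcp : ∀ q, (c q).IsPrime := fun q => Ideal.IsPrime.comap (hK := q.isPrime) _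
  have hlt : ∀ q q' : PrimeSpectrum (S N ⧸ P), q < q' → c q < c q' := by
    intro q q' h
    refine lt_of_le_of_ne (Ideal.comap_mono h.le) ?_
    intro he
    have := Ideal.comap_injective_of_surjective (Ideal.Quotient.mk P)
      Ideal.Quotient.mk_surjective he
    exact h.ne (PrimeSpectrum.ext this)
  have key : ∀ i : ℕ, ∀ hi : i < l.length + 1, md (c (l ⟨i, hi⟩)) + i ≤ md P := by
    intro i
    induction i with
    | zero =>
      intro hi
      rw [add_zero]
      apply md_le' hP (hcp _)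
      intro x hx
      change Ideal.Quotient.mk P x ∈ (l ⟨0, hi⟩).asIdeal
      rw [Ideal.Quotient.eq_zero_iff_mem.mpr hx]
      exact Ideal.zero_mem _
    | succ i ih =>
      intro hi
      have h1 := ih (by omega)
      have h2 : l ⟨i, by omega⟩ < l ⟨i + 1, hi⟩ := l.step ⟨i, by omega⟩
      have h3 := md_lt' (hcp _) (hcp _) (hlt _ _ h2)
      omega
  have := key l.length (by omega)
  have h2 : l.length ≤ md P := by omega
  exact_mod_cast h2

theorem krull_ge {N : ℕ} {P : Ideal (S N)} (hP : P.IsPrime) :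
    ((md P : ℕ) : WithBot ℕ∞) ≤ ringKrullDim (S N ⧸ P) := by
  have := faithful_quot hP
  obtain ⟨s, g, hg, hfin⟩ := exists_finite_inj_algHom_of_fg ℂ (S N ⧸ P)
  let x : Fin s → S N ⧸ P := fun i => g (X i)
  have hgx : g = aeval x := by ext i; simp [x]
  have hai : AlgebraicIndependent ℂ x := by
    rw [algebraicIndependent_iff_injective_aeval, ← hgx]; exact hg
  have halg : Algebra.IsAlgebraic (Algebra.adjoin ℂ (Set.range x)) (S N ⧸ P) := by
    constructor
    intro z
    obtain ⟨p, hp, hpz⟩ := hfin.to_isIntegral z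
    have hr : ∀ a : MvPolynomial (Fin s) ℂ, g a ∈ Algebra.adjoin ℂ (Set.range x) := by
      intro a
      rw [Algebra.adjoin_range_eq_range_aeval, ← hgx]
      exact ⟨a, rfl⟩
    let ψ : MvPolynomial (Fin s) ℂ →ₐ[ℂ] Algebra.adjoin ℂ (Set.range x) :=
      g.codRestrict (Algebra.adjoin ℂ (Set.range x)) hr
    refine IsIntegral.isAlgebraic ⟨p.map ψ.toRingHom, hp.map _, ?_⟩
    rw [Polynomial.eval₂_map]
    exact hpz
  have hs : md P = s := by
    have h1 : Cardinal.mk (Fin s) ≤ Algebra.trdeg ℂ (S N ⧸ P) := by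
      have := hai.lift_cardinalMk_le_trdeg
      simpa using this
    have h2 : Algebra.trdeg ℂ (S N ⧸ P) ≤ Cardinal.mk (Fin s) := by
      refine (Algebra.IsAlgebraic.trdeg_le_cardinalMk ℂ (Set.range x)).trans ?_
      exact Cardinal.mk_range_le
    have h3 := le_antisymm h2 h1
    rw [← cast_md P, Cardinal.mk_fin] at h3
    exact_mod_cast h3
  let _ : Algebra (MvPolynomial (Fin s) ℂ) (S N ⧸ P) := g.toRingHom.toAlgebra
  have hint : Algebra.IsIntegral (MvPolynomial (Fin s) ℂ) (S N ⧸ P) :=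
    ⟨fun z => hfin.to_isIntegral z⟩
  have hfs : FaithfulSMul (MvPolynomial (Fin s) ℂ) (S N ⧸ P) :=
    (faithfulSMul_iff_algebraMap_injective _ _).mpr hg
  have hR : ringKrullDim (MvPolynomial (Fin s) ℂ) = (s : ℕ) := by
    rw [MvPolynomial.ringKrullDim_of_isNoetherianRing, ringKrullDim_eq_zero_of_field]
    simp
  have hle : ringKrullDim (MvPolynomial (Fin s) ℂ) ≤ ringKrullDim (S N ⧸ P) := by
    rw [ringKrullDim, Order.krullDim]
    apply iSup_le
    intro l
    have hne : Nonempty (Ideal.primesOver l.head.asIdeal (S N ⧸ P)) := by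
      have := l.head.isPrime
      exact Ideal.nonempty_primesOver l.head.asIdeal
    obtain ⟨Q, hQ1, hQ2⟩ := hne
    obtain ⟨L, hL, -, -⟩ := Ideal.exists_ltSeries_of_hasGoingUp (S := S N ⧸ P) l Q
    rw [← hL]
    exact Order.LTSeries.length_le_krullDim L
  rw [hs, ← hR]
  exact hle

theorem krull_eq {N : ℕ} {P : Ideal (S N)} (hP : HP P) :
    ringKrullDim (S N ⧸ P) = (md P : ℕ) :=
  le_antisymm (krull_le hP.prime) (krull_ge hP.prime)

end SepCI
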