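import Pool.Agent.SepCI.Basic

/-!
# Relative algebraic closures inside `ℂ` and counting of algebraically independent elements
-/

set_option autoImplicit false

namespace SepCI

open MvPolynomial

attribute [local instance] MvPolynomial.gradedAlgebra

/-- The algebraic closure of a subfield of `ℂ` inside `ℂ`. -/
noncomputable def acl (K : IntermediateField ℚ ℂ) : IntermediateField ℚ ℂ :=
  (algebraicClosure K ℂ).restrictScalars ℚ

theorem mem_acl {K : IntermediateField ℚ ℂ} {z : ℂ} : z ∈ acl K ↔ IsAlgebraic K z := by
  rw [acl, IntermediateField.mem_restrictScalars, mem_algebraicClosure_iff]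

theorem le_acl (K : IntermediateField ℚ ℂ) : K ≤ acl K := by
  intro z hz
  rw [mem_acl]
  exact isAlgebraic_algebraMap (⟨z, hz⟩ : K)

theorem isAlgClosed_acl (K : IntermediateField ℚ ℂ) : IsAlgClosed (acl K) := by
  exact (IsAlgClosed.algebraicClosure_eq_bot_iff (algebraicClosure K ℂ) ℂ).mp
    (algebraicClosure.algebraicClosure_eq_bot K ℂ)

theorem isAlgebraic_mono {K L : IntermediateField ℚ ℂ} (h : K ≤ L) {z : ℂ}
    (hz : IsAlgebraic K z) : IsAlgebraic L z := by
  let _ : Algebra K L := (IntermediateField.inclusion h).toRingHom.toAlgebra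
  have : IsScalarTower K L ℂ := IsScalarTower.of_algebraMap_eq fun x => rfl
  exact hz.tower_top L

theorem acl_mono {K L : IntermediateField ℚ ℂ} (h : K ≤ L) : acl K ≤ acl L := by
  intro z hz
  rw [mem_acl] at hz ⊢
  exact isAlgebraic_mono h hz

theorem acl_acl (K : IntermediateField ℚ ℂ) : acl (acl K) = acl K := by
  apply le_antisymm _ (le_acl _)
  intro z hz
  rw [mem_acl] at hz ⊢
  have h1 : IsAlgebraic (algebraicClosure K ℂ) z := hz
  exact h1.restrictScalars K

theorem acl_le_iff {K L : IntermediateField ℚ ℂ} : acl K ≤ acl L ↔ K ≤ acl L := by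
  constructor
  · intro h
    exact (le_acl K).trans h
  · intro h
    have := acl_mono h
    rwa [acl_acl] at this

/-- `gen k W` is the subfield generated by `k` and `W`. -/
noncomputable def gen (k : IntermediateField ℚ ℂ) (W : Set ℂ) : IntermediateField ℚ ℂ :=
  IntermediateField.adjoin ℚ ((k : Set ℂ) ∪ W)

theorem le_gen (k : IntermediateField ℚ ℂ) (W : Set ℂ) : k ≤ gen k W := by
  intro z hz
  exact IntermediateField.subset_adjoin _ _ (Or.inl hz)

theorem subset_gen (k : IntermediateField ℚ ℂ) (W : Set ℂ) : W ⊆ (gen k W : Set ℂ) := by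
  intro z hz
  exact IntermediateField.subset_adjoin _ _ (Or.inr hz)

theorem gen_le {k L : IntermediateField ℚ ℂ} {W : Set ℂ} (h : k ≤ L) (hW : W ⊆ (L : Set ℂ)) :
    gen k W ≤ L := by
  rw [gen, IntermediateField.adjoin_le_iff]
  exact Set.union_subset h hW

theorem gen_mono {k : IntermediateField ℚ ℂ} {W W' : Set ℂ} (h : W ⊆ W') :
    gen k W ≤ gen k W' :=
  gen_le (le_gen _ _) (h.trans (subset_gen _ _))

open scoped IntermediateField.algebraAdjoinAdjoin in
/-- comparison with the matroid of algebraic independence -/
theorem mem_acl_gen {k : IntermediateField ℚ ℂ} {W : Set ℂ} {z : ℂ} :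
    z ∈ acl (gen k W) ↔ z ∈ (AlgebraicIndependent.matroid k ℂ).closure W := by
  rw [AlgebraicIndependent.matroid_closure_eq, SetLike.mem_coe, Subalgebra.mem_algebraicClosure,
    mem_acl]
  have h1 : gen k W = (IntermediateField.adjoin k W).restrictScalars ℚ := by
    exact (IntermediateField.restrictScalars_adjoin ℚ k W).symm
  have h2 : IsAlgebraic (gen k W) z ↔ IsAlgebraic (IntermediateField.adjoin k W) z := by
    rw [h1]
    exact Iff.rfl
  rw [h2]
  exact (IsFractionRing.isAlgebraic_iff (Algebra.adjoin k W) (IntermediateField.adjoin k W) ℂ).symm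

theorem acl_gen_trans {k kW : IntermediateField ℚ ℂ} {W T : Set ℂ} (h : kW ≤ acl (gen k W)) :
    acl (gen kW T) ≤ acl (gen k (W ∪ T)) := by
  rw [acl_le_iff]
  apply gen_le
  · exact h.trans (acl_mono (gen_mono Set.subset_union_left))
  · intro z hz
    exact le_acl _ (subset_gen _ _ (Or.inr hz))

/-- algebraically independent elements that are algebraic over `n` elements -/
theorem card_le_of_mem_acl {k : IntermediateField ℚ ℂ} {ι κ : Type*} [Fintype ι] [Fintype κ]
    {x : ι → ℂ} (hx : AlgebraicIndependent k x) (y : κ → ℂ)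
    (h : ∀ i, x i ∈ acl (gen k (Set.range y))) : Fintype.card ι ≤ Fintype.card κ := by
  have h1 : (AlgebraicIndependent.matroid k ℂ).Indep (Set.range x) := by
    rw [AlgebraicIndependent.matroid_indep_iff]
    exact hx.to_subtype_range
  have h2 : Set.range x ⊆ (AlgebraicIndependent.matroid k ℂ).closure (Set.range y) := by
    rintro _ ⟨i, rfl⟩
    exact mem_acl_gen.1 (h i)
  have h3 := h1.encard_le_eRk_of_subset h2
  rw [Matroid.eRk_closure_eq] at h3
  have h4 := h3.trans ((AlgebraicIndependent.matroid k ℂ).eRk_le_encard (Set.range y))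
  have h5 : (Set.range x).encard = Fintype.card ι := by
    rw [← Set.image_univ, hx.injective.encard_image, Set.encard_univ, ENat.card_eq_coe_fintype_card]
  have h6 : (Set.range y).encard ≤ Fintype.card κ := by
    rw [← Set.image_univ]
    refine (Set.encard_image_le _ _).trans ?_
    rw [Set.encard_univ, ENat.card_eq_coe_fintype_card]
  rw [h5] at h4
  exact_mod_cast h4.trans h6

/-- exchange: a large subfamily stays algebraically independent over a small extension -/
theorem exists_indep_subset {k kW : IntermediateField ℚ ℂ} {c : ℕ} (hs : Small k kW c)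
    {ι : Type*} [Fintype ι] {x : ι → ℂ} (hx : AlgebraicIndependent k x) :
    ∃ B : Finset ι, AlgebraicIndependent kW (fun b : B => x b) ∧ Fintype.card ι ≤ c + B.card := by
  classical
  obtain ⟨hk, -, w, hw⟩ := hs
  obtain ⟨I, hI⟩ := (AlgebraicIndependent.matroid kW ℂ).exists_isBasis (Set.range x)
  have hIind : AlgebraicIndepOn kW id I := hI.indep
  have hIsub : I ⊆ Set.range x := hI.subset
  let B : Finset ι := Finset.univ.filter (fun i => x i ∈ I)
  refine ⟨B, ?_, ?_⟩
  · have h1 : ∀ b : B, x b ∈ I := fun b => (Finset.mem_filter.1 b.2).2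
    have h2 := hIind.comp (fun b : B => (⟨x b, h1 b⟩ : I)) (fun a b hab => by
      have := congrArg Subtype.val hab
      exact Subtype.ext (hx.injective this))
    exact h2
  · have h1 : ∀ i, x i ∈ acl (gen k (Set.range (Sum.elim w (fun b : B => x b)))) := by
      intro i
      have h2 : x i ∈ (AlgebraicIndependent.matroid kW ℂ).closure I := by
        rw [hI.closure_eq_closure]
        exact (AlgebraicIndependent.matroid kW ℂ).subset_closure (Set.range x) (by simp) ⟨i, rfl⟩
      rw [← mem_acl_gen] at h2
      have h3 : kW ≤ acl (gen k (Set.range w)) := by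
        intro z hz
        rw [mem_acl]
        exact hw z hz
      have h4 := acl_gen_trans (T := I) h3 h2
      refine acl_mono (gen_mono ?_) h4
      rw [Set.Sum.elim_range]
      apply Set.union_subset_union_right
      intro z hz
      obtain ⟨j, rfl⟩ := hIsub hz
      exact ⟨⟨j, Finset.mem_filter.2 ⟨Finset.mem_univ _, hz⟩⟩, rfl⟩
    have h2 := card_le_of_mem_acl hx _ h1
    rwa [Fintype.card_sum, Fintype.card_fin, Fintype.card_coe] at h2

/-! ### forms of degree `d` -/

noncomputable instance fintypeMon (N d : ℕ) : Fintype (Mon N d) :=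
  (Finsupp.finite_of_degree_eq (σ := Fin (N + 1)) d).fintype

/-- forms of degree `d` and coefficient vectors -/
noncomputable def sdEquiv (N d : ℕ) : Sd N d ≃ₗ[ℂ] (Mon N d → ℂ) where
  toFun f := fun m => coeff m.1 (f : S N)
  map_add' f g := by ext m; simp
  map_smul' a f := by ext m; simp
  invFun g := ⟨∑ m : Mon N d, monomial m.1 (g m), by
    rw [mem_homogeneousSubmodule]
    apply IsHomogeneous.sum
    intro m _
    exact isHomogeneous_monomial _ m.2⟩
  left_inv f := by
    apply Subtype.ext
    ext m
    simp only [coeff_sum, coeff_monomial]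
    by_cases hm : m.degree = d
    · rw [Finset.sum_eq_single (⟨m, hm⟩ : Mon N d)]
      · simp
      · intro b _ hb
        rw [if_neg]
        intro h
        exact hb (Subtype.ext h)
      · intro h
        exact absurd (Finset.mem_univ _) h
    · rw [Finset.sum_eq_zero]
      · symm
        exact ((mem_homogeneousSubmodule _ _).1 f.2).coeff_eq_zero hm
      · intro b _
        rw [if_neg]
        rintro rfl
        exact hm b.2
  right_inv g := by
    ext m
    simp only [coeff_sum, coeff_monomial]
    rw [Finset.sum_eq_single m]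
    · simp
    · intro b _ hb
      rw [if_neg]
      intro h
      exact hb (Subtype.ext h)
    · intro h
      exact absurd (Finset.mem_univ _) h

theorem sdEquiv_apply {N d : ℕ} (f : Sd N d) (m : Mon N d) :
    sdEquiv N d f m = coeff m.1 (f : S N) := rfl

theorem finrank_Sd (N d : ℕ) : Module.finrank ℂ (Sd N d) = Fintype.card (Mon N d) := by
  rw [(sdEquiv N d).finrank_eq, Module.finrank_fintype_fun_eq_card]

end SepCI
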