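import Mathlib

set_option autoImplicit false

/-! # M10: linear algebra core of the two components argument -/

namespace SepCI

open Matrix

/-- If `v` has traces `Tr(b_i v) = w_i`, then `discr • v` has coordinates `adj(T) w`. -/
theorem discr_smul_eq {R B : Type*} [CommRing R] [CommRing B] [Algebra R B] {ι : Type*}
    [Fintype ι] [DecidableEq ι] (b : Module.Basis ι R B) (v : B) :
    Algebra.discr R b • v =
      b.equivFun.symm ((Algebra.traceMatrix R b).adjugate *ᵥ
        fun i => Algebra.trace R B (b i * v)) := by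
  have h1 : (fun i => Algebra.trace R B (b i * v)) = Algebra.traceMatrix R b *ᵥ b.equivFun v := by
    rw [Algebra.traceMatrix_of_basis_mulVec]
    funext i
    rw [mul_comm]
  rw [h1, Matrix.mulVec_mulVec, Matrix.adjugate_mul, Matrix.smul_mulVec, Matrix.one_mulVec,
    map_smul, LinearEquiv.symm_apply_apply, Algebra.discr_def]

theorem alpha_core {R B : Type*} [CommRing R] [IsDomain R] [UniqueFactorizationMonoid R]
    [CommRing B] [IsDomain B] [Algebra R B] {ι : Type*} [Fintype ι] [DecidableEq ι]
    (b : Module.Basis ι R B) (hδ : Algebra.discr R b ≠ 0) (Ft Fs : B) (p q : R)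
    (hN : Ft * Fs = algebraMap R B (p * q)) (hrel : IsRelPrime p q) (hp : p ≠ 0) (hq : q ≠ 0)
    (x : B) (hx : ∀ i, Algebra.trace R B (b i * (Fs * x)) ∈ Ideal.span {p, q}) :
    ∃ g1 g2 C1 C2 : B, Algebra.discr R b • x = g1 + g2 ∧ q • g1 = Ft * C1 ∧
      p • g2 = Ft * C2 := by
  classical
  have hx' : ∀ i, ∃ l m : R, l * p + m * q = Algebra.trace R B (b i * (Fs * x)) :=
    fun i => Ideal.mem_span_pair.1 (hx i)
  choose lam mu hlm using hx'
  set T := Algebra.traceMatrix R b with hT
  set δ := Algebra.discr R b with hδdef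
  set C1 : B := b.equivFun.symm (T.adjugate *ᵥ lam) with hC1
  set C2 : B := b.equivFun.symm (T.adjugate *ᵥ mu) with hC2
  have key : δ • (Fs * x) = p • C1 + q • C2 := by
    rw [hδdef, discr_smul_eq b (Fs * x), ← hT, hC1, hC2, ← map_smul, ← map_smul, ← map_add,
      ← Matrix.mulVec_smul, ← Matrix.mulVec_smul, ← Matrix.mulVec_add]
    congr 2
    funext i
    simp only [Pi.add_apply, Pi.smul_apply, smul_eq_mul]
    rw [← hlm i]
    ring
  -- multiply by Ft
  have key2 : (p * q) • (δ • x) = p • (Ft * C1) + q • (Ft * C2) := by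
    have : Ft * (δ • (Fs * x)) = Ft * (p • C1 + q • C2) := by rw [key]
    rw [mul_add, mul_smul_comm, mul_smul_comm, mul_smul_comm, ← mul_assoc, hN,
      ← Algebra.smul_def, smul_comm] at this
    exact this
  have hfree : Module.IsTorsionFree R B := by
    have := Module.Free.of_basis b
    infer_instance
  -- p divides the coordinates of Ft * C2
  have hdiv : ∀ i, p ∣ b.equivFun (Ft * C2) i := by
    intro i
    have h := congrArg (fun v => b.equivFun v i) key2
    simp only [map_smul, map_add, Pi.add_apply, Pi.smul_apply, smul_eq_mul] at h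
    have h2 : p ∣ q * b.equivFun (Ft * C2) i := by
      refine ⟨q * (δ * b.equivFun x i) - b.equivFun (Ft * C1) i, ?_⟩
      linear_combination -h
    exact hrel.dvd_of_dvd_mul_left h2
  choose w hw using hdiv
  set g2 : B := b.equivFun.symm w with hg2
  have hpg2 : p • g2 = Ft * C2 := by
    rw [hg2, ← map_smul, LinearEquiv.symm_apply_eq]
    funext i
    rw [Pi.smul_apply, smul_eq_mul, hw i]
  refine ⟨δ • x - g2, g2, C1, C2, by ring, ?_, hpg2⟩
  have h3 : p • (q • (δ • x - g2)) = p • (Ft * C1) := by
    have : p • (q • (δ • x - g2)) = (p * q) • (δ • x) - q • (p • g2) := by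
      rw [smul_sub, smul_sub, ← mul_smul, smul_comm p q g2]
    rw [this, key2, hpg2]
    ring
  exact smul_right_injective B hp h3

end SepCI
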