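import Pool.Agent.SepCI.Defs

set_option autoImplicit false

namespace SepCI

open MvPolynomial

attribute [local instance] MvPolynomial.gradedAlgebra

/-- forms of degree `l` modulo `I` -/
noncomputable def resl {N : ℕ} (I : Ideal (S N)) (l : ℕ) : Sd N l →ₗ[ℂ] S N ⧸ I :=
  (Ideal.Quotient.mkₐ ℂ I).toLinearMap.comp (Sd N l).subtype

theorem mem_ker_resl {N : ℕ} (I : Ideal (S N)) (l : ℕ) (f : Sd N l) :
    f ∈ LinearMap.ker (resl I l) ↔ (f : S N) ∈ I := by
  simp [resl, Ideal.Quotient.eq_zero_iff_mem]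

theorem range_resl {N : ℕ} (I : Ideal (S N)) (l : ℕ) :
    LinearMap.range (resl I l) = (Sd N l).map (Ideal.Quotient.mkₐ ℂ I).toLinearMap := by
  rw [resl, LinearMap.range_comp, Submodule.range_subtype]

instance finDimSd {N l : ℕ} : FiniteDimensional ℂ (Sd N l) :=
  Module.Finite.iff_fg.2 (homogeneousSubmodule_fg (Fin (N + 1)) ℂ l)

theorem hf_add_ker {N : ℕ} (I : Ideal (S N)) (l : ℕ) :
    hf I l + Module.finrank ℂ (LinearMap.ker (resl I l)) = Module.finrank ℂ (Sd N l) := by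
  rw [hf, ← range_resl]
  exact LinearMap.finrank_range_add_finrank_ker (resl I l)

theorem hf_anti {N : ℕ} {I J : Ideal (S N)} (h : I ≤ J) (l : ℕ) : hf J l ≤ hf I l := by
  have h1 := hf_add_ker I l
  have h2 := hf_add_ker J l
  have h3 : Module.finrank ℂ (LinearMap.ker (resl I l)) ≤
      Module.finrank ℂ (LinearMap.ker (resl J l)) := by
    apply Submodule.finrank_mono
    intro f hf
    rw [mem_ker_resl] at hf ⊢
    exact h hf
  omega

theorem hf_eq_of_agree {N : ℕ} {P Q : Ideal (S N)} {l : ℕ} (h : Q ≤ P) (ha : Agree P Q l) :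
    hf P l = hf Q l := by
  have h1 := hf_add_ker P l
  have h2 := hf_add_ker Q l
  have h3 : LinearMap.ker (resl P l) = LinearMap.ker (resl Q l) := by
    ext f
    rw [mem_ker_resl, mem_ker_resl]
    exact ⟨fun hf => ha f f.2 hf, fun hf => h hf⟩
  rw [h3] at h1
  omega

theorem hf_le_finrank {N : ℕ} (I : Ideal (S N)) (l : ℕ) : hf I l ≤ Module.finrank ℂ (Sd N l) := by
  have := hf_add_ker I l
  omega

/-- if all forms of degree `d` in a subspace `T ≤ Sd` of codimension `≤ c` lie in `I` then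
`hf I d ≤ c` -/
theorem hf_le_of_codim {N : ℕ} {I : Ideal (S N)} {d c : ℕ} {T : Submodule ℂ (S N)}
    (hT : T ≤ Sd N d) (hc : Module.finrank ℂ (Sd N d) ≤ Module.finrank ℂ T + c)
    (hI : ∀ f ∈ T, f ∈ I) : hf I d ≤ c := by
  have h1 := hf_add_ker I d
  have h2 : Module.finrank ℂ T ≤ Module.finrank ℂ (LinearMap.ker (resl I d)) := by
    let g : T →ₗ[ℂ] LinearMap.ker (resl I d) :=
      { toFun := fun t => ⟨⟨t, hT t.2⟩, by rw [mem_ker_resl]; exact hI t t.2⟩
        map_add' := fun a b => rfl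
        map_smul' := fun a b => rfl }
    apply LinearMap.finrank_le_finrank_of_injective (f := g)
    intro a b hab
    have := congrArg (fun x : LinearMap.ker (resl I d) => ((x : Sd N d) : S N)) hab
    exact Subtype.ext this
  omega

theorem mem_of_mul_X_pow {N : ℕ} {Q : Ideal (S N)} (hQ : Q.IsPrime) {i : Fin (N + 1)}
    (hi : (X i : S N) ∉ Q) {f : S N} {n : ℕ} (h : X i ^ n * f ∈ Q) : f ∈ Q := by
  rcases hQ.mem_or_mem h with h1 | h1
  · exact absurd (hQ.mem_of_pow_mem n h1) hi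
  · exact h1

theorem agree_down {N : ℕ} {P Q : Ideal (S N)} (hQ : Q.IsPrime) (hX : ∃ i, (X i : S N) ∉ Q)
    {j l : ℕ} (hj : j ≤ l) (ha : Agree P Q l) : Agree P Q j := by
  obtain ⟨i, hi⟩ := hX
  intro f hf hfP
  apply mem_of_mul_X_pow hQ hi (n := l - j)
  apply ha
  · rw [mem_homogeneousSubmodule] at hf ⊢
    have := (isHomogeneous_X_pow (R := ℂ) i (l - j)).mul hf
    rwa [Nat.sub_add_cancel hj] at this
  · exact P.mul_mem_left _ hfP

theorem hom_span_level {N : ℕ} (P : Ideal (S N)) (j : ℕ) :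
    Hom (Ideal.span {f | f ∈ P ∧ f ∈ Sd N j}) := by
  apply Ideal.homogeneous_span
  intro f hf
  exact ⟨j, hf.2⟩

/-- a homogeneous prime that is not minimal over a homogeneous ideal `J` contains properly a
homogeneous prime above `J` -/
theorem exists_smaller {N : ℕ} {J P : Ideal (S N)} (hJ : Hom J) (hP : HP P) (hJP : J ≤ P)
    (hmin : P ∉ J.minimalPrimes) : ∃ Q, HP Q ∧ J ≤ Q ∧ Q < P := by
  have := hP.prime
  obtain ⟨p, hp, hpP⟩ := Ideal.exists_minimalPrimes_le hJP
  have hpp : p.IsPrime := hp.1.1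
  refine ⟨(p.homogeneousCore (homogeneousSubmodule (Fin (N + 1)) ℂ)).toIdeal,
    ⟨hpp.homogeneousCore, (p.homogeneousCore _).isHomogeneous⟩, ?_, ?_⟩
  · have h1 := Ideal.homogeneousCore_mono (homogeneousSubmodule (Fin (N + 1)) ℂ) hp.1.2
    have h2 : (J.homogeneousCore (homogeneousSubmodule (Fin (N + 1)) ℂ)).toIdeal = J :=
      hJ.toIdeal_homogeneousCore_eq_self
    rw [← h2]
    exact h1
  · refine lt_of_le_of_lt (Ideal.toIdeal_homogeneousCore_le _ p) (lt_of_le_of_ne hpP ?_)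
    rintro rfl
    exact hmin hp

theorem minimal_hom {N : ℕ} {J p : Ideal (S N)} (hJ : Hom J) (hp : p ∈ J.minimalPrimes) : HP p := by
  have hpp : p.IsPrime := hp.1.1
  have h0 : (p.homogeneousCore (homogeneousSubmodule (Fin (N + 1)) ℂ)).toIdeal ≤ p :=
    Ideal.toIdeal_homogeneousCore_le _ p
  have h1 : J ≤ (p.homogeneousCore (homogeneousSubmodule (Fin (N + 1)) ℂ)).toIdeal := by
    have h1 := Ideal.homogeneousCore_mono (homogeneousSubmodule (Fin (N + 1)) ℂ) hp.1.2
    have h2 : (J.homogeneousCore (homogeneousSubmodule (Fin (N + 1)) ℂ)).toIdeal = J :=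
      hJ.toIdeal_homogeneousCore_eq_self
    rw [← h2]
    exact h1
  have h2 : p ≤ (p.homogeneousCore (homogeneousSubmodule (Fin (N + 1)) ℂ)).toIdeal :=
    hp.2 ⟨hpp.homogeneousCore, h1⟩ h0
  have h3 := le_antisymm h0 h2
  refine ⟨hpp, ?_⟩
  rw [← h3]
  exact (p.homogeneousCore _).isHomogeneous

end SepCI
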