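import Pool.Agent.SepCI.NN
import Pool.Agent.SepCI.Basic

set_option autoImplicit false

/-! # Colon ideals and the exact Hilbert function formula -/

namespace SepCI

open MvPolynomial

attribute [local instance] MvPolynomial.gradedAlgebra

/-- the ideal quotient `(J : g)` -/
def cln {N : ℕ} (J : Ideal (S N)) (g : S N) : Ideal (S N) where
  carrier := {x | g * x ∈ J}
  add_mem' := by
    intro a b ha hb
    change g * (a + b) ∈ J
    rw [mul_add]
    exact J.add_mem ha hb
  zero_mem' := by
    change g * 0 ∈ J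
    rw [mul_zero]
    exact J.zero_mem
  smul_mem' := by
    intro c x hx
    change g * (c * x) ∈ J
    rw [mul_left_comm]
    exact J.mul_mem_left _ hx

theorem mem_cln {N : ℕ} {J : Ideal (S N)} {g x : S N} : x ∈ cln J g ↔ g * x ∈ J := Iff.rfl

theorem le_cln {N : ℕ} (J : Ideal (S N)) (g : S N) : J ≤ cln J g :=
  fun _ hx => J.mul_mem_left _ hx

/-- homogeneous component of a product with a form -/
theorem comp_mul {N d : ℕ} {g : S N} (hg : g ∈ Sd N d) (x : S N) (l : ℕ) :
    homogeneousComponent (l + d) (g * x) = g * homogeneousComponent l x := by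
  have hx := sum_homogeneousComponent x
  conv_lhs => rw [← hx, Finset.mul_sum, map_sum]
  have hmem : ∀ i, g * homogeneousComponent i x ∈ Sd N (d + i) := by
    intro i
    rw [mem_homogeneousSubmodule]
    exact ((mem_homogeneousSubmodule _ _).mp hg).mul (homogeneousComponent_isHomogeneous i x)
  have hc : ∀ i, homogeneousComponent (l + d) (g * homogeneousComponent i x)
      = if i = l then g * homogeneousComponent l x else 0 := by
    intro i
    rw [homogeneousComponent_of_mem (hmem i)]
    by_cases h : i = l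
    · subst h; rw [if_pos (by omega), if_pos rfl]
    · rw [if_neg (by omega), if_neg h]
  simp only [hc]
  rw [Finset.sum_ite_eq']
  split_ifs with h
  · rfl
  · rw [Finset.mem_range, not_lt] at h
    rw [homogeneousComponent_eq_zero l x (by omega), mul_zero]

/-- homogeneous component of a product with a form, low degrees -/
theorem comp_mul_low {N d : ℕ} {g : S N} (hg : g ∈ Sd N d) (x : S N) {l : ℕ} (hl : l < d) :
    homogeneousComponent l (g * x) = 0 := by
  have hx := sum_homogeneousComponent x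
  rw [← hx, Finset.mul_sum, map_sum]
  apply Finset.sum_eq_zero
  intro i _
  have hmem : g * homogeneousComponent i x ∈ Sd N (d + i) := by
    rw [mem_homogeneousSubmodule]
    exact ((mem_homogeneousSubmodule _ _).mp hg).mul (homogeneousComponent_isHomogeneous i x)
  rw [homogeneousComponent_of_mem hmem, if_neg (by omega)]

theorem hom_of_comp {N : ℕ} {J : Ideal (S N)}
    (h : ∀ x ∈ J, ∀ l, homogeneousComponent l x ∈ J) : Hom J := by
  intro i x hx
  have h1 := h x hx i
  rw [← decomposition.decompose'_apply] at h1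
  exact h1

theorem hom_cln {N d : ℕ} {J : Ideal (S N)} (hJ : Hom J) {g : S N} (hg : g ∈ Sd N d) :
    Hom (cln J g) := by
  apply hom_of_comp
  intro x hx l
  rw [mem_cln, ← comp_mul hg]
  exact homogeneousComponent_mem_of_mem hJ hx (l + d)

theorem hom_sup_span {N d : ℕ} {J : Ideal (S N)} (hJ : Hom J) {g : S N} (hg : g ∈ Sd N d) :
    Hom (J ⊔ Ideal.span {g}) := by
  apply Ideal.IsHomogeneous.sup hJ
  apply Ideal.homogeneous_span
  rintro x hx
  rw [Set.mem_singleton_iff] at hx
  rw [hx]
  exact ⟨d, hg⟩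

/-- forms in `J + (g)` -/
theorem mem_sup_span_form {N d : ℕ} {J : Ideal (S N)} (hJ : Hom J) {g : S N} (hg : g ∈ Sd N d)
    {l : ℕ} {f : S N} (hf : f ∈ Sd N (l + d)) (h : f ∈ J ⊔ Ideal.span {g}) :
    ∃ x ∈ Sd N l, f - g * x ∈ J := by
  obtain ⟨u, hu, v, hv, huv⟩ := Submodule.mem_sup.1 h
  obtain ⟨x, hx⟩ := Ideal.mem_span_singleton'.1 hv
  refine ⟨homogeneousComponent l x, homogeneousComponent_mem l x, ?_⟩
  have h1 : homogeneousComponent (l + d) f = f := by
    rw [homogeneousComponent_of_mem hf, if_pos rfl]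
  have h2 : f - g * homogeneousComponent l x = homogeneousComponent (l + d) u := by
    have h4 : homogeneousComponent (l + d) f = homogeneousComponent (l + d) u +
        homogeneousComponent (l + d) (g * x) := by
      rw [← huv, ← hx, map_add, mul_comm x g]
    rw [h1, comp_mul hg] at h4
    linear_combination h4
  rw [h2]
  exact homogeneousComponent_mem_of_mem hJ hu (l + d)

theorem mem_sup_span_low {N d : ℕ} {J : Ideal (S N)} (hJ : Hom J) {g : S N} (hg : g ∈ Sd N d)
    {l : ℕ} (hl : l < d) {f : S N} (hf : f ∈ Sd N l) (h : f ∈ J ⊔ Ideal.span {g}) : f ∈ J := by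
  obtain ⟨u, hu, v, hv, huv⟩ := Submodule.mem_sup.1 h
  obtain ⟨x, hx⟩ := Ideal.mem_span_singleton'.1 hv
  have h1 : homogeneousComponent l f = f := by
    rw [homogeneousComponent_of_mem hf, if_pos rfl]
  rw [← h1, ← huv, ← hx, map_add, mul_comm x g, comp_mul_low hg x hl, add_zero]
  exact homogeneousComponent_mem_of_mem hJ hu l

/-- the exact formula -/
theorem hf_colon {N d : ℕ} {J : Ideal (S N)} (hJ : Hom J) {g : S N} (hg : g ∈ Sd N d) (l : ℕ) :
    hf (J ⊔ Ideal.span {g}) (l + d) + hf (cln J g) l = hf J (l + d) := by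
  have h1 := hf_add_ker (cln J g) l
  -- multiplication by `g`
  let ψ : Sd N l →ₗ[ℂ] S N ⧸ J :=
    (Ideal.Quotient.mkₐ ℂ J).toLinearMap.comp
      ((LinearMap.mulLeft ℂ g).comp (Sd N l).subtype)
  have hψ : ∀ x : Sd N l, ψ x = Ideal.Quotient.mk J (g * x) := fun x => rfl
  have hker : LinearMap.ker ψ = LinearMap.ker (resl (cln J g) l) := by
    ext x
    rw [LinearMap.mem_ker, mem_ker_resl, hψ, Ideal.Quotient.eq_zero_iff_mem, mem_cln]
  have h2 := LinearMap.finrank_range_add_finrank_ker ψ
  rw [hker] at h2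
  -- projection
  let W := LinearMap.range (resl J (l + d))
  let π : (S N ⧸ J) →ₗ[ℂ] (S N ⧸ (J ⊔ Ideal.span {g})) :=
    (Ideal.Quotient.factorₐ ℂ (le_sup_left : J ≤ J ⊔ Ideal.span {g})).toLinearMap
  have hπ : ∀ f : S N, π (Ideal.Quotient.mk J f) = Ideal.Quotient.mk _ f := fun f => rfl
  have h3 := LinearMap.finrank_range_add_finrank_ker (π.comp W.subtype)
  have hrange : LinearMap.range (π.comp W.subtype) =
      LinearMap.range (resl (J ⊔ Ideal.span {g}) (l + d)) := by
    ext z
    constructor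
    · rintro ⟨⟨w, f, hf⟩, rfl⟩
      refine ⟨f, ?_⟩
      change Ideal.Quotient.mk _ (f : S N) = π w
      rw [← hf]
      rfl
    · rintro ⟨f, rfl⟩
      exact ⟨⟨resl J (l + d) f, f, rfl⟩, rfl⟩
  have hrange2 : (LinearMap.ker (π.comp W.subtype)).map W.subtype = LinearMap.range ψ := by
    ext z
    constructor
    · rintro ⟨⟨w, f, hf⟩, hw, rfl⟩
      have hw' : π w = 0 := hw
      rw [← hf] at hw'
      change Ideal.Quotient.mk _ (f : S N) = 0 at hw'
      rw [Ideal.Quotient.eq_zero_iff_mem] at hw'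
      obtain ⟨x, hx, hfx⟩ := mem_sup_span_form hJ hg f.2 hw'
      refine ⟨⟨x, hx⟩, ?_⟩
      rw [hψ]
      change Ideal.Quotient.mk J (g * x) = w
      rw [← hf]
      change Ideal.Quotient.mk J (g * x) = Ideal.Quotient.mk J (f : S N)
      rw [eq_comm, Ideal.Quotient.eq]
      exact hfx
    · rintro ⟨x, rfl⟩
      have hgx : g * (x : S N) ∈ Sd N (l + d) := by
        rw [mem_homogeneousSubmodule, add_comm l d]
        exact ((mem_homogeneousSubmodule _ _).mp hg).mul ((mem_homogeneousSubmodule _ _).mp x.2)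
      refine ⟨⟨ψ x, ⟨g * x, hgx⟩, rfl⟩, ?_, rfl⟩
      change π (Ideal.Quotient.mk J (g * x)) = 0
      rw [hπ, Ideal.Quotient.eq_zero_iff_mem]
      exact Ideal.mem_sup_right (Ideal.mul_mem_right _ _ (Ideal.mem_span_singleton_self g))
  have h4 : Module.finrank ℂ (LinearMap.ker (π.comp W.subtype)) =
      Module.finrank ℂ (LinearMap.range ψ) := by
    rw [← hrange2]
    exact (LinearEquiv.finrank_eq (Submodule.equivMapOfInjective W.subtype
      W.injective_subtype _))
  have h5 : hf J (l + d) = Module.finrank ℂ W := by rw [hf, ← range_resl]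
  have h6 : hf (J ⊔ Ideal.span {g}) (l + d) =
      Module.finrank ℂ (LinearMap.range (π.comp W.subtype)) := by rw [hrange, hf, ← range_resl]
  omega

theorem hf_sup_low {N d : ℕ} {J : Ideal (S N)} (hJ : Hom J) {g : S N} (hg : g ∈ Sd N d)
    {l : ℕ} (hl : l < d) : hf (J ⊔ Ideal.span {g}) l = hf J l := by
  apply hf_eq_of_agree le_sup_left
  intro f hf hfm
  exact mem_sup_span_low hJ hg hl hf hfm

/-- equality of Hilbert functions -/
theorem agree_of_hf_eq {N : ℕ} {J J' : Ideal (S N)} (h : J ≤ J') {l : ℕ}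
    (he : hf J l = hf J' l) : Agree J' J l := by
  have h1 := hf_add_ker J l
  have h2 := hf_add_ker J' l
  have h3 : LinearMap.ker (resl J l) ≤ LinearMap.ker (resl J' l) := by
    intro f hf
    rw [mem_ker_resl] at hf ⊢
    exact h hf
  have h4 : LinearMap.ker (resl J l) = LinearMap.ker (resl J' l) :=
    Submodule.eq_of_le_of_finrank_eq h3 (by omega)
  intro f hf hfJ
  have : (⟨f, hf⟩ : Sd N l) ∈ LinearMap.ker (resl J' l) := by
    rw [mem_ker_resl]; exact hfJ
  rw [← h4, mem_ker_resl] at this
  exact this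

theorem le_of_agree {N : ℕ} {J J' : Ideal (S N)} (hJ' : Hom J') (h : ∀ l, Agree J' J l) :
    J' ≤ J := by
  intro f hf
  rw [← sum_homogeneousComponent f]
  apply Ideal.sum_mem
  intro i _
  exact h i _ (homogeneousComponent_mem i f) (homogeneousComponent_mem_of_mem hJ' hf i)

theorem eq_of_hf_eq {N : ℕ} {J J' : Ideal (S N)} (hJ' : Hom J') (h : J ≤ J')
    (he : ∀ l, hf J l = hf J' l) : J = J' :=
  le_antisymm h (le_of_agree hJ' fun l => agree_of_hf_eq h (he l))

end SepCI
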