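import Mathlib

set_option autoImplicit false

namespace SepCI

/-! # Numerical lemmas for the step theorem -/

theorem choose_le_pow' (x a : ℕ) : (x + a).choose a ≤ (x + 1) ^ a := by
  induction a with
  | zero => simp
  | succ a ih =>
    have h1 : (x + (a + 1)).choose (a + 1) * (a + 1) = (x + a).choose a * (x + a + 1) := by
      have := Nat.add_one_mul_choose_eq (x + a) a
      rw [← add_assoc]
      linarith [this]
    have h2 : (x + (a + 1)).choose (a + 1) * (a + 1) ≤ ((x + 1) ^ (a + 1)) * (a + 1) := by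
      rw [h1, pow_succ]
      calc (x + a).choose a * (x + a + 1) ≤ (x + 1) ^ a * ((x + 1) * (a + 1)) :=
            Nat.mul_le_mul ih (by nlinarith)
        _ = (x + 1) ^ a * (x + 1) * (a + 1) := by ring
    exact Nat.le_of_mul_le_mul_right h2 (Nat.succ_pos a)

theorem pow_le_choose' (x a : ℕ) : (x + 1) ^ a ≤ a.factorial * (x + a).choose a := by
  induction a with
  | zero => simp
  | succ a ih =>
    have h1 : (x + (a + 1)).choose (a + 1) * (a + 1) = (x + a).choose a * (x + a + 1) := by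
      have := Nat.add_one_mul_choose_eq (x + a) a
      rw [← add_assoc]
      linarith [this]
    calc (x + 1) ^ (a + 1) = (x + 1) ^ a * (x + 1) := pow_succ _ _
      _ ≤ (a.factorial * (x + a).choose a) * (x + a + 1) := Nat.mul_le_mul ih (by omega)
      _ = a.factorial * ((x + a).choose a * (x + a + 1)) := by ring
      _ = a.factorial * ((x + (a + 1)).choose (a + 1) * (a + 1)) := by rw [h1]
      _ = (a + 1).factorial * (x + (a + 1)).choose (a + 1) := by
          rw [Nat.factorial_succ]; ring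

/-- the constants -/
def cU (N D : ℕ) : ℕ := D * (D + 2) ^ N
def cB (N D : ℕ) : ℕ := (2 * (N + 2)) ^ N * N.factorial * cU N D
def cL (N D : ℕ) : ℕ := cB N D * 2 ^ (N + 1) * (N + 2).factorial
def c0 (N D : ℕ) : ℕ := (N + 1) * (cL N D + 1) ^ N
def cl (N D : ℕ) : ℕ := cB N D * c0 N D
def c1 (N D : ℕ) : ℕ := c0 N D + (N + 1) * (cl N D + 2 * (cB N D * cB N D) + 1) ^ N
def cPhi (N D : ℕ) : ℕ :=
  (N + 2) ^ (N + 1) * (N + 1).factorial * cU N D + (N + 2) * (2 * cB N D + N + 1) + cl N D +
    cB N D + c1 N D + 1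

/-- polynomially bounded functions -/
def PolyB (f : ℕ → ℕ) : Prop := ∃ C A : ℕ, ∀ D, 1 ≤ D → f D ≤ C * D ^ A

theorem PolyB.const (c : ℕ) : PolyB fun _ => c := ⟨c, 0, fun D _ => by simp⟩

theorem PolyB.id : PolyB fun D => D := ⟨1, 1, fun D _ => by simp⟩

theorem PolyB.add {f g : ℕ → ℕ} (hf : PolyB f) (hg : PolyB g) : PolyB fun D => f D + g D := by
  obtain ⟨C, A, h⟩ := hf
  obtain ⟨C', A', h'⟩ := hg
  refine ⟨C + C', A + A', fun D hD => ?_⟩
  have e1 : D ^ A ≤ D ^ (A + A') := Nat.pow_le_pow_right hD (by omega)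
  have e2 : D ^ A' ≤ D ^ (A + A') := Nat.pow_le_pow_right hD (by omega)
  calc f D + g D ≤ C * D ^ A + C' * D ^ A' := Nat.add_le_add (h D hD) (h' D hD)
    _ ≤ C * D ^ (A + A') + C' * D ^ (A + A') :=
        Nat.add_le_add (Nat.mul_le_mul le_rfl e1) (Nat.mul_le_mul le_rfl e2)
    _ = (C + C') * D ^ (A + A') := by ring

theorem PolyB.mul {f g : ℕ → ℕ} (hf : PolyB f) (hg : PolyB g) : PolyB fun D => f D * g D := by
  obtain ⟨C, A, h⟩ := hf
  obtain ⟨C', A', h'⟩ := hg
  refine ⟨C * C', A + A', fun D hD => ?_⟩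
  calc f D * g D ≤ (C * D ^ A) * (C' * D ^ A') := Nat.mul_le_mul (h D hD) (h' D hD)
    _ = (C * C') * D ^ (A + A') := by rw [pow_add]; ring

theorem PolyB.pow {f : ℕ → ℕ} (hf : PolyB f) (n : ℕ) : PolyB fun D => f D ^ n := by
  induction n with
  | zero => simpa using PolyB.const 1
  | succ n ih => simpa [pow_succ] using ih.mul hf

theorem polyB_cU (N : ℕ) : PolyB (cU N) :=
  PolyB.id.mul ((PolyB.id.add (PolyB.const 2)).pow N)

theorem polyB_cB (N : ℕ) : PolyB (cB N) :=
  (PolyB.const ((2 * (N + 2)) ^ N * N.factorial)).mul (polyB_cU N)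

theorem polyB_cL (N : ℕ) : PolyB (cL N) :=
  ((polyB_cB N).mul (PolyB.const (2 ^ (N + 1)))).mul (PolyB.const (N + 2).factorial)

theorem polyB_c0 (N : ℕ) : PolyB (c0 N) :=
  (PolyB.const (N + 1)).mul (((polyB_cL N).add (PolyB.const 1)).pow N)

theorem polyB_cl (N : ℕ) : PolyB (cl N) := (polyB_cB N).mul (polyB_c0 N)

theorem polyB_c1 (N : ℕ) : PolyB (c1 N) :=
  (polyB_c0 N).add ((PolyB.const (N + 1)).mul
    ((((polyB_cl N).add ((PolyB.const 2).mul ((polyB_cB N).mul (polyB_cB N)))).add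
      (PolyB.const 1)).pow N))

theorem polyB_cPhi (N : ℕ) : PolyB (cPhi N) := by
  have h2 : PolyB fun D => (N + 2) * (2 * cB N D + N + 1) :=
    (PolyB.const (N + 2)).mul ((((PolyB.const 2).mul (polyB_cB N)).add (PolyB.const N)).add
      (PolyB.const 1))
  exact (((((PolyB.const ((N + 2) ^ (N + 1) * (N + 1).factorial)).mul (polyB_cU N)).add h2).add
    (polyB_cl N)).add (polyB_cB N)).add (polyB_c1 N) |>.add (PolyB.const 1)

/-- upper bound for a sum of binomials -/
theorem sum_choose_le (s l a : ℕ) :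
    ∑ i ∈ Finset.range s, (l + i + a).choose a ≤ s * (l + s + 1) ^ a := by
  calc ∑ i ∈ Finset.range s, (l + i + a).choose a
      ≤ ∑ i ∈ Finset.range s, (l + s + 1) ^ a := by
        apply Finset.sum_le_sum
        intro i hi
        have := Finset.mem_range.1 hi
        exact (choose_le_pow' (l + i) a).trans (Nat.pow_le_pow_left (by omega) a)
    _ = s * (l + s + 1) ^ a := by simp

/-- upper bound for the Hilbert function of a subvariety of degree at most `D d` -/
theorem upper_U {N D d m e : ℕ} (hm : 2 ≤ m) (hmN : m ≤ N) (hd : 1 ≤ d)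
    (he : e ≤ D * d) : ∑ i ∈ Finset.range e, (d + i + m - 1).choose (m - 1) ≤ cU N D * d ^ m := by
  obtain ⟨a, rfl⟩ : ∃ a, m = a + 1 := ⟨m - 1, by omega⟩
  have h1 : ∀ i, d + i + (a + 1) - 1 = d + i + a := fun i => by omega
  simp only [h1, Nat.add_sub_cancel]
  refine (sum_choose_le e d a).trans ?_
  have h2 : d + e + 1 ≤ (D + 2) * d := by nlinarith
  calc e * (d + e + 1) ^ a ≤ (D * d) * ((D + 2) * d) ^ a :=
        Nat.mul_le_mul he (Nat.pow_le_pow_left h2 a)
    _ = D * (D + 2) ^ a * d ^ (a + 1) := by rw [mul_pow, pow_succ]; ring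
    _ ≤ D * (D + 2) ^ N * d ^ (a + 1) := by
        apply Nat.mul_le_mul_right
        apply Nat.mul_le_mul_left
        exact Nat.pow_le_pow_right (by omega) (by omega)

theorem numB {N D d l m : ℕ} (hm : 2 ≤ m) (hmN : m ≤ N) (hl : d < (N + 2) * (l + 1))
    (hd : (N + 2) ^ (N + 1) * (N + 1).factorial * cU N D ≤ d)
    (h : (l + (m + 1)).choose (m + 1) ≤ cU N D * d ^ m) : False := by
  have h1 := pow_le_choose' l (m + 1)
  have h2 : (l + 1) ^ (m + 1) ≤ (m + 1).factorial * (cU N D * d ^ m) :=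
    h1.trans (Nat.mul_le_mul_left _ h)
  have h3 : d ^ (m + 1) < ((N + 2) * (l + 1)) ^ (m + 1) := Nat.pow_lt_pow_left hl (by omega)
  rw [mul_pow] at h3
  have h4 : d ^ (m + 1) < (N + 2) ^ (N + 1) * ((N + 1).factorial * (cU N D * d ^ m)) := by
    refine h3.trans_le (Nat.mul_le_mul (Nat.pow_le_pow_right (by omega) (by omega)) (h2.trans ?_))
    exact Nat.mul_le_mul_right _ (Nat.factorial_le (by omega))
  have h5 : (N + 2) ^ (N + 1) * ((N + 1).factorial * (cU N D * d ^ m)) ≤ d * d ^ m := by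
    calc _ = ((N + 2) ^ (N + 1) * (N + 1).factorial * cU N D) * d ^ m := by ring
      _ ≤ d * d ^ m := Nat.mul_le_mul_right _ hd
  have h6 : d * d ^ m = d ^ (m + 1) := by rw [pow_succ]; ring
  omega

theorem numC {N D d l m s : ℕ} (hm : 2 ≤ m) (hmN : m ≤ N) (hd : 1 ≤ d)
    (hl : d < (N + 2) * (l + 1)) (hBl : 2 * cB N D ≤ l)
    (h : ∑ i ∈ Finset.range s, (if i ≤ l then (l - i + (m + 1) - 1).choose (m + 1 - 1) else 0) ≤
      cU N D * d ^ m) : s ≤ cB N D := by
  by_contra hs
  push Not at hs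
  have h1 : (cB N D + 1) * (l - cB N D + m).choose m ≤ cU N D * d ^ m := by
    refine le_trans ?_ h
    calc (cB N D + 1) * (l - cB N D + m).choose m
        = ∑ i ∈ Finset.range (cB N D + 1), (l - cB N D + m).choose m := by simp
      _ ≤ ∑ i ∈ Finset.range (cB N D + 1),
          (if i ≤ l then (l - i + (m + 1) - 1).choose (m + 1 - 1) else 0) := by
          apply Finset.sum_le_sum
          intro i hi
          have := Finset.mem_range.1 hi
          rw [if_pos (by omega)]
          exact Nat.choose_le_choose _ (by omega)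
      _ ≤ _ := by
          apply Finset.sum_le_sum_of_subset
          intro i hi
          simp only [Finset.mem_range] at hi ⊢
          omega
  have h2 := pow_le_choose' (l - cB N D) m
  have h3 : d ^ m ≤ (2 * (N + 2) * (l - cB N D + 1)) ^ m := by
    apply Nat.pow_le_pow_left
    have : l + 1 ≤ 2 * (l - cB N D + 1) := by omega
    nlinarith
  have h4 : (cB N D + 1) * d ^ m ≤ cB N D * d ^ m := by
    calc (cB N D + 1) * d ^ m ≤ (cB N D + 1) * (2 * (N + 2) * (l - cB N D + 1)) ^ m :=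
          Nat.mul_le_mul_left _ h3
      _ = (2 * (N + 2)) ^ m * ((cB N D + 1) * (l - cB N D + 1) ^ m) := by rw [mul_pow]; ring
      _ ≤ (2 * (N + 2)) ^ m * ((cB N D + 1) * (m.factorial * (l - cB N D + m).choose m)) := by
          apply Nat.mul_le_mul_left
          exact Nat.mul_le_mul_left _ h2
      _ = (2 * (N + 2)) ^ m * m.factorial * ((cB N D + 1) * (l - cB N D + m).choose m) := by ring
      _ ≤ (2 * (N + 2)) ^ N * N.factorial * (cU N D * d ^ m) := by
          apply Nat.mul_le_mul _ h1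
          exact Nat.mul_le_mul (Nat.pow_le_pow_right (by omega) hmN) (Nat.factorial_le hmN)
      _ = cB N D * d ^ m := by unfold cB; ring
  have h5 : 0 < d ^ m := by positivity
  have := Nat.le_of_mul_le_mul_right h4 h5
  omega

theorem numD {N D m s : ℕ} (hmN : m ≤ N) (hs : s ≤ cB N D)
    (h : (cL N D + (m + 1)).choose (m + 1) ≤
      ∑ i ∈ Finset.range s, (cL N D + i + (m + 1) - 1).choose (m + 1 - 1)) : False := by
  have e1 : ∀ i, cL N D + i + (m + 1) - 1 = cL N D + i + m := fun i => by omega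
  simp only [e1, Nat.add_sub_cancel] at h
  have h1 := h.trans (sum_choose_le s (cL N D) m)
  have hBL : cB N D ≤ cL N D := by
    unfold cL
    calc cB N D = cB N D * 1 * 1 := by ring
      _ ≤ cB N D * 2 ^ (N + 1) * (N + 2).factorial :=
        Nat.mul_le_mul (Nat.mul_le_mul_left _ (Nat.one_le_two_pow)) (Nat.factorial_pos _)
  have h2 := pow_le_choose' (cL N D) (m + 1)
  have h3 : (cL N D + 1) ^ (m + 1) ≤
      (m + 1).factorial * (cB N D * (2 * (cL N D + 1)) ^ m) := by
    refine h2.trans (Nat.mul_le_mul_left _ (h1.trans ?_))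
    exact Nat.mul_le_mul hs (Nat.pow_le_pow_left (by omega) m)
  have h4 : (cL N D + 1) * (cL N D + 1) ^ m ≤ cL N D * (cL N D + 1) ^ m := by
    calc (cL N D + 1) * (cL N D + 1) ^ m = (cL N D + 1) ^ (m + 1) := by rw [pow_succ]; ring
      _ ≤ (m + 1).factorial * (cB N D * (2 * (cL N D + 1)) ^ m) := h3
      _ = (cB N D * 2 ^ m * (m + 1).factorial) * (cL N D + 1) ^ m := by rw [mul_pow]; ring
      _ ≤ cL N D * (cL N D + 1) ^ m := by
          apply Nat.mul_le_mul_right
          unfold cL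
          exact Nat.mul_le_mul (Nat.mul_le_mul_left _ (Nat.pow_le_pow_right (by omega) (by omega)))
            (Nat.factorial_le (by omega))
  have := Nat.le_of_mul_le_mul_right h4 (by positivity)
  omega

theorem cB_pos {N D : ℕ} (hD : 1 ≤ D) : 1 ≤ cB N D := by
  unfold cB cU
  have h1 : 0 < N.factorial := Nat.factorial_pos N
  have h2 : 0 < (2 * (N + 2)) ^ N := by positivity
  have h3 : 0 < D * (D + 2) ^ N := by positivity
  exact Nat.mul_pos (Nat.mul_pos h2 h1) h3

end SepCI
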