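import Pool.Agent.SepCI.Pack
import Pool.Agent.SepCI.Colon
import Pool.Agent.SepCI.Numeric

set_option autoImplicit false

/-! # Growth of the Hilbert function of a homogeneous ideal -/

namespace SepCI

open MvPolynomial

attribute [local instance] MvPolynomial.gradedAlgebra

theorem cln_prime {N : ℕ} {Q : Ideal (S N)} (hQ : Q.IsPrime) {F : S N} (hF : F ∉ Q) :
    cln Q F = Q := by
  apply le_antisymm
  · intro x hx
    rw [mem_cln] at hx
    exact (hQ.mem_or_mem hx).resolve_left hF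
  · exact le_cln Q F

theorem hf_principal {N : ℕ} {Q : Ideal (S N)} (hQ : HP Q) {d : ℕ} {F : S N} (hF : F ∈ Sd N d)
    (hFQ : F ∉ Q) (l : ℕ) : hf (Q ⊔ Ideal.span {F}) (l + d) + hf Q l = hf Q (l + d) := by
  have h1 := hf_colon hQ.hom hF l
  rwa [cln_prime hQ.prime hFQ] at h1

theorem hf_top {N : ℕ} (l : ℕ) : hf (⊤ : Ideal (S N)) l = 0 := by
  rw [hf]
  have : Subsingleton (S N ⧸ (⊤ : Ideal (S N))) := Ideal.Quotient.subsingleton_iff.2 rfl
  exact Module.finrank_zero_of_subsingleton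

theorem hf_le_one_of_X {N : ℕ} {J : Ideal (S N)} (h : ∀ j, (X j : S N) ∈ J) (l : ℕ) :
    hf J l ≤ 1 := by
  have hsurj : Function.Surjective (Algebra.linearMap ℂ (S N ⧸ J)) := by
    intro z
    obtain ⟨f, rfl⟩ := Ideal.Quotient.mk_surjective z
    refine ⟨constantCoeff f, ?_⟩
    have h1 : (algebraMap ℂ (S N ⧸ J)).comp (constantCoeff : S N →+* ℂ) = Ideal.Quotient.mk J := by
      apply MvPolynomial.ringHom_ext
      · intro a
        rw [RingHom.comp_apply, constantCoeff_C]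
        rfl
      · intro j
        rw [RingHom.comp_apply, constantCoeff_X, map_zero, eq_comm, Ideal.Quotient.eq_zero_iff_mem]
        exact h j
    exact congrArg (fun g : S N →+* S N ⧸ J => g f) h1
  have hfin : Module.Finite ℂ (S N ⧸ J) := Module.Finite.of_surjective _ hsurj
  have h2 : Module.finrank ℂ (S N ⧸ J) ≤ Module.finrank ℂ ℂ :=
    LinearMap.finrank_le_finrank_of_surjective hsurj
  rw [Module.finrank_self] at h2
  exact le_trans (Submodule.finrank_le _) h2

theorem growth_prime {N : ℕ} {J : Ideal (S N)} (hJ : HP J) (m : ℕ) (hm : 2 ≤ m)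
    (h : md J ≤ m - 1) : ∃ C : ℕ, ∀ l, hf J l ≤ C * (l + 1) ^ (m - 2) := by
  rcases Nat.eq_zero_or_pos (md J) with h0 | h0
  · refine ⟨1, fun l => ?_⟩
    rw [one_mul]
    exact le_trans (hf_le_one_of_X ((md_eq_zero hJ).1 h0) l) (Nat.one_le_pow _ _ (by omega))
  · obtain ⟨e, he, hb⟩ := exists_Bd hJ h0
    refine ⟨e * (e + 1) ^ (m - 2), fun l => ?_⟩
    have h1 : ∀ i ∈ Finset.range e, (l + i + md J - 1).choose (md J - 1) ≤
        ((e + 1) * (l + 1)) ^ (m - 2) := by
      intro i hi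
      rw [Finset.mem_range] at hi
      have h2 := choose_le_pow' (l + i) (md J - 1)
      have h3 : l + i + md J - 1 = l + i + (md J - 1) := by omega
      rw [h3]
      refine le_trans h2 ?_
      have h4 : l + i + 1 ≤ (e + 1) * (l + 1) := by nlinarith
      calc (l + i + 1) ^ (md J - 1) ≤ ((e + 1) * (l + 1)) ^ (md J - 1) :=
            Nat.pow_le_pow_left h4 _
        _ ≤ ((e + 1) * (l + 1)) ^ (m - 2) := Nat.pow_le_pow_right (by positivity) (by omega)
    calc hf J l ≤ ∑ i ∈ Finset.range e, (l + i + md J - 1).choose (md J - 1) := (hb l).2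
      _ ≤ ∑ _i ∈ Finset.range e, ((e + 1) * (l + 1)) ^ (m - 2) := Finset.sum_le_sum h1
      _ = e * (e + 1) ^ (m - 2) * (l + 1) ^ (m - 2) := by
        rw [Finset.sum_const, Finset.card_range, smul_eq_mul, mul_pow, mul_assoc]

theorem growth {N : ℕ} {J : Ideal (S N)} (hJ : Hom J) (m : ℕ) (hm : 2 ≤ m)
    (h : ∀ q, HP q → J ≤ q → md q ≤ m - 1) :
    ∃ C : ℕ, ∀ l, hf J l ≤ C * (l + 1) ^ (m - 2) := by
  induction J using WellFoundedGT.induction with
  | ind J ih =>
  by_cases htop : J = ⊤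
  · refine ⟨0, fun l => ?_⟩
    rw [htop, hf_top]
    exact Nat.zero_le _
  by_cases hprime : J.IsPrime
  · exact growth_prime ⟨hprime, hJ⟩ m hm (h J ⟨hprime, hJ⟩ le_rfl)
  -- two forms outside `J` with product in `J`
  obtain ⟨f, g, a, b, hf, hg, hfg, hfJ, hgJ⟩ : ∃ (f g : S N) (a b : ℕ), f ∈ Sd N a ∧ g ∈ Sd N b ∧
      f * g ∈ J ∧ f ∉ J ∧ g ∉ J := by
    by_contra hcon
    push Not at hcon
    apply hprime
    apply hJ.isPrime_of_homogeneous_mem_or_mem htop
    rintro x y ⟨a, hx⟩ ⟨b, hy⟩ hxy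
    by_contra hnot
    push Not at hnot
    exact hnot.2 (hcon x y a b hx hy hxy hnot.1)
  have h1 : J < J ⊔ Ideal.span {f} := by
    refine lt_of_le_of_ne le_sup_left ?_
    intro he
    apply hfJ
    rw [he]
    exact Ideal.mem_sup_right (Ideal.mem_span_singleton_self f)
  have h2 : J < cln J f := by
    refine lt_of_le_of_ne (le_cln J f) ?_
    intro he
    apply hgJ
    rw [he]
    exact hfg
  obtain ⟨C1, hC1⟩ := ih _ h1 (hom_sup_span hJ hf) (fun q hq hle => h q hq (le_trans h1.le hle))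
  obtain ⟨C2, hC2⟩ := ih _ h2 (hom_cln hJ hf) (fun q hq hle => h q hq (le_trans h2.le hle))
  refine ⟨C1 + C2, fun l => ?_⟩
  rcases lt_or_ge l a with hl | hl
  · rw [← hf_sup_low hJ hf hl]
    refine le_trans (hC1 l) ?_
    exact Nat.mul_le_mul_right _ (by omega)
  · obtain ⟨k, rfl⟩ : ∃ k, l = k + a := ⟨l - a, by omega⟩
    rw [← hf_colon hJ hf k, add_mul]
    apply Nat.add_le_add (hC1 (k + a))
    refine le_trans (hC2 k) ?_
    apply Nat.mul_le_mul_left
    exact Nat.pow_le_pow_left (by omega) _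

end SepCI
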