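import Pool.Agent.SepCI.Dim

/-!
# M1: flags of rational linear forms
-/

set_option autoImplicit false

namespace SepCI

open MvPolynomial

attribute [local instance] MvPolynomial.gradedAlgebra

/-- finitely many proper subspaces do not cover -/
theorem avoid {N : ℕ} (U : Finset (Submodule ℚ (Fin (N + 1) → ℚ))) (hU : ∀ u ∈ U, u ≠ ⊤) :
    ∃ c, ∀ u ∈ U, c ∉ u := by
  have h := Subspace.biUnion_ne_univ_of_top_notMem (k := ℚ) (E := Fin (N + 1) → ℚ) (s := U)
    (fun h => hU ⊤ h rfl)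
  rw [Set.ne_univ_iff_exists_notMem] at h
  obtain ⟨c, hc⟩ := h
  refine ⟨c, fun u hu hcu => hc ?_⟩
  simp only [Set.mem_iUnion]
  exact ⟨u, hu, hcu⟩

theorem lin_add {N : ℕ} (c c' : Fin (N + 1) → ℚ) : lin (c + c') = lin c + lin c' := by
  simp only [lin, Pi.add_apply, Rat.cast_add, map_add, add_mul, Finset.sum_add_distrib]

theorem lin_smul {N : ℕ} (q : ℚ) (c : Fin (N + 1) → ℚ) : lin (q • c) = C (q : ℂ) * lin c := by
  simp only [lin, Pi.smul_apply, smul_eq_mul, Rat.cast_mul, map_mul, Finset.mul_sum, mul_assoc]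

theorem lin_zero {N : ℕ} : lin (0 : Fin (N + 1) → ℚ) = 0 := by
  simp [lin]

theorem lin_single {N : ℕ} (j : Fin (N + 1)) : lin (Pi.single j 1) = X j := by
  classical
  rw [lin, Finset.sum_eq_single j]
  · simp
  · intro i _ hij
    simp [Pi.single_eq_of_ne hij]
  · intro h
    exact absurd (Finset.mem_univ j) h

theorem lin_mem {N : ℕ} (c : Fin (N + 1) → ℚ) : lin c ∈ Sd N 1 := by
  unfold lin
  apply Submodule.sum_mem
  intro j _
  rw [mem_homogeneousSubmodule]
  have := (isHomogeneous_C (Fin (N + 1)) ((c j : ℚ) : ℂ)).mul (isHomogeneous_X ℂ j)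
  simpa using this

/-- rational linear forms in a given ideal -/
def linSub {N : ℕ} (p : Ideal (S N)) : Submodule ℚ (Fin (N + 1) → ℚ) where
  carrier := {c | lin c ∈ p}
  add_mem' := by
    intro a b ha hb
    change lin (a + b) ∈ p
    rw [lin_add]
    exact p.add_mem ha hb
  zero_mem' := by
    change lin (0 : Fin (N + 1) → ℚ) ∈ p
    rw [lin_zero]
    exact p.zero_mem
  smul_mem' := by
    intro q a ha
    change lin (q • a) ∈ p
    rw [lin_smul]
    exact p.mul_mem_left _ ha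

theorem mem_linSub {N : ℕ} (p : Ideal (S N)) (c : Fin (N + 1) → ℚ) :
    c ∈ linSub p ↔ lin c ∈ p := Iff.rfl

theorem linSub_ne_top {N : ℕ} {p : Ideal (S N)} (h : ¬ ∀ j, (X j : S N) ∈ p) :
    linSub p ≠ ⊤ := by
  intro ht
  apply h
  intro j
  rw [← lin_single j, ← mem_linSub, ht]
  trivial

/-- minimal primes of homogeneous ideals are homogeneous -/
theorem hp_of_minimal {N : ℕ} {I p : Ideal (S N)} (hI : Hom I) (hp : p ∈ I.minimalPrimes) :
    HP p := by
  have hpp : p.IsPrime := hp.1.1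
  refine ⟨hpp, ?_⟩
  have hcore := hpp.homogeneousCore (𝒜 := homogeneousSubmodule (Fin (N + 1)) ℂ)
  have hle : (p.homogeneousCore (homogeneousSubmodule (Fin (N + 1)) ℂ)).toIdeal ≤ p :=
    Ideal.toIdeal_homogeneousCore_le _ p
  have hI' : I ≤ (p.homogeneousCore (homogeneousSubmodule (Fin (N + 1)) ℂ)).toIdeal :=
    hI.toIdeal_homogeneousCore_eq_self.symm.trans_le (Ideal.homogeneousCore_mono _ hp.1.2)
  have hge : p ≤ (p.homogeneousCore (homogeneousSubmodule (Fin (N + 1)) ℂ)).toIdeal :=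
    hp.2 ⟨hcore, hI'⟩ hle
  have heq : p = (p.homogeneousCore (homogeneousSubmodule (Fin (N + 1)) ℂ)).toIdeal :=
    le_antisymm hge hle
  have := (p.homogeneousCore (homogeneousSubmodule (Fin (N + 1)) ℂ)).isHomogeneous
  rw [← heq] at this
  exact this

theorem hom_sup_lin {N : ℕ} {J : Ideal (S N)} (hJ : Hom J) {j : ℕ}
    (y : Fin j → Fin (N + 1) → ℚ) : Hom (J ⊔ Ideal.span (Set.range fun i => lin (y i))) := by
  apply Ideal.IsHomogeneous.sup hJ
  apply Ideal.homogeneous_span
  rintro _ ⟨i, rfl⟩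
  exact ⟨1, lin_mem (y i)⟩

theorem pnn_step {N : ℕ} {J : Ideal (S N)} (hJ : Hom J) (M : ℕ) {j : ℕ}
    (y : Fin j → Fin (N + 1) → ℚ) (h : PNN J M y) :
    ∃ U : Finset (Submodule ℚ (Fin (N + 1) → ℚ)), (∀ u ∈ U, u ≠ ⊤) ∧
      ∀ c, (∀ u ∈ U, c ∉ u) → PNN J M (Fin.snoc (α := fun _ => Fin (N + 1) → ℚ) y c) := by
  classical
  set I : Ideal (S N) := J ⊔ Ideal.span (Set.range fun i => lin (y i)) with hI
  have hIh : Hom I := hom_sup_lin hJ y
  have hfin : I.minimalPrimes.Finite := Ideal.finite_minimalPrimes_of_isNoetherianRing (S N) I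
  refine ⟨(hfin.toFinset.filter fun p => ¬ ∀ j, (X j : S N) ∈ p).image linSub, ?_, ?_⟩
  · intro u hu
    rw [Finset.mem_image] at hu
    obtain ⟨p, hp, rfl⟩ := hu
    rw [Finset.mem_filter] at hp
    exact linSub_ne_top hp.2
  · intro c hc q hq hJq hy
    have hyq : ∀ i, lin (y i) ∈ q := by
      intro i
      have := hy i.castSucc
      rwa [Fin.snoc_castSucc] at this
    have hcq : lin c ∈ q := by
      have := hy (Fin.last j)
      rwa [Fin.snoc_last] at this
    have hIq : I ≤ q := by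
      rw [hI]
      apply sup_le hJq
      rw [Ideal.span_le]
      rintro _ ⟨i, rfl⟩
      exact hyq i
    have := hq.prime
    obtain ⟨p, hp, hpq⟩ := Ideal.exists_minimalPrimes_le hIq
    have hpHP : HP p := hp_of_minimal hIh hp
    by_cases hX : ∀ j, (X j : S N) ∈ p
    · have h0 : md p = 0 := (md_eq_zero hpHP).mpr hX
      have := md_le hpHP hq hpq
      omega
    · have hcp : lin c ∉ p := by
        rw [← mem_linSub]
        apply hc
        rw [Finset.mem_image]
        refine ⟨p, ?_, rfl⟩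
        rw [Finset.mem_filter]
        exact ⟨hfin.mem_toFinset.mpr hp, hX⟩
      have hlt : p < q := lt_of_le_of_ne hpq (fun he => hcp (he ▸ hcq))
      have h1 := md_lt hpHP hq hlt
      have h2 : md p ≤ M - j := by
        apply h p hpHP
        · exact le_sup_left.trans hp.1.2
        · intro i
          apply hp.1.2
          rw [hI]
          exact Ideal.mem_sup_right (Ideal.subset_span ⟨i, rfl⟩)
      omega

theorem exists_flag {N : ℕ} {ι : Type} [Finite ι] (J : ι → Ideal (S N)) (M : ι → ℕ)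
    (hJ : ∀ i, Hom (J i)) (h : ∀ i q, HP q → J i ≤ q → md q ≤ M i) :
    ∃ y : ℕ → Fin (N + 1) → ℚ, ∀ i j, PNN (J i) (M i) (fun a : Fin j => y a) := by
  classical
  have := Fintype.ofFinite ι
  -- one step for all `i` simultaneously
  have hstep : ∀ (j : ℕ) (y : Fin j → Fin (N + 1) → ℚ), (∀ i, PNN (J i) (M i) y) →
      ∃ c : Fin (N + 1) → ℚ,
        ∀ i, PNN (J i) (M i) (Fin.snoc (α := fun _ => Fin (N + 1) → ℚ) y c) := by
    intro j y hy
    choose U hU1 hU2 using fun i => pnn_step (hJ i) (M i) y (hy i)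
    obtain ⟨c, hc⟩ := avoid (Finset.univ.biUnion U) (by
      intro u hu
      rw [Finset.mem_biUnion] at hu
      obtain ⟨i, -, hi⟩ := hu
      exact hU1 i u hi)
    refine ⟨c, fun i => hU2 i c fun u hu => hc u ?_⟩
    rw [Finset.mem_biUnion]
    exact ⟨i, Finset.mem_univ i, hu⟩
  choose! nxt hnxt using hstep
  let F : (j : ℕ) → {y : Fin j → Fin (N + 1) → ℚ // ∀ i, PNN (J i) (M i) y} := fun j =>
    Nat.rec (motive := fun j => {y : Fin j → Fin (N + 1) → ℚ // ∀ i, PNN (J i) (M i) y})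
      ⟨fun a => a.elim0, fun i q hq hJq _ => h i q hq hJq⟩
      (fun j y => ⟨Fin.snoc (α := fun _ => Fin (N + 1) → ℚ) y.1 (nxt j y.1), hnxt j y.1 y.2⟩) j
  have hF : ∀ j, (F (j + 1)).1
      = Fin.snoc (α := fun _ => Fin (N + 1) → ℚ) (F j).1 (nxt j (F j).1) := fun j => rfl
  refine ⟨fun a => nxt a (F a).1, fun i j => ?_⟩
  have key : ∀ j, (fun a : Fin j => nxt a (F a).1) = (F j).1 := by
    intro j
    induction j with
    | zero => funext a; exact a.elim0
    | succ j ih =>
      rw [hF]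
      funext a
      refine Fin.lastCases ?_ (fun b => ?_) a
      · rw [Fin.snoc_last]; rfl
      · rw [Fin.snoc_castSucc, ← ih]; rfl
  rw [key j]
  exact (F j).2 i

end SepCI
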