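import Pool.Agent.SepCI.Flag

/-!
# M2: Noether normalisation by rational linear forms
-/

set_option autoImplicit false

namespace SepCI

open MvPolynomial

attribute [local instance] MvPolynomial.gradedAlgebra

theorem deg_of_mem {N l : ℕ} {f : S N} (hf : f ∈ Sd N l) {x : Fin (N + 1) →₀ ℕ}
    (hx : x ∈ f.support) : x.degree = l := by
  have h1 : Finsupp.weight (1 : Fin (N + 1) → ℕ) x = l :=
    ((mem_homogeneousSubmodule _ _).mp hf) (mem_support_iff.mp hx)
  have h2 : Finsupp.weight (1 : Fin (N + 1) → ℕ) x = x.degree := by
    rw [Finsupp.degree_eq_weight_one]; rfl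
  rw [← h2, h1]

theorem constCoeff_lin {N : ℕ} (c : Fin (N + 1) → ℚ) : constantCoeff (lin c) = 0 := by
  simp [lin]

/-- all forms of large degree lie in `J + (y)` -/
theorem irrelevant_of_pnn {N : ℕ} {J : Ideal (S N)} (hJ : Hom J) {m : ℕ}
    (y : Fin m → Fin (N + 1) → ℚ) (h : PNN J m y) :
    ∃ M0, ∀ l, M0 ≤ l → ∀ f ∈ Sd N l, f ∈ J ⊔ Ideal.span (Set.range fun i => lin (y i)) := by
  set I : Ideal (S N) := J ⊔ Ideal.span (Set.range fun i => lin (y i)) with hI
  have hIh : Hom I := hom_sup_lin hJ y
  have hrad : idealOfVars (Fin (N + 1)) ℂ ≤ I.radical := by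
    rw [← Ideal.sInf_minimalPrimes, le_sInf_iff]
    intro p hp
    have hpHP : HP p := hp_of_minimal hIh hp
    have h0 : md p = 0 := by
      have := h p hpHP (le_sup_left.trans hp.1.2) (fun i => by
        apply hp.1.2
        rw [hI]
        exact Ideal.mem_sup_right (Ideal.subset_span ⟨i, rfl⟩))
      omega
    rw [Ideal.span_le]
    rintro _ ⟨j, rfl⟩
    exact (md_eq_zero hpHP).mp h0 j
  obtain ⟨M0, hM0⟩ := Ideal.exists_pow_le_of_le_radical_of_fg hrad (idealOfVars_fg _ _)
  refine ⟨M0, fun l hl f hf => hM0 ?_⟩
  rw [mem_pow_idealOfVars_iff]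
  intro x hx
  have := deg_of_mem hf hx
  omega

/-- the homogeneous component of a product with a linear form -/
theorem comp_lin_mul {N : ℕ} (c : Fin (N + 1) → ℚ) (g : S N) (l : ℕ) :
    homogeneousComponent (l + 1) (lin c * g) = lin c * homogeneousComponent l g := by
  have hg := sum_homogeneousComponent g
  conv_lhs => rw [← hg, Finset.mul_sum, map_sum]
  have hmem : ∀ i, lin c * homogeneousComponent i g ∈ Sd N (1 + i) := by
    intro i
    rw [mem_homogeneousSubmodule]
    exact ((mem_homogeneousSubmodule _ _).mp (lin_mem c)).mul (homogeneousComponent_isHomogeneous i g)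
  have hc : ∀ i, homogeneousComponent (l + 1) (lin c * homogeneousComponent i g)
      = if i = l then lin c * homogeneousComponent l g else 0 := by
    intro i
    rw [homogeneousComponent_of_mem (hmem i)]
    by_cases h : i = l
    · subst h; rw [if_pos (by omega), if_pos rfl]
    · rw [if_neg (by omega), if_neg h]
  simp only [hc]
  rw [Finset.sum_ite_eq']
  split_ifs with h
  · rfl
  · rw [Finset.mem_range, not_lt] at h
    rw [homogeneousComponent_eq_zero l g (by omega), mul_zero]

theorem isNN_of_pnn {N : ℕ} {P : Ideal (S N)} (hP : HP P) {m : ℕ} (hm : md P = m)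
    (y : Fin m → Fin (N + 1) → ℚ) (h : PNN P m y) : IsNN P y := by
  classical
  have hprime := hP.prime
  have hfaith := faithful_quot hP.prime
  obtain ⟨M0, hM0⟩ := irrelevant_of_pnn hP.hom y h
  -- finiteness
  have hfin : (phi P y).toRingHom.Finite := by
    let _ : Algebra (MvPolynomial (Fin m) ℂ) (S N ⧸ P) := (phi P y).toRingHom.toAlgebra
    change Module.Finite (MvPolynomial (Fin m) ℂ) (S N ⧸ P)
    -- monomials of degree `< M0`
    have hfs : {x : Fin (N + 1) →₀ ℕ | x.degree < M0}.Finite := by
      have : {x : Fin (N + 1) →₀ ℕ | x.degree < M0} ⊆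
          {x : Fin (N + 1) →₀ ℕ | x ≤ Finsupp.equivFunOnFinite.symm fun _ => M0} := by
        intro x hx j
        have h1 : x j ≤ x.degree := Finsupp.le_degree j x
        have h2 : x.degree < M0 := hx
        simp only [Finsupp.equivFunOnFinite_symm_apply_apply]
        omega
      exact (Set.finite_Iic _).subset this
    set B : Finset (S N ⧸ P) :=
      hfs.toFinset.image fun x => Ideal.Quotient.mk P (monomial x (1 : ℂ)) with hB
    set W : Submodule (MvPolynomial (Fin m) ℂ) (S N ⧸ P) :=
      Submodule.span (MvPolynomial (Fin m) ℂ) (B : Set (S N ⧸ P)) with hW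
    have hsm : ∀ (r : MvPolynomial (Fin m) ℂ) (a : S N ⧸ P), r • a = phi P y r * a :=
      fun r a => rfl
    have hC : ∀ (c : ℂ) (a : S N ⧸ P), a ∈ W → Ideal.Quotient.mk P (C c) * a ∈ W := by
      intro c a ha
      have : Ideal.Quotient.mk P (C c) * a = (C c : MvPolynomial (Fin m) ℂ) • a := by
        rw [hsm]
        congr 1
        rw [phi, aeval_C]
        rfl
      rw [this]
      exact W.smul_mem _ ha
    have hmain : ∀ l, ∀ f ∈ Sd N l, Ideal.Quotient.mk P f ∈ W := by
      intro l
      induction l using Nat.strong_induction_on with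
      | _ l ih =>
        intro f hf
        by_cases hl : l < M0
        · rw [f.as_sum, map_sum]
          apply Submodule.sum_mem
          intro x hx
          have hdeg : x.degree = l := deg_of_mem hf hx
          have e : (monomial x (coeff x f) : S N) = C (coeff x f) * monomial x 1 := by
            rw [C_mul_monomial, mul_one]
          rw [e, map_mul]
          apply hC
          apply Submodule.subset_span
          rw [hB, Finset.coe_image]
          refine ⟨x, ?_, rfl⟩
          rw [Set.Finite.coe_toFinset]
          change x.degree < M0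
          omega
        · push Not at hl
          have hfI := hM0 l hl f hf
          rw [Submodule.mem_sup] at hfI
          obtain ⟨p, hp, g, hg, hpg⟩ := hfI
          rw [Ideal.mem_span_range_iff_exists_fun] at hg
          obtain ⟨c, hc⟩ := hg
          rcases Nat.eq_zero_or_pos l with h0 | hpos
          · -- degree zero: `f ∈ P`
            have hf0 : f = homogeneousComponent 0 f := by
              rw [homogeneousComponent_of_mem (h0 ▸ hf)]; simp
            have : f ∈ P := by
              rw [hf0, ← hpg, map_add, ← hc, map_sum]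
              apply P.add_mem (homogeneousComponent_mem_of_mem hP.hom hp 0)
              apply P.sum_mem
              intro i _
              have : homogeneousComponent 0 (c i * lin (y i)) = 0 := by
                rw [homogeneousComponent_zero, ← constantCoeff_eq, map_mul, constCoeff_lin,
                  mul_zero, map_zero]
              rw [this]
              exact P.zero_mem
            rw [Ideal.Quotient.eq_zero_iff_mem.mpr this]
            exact W.zero_mem
          · obtain ⟨k, rfl⟩ : ∃ k, l = k + 1 := ⟨l - 1, by omega⟩
            have hfk : f = homogeneousComponent (k + 1) f := by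
              rw [homogeneousComponent_of_mem hf]; simp
            rw [hfk, ← hpg, map_add, map_add, ← hc, map_sum, map_sum]
            rw [Ideal.Quotient.eq_zero_iff_mem.mpr
              (homogeneousComponent_mem_of_mem hP.hom hp (k + 1)), zero_add]
            apply Submodule.sum_mem
            intro i _
            rw [mul_comm, comp_lin_mul, map_mul]
            have e : Ideal.Quotient.mk P (lin (y i))
                * Ideal.Quotient.mk P (homogeneousComponent k (c i))
                = (X i : MvPolynomial (Fin m) ℂ) • Ideal.Quotient.mk P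
                  (homogeneousComponent k (c i)) := by
              rw [hsm, phi, aeval_X]
              rfl
            rw [e]
            apply W.smul_mem
            exact ih k (by omega) _ (homogeneousComponent_mem k (c i))
    refine ⟨⟨B, ?_⟩⟩
    rw [eq_top_iff]
    intro z _
    obtain ⟨f, rfl⟩ := Ideal.Quotient.mk_surjective z
    rw [← sum_homogeneousComponent f, map_sum]
    apply Submodule.sum_mem
    intro i _
    exact hmain i _ (homogeneousComponent_mem i f)
  refine ⟨?_, hfin⟩
  -- injectivity
  let x : Fin m → S N ⧸ P := fun i => Ideal.Quotient.mkₐ ℂ P (lin (y i))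
  have hphi : phi P y = aeval x := rfl
  have halg : Algebra.IsAlgebraic (Algebra.adjoin ℂ (Set.range x)) (S N ⧸ P) := by
    constructor
    intro z
    have hint : (phi P y).toRingHom.IsIntegralElem z := hfin.to_isIntegral z
    obtain ⟨p, hp, hpz⟩ := hint
    -- push the polynomial to the subalgebra
    have hr : ∀ a : MvPolynomial (Fin m) ℂ, phi P y a ∈ Algebra.adjoin ℂ (Set.range x) := by
      intro a
      rw [Algebra.adjoin_range_eq_range_aeval]
      exact ⟨a, rfl⟩
    let ψ : MvPolynomial (Fin m) ℂ →ₐ[ℂ] Algebra.adjoin ℂ (Set.range x) :=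
      (phi P y).codRestrict (Algebra.adjoin ℂ (Set.range x)) hr
    refine IsIntegral.isAlgebraic ⟨p.map ψ.toRingHom, hp.map _, ?_⟩
    rw [Polynomial.eval₂_map]
    exact hpz
  have hle : Cardinal.lift.{0} (Cardinal.mk (Fin m)) ≤ Cardinal.lift.{0} (Algebra.trdeg ℂ (S N ⧸ P)) := by
    rw [← cast_md P, hm]
    simp
  have htb := Algebra.IsAlgebraic.isTranscendenceBasis_of_lift_le_trdeg_of_finite ℂ x hle
  rw [hphi]
  exact htb.1

end SepCI
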