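import Pool.Agent.SepCI.PackGr
import Pool.Agent.SepCI.Flag
import Pool.Agent.SepCI.NN
import Pool.Agent.SepCI.Basic

set_option autoImplicit false
set_option linter.unusedSectionVars false

/-! # Primitive linear form, discriminant, Hilbert function bounds -/

namespace SepCI

open MvPolynomial
open scoped nonZeroDivisors IntermediateField

attribute [local instance] MvPolynomial.gradedAlgebra

section

variable {N : ℕ} {P : Ideal (S N)} {m : ℕ} {y : Fin m → Fin (N + 1) → ℚ}

theorem algMap_mk (r : MvPolynomial (Fin m) ℂ) :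
    algebraMap (MvPolynomial (Fin m) ℂ) (CR P y) r = CR.mk P y (aeval (fun i => lin (y i)) r) := by
  have h : phi P y = (Ideal.Quotient.mkₐ ℂ P).comp (aeval fun i => lin (y i)) := by
    apply MvPolynomial.algHom_ext
    intro i
    rw [phi, aeval_X, AlgHom.comp_apply, aeval_X]
  exact congrArg (fun g : MvPolynomial (Fin m) ℂ →ₐ[ℂ] S N ⧸ P => g r) h

theorem mk_C (a : ℂ) : CR.mk P y (C a) = algebraMap (MvPolynomial (Fin m) ℂ) (CR P y) (C a) := by
  rw [algMap_mk, aeval_C]
  rfl

theorem mk_surj : Function.Surjective (CR.mk P y) := Ideal.Quotient.mk_surjective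

instance : IsScalarTower ℂ (MvPolynomial (Fin m) ℂ) (CR P y) := by
  apply IsScalarTower.of_algebraMap_eq
  intro a
  have h1 : algebraMap ℂ (MvPolynomial (Fin m) ℂ) a = C a := rfl
  rw [h1, ← mk_C]
  exact ((CR.mk P y).commutes a).symm

theorem isDomain_CR (hP : HP P) : IsDomain (CR P y) := by
  have := hP.prime
  exact inferInstanceAs (IsDomain (S N ⧸ P))

theorem finite_CR (hy : IsNN P y) : Module.Finite (MvPolynomial (Fin m) ℂ) (CR P y) := hy.2

theorem faithful_CR (hy : IsNN P y) : FaithfulSMul (MvPolynomial (Fin m) ℂ) (CR P y) := by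
  rw [faithfulSMul_iff_algebraMap_injective]
  exact hy.1

end

section

variable {N : ℕ} {P : Ideal (S N)} {m : ℕ} {y : Fin m → Fin (N + 1) → ℚ}
  [IsDomain (CR P y)] [Module.Finite (MvPolynomial (Fin m) ℂ) (CR P y)]
  [FaithfulSMul (MvPolynomial (Fin m) ℂ) (CR P y)]
variable (K L : Type) [Field K] [Field L] [Algebra (MvPolynomial (Fin m) ℂ) K]
  [IsFractionRing (MvPolynomial (Fin m) ℂ) K] [Algebra (CR P y) L] [IsFractionRing (CR P y) L]
  [Algebra (MvPolynomial (Fin m) ℂ) L] [Algebra K L]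
  [IsScalarTower (MvPolynomial (Fin m) ℂ) K L] [IsScalarTower (MvPolynomial (Fin m) ℂ) (CR P y) L]
  [CharZero K]

theorem emb_C {E : Type*} [Field E] [Algebra K E] (φ : L →ₐ[K] E) (a : ℂ) :
    φ (algebraMap (CR P y) L (CR.mk P y (C a))) =
      algebraMap K E (algebraMap (MvPolynomial (Fin m) ℂ) K (C a)) := by
  rw [mk_C, ← IsScalarTower.algebraMap_apply (MvPolynomial (Fin m) ℂ) (CR P y) L,
    IsScalarTower.algebraMap_apply (MvPolynomial (Fin m) ℂ) K L, φ.commutes]

/-- The rational linear forms on which two embeddings agree. -/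
def embSub {E : Type*} [Field E] [Algebra K E] (φ ψ : L →ₐ[K] E) :
    Submodule ℚ (Fin (N + 1) → ℚ) where
  carrier := {c | φ (algebraMap (CR P y) L (CR.mk P y (lin c))) =
    ψ (algebraMap (CR P y) L (CR.mk P y (lin c)))}
  add_mem' := by
    intro a b ha hb
    simp only [Set.mem_ofPred_eq] at ha hb ⊢
    rw [lin_add, map_add, map_add, map_add, map_add, ha, hb]
  zero_mem' := by
    simp only [Set.mem_ofPred_eq]
    rw [lin_zero, map_zero, map_zero, map_zero, map_zero]
  smul_mem' := by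
    intro q a ha
    simp only [Set.mem_ofPred_eq] at ha ⊢
    rw [lin_smul, map_mul, map_mul, map_mul, map_mul, ha, emb_C, emb_C]

theorem embSub_ne_top {E : Type*} [Field E] [Algebra K E] {φ ψ : L →ₐ[K] E} (h : φ ≠ ψ) :
    embSub (P := P) (y := y) K L φ ψ ≠ ⊤ := by
  intro htop
  apply h
  have h1 : ∀ c : Fin (N + 1) → ℚ, φ (algebraMap (CR P y) L (CR.mk P y (lin c))) =
      ψ (algebraMap (CR P y) L (CR.mk P y (lin c))) := by
    intro c
    have : c ∈ embSub (P := P) (y := y) K L φ ψ := by rw [htop]; trivial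
    exact this
  have h2 : ((φ : L →+* E).comp (algebraMap (CR P y) L)).comp (CR.mk P y : S N →+* CR P y) =
      ((ψ : L →+* E).comp (algebraMap (CR P y) L)).comp (CR.mk P y : S N →+* CR P y) := by
    apply MvPolynomial.ringHom_ext
    · intro a
      exact (emb_C K L φ a).trans (emb_C K L ψ a).symm
    · intro j
      have := h1 (Pi.single j 1)
      rw [lin_single] at this
      exact this
  have h3 : (φ : L →+* E) = (ψ : L →+* E) := by
    apply IsLocalization.ringHom_ext (nonZeroDivisors (CR P y))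
    ext a
    obtain ⟨f, rfl⟩ := mk_surj (P := P) (y := y) a
    exact congrArg (fun g : S N →+* E => g f) h2
  ext a
  exact congrArg (fun g : L →+* E => g a) h3

theorem exists_prim : ∃ U : Finset (Submodule ℚ (Fin (N + 1) → ℚ)), (∀ u ∈ U, u ≠ ⊤) ∧
    ∀ c, (∀ u ∈ U, c ∉ u) → K⟮algebraMap (CR P y) L (CR.mk P y (lin c))⟯ = ⊤ := by
  classical
  have hfd : FiniteDimensional K L := finDim_frac (R := MvPolynomial (Fin m) ℂ) (A := CR P y) K L
  let E := AlgebraicClosure K
  refine ⟨(Finset.univ.filter (fun p : (L →ₐ[K] E) × (L →ₐ[K] E) => p.1 ≠ p.2)).image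
    (fun p => embSub (P := P) (y := y) K L p.1 p.2), ?_, ?_⟩
  · intro u hu
    rw [Finset.mem_image] at hu
    obtain ⟨p, hp, rfl⟩ := hu
    exact embSub_ne_top K L (Finset.mem_filter.1 hp).2
  · intro c hc
    rw [Field.primitive_element_iff_algHom_eq_of_eval' K E (fun x => IsAlgClosed.splits _)]
    intro φ ψ hφψ
    by_contra hne
    refine hc (embSub (P := P) (y := y) K L φ ψ) ?_ hφψ
    rw [Finset.mem_image]
    exact ⟨(φ, ψ), by simp [hne], rfl⟩

/-- The scaling automorphism of the coordinate ring. -/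
theorem exists_scalA (hP : HP P) : ∃ σ : CR P y ≃+* CR P y, ∀ f, σ (CR.mk P y f) =
    CR.mk P y (scal (Fin (N + 1)) 2 f) := by
  have hmap : P = P.map (scalE (Fin (N + 1)) : S N →+* S N) := by
    apply le_antisymm
    · intro f hf
      have h1 : scalE (Fin (N + 1)) (scal (Fin (N + 1)) (1 / 2) f) = f :=
        scal_comp _ _ (by norm_num) f
      rw [← h1]
      exact Ideal.mem_map_of_mem (scalE (Fin (N + 1)) : S N →+* S N) (scal_mem hP.hom _ hf)
    · rw [Ideal.map_le_iff_le_comap]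
      intro f hf
      exact scal_mem hP.hom 2 hf
  exact ⟨Ideal.quotientEquiv P P (scalE (Fin (N + 1))) hmap, fun f => rfl⟩

theorem mk_hom_scal {f : S N} {l : ℕ} (hf : f ∈ Sd N l) :
    CR.mk P y (scal (Fin (N + 1)) 2 f) = (C (2 ^ l) : MvPolynomial (Fin m) ℂ) • CR.mk P y f := by
  rw [scal_of_hom 2 hf, map_mul, mk_C, Algebra.smul_def]

theorem scalA_algMap {σ : CR P y ≃+* CR P y}
    (hσ : ∀ f, σ (CR.mk P y f) = CR.mk P y (scal (Fin (N + 1)) 2 f)) (r : MvPolynomial (Fin m) ℂ) :
    σ (algebraMap (MvPolynomial (Fin m) ℂ) (CR P y) r) =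
      algebraMap (MvPolynomial (Fin m) ℂ) (CR P y) (scalE (Fin m) r) := by
  have h : (σ : CR P y →+* CR P y).comp (algebraMap (MvPolynomial (Fin m) ℂ) (CR P y)) =
      (algebraMap (MvPolynomial (Fin m) ℂ) (CR P y)).comp
        (scalE (Fin m) : MvPolynomial (Fin m) ℂ →+* MvPolynomial (Fin m) ℂ) := by
    apply MvPolynomial.ringHom_ext
    · intro a
      show σ (algebraMap (MvPolynomial (Fin m) ℂ) (CR P y) (C a)) =
        algebraMap (MvPolynomial (Fin m) ℂ) (CR P y) (scal (Fin m) 2 (C a))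
      rw [← mk_C, hσ, scal, aeval_C, scal, aeval_C]
      exact mk_C a
    · intro i
      show σ (algebraMap (MvPolynomial (Fin m) ℂ) (CR P y) (X i)) =
        algebraMap (MvPolynomial (Fin m) ℂ) (CR P y) (scal (Fin m) 2 (X i))
      rw [algMap_mk, aeval_X, hσ, mk_hom_scal (lin_mem (y i)), Algebra.smul_def, scal, aeval_X,
        map_mul, pow_one]
      congr 1
      rw [algMap_mk, aeval_X]
  exact congrArg (fun g : MvPolynomial (Fin m) ℂ →+* CR P y => g r) h

theorem tr_hom (hP : HP P) {f : S N} {l : ℕ} (hf : f ∈ Sd N l) :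
    trA (R := MvPolynomial (Fin m) ℂ) K L (CR.mk P y f) ∈ homogeneousSubmodule (Fin m) ℂ l := by
  obtain ⟨σ, hσ⟩ := exists_scalA (y := y) hP
  apply hom_of_scal
  have h1 := trA_equiv (R := MvPolynomial (Fin m) ℂ) K L (scalE (Fin m)) σ (scalA_algMap hσ)
    (CR.mk P y f)
  rw [hσ, mk_hom_scal hf, map_smul, smul_eq_mul] at h1
  exact h1.symm

theorem discr_hom (hP : HP P) {c : Fin (N + 1) → ℚ} {s : ℕ}
    (b : Module.Basis (Fin s) (MvPolynomial (Fin m) ℂ)
      (Algebra.adjoin (MvPolynomial (Fin m) ℂ) {CR.mk P y (lin c)}))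
    (htr : ∀ i j, Algebra.trace (MvPolynomial (Fin m) ℂ)
      (Algebra.adjoin (MvPolynomial (Fin m) ℂ) {CR.mk P y (lin c)}) (b i * b j) =
        trA (R := MvPolynomial (Fin m) ℂ) K L (CR.mk P y (lin c) ^ ((i : ℕ) + j))) :
    Algebra.discr (MvPolynomial (Fin m) ℂ) b ∈ homogeneousSubmodule (Fin m) ℂ (s * (s - 1)) := by
  apply hom_of_scal
  set τ : ℕ → MvPolynomial (Fin m) ℂ := fun k =>
    trA (R := MvPolynomial (Fin m) ℂ) K L (CR.mk P y (lin c) ^ k) with hτ
  have hτs : ∀ k, scal (Fin m) 2 (τ k) = C 2 ^ k * τ k := by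
    intro k
    have h1 : (lin c ^ k : S N) ∈ Sd N k := by
      have := IsHomogeneous.pow (lin_mem c) k
      rwa [one_mul] at this
    have h2 := tr_hom (y := y) K L hP h1
    rw [map_pow] at h2
    rw [scal_of_hom 2 h2, C_pow]
  have hM : Algebra.discr (MvPolynomial (Fin m) ℂ) b =
      Matrix.det (Matrix.of fun i j : Fin s => τ ((i : ℕ) + j)) := by
    rw [Algebra.discr_def]
    congr 1
    ext i j
    rw [Algebra.traceMatrix_apply, Algebra.traceForm_apply, htr]
    rfl
  rw [hM, AlgHom.map_det]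
  have h3 : (scal (Fin m) 2).mapMatrix (Matrix.of fun i j : Fin s => τ ((i : ℕ) + j)) =
      Matrix.of fun i j : Fin s => (C 2 : MvPolynomial (Fin m) ℂ) ^ (i : ℕ) *
        (Matrix.of fun i j : Fin s => (C 2 : MvPolynomial (Fin m) ℂ) ^ (j : ℕ) *
          (Matrix.of fun i j : Fin s => τ ((i : ℕ) + j)) i j) i j := by
    ext1 i j
    simp only [AlgHom.mapMatrix_apply, Matrix.map_apply, Matrix.of_apply]
    rw [hτs, pow_add]
    ring
  rw [h3, Matrix.det_mul_column, Matrix.det_mul_row, ← mul_assoc]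
  congr 1
  rw [Finset.prod_pow_eq_pow_sum, ← pow_add, C_pow, Fin.sum_univ_eq_sum_range (fun i => i) s]
  congr 1
  rw [← Finset.sum_range_id_mul_two]
  ring

theorem hf_le_sum (hP : HP P) (hm : 1 ≤ m) {c : Fin (N + 1) → ℚ} {s : ℕ}
    (b' : Module.Basis (Fin s) K L)
    (hb' : ∀ i, b' i = algebraMap (CR P y) L (CR.mk P y (lin c)) ^ (i : ℕ)) (l : ℕ) :
    hf P l ≤ ∑ i ∈ Finset.range s, (l + i + m - 1).choose (m - 1) := by
  have hfin : ∀ k, Module.Finite ℂ (homogeneousSubmodule (Fin m) ℂ k) := by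
    intro k
    exact Module.Finite.iff_fg.mpr (homogeneousSubmodule_fg (Fin m) ℂ k)
  have hmem : ∀ (a : (Sd N l).map (Ideal.Quotient.mkₐ ℂ P).toLinearMap) (i : Fin s),
      trA (R := MvPolynomial (Fin m) ℂ) K L ((show CR P y from (a : S N ⧸ P)) *
        CR.mk P y (lin c) ^ (i : ℕ)) ∈ homogeneousSubmodule (Fin m) ℂ (l + i) := by
    rintro ⟨a, ha⟩ i
    obtain ⟨f, hf, rfl⟩ := Submodule.mem_map.1 ha
    have h1 : (f * lin c ^ (i : ℕ) : S N) ∈ Sd N (l + i) := by
      have h2 := IsHomogeneous.pow (lin_mem c) (i : ℕ)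
      rw [one_mul] at h2
      exact IsHomogeneous.mul hf h2
    have h3 := tr_hom (y := y) K L hP h1
    rw [map_mul, map_pow] at h3
    exact h3
  let Ψ : ((Sd N l).map (Ideal.Quotient.mkₐ ℂ P).toLinearMap) →ₗ[ℂ]
      (∀ i : Fin s, homogeneousSubmodule (Fin m) ℂ (l + i)) :=
    { toFun := fun a i => ⟨_, hmem a i⟩
      map_add' := by
        intro a a'
        funext i
        apply Subtype.ext
        show trA (R := MvPolynomial (Fin m) ℂ) K L (((show CR P y from (a : S N ⧸ P)) +
          (show CR P y from (a' : S N ⧸ P))) * _) = _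
        rw [add_mul, map_add]
        rfl
      map_smul' := by
        intro t a
        funext i
        apply Subtype.ext
        show trA (R := MvPolynomial (Fin m) ℂ) K L ((t • (show CR P y from (a : S N ⧸ P))) * _) =
          t • (trA (R := MvPolynomial (Fin m) ℂ) K L ((show CR P y from (a : S N ⧸ P)) * _))
        rw [smul_mul_assoc, ← algebraMap_smul (MvPolynomial (Fin m) ℂ) t, map_smul,
          algebraMap_smul] }
  have hinj : Function.Injective Ψ := by
    rw [injective_iff_map_eq_zero]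
    intro a ha
    apply Subtype.ext
    show (show CR P y from (a : S N ⧸ P)) = 0
    apply trA_nondeg (R := MvPolynomial (Fin m) ℂ) K L b' hb'
    intro i
    have := congrFun ha i
    exact congrArg Subtype.val this
  have h1 := LinearMap.finrank_le_finrank_of_injective hinj
  rw [Module.finrank_pi_fintype] at h1
  refine le_trans h1 (le_of_eq ?_)
  rw [← Fin.sum_univ_eq_sum_range (fun i => (l + i + m - 1).choose (m - 1)) s]
  apply Finset.sum_congr rfl
  intro i _
  exact finrank_forms hm (l + i)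

omit [IsDomain (CR P y)] [Module.Finite (MvPolynomial (Fin m) ℂ) (CR P y)]
  [FaithfulSMul (MvPolynomial (Fin m) ℂ) (CR P y)] in
theorem sum_le_hf (hm : 1 ≤ m) {c : Fin (N + 1) → ℚ} {s : ℕ}
    (b : Module.Basis (Fin s) (MvPolynomial (Fin m) ℂ)
      (Algebra.adjoin (MvPolynomial (Fin m) ℂ) {CR.mk P y (lin c)}))
    (hb : ∀ i, ((b i : Algebra.adjoin (MvPolynomial (Fin m) ℂ) {CR.mk P y (lin c)}) : CR P y) =
      CR.mk P y (lin c) ^ (i : ℕ)) (l : ℕ) :
    ∑ i ∈ Finset.range s, (if i ≤ l then (l - i + m - 1).choose (m - 1) else 0) ≤ hf P l := by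
  set W : Fin s → Submodule ℂ (MvPolynomial (Fin m) ℂ) := fun i =>
    if (i : ℕ) ≤ l then homogeneousSubmodule (Fin m) ℂ (l - i) else ⊥ with hW
  have hWpos : ∀ i : Fin s, (i : ℕ) ≤ l → W i = homogeneousSubmodule (Fin m) ℂ (l - i) :=
    fun i hi => if_pos hi
  have hWneg : ∀ i : Fin s, ¬ (i : ℕ) ≤ l → W i = ⊥ := fun i hi => if_neg hi
  have hfin : ∀ i, Module.Finite ℂ (W i) := by
    intro i
    by_cases hi : (i : ℕ) ≤ l
    · rw [hWpos i hi]
      exact Module.Finite.iff_fg.mpr (homogeneousSubmodule_fg (Fin m) ℂ _)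
    · rw [hWneg i hi]
      infer_instance
  have hmem : ∀ r : (∀ i, W i), (∑ i, ((r i : MvPolynomial (Fin m) ℂ) •
      CR.mk P y (lin c) ^ (i : ℕ)) : CR P y) ∈
        (Sd N l).map (Ideal.Quotient.mkₐ ℂ P).toLinearMap := by
    intro r
    refine Submodule.sum_mem _ ?_
    intro i _
    by_cases hi : (i : ℕ) ≤ l
    · have h1 : (r i : MvPolynomial (Fin m) ℂ) ∈ homogeneousSubmodule (Fin m) ℂ (l - i) :=
        (hWpos i hi).le (r i).2
      have h2 := IsHomogeneous.aeval h1 (fun i => lin (y i)) (fun i => lin_mem (y i))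
      have h3 := IsHomogeneous.pow (lin_mem c) (i : ℕ)
      have h4 := IsHomogeneous.mul h2 h3
      rw [one_mul, one_mul, Nat.sub_add_cancel hi] at h4
      have h5 : (r i : MvPolynomial (Fin m) ℂ) • CR.mk P y (lin c) ^ (i : ℕ) =
          CR.mk P y (aeval (fun i => lin (y i)) (r i : MvPolynomial (Fin m) ℂ) *
            lin c ^ (i : ℕ)) := by
        rw [Algebra.smul_def, algMap_mk, ← map_pow, ← map_mul]
      have h6 := Submodule.mem_map_of_mem (f := (Ideal.Quotient.mkₐ ℂ P).toLinearMap)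
        (p := Sd N l) h4
      have h7 : (Ideal.Quotient.mkₐ ℂ P).toLinearMap
          (aeval (fun i => lin (y i)) (r i : MvPolynomial (Fin m) ℂ) * lin c ^ (i : ℕ)) =
          (r i : MvPolynomial (Fin m) ℂ) • CR.mk P y (lin c) ^ (i : ℕ) := h5.symm
      rw [h7] at h6
      exact h6
    · have h1 : (r i : MvPolynomial (Fin m) ℂ) = 0 :=
        (Submodule.mem_bot ℂ).1 ((hWneg i hi).le (r i).2)
      rw [h1, zero_smul]
      exact Submodule.zero_mem _
  let Φ : (∀ i, W i) →ₗ[ℂ] ((Sd N l).map (Ideal.Quotient.mkₐ ℂ P).toLinearMap) :=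
    { toFun := fun r => ⟨_, hmem r⟩
      map_add' := by
        intro r r'
        apply Subtype.ext
        show (∑ i, (((r + r') i : W i) : MvPolynomial (Fin m) ℂ) • CR.mk P y (lin c) ^ (i : ℕ)) =
          (∑ i, (r i : MvPolynomial (Fin m) ℂ) • CR.mk P y (lin c) ^ (i : ℕ)) +
          (∑ i, (r' i : MvPolynomial (Fin m) ℂ) • CR.mk P y (lin c) ^ (i : ℕ))
        rw [← Finset.sum_add_distrib]
        apply Finset.sum_congr rfl
        intro i _
        rw [← add_smul]
        rfl
      map_smul' := by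
        intro t r
        apply Subtype.ext
        show (∑ i, (((t • r) i : W i) : MvPolynomial (Fin m) ℂ) • CR.mk P y (lin c) ^ (i : ℕ)) =
          t • (∑ i, (r i : MvPolynomial (Fin m) ℂ) • CR.mk P y (lin c) ^ (i : ℕ))
        rw [Finset.smul_sum]
        apply Finset.sum_congr rfl
        intro i _
        rw [← smul_assoc]
        rfl }
  have hinj : Function.Injective Φ := by
    rw [injective_iff_map_eq_zero]
    intro r hr
    have h1 : (∑ i, (r i : MvPolynomial (Fin m) ℂ) • CR.mk P y (lin c) ^ (i : ℕ)) = 0 :=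
      congrArg Subtype.val hr
    have h2 : (∑ i, (r i : MvPolynomial (Fin m) ℂ) • b i) = 0 := by
      apply Subtype.ext
      rw [AddSubmonoidClass.coe_finsetSum]
      refine Eq.trans ?_ h1
      apply Finset.sum_congr rfl
      intro i _
      rw [Subalgebra.coe_smul, hb]
    have h3 := Fintype.linearIndependent_iff.1 b.linearIndependent _ h2
    funext i
    exact Subtype.ext (h3 i)
  have h1 := LinearMap.finrank_le_finrank_of_injective hinj
  rw [Module.finrank_pi_fintype] at h1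
  refine le_trans (le_of_eq ?_) h1
  rw [← Fin.sum_univ_eq_sum_range (fun i => (if i ≤ l then (l - i + m - 1).choose (m - 1) else 0)) s]
  apply Finset.sum_congr rfl
  intro i _
  by_cases hi : (i : ℕ) ≤ l
  · rw [hWpos i hi, if_pos hi]
    exact (finrank_forms hm (l - i)).symm
  · rw [hWneg i hi, if_neg hi]
    simp

end

attribute [local instance] FractionRing.liftAlgebra in
theorem exists_pack {N : ℕ} {P : Ideal (S N)} (hP : HP P) {m : ℕ} (hm : 1 ≤ m)
    (y : Fin m → Fin (N + 1) → ℚ) (hy : IsNN P y) :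
    ∃ (s : ℕ) (U : Finset (Submodule ℚ (Fin (N + 1) → ℚ))), 1 ≤ s ∧ Bd P m s ∧ (∀ u ∈ U, u ≠ ⊤) ∧
      ∀ c, (∀ u ∈ U, c ∉ u) → Nonempty (Pack P y c s) := by
  have i1 : IsDomain (CR P y) := isDomain_CR hP
  have i2 : Module.Finite (MvPolynomial (Fin m) ℂ) (CR P y) := finite_CR hy
  have i3 : FaithfulSMul (MvPolynomial (Fin m) ℂ) (CR P y) := faithful_CR hy
  let K := FractionRing (MvPolynomial (Fin m) ℂ)
  let L := FractionRing (CR P y)
  have i4 : CharZero K := algebraRat.charZero K
  have hfd : FiniteDimensional K L := finDim_frac (R := MvPolynomial (Fin m) ℂ) (A := CR P y) K L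
  obtain ⟨U, hU, hUc⟩ := exists_prim (P := P) (y := y) K L
  set s := Module.finrank K L with hs
  have hs1 : 1 ≤ s := Module.finrank_pos
  obtain ⟨c₀, hc₀⟩ := avoid U hU
  have hbd : Bd P m s := by
    obtain ⟨b, b', hb, hb', htr, hd, hden⟩ := prim_data (R := MvPolynomial (Fin m) ℂ) K L
      (hUc c₀ hc₀) hs.symm
    intro l
    exact ⟨sum_le_hf hm b hb l, hf_le_sum K L hP hm b' hb' l⟩
  refine ⟨s, U, hs1, hbd, hU, ?_⟩
  intro c hc
  obtain ⟨b, b', hb, hb', htr, hd, hden⟩ := prim_data (R := MvPolynomial (Fin m) ℂ) K L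
    (hUc c hc) hs.symm
  refine ⟨⟨b, hb, hd, hden, ?_⟩⟩
  refine ⟨aeval (fun i => lin (y i)) (Algebra.discr (MvPolynomial (Fin m) ℂ) b), ?_, algMap_mk _⟩
  have h1 := discr_hom K L hP b htr
  have h2 := IsHomogeneous.aeval h1 (fun i => lin (y i)) (fun i => lin_mem (y i))
  rw [one_mul] at h2
  exact h2

theorem exists_Bd {N : ℕ} {P : Ideal (S N)} (hP : HP P) (hm : 1 ≤ md P) :
    ∃ e, 1 ≤ e ∧ Bd P (md P) e := by
  obtain ⟨y, hy⟩ := exists_flag (ι := Unit) (fun _ => P) (fun _ => md P) (fun _ => hP.hom)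
    (fun _ q hq hle => md_le hP hq hle)
  obtain ⟨s, U, h1, h2, _, _⟩ := exists_pack hP hm _ (isNN_of_pnn hP rfl _ (hy () (md P)))
  exact ⟨s, h1, h2⟩

/-- lower bound by the Noether normalisation only -/
theorem hf_lower' {N : ℕ} {P : Ideal (S N)} (hP : HP P) (hm : 1 ≤ md P) (l : ℕ) :
    (l + md P - 1).choose (md P - 1) ≤ hf P l := by
  obtain ⟨e, he, hb⟩ := exists_Bd hP hm
  refine le_trans ?_ (hb l).1
  have h1 := Finset.single_le_sum (f := fun i => (if i ≤ l then
    (l - i + md P - 1).choose (md P - 1) else 0)) (fun i _ => Nat.zero_le _)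
    (Finset.mem_range.2 he)
  simpa using h1

theorem hf_lower {N : ℕ} {P : Ideal (S N)} (hP : HP P) (hm : 2 ≤ md P) (l : ℕ) :
    l + 1 ≤ hf P l := by
  refine le_trans ?_ (hf_lower' hP (by omega) l)
  have h1 : (l + md P - 1).choose (md P - 1) = (l + md P - 1).choose l := by
    apply Nat.choose_symm_of_eq_add
    omega
  rw [h1]
  calc l + 1 = (l + 1).choose l := by simp
    _ ≤ (l + md P - 1).choose l := Nat.choose_le_choose l (by omega)

/-- ratio bound for binomial coefficients -/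
theorem choose_ratio (a k n : ℕ) :
    (a + k + n).choose n * (a + 1) ^ n ≤ (a + n).choose n * (a + k + 1) ^ n := by
  have h1 : ∀ n : ℕ, (a + k + 1).ascFactorial n * (a + 1) ^ n ≤
      (a + 1).ascFactorial n * (a + k + 1) ^ n := by
    intro n
    induction n with
    | zero => simp
    | succ n ih =>
      rw [Nat.ascFactorial_succ, Nat.ascFactorial_succ, pow_succ, pow_succ]
      have h2 : (a + k + 1 + n) * (a + 1) ≤ (a + 1 + n) * (a + k + 1) := by nlinarith
      calc (a + k + 1 + n) * (a + k + 1).ascFactorial n * ((a + 1) ^ n * (a + 1))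
          = ((a + k + 1).ascFactorial n * (a + 1) ^ n) * ((a + k + 1 + n) * (a + 1)) := by ring
        _ ≤ ((a + 1).ascFactorial n * (a + k + 1) ^ n) * ((a + 1 + n) * (a + k + 1)) :=
          Nat.mul_le_mul ih h2
        _ = _ := by ring
  have h2 := h1 n
  rw [Nat.ascFactorial_eq_factorial_mul_choose, Nat.ascFactorial_eq_factorial_mul_choose] at h2
  rw [mul_assoc, mul_assoc] at h2
  exact Nat.le_of_mul_le_mul_left h2 n.factorial_pos

theorem Bd_le {N : ℕ} {P : Ideal (S N)} {m e e' : ℕ} (hm : 1 ≤ m) (h : Bd P m e)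
    (h' : Bd P m e') : e ≤ e' := by
  obtain ⟨n, rfl⟩ : ∃ n, m = n + 1 := ⟨m - 1, by omega⟩
  -- `e * C(a + n, n) ≤ e' * C(a + (e + e') + n, n)`
  have h1 : ∀ a : ℕ, e * (a + 1) ^ n ≤ e' * (a + (e + e') + 1) ^ n := by
    intro a
    have h2 := le_trans (h (a + e)).1 (h' (a + e)).2
    have h3 : e * (a + n).choose n ≤ ∑ i ∈ Finset.range e,
        (if i ≤ a + e then (a + e - i + (n + 1) - 1).choose (n + 1 - 1) else 0) := by
      calc e * (a + n).choose n = ∑ _i ∈ Finset.range e, (a + n).choose n := by simp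
        _ ≤ _ := by
          apply Finset.sum_le_sum
          intro i hi
          rw [Finset.mem_range] at hi
          rw [if_pos (by omega), Nat.add_sub_cancel]
          exact Nat.choose_le_choose n (by omega)
    have h4 : ∑ i ∈ Finset.range e', (a + e + i + (n + 1) - 1).choose (n + 1 - 1) ≤
        e' * (a + (e + e') + n).choose n := by
      calc _ ≤ ∑ _i ∈ Finset.range e', (a + (e + e') + n).choose n := by
            apply Finset.sum_le_sum
            intro i hi
            rw [Finset.mem_range] at hi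
            rw [Nat.add_sub_cancel]
            exact Nat.choose_le_choose n (by omega)
        _ = _ := by simp
    have h5 := le_trans h3 (le_trans h2 h4)
    have h6 := choose_ratio a (e + e') n
    have hpos : 0 < (a + n).choose n := Nat.choose_pos (by omega)
    have h7 : (a + n).choose n * (e * (a + 1) ^ n) ≤
        (a + n).choose n * (e' * (a + (e + e') + 1) ^ n) := by
      calc (a + n).choose n * (e * (a + 1) ^ n) = (e * (a + n).choose n) * (a + 1) ^ n := by ring
        _ ≤ (e' * (a + (e + e') + n).choose n) * (a + 1) ^ n := Nat.mul_le_mul_right _ h5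
        _ = e' * ((a + (e + e') + n).choose n * (a + 1) ^ n) := by ring
        _ ≤ e' * ((a + n).choose n * (a + (e + e') + 1) ^ n) := Nat.mul_le_mul_left _ h6
        _ = _ := by ring
    exact Nat.le_of_mul_le_mul_left h7 hpos
  -- let `a → ∞`
  have h2 : Filter.Tendsto (fun a : ℕ => (e : ℝ)) Filter.atTop (nhds (e : ℝ)) :=
    tendsto_const_nhds
  have h3 : Filter.Tendsto (fun a : ℕ => (e' : ℝ) * ((1 + ((e : ℝ) + e') * (1 / ((a : ℝ) + 1))) ^ n))
      Filter.atTop (nhds ((e' : ℝ) * ((1 + ((e : ℝ) + e') * 0) ^ n))) := by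
    apply Filter.Tendsto.const_mul
    apply Filter.Tendsto.pow
    apply Filter.Tendsto.const_add
    apply Filter.Tendsto.const_mul
    exact tendsto_one_div_add_atTop_nhds_zero_nat
  have h4 : (e : ℝ) ≤ (e' : ℝ) * ((1 + ((e : ℝ) + e') * 0) ^ n) := by
    apply le_of_tendsto_of_tendsto' h2 h3
    intro a
    have h5 : (e : ℝ) * ((a : ℝ) + 1) ^ n ≤ (e' : ℝ) * ((a : ℝ) + (e + e') + 1) ^ n := by
      exact_mod_cast h1 a
    have h6 : (0 : ℝ) < (a : ℝ) + 1 := by positivity
    have h7 : (1 + ((e : ℝ) + e') * (1 / ((a : ℝ) + 1))) = ((a : ℝ) + (e + e') + 1) / ((a : ℝ) + 1) := by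
      field_simp
      ring
    rw [h7, div_pow, ← mul_div_assoc, le_div_iff₀ (by positivity)]
    exact h5
  simp only [mul_zero, add_zero, one_pow, mul_one] at h4
  exact_mod_cast h4

theorem Bd_unique {N : ℕ} {P : Ideal (S N)} {m e e' : ℕ} (hm : 1 ≤ m) (h : Bd P m e)
    (h' : Bd P m e') : e = e' :=
  le_antisymm (Bd_le hm h h') (Bd_le hm h' h)

end SepCI
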