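import Pool.Agent.SepCI.CIStep
import Pool.Agent.SepCI.Growth
import Pool.Agent.SepCI.Pack

set_option autoImplicit false

/-! # M19: minimal chains are complete intersections -/

namespace SepCI

open MvPolynomial

attribute [local instance] MvPolynomial.gradedAlgebra

/-! ## degree one -/

/-- the ideal generated by the linear forms in `P` -/
noncomputable def J1 {N : ℕ} (P : Ideal (S N)) : Ideal (S N) := Ideal.span {f | f ∈ P ∧ f ∈ Sd N 1}

theorem J1_le {N : ℕ} (P : Ideal (S N)) : J1 P ≤ P := Ideal.span_le.2 fun _ hf => hf.1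

theorem hom_J1 {N : ℕ} (P : Ideal (S N)) : Hom (J1 P) := hom_span_level P 1

theorem finrank_Sd_one (N : ℕ) : Module.finrank ℂ (Sd N 1) = N + 1 := by
  have h1 : Sd N 1 = Submodule.span ℂ (Set.range (X : Fin (N + 1) → S N)) :=
    homogeneousSubmodule_one_eq_span_X
  rw [h1, finrank_span_eq_card, Fintype.card_fin]
  exact linearIndependent_X _ _

/-- a nontrivial combination of the `y_i` does not lie in `P` -/
theorem linInd_of_NN {N m : ℕ} {P : Ideal (S N)} {y : Fin m → Fin (N + 1) → ℚ} (h : IsNN P y) :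
    LinearIndependent ℂ fun i : Fin m => Ideal.Quotient.mk P (lin (y i)) := by
  have h1 : LinearIndependent ℂ fun i : Fin m => phi P y (X i) :=
    LinearIndependent.map' (linearIndependent_X (Fin m) ℂ) (phi P y).toLinearMap
      (LinearMap.ker_eq_bot.2 h.1)
  have h2 : (fun i : Fin m => phi P y (X i)) =
      fun i : Fin m => Ideal.Quotient.mk P (lin (y i)) := by
    funext i
    simp [phi]
  rwa [h2] at h1

theorem X_mem_cut_J1 {N m : ℕ} {P : Ideal (S N)} {y : ℕ → Fin (N + 1) → ℚ}
    (h : IsNN P fun i : Fin m => y i) (h1 : hf P 1 ≤ m) (f : S N) (hf1 : f ∈ Sd N 1) :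
    f ∈ cut (J1 P) y m := by
  have hli := linInd_of_NN h
  -- the span of the `y_i` is everything in degree one modulo `P`
  set V : Submodule ℂ (S N ⧸ P) := (Sd N 1).map (Ideal.Quotient.mkₐ ℂ P).toLinearMap with hV
  set W : Submodule ℂ (S N ⧸ P) :=
    Submodule.span ℂ (Set.range fun i : Fin m => Ideal.Quotient.mk P (lin (y i))) with hW
  have hWV : W ≤ V := by
    rw [hW, Submodule.span_le]
    rintro _ ⟨i, rfl⟩
    exact ⟨lin (y i), lin_mem _, rfl⟩
  have hfin : FiniteDimensional ℂ V := by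
    rw [hV]; infer_instance
  have hdim : Module.finrank ℂ V ≤ Module.finrank ℂ W := by
    rw [hW, finrank_span_eq_card hli, Fintype.card_fin]
    exact h1
  have hVW : W = V := Submodule.eq_of_le_of_finrank_le hWV hdim
  have hfV : Ideal.Quotient.mk P f ∈ W := by
    rw [hVW]; exact ⟨f, hf1, rfl⟩
  rw [hW, Submodule.mem_span_range_iff_exists_fun] at hfV
  obtain ⟨c, hc⟩ := hfV
  set g : S N := ∑ i, c i • lin (y (i : Fin m)) with hg
  have hgS : g ∈ Sd N 1 := Submodule.sum_mem _ fun i _ => Submodule.smul_mem _ _ (lin_mem _)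
  have hfg : f - g ∈ P := by
    rw [← Ideal.Quotient.eq, ← hc, hg, map_sum]
    refine Finset.sum_congr rfl fun i _ => ?_
    exact ((Ideal.Quotient.mkₐ ℂ P).toLinearMap.map_smul (c i) (lin (y i))).symm
  have h2 : f - g ∈ J1 P := Ideal.subset_span ⟨hfg, Submodule.sub_mem _ hf1 hgS⟩
  have h3 : g ∈ cut (J1 P) y m := by
    apply Ideal.sum_mem
    intro i _
    rw [smul_eq_C_mul]
    exact Ideal.mul_mem_left _ _ (lin_mem_cut _ y i.2)
  have h4 : f = (f - g) + g := by ring
  rw [h4]
  exact (cut (J1 P) y m).add_mem (le_cut _ y m h2) h3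

/-- a form of positive degree lies in every ideal containing the variables -/
theorem form_mem_of_X {N l : ℕ} {J : Ideal (S N)} (h : ∀ j, (X j : S N) ∈ J) {f : S N}
    (hf : f ∈ Sd N (l + 1)) : f ∈ J := by
  have h1 : idealOfVars (Fin (N + 1)) ℂ ≤ J := by
    rw [Ideal.span_le]
    rintro _ ⟨j, rfl⟩
    exact h j
  have h2 : f ∈ idealOfVars (Fin (N + 1)) ℂ ^ 1 := by
    rw [mem_pow_idealOfVars_iff]
    intro x hx
    have := deg_of_mem hf hx
    omega
  rw [pow_one] at h2
  exact h1 h2

theorem deg_one {N a : ℕ} {P : Ideal (S N)} (hP : HP P) (hm : md P = a + 1)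
    (hBd : Bd P (a + 1) 1) {y : ℕ → Fin (N + 1) → ℚ} (hy : PNN P (a + 1) fun i : Fin (a + 1) => y i) :
    P = J1 P ∧ Reg P y (a + 1) ∧ hf P 1 = a + 1 := by
  have hNN := isNN_of_pnn hP hm _ hy
  have hlow : ∀ l, (l + a).choose a ≤ hf P l := by
    intro l
    have := (hBd l).1
    simpa using this
  have hup : hf P 1 ≤ a + 1 := by
    have := (hBd 1).2
    simp only [Finset.range_one, Finset.sum_singleton] at this
    have h1 : 1 + 0 + (a + 1) - 1 = a + 1 := by omega
    rw [h1, Nat.add_sub_cancel, Nat.choose_succ_self_right] at this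
    exact this
  have hlow1 : a + 1 ≤ hf P 1 := by
    have := hlow 1
    rwa [add_comm 1 a, Nat.choose_succ_self_right] at this
  have hX : ∀ j, (X j : S N) ∈ cut (J1 P) y (a + 1) := by
    intro j
    apply X_mem_cut_J1 hNN hup
    rw [mem_homogeneousSubmodule]
    exact isHomogeneous_X ℂ j
  set h := hf (cut (J1 P) y (a + 1)) with hh
  have hSm : ∀ l, Sm h l ≤ 1 := by
    intro l
    induction l with
    | zero => rw [Sm_zero]; exact hf_le_one_of_X hX 0
    | succ l ih =>
      rw [Sm_succ]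
      have : h (l + 1) = 0 := hf_eq_zero fun f hf => form_mem_of_X hX hf
      omega
  have hSM : ∀ l, SM (a + 1) h l ≤ (l + a).choose a := by
    intro l
    have := SM_upper hSm a l
    rwa [one_mul] at this
  have hJ1 : ∀ l, hf (J1 P) l ≤ (l + a).choose a := fun l =>
    (hf_le_SM (hom_J1 P) y (a + 1) l).trans (hSM l)
  have heq : J1 P = P := by
    apply eq_of_hf_eq hP.hom (J1_le P)
    intro l
    exact le_antisymm ((hJ1 l).trans (hlow l)) (hf_anti (J1_le P) l)
  refine ⟨heq.symm, ?_, le_antisymm hup hlow1⟩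
  intro l
  apply le_antisymm (hf_le_SM hP.hom y (a + 1) l)
  rw [heq] at hh
  rw [← hh]
  exact (hSM l).trans (hlow l)

theorem exists_L {N a : ℕ} {P : Ideal (S N)} (hJ : P = J1 P) (hf1 : hf P 1 = a + 1) :
    ∃ L : Fin (N + 1 - (a + 1)) → S N, (∀ i, L i ∈ Sd N 1) ∧ LinearIndependent ℂ L ∧
      P = Ideal.span (Set.range L) := by
  have h1 := hf_add_ker P 1
  rw [finrank_Sd_one] at h1
  set V : Submodule ℂ (S N) := (LinearMap.ker (resl P 1)).map (Sd N 1).subtype with hV
  have hVmem : ∀ f, f ∈ V ↔ f ∈ P ∧ f ∈ Sd N 1 := by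
    intro f
    constructor
    · rintro ⟨g, hg, rfl⟩
      exact ⟨(mem_ker_resl P 1 g).1 hg, g.2⟩
    · rintro ⟨hfP, hfS⟩
      exact ⟨⟨f, hfS⟩, (mem_ker_resl P 1 ⟨f, hfS⟩).2 hfP, rfl⟩
  have h2 : Module.finrank ℂ V = N + 1 - (a + 1) := by
    have : Module.finrank ℂ V = Module.finrank ℂ (LinearMap.ker (resl P 1)) :=
      (LinearEquiv.finrank_eq (Submodule.equivMapOfInjective (Sd N 1).subtype
        (Sd N 1).injective_subtype _)).symm
    omega
  have hfin : Module.Finite ℂ V := by
    rw [hV]; infer_instance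
  let b : Module.Basis (Fin (N + 1 - (a + 1))) ℂ V := Module.finBasisOfFinrankEq ℂ V h2
  refine ⟨fun i => (b i : S N), fun i => ((hVmem _).1 (b i).2).2, ?_, ?_⟩
  · exact LinearIndependent.map' b.linearIndependent V.subtype (Submodule.ker_subtype _)
  · apply le_antisymm
    · conv_lhs => rw [hJ]
      rw [J1, Ideal.span_le]
      rintro f ⟨hfP, hfS⟩
      have h4 := b.sum_repr ⟨f, (hVmem f).2 ⟨hfP, hfS⟩⟩
      have h5 : f = ∑ i, (b.repr ⟨f, (hVmem f).2 ⟨hfP, hfS⟩⟩ i) • (b i : S N) := by
        have := congrArg (fun z : V => (z : S N)) h4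
        simp only [Submodule.coe_sum, Submodule.coe_smul] at this
        exact this.symm
      rw [SetLike.mem_coe, h5]
      apply Ideal.sum_mem
      intro i _
      rw [smul_eq_C_mul]
      exact Ideal.mul_mem_left _ _ (Ideal.subset_span ⟨i, rfl⟩)
    · rw [Ideal.span_le]
      rintro _ ⟨i, rfl⟩
      exact ((hVmem _).1 (b i).2).1

/-! ## the induction -/

/-- lists of homogeneous ideals with dimension bounds -/
def Good {N : ℕ} (Λ : List (Ideal (S N) × ℕ)) : Prop :=
  ∀ p ∈ Λ, Hom p.1 ∧ ∀ q, HP q → p.1 ≤ q → md q ≤ p.2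

/-- flags in general position with respect to a list -/
def FlagFor {N : ℕ} (Λ : List (Ideal (S N) × ℕ)) (y : ℕ → Fin (N + 1) → ℚ) : Prop :=
  ∀ p ∈ Λ, ∀ j, PNN p.1 p.2 (fun a : Fin j => y a)

theorem exists_flagFor {N : ℕ} {Λ : List (Ideal (S N) × ℕ)} (h : Good Λ) :
    ∃ y, FlagFor Λ y := by
  obtain ⟨y, hy⟩ := exists_flag (ι := Fin Λ.length) (fun i => (Λ.get i).1) (fun i => (Λ.get i).2)
    (fun i => (h _ (List.get_mem Λ i)).1) (fun i => (h _ (List.get_mem Λ i)).2)
  refine ⟨y, fun p hp j => ?_⟩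
  obtain ⟨i, hi⟩ := List.get_of_mem hp
  rw [← hi]
  exact hy i j

theorem choose_mono_add' (l a b : ℕ) (h : a ≤ b) : (l + a).choose a ≤ (l + b).choose b := by
  rw [← Nat.choose_symm_add, ← Nat.choose_symm_add (a := l) (b := b)]
  exact Nat.choose_le_choose l (by omega)

/-- small degree forces the annihilators of elements of `P` to have small dimension -/
theorem md_small {N : ℕ} {J P q : Ideal (S N)} (hJ : Hom J) (hJP : J ≤ P)
    {a t e : ℕ} (hup : ∀ l, hf J l ≤ t * (l + a).choose a) (he : Bd P (a + 1) e) (hte : t ≤ e)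
    {γ : ℕ} {x : S N} (hx : x ∈ Sd N γ) (hxP : x ∈ P) (hq : HP q) (hxq : cln J x ≤ q) :
    md q ≤ a := by
  by_contra hlt
  push Not at hlt
  have h1 : ∀ l, (e + 1) * (l + a).choose a ≤ t * (l + (e + γ) + a).choose a := by
    intro l
    have h2 := hf_colon hJ hx (l + e)
    have h3 : hf P (l + e + γ) ≤ hf (J ⊔ Ideal.span {x}) (l + e + γ) := by
      apply hf_anti
      exact sup_le hJP (by rw [Ideal.span_le]; rintro _ rfl; exact hxP)
    have h4 : hf q (l + e) ≤ hf (cln J x) (l + e) := hf_anti hxq _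
    have h5 := hf_lower' hq (by omega) (l + e)
    have h6 : (l + a).choose a ≤ (l + e + md q - 1).choose (md q - 1) := by
      have e1 : l + e + md q - 1 = l + e + (md q - 1) := by omega
      rw [e1]
      refine (choose_mono_add' l a (md q - 1) (by omega)).trans ?_
      exact Nat.choose_le_choose _ (by omega)
    have h7 : e * (l + a).choose a ≤ hf P (l + e + γ) := by
      have h8 := (he (l + γ + e)).1
      have h9 := sum_lower e (l + γ) a
      have h10 : (l + a).choose a ≤ (l + γ + a).choose a := Nat.choose_le_choose _ (by omega)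
      have e2 : l + e + γ = l + γ + e := by ring
      rw [e2]
      exact (Nat.mul_le_mul_left e h10).trans (h9.trans h8)
    have h11 := hup (l + e + γ)
    have e3 : l + (e + γ) + a = l + e + γ + a := by ring
    rw [e3]
    have e4 : (e + 1) * (l + a).choose a = e * (l + a).choose a + (l + a).choose a := by ring
    rw [e4]
    omega
  have := le_of_growth h1
  omega

theorem ci_aux {N : ℕ} : ∀ (r : ℕ) (F : Fin r → S N) (d : Fin r → ℕ) (P : Ideal (S N)),
    Chain r F d P → 1 ≤ md P → ∃ Λ : List (Ideal (S N) × ℕ), Good Λ ∧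
      (∀ y, FlagFor Λ y → Reg P y (md P)) ∧
      ∃ L : Fin (N + 1 - (md P + r)) → S N, (∀ i, L i ∈ Sd N 1) ∧ LinearIndependent ℂ L ∧
        P = Ideal.span (Set.range F ∪ Set.range L) := by
  intro r
  induction r with
  | zero =>
    intro F d P hC hm
    obtain ⟨hP, hBd⟩ := hC
    obtain ⟨a, ha⟩ : ∃ a, md P = a + 1 := ⟨md P - 1, by omega⟩
    have hgood : Good [(P, md P)] := by
      intro p hp
      rw [List.mem_singleton] at hp
      subst hp
      exact ⟨hP.hom, fun q hq hle => md_le hP hq hle⟩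
    have hBd' : Bd P (a + 1) 1 := ha ▸ hBd
    have hy' : ∀ y, FlagFor [(P, md P)] y → PNN P (a + 1) fun i : Fin (a + 1) => y i := by
      intro y hy
      have := hy (P, md P) (List.mem_singleton.2 rfl) (a + 1)
      rwa [ha] at this
    refine ⟨[(P, md P)], hgood, ?_, ?_⟩
    · intro y hy
      rw [ha]
      exact (deg_one hP ha hBd' (hy' y hy)).2.1
    · obtain ⟨y, hy⟩ := exists_flagFor hgood
      obtain ⟨h1, -, h3⟩ := deg_one hP ha hBd' (hy' y hy)
      obtain ⟨L, hL1, hL2, hL3⟩ := exists_L h1 h3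
      have hcast : N + 1 - (md P + 0) = N + 1 - (a + 1) := by rw [ha]
      refine ⟨fun i => L (Fin.cast hcast i), fun i => hL1 _, ?_, ?_⟩
      · exact hL2.comp _ (Fin.cast_injective hcast)
      · have hr1 : Set.range F = ∅ := Set.range_eq_empty F
        have hr2 : (Set.range fun i => L (Fin.cast hcast i)) = Set.range L := by
          ext z
          constructor
          · rintro ⟨i, rfl⟩; exact ⟨_, rfl⟩
          · rintro ⟨i, rfl⟩; exact ⟨Fin.cast hcast.symm i, by simp⟩
        rw [hr1, hr2, Set.empty_union]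
        exact hL3
  | succ r ih =>
    intro F d P hC hm
    obtain ⟨hP, Q, s, e, hCQ, hQ, hQP, hmd, hFS, hd, hFQ, hFP, hBQ, hBP, hse⟩ := hC
    set G := F (Fin.last r) with hG
    set dG := d (Fin.last r) with hdG
    obtain ⟨a, ha⟩ : ∃ a, md P = a + 1 := ⟨md P - 1, by omega⟩
    obtain ⟨ΛQ, hΛQ, hregQ, L, hL1, hL2, hL3⟩ := ih _ _ Q hCQ (by omega)
    set J := Q ⊔ Ideal.span {G} with hJdef
    have hJ : Hom J := hom_sup_span hQ.hom hFS
    have hJP : J ≤ P := sup_le hQP (by rw [Ideal.span_le]; rintro _ rfl; exact hFP)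
    have hGJ : G ∈ J := Ideal.mem_sup_right (Ideal.mem_span_singleton_self G)
    set Λ : List (Ideal (S N) × ℕ) := (Q, md Q) :: (J, md P) :: ΛQ with hΛ
    have hgood : Good Λ := by
      intro p hp
      rw [hΛ, List.mem_cons, List.mem_cons] at hp
      rcases hp with rfl | rfl | hp
      · exact ⟨hQ.hom, fun q hq hle => md_le hQ hq hle⟩
      · refine ⟨hJ, fun q hq hle => ?_⟩
        have hQq : Q < q := by
          apply lt_of_le_of_ne (le_sup_left.trans hle)
          rintro rfl
          exact hFQ (hle hGJ)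
        have := md_lt hQ hq hQq
        change md q ≤ md P
        omega
      · exact hΛQ p hp
    -- consequences of a good flag
    have key : ∀ y, FlagFor Λ y → Reg J y (a + 1) ∧
        ∀ l, hf J l ≤ s * dG * (l + a).choose a := by
      intro y hy
      have hyQ : FlagFor ΛQ y := fun p hp => hy p (by
        rw [hΛ, List.mem_cons, List.mem_cons]; exact Or.inr (Or.inr hp))
      have hreg : Reg Q y (a + 1 + 1) := by
        have := hregQ y hyQ
        rwa [hmd, ha] at this
      have hpQ : PNN Q (a + 1 + 1) (fun i : Fin (a + 1 + 1) => y i) := by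
        have := hy (Q, md Q) (by rw [hΛ]; exact List.mem_cons_self) (a + 1 + 1)
        rwa [hmd, ha] at this
      have hpJ : PNN J (a + 1) (fun i : Fin (a + 1) => y i) := by
        have := hy (J, md P) (by
          rw [hΛ]; exact List.mem_cons_of_mem _ List.mem_cons_self) (a + 1)
        rwa [ha] at this
      obtain ⟨M0, hM0⟩ := irrelevant_of_pnn hQ.hom _ hpQ
      obtain ⟨M1, hM1⟩ := irrelevant_of_pnn hJ _ hpJ
      have hM0' : ∀ l, M0 ≤ l → ∀ f ∈ Sd N l, f ∈ cut Q y (a + 1 + 1) := hM0
      have hM1' : ∀ l, M1 ≤ l → ∀ f ∈ Sd N l, f ∈ cut Q y (a + 1) ⊔ Ideal.span {G} := by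
        intro l hl f hf
        have := hM1 l hl f hf
        change f ∈ cut (Q ⊔ Ideal.span {G}) y (a + 1) at this
        rwa [cut_sup] at this
      have hBQ' : Bd Q (a + 1 + 1) s := by
        rwa [hmd, ha] at hBQ
      have hFK := cln_form_eq hQ.hom hFS hreg hM0' hM1'
      have hK := hf_cut_le hQ.hom hreg hM0' hBQ'
      have hregJ : Reg J y (a + 1) :=
        Reg.sup hQ.hom hFS (hreg.pred hQ.hom).1 (cln_prime hQ.prime hFQ) hFK
      exact ⟨hregJ, hf_sup_upper hQ.hom hFS hK hFK hregJ⟩
    -- `P = J`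
    have hPJ : P = J := by
      by_contra hne
      have hex : ∃ (γ : ℕ) (x : S N), x ∈ Sd N γ ∧ x ∈ P ∧ x ∉ J := by
        by_contra hno
        push Not at hno
        apply hne
        exact le_antisymm (le_of_agree hP.hom fun l f hf hfP => hno l f hf hfP) hJP
      obtain ⟨γ, x, hx, hxP, hxJ⟩ := hex
      obtain ⟨y, hy⟩ := exists_flagFor hgood
      have hBP' : Bd P (a + 1) e := by rwa [ha] at hBP
      have hsmall : ∀ q, HP q → cln J x ≤ q → md q ≤ a := fun q hq hle =>
        md_small hJ hJP (key y hy).2 hBP' hse hx hxP hq hle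
      have hgood' : Good ((cln J x, a) :: Λ) := by
        intro p hp
        rw [List.mem_cons] at hp
        rcases hp with rfl | hp
        · exact ⟨hom_cln hJ hx, hsmall⟩
        · exact hgood p hp
      obtain ⟨y', hy'⟩ := exists_flagFor hgood'
      have hyΛ : FlagFor Λ y' := fun p hp => hy' p (List.mem_cons_of_mem _ hp)
      exact unmixed hJ (key y' hyΛ).1 hx hxJ
        (hy' (cln J x, a) List.mem_cons_self a)
    refine ⟨Λ, hgood, ?_, ?_⟩
    · intro y hy
      rw [ha, hPJ]
      exact (key y hy).1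
    · have hcast : N + 1 - (md P + (r + 1)) = N + 1 - (md Q + r) := by rw [hmd]; congr 1; ring
      refine ⟨fun i => L (Fin.cast hcast i), fun i => hL1 _, ?_, ?_⟩
      · exact hL2.comp _ (Fin.cast_injective hcast)
      · have hr2 : (Set.range fun i => L (Fin.cast hcast i)) = Set.range L := by
          ext z
          constructor
          · rintro ⟨i, rfl⟩; exact ⟨_, rfl⟩
          · rintro ⟨i, rfl⟩; exact ⟨Fin.cast hcast.symm i, by simp⟩
        have hr1 : Set.range F = Set.range (fun i : Fin r => F i.castSucc) ∪ {G} := by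
          ext z
          simp only [Set.mem_range, Set.union_singleton, Set.mem_insert_iff]
          constructor
          · rintro ⟨i, rfl⟩
            refine Fin.lastCases ?_ (fun b => ?_) i
            · left; rfl
            · right; exact ⟨b, rfl⟩
          · rintro (rfl | ⟨b, rfl⟩)
            · exact ⟨Fin.last r, rfl⟩
            · exact ⟨b.castSucc, rfl⟩
        rw [hr2, hr1, Set.union_right_comm, Ideal.span_union, ← hL3]
        exact hPJ

theorem ci {N r : ℕ} (F : Fin r → S N) (d : Fin r → ℕ) (P : Ideal (S N)) (h : Chain r F d P)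
    (hm : 2 ≤ md P) :
    ∃ L : Fin (N + 1 - (md P + r)) → S N, (∀ i, L i ∈ Sd N 1) ∧ LinearIndependent ℂ L ∧
      P = Ideal.span (Set.range F ∪ Set.range L) := by
  obtain ⟨-, -, -, hL⟩ := ci_aux r F d P h (by omega)
  exact hL

end SepCI
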