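import Pool.Agent.SepCI.Defs

/-!
# M6: transcendence degree of homogeneous primes
-/

set_option autoImplicit false

namespace SepCI

open MvPolynomial Cardinal

attribute [local instance] MvPolynomial.gradedAlgebra

theorem trdeg_lt_aleph {N : ℕ} (P : Ideal (S N)) : Algebra.trdeg ℂ (S N ⧸ P) < ℵ₀ :=
  trdeg_lt_aleph0_of_finiteType

theorem cast_md {N : ℕ} (P : Ideal (S N)) : (md P : Cardinal) = Algebra.trdeg ℂ (S N ⧸ P) :=
  Cardinal.cast_toNat_of_lt_aleph0 (trdeg_lt_aleph P)

theorem faithful_quot {N : ℕ} {P : Ideal (S N)} (hP : P.IsPrime) :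
    FaithfulSMul ℂ (S N ⧸ P) :=
  (faithfulSMul_iff_algebraMap_injective ℂ (S N ⧸ P)).mpr (algebraMap ℂ (S N ⧸ P)).injective

/-- a transcendence basis indexed by `Fin (md P)` -/
theorem exists_tb {N : ℕ} {P : Ideal (S N)} (hP : P.IsPrime) :
    ∃ x : Fin (md P) → S N ⧸ P, IsTranscendenceBasis ℂ x := by
  have := hP
  have := faithful_quot hP
  obtain ⟨ι, x, hx⟩ := exists_isTranscendenceBasis' ℂ (S N ⧸ P)
  have hc : #ι = Algebra.trdeg ℂ (S N ⧸ P) := hx.cardinalMk_eq_trdeg
  rw [← cast_md P] at hc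
  have hfin : Finite ι := by
    rw [← Cardinal.lt_aleph0_iff_finite, hc]
    exact Cardinal.natCast_lt_aleph0
  have := Fintype.ofFinite ι
  have hcard : Fintype.card ι = md P := by
    rw [Cardinal.mk_fintype] at hc
    exact_mod_cast hc
  let e : Fin (md P) ≃ ι := (Fintype.equivFinOfCardEq hcard).symm
  exact ⟨x ∘ e, hx.comp_equiv e⟩

/-- transcendence degree drops strictly in a strict inclusion of primes -/
theorem md_lt' {N : ℕ} {P P' : Ideal (S N)} (hP : P.IsPrime) (hP' : P'.IsPrime) (h : P < P') :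
    md P' < md P := by
  have := hP
  have := hP'
  have := faithful_quot hP
  have := faithful_quot hP'
  by_contra hcon
  push Not at hcon
  obtain ⟨x', hx'⟩ := exists_tb hP'
  let π : S N ⧸ P →ₐ[ℂ] S N ⧸ P' := Ideal.Quotient.factorₐ ℂ h.le
  have hsurj : Function.Surjective π := Ideal.Quotient.factor_surjective h.le
  -- the first `md P` elements
  let y' : Fin (md P) → S N ⧸ P' := fun i => x' (Fin.castLE hcon i)
  have hy' : AlgebraicIndependent ℂ y' :=
    hx'.1.comp (Fin.castLE hcon) (Fin.castLE_injective hcon)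
  choose y hy using fun i => hsurj (y' i)
  have hπy : π ∘ y = y' := funext hy
  have hyi : AlgebraicIndependent ℂ y := by
    apply AlgebraicIndependent.of_comp π
    rw [hπy]; exact hy'
  have htb : IsTranscendenceBasis ℂ y := by
    apply hyi.isTranscendenceBasis_of_lift_trdeg_le_of_finite
    rw [← cast_md P]
    simp
  have halg : Algebra.IsAlgebraic (Algebra.adjoin ℂ (Set.range y)) (S N ⧸ P) := htb.isAlgebraic
  -- a nonzero element of the kernel
  obtain ⟨f, hfP', hfP⟩ := Set.exists_of_ssubset h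
  have hf0 : (Ideal.Quotient.mk P f) ≠ 0 := by
    rw [Ne, Ideal.Quotient.eq_zero_iff_mem]; exact hfP
  have hπf : π (Ideal.Quotient.mk P f) = 0 := by
    change Ideal.Quotient.mk P' f = 0
    rw [Ideal.Quotient.eq_zero_iff_mem]; exact hfP'
  obtain ⟨r, hr, g, hg⟩ := (halg.isAlgebraic (Ideal.Quotient.mk P f)).exists_nonzero_dvd
    (mem_nonZeroDivisors_of_ne_zero hf0)
  have hπr : π (r : S N ⧸ P) = 0 := by
    have : (r : S N ⧸ P) = Ideal.Quotient.mk P f * g := hg
    rw [this, map_mul, hπf, zero_mul]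
  -- `r = aeval y p`
  have hrm : ∀ z ∈ Algebra.adjoin ℂ (Set.range y), ∃ p : MvPolynomial (Fin (md P)) ℂ, aeval y p = z := by
    intro z hz
    rw [Algebra.adjoin_range_eq_range_aeval] at hz
    exact hz
  obtain ⟨p, hp⟩ := hrm _ r.2
  have hp' : aeval y p = (r : S N ⧸ P) := hp
  have hp0 : aeval y' p = 0 := by
    have : aeval y' p = π (aeval y p) := by
      have e : aeval (π ∘ y) = π.comp (aeval y : MvPolynomial (Fin (md P)) ℂ →ₐ[ℂ] S N ⧸ P) := by
        ext; simp
      rw [← hπy, e]; rfl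
    rw [this, hp', hπr]
  have hpz : p = 0 := by
    apply hy'
    rw [hp0, map_zero]
  apply hr
  apply Subtype.ext
  rw [← hp', hpz, map_zero]
  rfl

/-- transcendence degree drops strictly in a strict inclusion of homogeneous primes -/
theorem md_lt {N : ℕ} {P P' : Ideal (S N)} (hP : HP P) (hP' : HP P') (h : P < P') :
    md P' < md P := md_lt' hP.prime hP'.prime h

theorem md_le' {N : ℕ} {P P' : Ideal (S N)} (hP : P.IsPrime) (hP' : P'.IsPrime) (h : P ≤ P') :
    md P' ≤ md P := by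
  rcases eq_or_lt_of_le h with h | h
  · rw [h]
  · exact (md_lt' hP hP' h).le

theorem md_le {N : ℕ} {P P' : Ideal (S N)} (hP : HP P) (hP' : HP P') (h : P ≤ P') :
    md P' ≤ md P := md_le' hP.prime hP'.prime h

theorem md_bot (N : ℕ) : md (⊥ : Ideal (S N)) = N + 1 := by
  have e : (S N ⧸ (⊥ : Ideal (S N))) ≃ₐ[ℂ] S N := AlgEquiv.quotientBot ℂ (S N)
  have h1 : Algebra.trdeg ℂ (S N ⧸ (⊥ : Ideal (S N))) = Algebra.trdeg ℂ (S N) := e.trdeg_eq
  have h2 : Algebra.trdeg ℂ (S N) = (N + 1 : ℕ) := by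
    rw [MvPolynomial.trdeg_of_isDomain]
    simp
  rw [md, h1, h2]
  simp

theorem hp_bot (N : ℕ) : HP (⊥ : Ideal (S N)) :=
  ⟨Ideal.isPrime_bot, Ideal.IsHomogeneous.bot _⟩

theorem md_le_top {N : ℕ} {P : Ideal (S N)} (hP : HP P) : md P ≤ N + 1 := by
  rw [← md_bot N]
  exact md_le (hp_bot N) hP bot_le

theorem md_eq_zero {N : ℕ} {P : Ideal (S N)} (hP : HP P) :
    md P = 0 ↔ ∀ j, (X j : S N) ∈ P := by
  have := hP.prime
  have := faithful_quot hP.prime
  constructor
  · intro h j
    have h0 : Algebra.trdeg ℂ (S N ⧸ P) = 0 := by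
      rw [← cast_md P, h]; simp
    have halg : Algebra.IsAlgebraic ℂ (S N ⧸ P) := trdeg_eq_zero_iff.mp h0
    have hint : Algebra.IsIntegral ℂ (S N ⧸ P) := Algebra.isAlgebraic_iff_isIntegral.mp halg
    obtain ⟨c, hc⟩ := (IsAlgClosed.algebraMap_bijective_of_isIntegral
      (k := ℂ) (K := S N ⧸ P)).2 (Ideal.Quotient.mk P (X j))
    have hmem : (X j : S N) - C c ∈ P := by
      rw [← Ideal.Quotient.eq_zero_iff_mem, map_sub, sub_eq_zero, ← hc]
      rfl
    have := homogeneousComponent_mem_of_mem hP.hom hmem 1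
    rw [map_sub, homogeneousComponent_of_mem (m := 1) (n := 1) (isHomogeneous_X _ _),
      homogeneousComponent_of_mem (m := 1) (n := 0) (isHomogeneous_C _ _)] at this
    simpa using this
  · intro h
    have hsurj : ∀ z : S N ⧸ P, ∃ c : ℂ, algebraMap ℂ (S N ⧸ P) c = z := by
      intro z
      obtain ⟨f, rfl⟩ := Ideal.Quotient.mk_surjective z
      induction f using MvPolynomial.induction_on with
      | C a => exact ⟨a, rfl⟩
      | add p q hp hq =>
        obtain ⟨a, ha⟩ := hp
        obtain ⟨b, hb⟩ := hq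
        exact ⟨a + b, by rw [map_add, map_add, ha, hb]⟩
      | mul_X p j hp =>
        refine ⟨0, ?_⟩
        rw [map_zero, eq_comm, Ideal.Quotient.eq_zero_iff_mem]
        exact P.mul_mem_left _ (h j)
    have halg : Algebra.IsAlgebraic ℂ (S N ⧸ P) := by
      constructor
      intro z
      obtain ⟨c, rfl⟩ := hsurj z
      exact isAlgebraic_algebraMap c
    rw [md, trdeg_eq_zero]
    simp

end SepCI
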