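import Pool.Agent.SepCI.PackGr
import Pool.Agent.SepCI.Basic
import Pool.Agent.SepCI.Dim

set_option autoImplicit false

/-! # Hopf lemma (linear Cauchy-Davenport) and consequences for the Hilbert function -/

namespace SepCI

open MvPolynomial

attribute [local instance] MvPolynomial.gradedAlgebra

section hopf

variable {k L : Type*} [Field k] [IsAlgClosed k] [Field L] [Algebra k L]

theorem hopf_aux (n : ℕ) : ∀ (E F : Submodule k L), FiniteDimensional k E → FiniteDimensional k F →
    Module.finrank k F = n → E ≠ ⊥ → (1 : L) ∈ F →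
    Module.finrank k E + Module.finrank k F ≤ Module.finrank k (E * F : Submodule k L) + 1 := by
  induction n using Nat.strong_induction_on with
  | _ n ih =>
  intro E F hE hF hn hE0 h1F
  have hEF : FiniteDimensional k (E * F : Submodule k L) :=
    Module.Finite.iff_fg.mpr ((Module.Finite.iff_fg.mp hE).mul (Module.Finite.iff_fg.mp hF))
  by_cases hsub : ∀ e ∈ E, ∀ f ∈ F, e * f ∈ E
  · -- every `f ∈ F` is a scalar
    have hscal : ∀ f ∈ F, ∃ t : k, algebraMap k L t = f := by
      intro f hf
      have halg : IsIntegral k f := by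
        obtain ⟨e, he, he0⟩ := Submodule.exists_mem_ne_zero_of_ne_bot hE0
        refine isIntegral_of_smul_mem_submodule E hE0 (Module.Finite.iff_fg.mp hE) f ?_
        intro x hx
        rw [smul_eq_mul, mul_comm]
        exact hsub x hx f hf
      have hspl := IsAlgClosed.splits (minpoly k f)
      have hdeg := IsAlgClosed.degree_eq_one_of_irreducible k (minpoly.irreducible halg)
      exact minpoly.mem_range_of_degree_eq_one k f hdeg
    have hF1 : F ≤ Submodule.span k {(1 : L)} := by
      intro f hf
      obtain ⟨t, ht⟩ := hscal f hf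
      rw [Submodule.mem_span_singleton]
      exact ⟨t, by rw [← ht, Algebra.smul_def, mul_one]⟩
    have h2 : Module.finrank k F ≤ 1 := by
      refine le_trans (Submodule.finrank_mono hF1) ?_
      exact (finrank_span_singleton (K := k) (one_ne_zero (α := L))).le
    have h3 : E ≤ E * F := by
      intro e he
      have := Submodule.mul_mem_mul he h1F
      rwa [mul_one] at this
    have h4 := Submodule.finrank_mono h3
    omega
  · push Not at hsub
    obtain ⟨e, he, f₀, hf₀, hef⟩ := hsub
    have he0 : e ≠ 0 := by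
      rintro rfl
      apply hef
      rw [zero_mul]
      exact E.zero_mem
    -- multiplication by `e`
    set μ : L →ₗ[k] L := LinearMap.mulLeft k e with hμ
    have hμi : Function.Injective μ := by
      intro a b hab
      exact mul_left_cancel₀ he0 hab
    set G : Submodule k L := F.map μ with hG
    set F' : Submodule k L := F ⊓ E.comap μ with hF'
    set E' : Submodule k L := E ⊔ G with hE'
    have hGfin : FiniteDimensional k G := inferInstanceAs (FiniteDimensional k (F.map μ))
    have hF'fin : FiniteDimensional k F' := Submodule.finiteDimensional_of_le (inf_le_left : F' ≤ F)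
    have hE'fin : FiniteDimensional k E' := inferInstanceAs (FiniteDimensional k (E ⊔ G : Submodule k L))
    have hGrank : Module.finrank k G = Module.finrank k F :=
      (LinearEquiv.finrank_eq (Submodule.equivMapOfInjective μ hμi F)).symm
    have hinf : (E ⊓ G : Submodule k L) = F'.map μ := by
      ext z
      constructor
      · rintro ⟨hz1, f, hf, rfl⟩
        exact ⟨f, ⟨hf, hz1⟩, rfl⟩
      · rintro ⟨f, ⟨hf, hf2⟩, rfl⟩
        exact ⟨hf2, f, hf, rfl⟩
    have hinfrank : Module.finrank k (E ⊓ G : Submodule k L) = Module.finrank k F' := by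
      rw [hinf]
      exact (LinearEquiv.finrank_eq (Submodule.equivMapOfInjective μ hμi F')).symm
    have hsum := Submodule.finrank_sup_add_finrank_inf_eq E G
    rw [hGrank, hinfrank] at hsum
    have hlt : F' < F := by
      refine lt_of_le_of_ne inf_le_left ?_
      intro h
      have : f₀ ∈ F' := by rw [h]; exact hf₀
      exact hef this.2
    have hltr := Submodule.finrank_lt_finrank_of_lt hlt
    have h1F' : (1 : L) ∈ F' := by
      refine ⟨h1F, ?_⟩
      show e * 1 ∈ E
      rwa [mul_one]
    have hE'0 : E' ≠ ⊥ := by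
      intro h
      apply hE0
      rw [eq_bot_iff, ← h]
      exact le_sup_left
    have h5 := ih _ (by rw [← hn]; exact hltr) E' F' hE'fin hF'fin rfl hE'0 h1F'
    have h6 : E' * F' ≤ E * F := by
      rw [hE', Submodule.sup_mul]
      apply sup_le
      · rw [Submodule.mul_le]
        intro e' he' f' hf'
        exact Submodule.mul_mem_mul he' hf'.1
      · rw [Submodule.mul_le]
        rintro z ⟨g, hg, rfl⟩ f' hf'
        have h7 : e * f' ∈ E := hf'.2
        have h8 : μ g * f' = (e * f') * g := by
          show e * g * f' = e * f' * g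
          ring
        rw [h8]
        exact Submodule.mul_mem_mul h7 hg
    have h9 := Submodule.finrank_mono h6
    have h10 : Module.finrank k (E ⊔ G : Submodule k L) = Module.finrank k E' := rfl
    omega

/-- Hopf lemma: for nonzero finite dimensional subspaces of an extension of an algebraically
closed field, `dim E + dim F ≤ dim (E * F) + 1`. -/
theorem hopf (E F : Submodule k L) [FiniteDimensional k E] [FiniteDimensional k F]
    (hE : E ≠ ⊥) (hF : F ≠ ⊥) :
    Module.finrank k E + Module.finrank k F ≤ Module.finrank k (E * F : Submodule k L) + 1 := by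
  obtain ⟨f₀, hf₀, hf0⟩ := Submodule.exists_mem_ne_zero_of_ne_bot hF
  set μ : L →ₗ[k] L := LinearMap.mulLeft k f₀⁻¹ with hμ
  have hμi : Function.Injective μ := by
    intro a b hab
    exact mul_left_cancel₀ (inv_ne_zero hf0) hab
  have hEF : FiniteDimensional k (E * F : Submodule k L) :=
    Module.Finite.iff_fg.mpr ((Module.Finite.iff_fg.mp inferInstance).mul
      (Module.Finite.iff_fg.mp inferInstance))
  have h1 : Module.finrank k (F.map μ) = Module.finrank k F :=
    (LinearEquiv.finrank_eq (Submodule.equivMapOfInjective μ hμi F)).symm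
  have h2 := hopf_aux (Module.finrank k (F.map μ)) E (F.map μ) inferInstance inferInstance rfl hE
    ⟨f₀, hf₀, by show f₀⁻¹ * f₀ = 1; exact inv_mul_cancel₀ hf0⟩
  have h3 : E * F.map μ ≤ (E * F).map μ := by
    rw [Submodule.mul_le]
    rintro e he z ⟨f, hf, rfl⟩
    refine ⟨e * f, Submodule.mul_mem_mul he hf, ?_⟩
    show f₀⁻¹ * (e * f) = e * (f₀⁻¹ * f)
    ring
  have h4 := Submodule.finrank_mono h3
  have h5 := Submodule.finrank_map_le μ (E * F)
  omega

end hopf

theorem exists_X_notMem {N : ℕ} {P : Ideal (S N)} (hP : HP P) (hm : 1 ≤ md P) :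
    ∃ j, (X j : S N) ∉ P := by
  by_contra h
  push Not at h
  have := (md_eq_zero hP).2 h
  omega

theorem hf_add {N : ℕ} {P : Ideal (S N)} (hP : HP P) (hm : 1 ≤ md P) (a b : ℕ) :
    hf P a + hf P b ≤ hf P (a + b) + 1 := by
  have := hP.prime
  obtain ⟨j, hj⟩ := exists_X_notMem hP hm
  let L := FractionRing (S N ⧸ P)
  let ι : (S N ⧸ P) →ₗ[ℂ] L := (IsScalarTower.toAlgHom ℂ (S N ⧸ P) L).toLinearMap
  have hι : Function.Injective ι := IsFractionRing.injective (S N ⧸ P) L
  set E : ℕ → Submodule ℂ L := fun l =>
    ((Sd N l).map (Ideal.Quotient.mkₐ ℂ P).toLinearMap).map ι with hE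
  have hrank : ∀ l, Module.finrank ℂ (E l) = hf P l := by
    intro l
    exact (LinearEquiv.finrank_eq (Submodule.equivMapOfInjective ι hι _)).symm
  have hfin : ∀ l, FiniteDimensional ℂ (E l) := by
    intro l
    infer_instance
  have hne : ∀ l, E l ≠ ⊥ := by
    intro l h
    have h1 : ι (Ideal.Quotient.mk P (X j ^ l)) ∈ E l := by
      refine ⟨_, ⟨X j ^ l, ?_, rfl⟩, rfl⟩
      exact isHomogeneous_X_pow j l
    rw [h, Submodule.mem_bot] at h1
    have h2 : Ideal.Quotient.mk P (X j ^ l) = 0 := by
      apply hι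
      rw [h1, map_zero]
    rw [Ideal.Quotient.eq_zero_iff_mem] at h2
    exact hj (this.mem_of_pow_mem l h2)
  have hmul : E a * E b ≤ E (a + b) := by
    rw [Submodule.mul_le]
    rintro _ ⟨_, ⟨f, hf, rfl⟩, rfl⟩ _ ⟨_, ⟨g, hg, rfl⟩, rfl⟩
    refine ⟨_, ⟨f * g, IsHomogeneous.mul hf hg, rfl⟩, ?_⟩
    show algebraMap (S N ⧸ P) L (Ideal.Quotient.mk P (f * g)) =
      algebraMap (S N ⧸ P) L (Ideal.Quotient.mk P f) * algebraMap (S N ⧸ P) L (Ideal.Quotient.mk P g)
    rw [map_mul, map_mul]
  have h1 := hopf (E a) (E b) (hne a) (hne b)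
  have h2 := Submodule.finrank_mono hmul
  rw [hrank, hrank] at h1
  rw [hrank] at h2
  omega

theorem hf_mono {N : ℕ} {P : Ideal (S N)} (hP : HP P) (hm : 1 ≤ md P) : Monotone (hf P) := by
  apply monotone_nat_of_le_succ
  intro l
  have h1 := hf_add hP hm l 1
  obtain ⟨j, hj⟩ := exists_X_notMem hP hm
  have h2 : 1 ≤ hf P 1 := by
    rw [hf, Nat.one_le_iff_ne_zero]
    intro h0
    rw [Submodule.finrank_eq_zero] at h0
    have h3 : Ideal.Quotient.mk P (X j) ∈ (Sd N 1).map (Ideal.Quotient.mkₐ ℂ P).toLinearMap :=
      ⟨X j, isHomogeneous_X ℂ j, rfl⟩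
    rw [h0, Submodule.mem_bot, Ideal.Quotient.eq_zero_iff_mem] at h3
    exact hj h3
  omega

theorem hf_upper {N : ℕ} (P : Ideal (S N)) (l : ℕ) : hf P l ≤ (l + N).choose N := by
  refine le_trans (hf_le_finrank P l) (le_of_eq ?_)
  have := finrank_forms (m := N + 1) (by omega) l
  simpa using this

end SepCI
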