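import Pool.Agent.SepCI.Growth2
import Pool.Agent.SepCI.Acl
import Pool.Agent.SepCI.Hopf

/-!
# M18: existence of a curve of small degree in every complete intersection
-/

set_option autoImplicit false

namespace SepCI

open MvPolynomial Finset

attribute [local instance] MvPolynomial.gradedAlgebra

theorem card_mon (N l : ℕ) : Fintype.card (Mon N l) = (l + N).choose N := by
  have e : Mon N l ≃ Sym (Fin (N + 1)) l :=
    (Equiv.subtypeEquivRight (fun m => by
      rw [Finsupp.degree_apply]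
      rfl)).trans (Sym.equivNatSum (Fin (N + 1)) l).symm
  rw [Fintype.card_congr e, Sym.card_sym_eq_choose, Fintype.card_fin]
  have h1 : N + 1 + l - 1 = l + N := by omega
  rw [h1, ← Nat.choose_symm_add]

theorem hf_bot (N l : ℕ) : hf (⊥ : Ideal (S N)) l = (l + N).choose N := by
  have h1 := hf_add_ker (⊥ : Ideal (S N)) l
  have h2 : LinearMap.ker (resl (⊥ : Ideal (S N)) l) = ⊥ := by
    rw [Submodule.eq_bot_iff]
    intro f hf
    rw [mem_ker_resl] at hf
    exact Subtype.ext hf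
  rw [h2, finrank_bot, finrank_Sd, card_mon] at h1
  exact h1

theorem Bd_bot (N : ℕ) : Bd (⊥ : Ideal (S N)) (N + 1) 1 := by
  intro l
  rw [hf_bot]
  simp

/-- successive intersection with forms -/
theorem exists_cut {N : ℕ} (G : ℕ → S N) (D : ℕ → ℕ) (hG : ∀ i, G i ∈ Sd N (D i))
    (hD : ∀ i, 1 ≤ D i) (t : ℕ) (ht : t + 1 ≤ N) :
    ∃ (P : Ideal (S N)) (e : ℕ), HP P ∧ (∀ i, i < t → G i ∈ P) ∧ md P = N + 1 - t ∧
      Bd P (N + 1 - t) e ∧ e ≤ ∏ i ∈ range t, D i := by
  induction t with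
  | zero =>
    refine ⟨⊥, 1, hp_bot N, fun i hi => absurd hi (by omega), md_bot N, Bd_bot N, ?_⟩
    simp
  | succ t ih =>
    obtain ⟨Q, s, hQ, hGQ, hmQ, hs, hsD⟩ := ih (by omega)
    have h1 : N + 1 - t = (N + 1 - (t + 1)) + 1 := by omega
    rw [h1] at hmQ hs
    obtain ⟨P, e, hP, hQP, hGP, hmP, he, hes⟩ := bezout hQ (by omega) hmQ hs (hD t) (hG t)
    refine ⟨P, e, hP, ?_, hmP, he, ?_⟩
    · intro i hi
      rcases Nat.lt_succ_iff_lt_or_eq.1 hi with h | h
      · exact hQP (hGQ i h)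
      · rw [h]
        exact hGP
    · rw [prod_range_succ]
      exact hes.trans (Nat.mul_le_mul_right _ hsD)

theorem exists_curve {N r : ℕ} (F : Fin r → S N) (d : Fin r → ℕ) (hF : ∀ i, F i ∈ Sd N (d i))
    (hd : ∀ i, 1 ≤ d i) (hr : r + 1 ≤ N) :
    ∃ (P : Ideal (S N)) (e : ℕ), HP P ∧ (∀ i, F i ∈ P) ∧ md P = 2 ∧ Bd P 2 e ∧
      e ≤ ∏ i, d i := by
  let G : ℕ → S N := fun i => if h : i < r then F ⟨i, h⟩ else X 0
  let D : ℕ → ℕ := fun i => if h : i < r then d ⟨i, h⟩ else 1
  have hG : ∀ i, G i ∈ Sd N (D i) := by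
    intro i
    by_cases h : i < r
    · simp only [G, D, dif_pos h]
      exact hF _
    · simp only [G, D, dif_neg h]
      exact isHomogeneous_X ℂ 0
  have hD : ∀ i, 1 ≤ D i := by
    intro i
    by_cases h : i < r
    · simp only [D, dif_pos h]
      exact hd _
    · simp only [D, dif_neg h]
      exact le_rfl
  obtain ⟨P, e, hP, hGP, hmP, he, heD⟩ := exists_cut G D hG hD (N - 1) (by omega)
  have h1 : N + 1 - (N - 1) = 2 := by omega
  rw [h1] at hmP he
  refine ⟨P, e, hP, ?_, hmP, he, heD.trans (le_of_eq ?_)⟩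
  · intro i
    have := hGP i.1 (by omega)
    simpa only [G, dif_pos i.2] using this
  · obtain ⟨q, hq⟩ : ∃ q, N - 1 = r + q := ⟨N - 1 - r, by omega⟩
    rw [hq, prod_range_add]
    have h2 : ∏ x ∈ range q, D (r + x) = 1 := by
      apply prod_eq_one
      intro x _
      have : ¬ (r + x < r) := by omega
      simp only [D, dif_neg this]
    rw [h2, mul_one, Finset.prod_range]
    apply prod_congr rfl
    intro i _
    simp only [D, dif_pos i.2]

end SepCI
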