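import Pool.Agent.SepCI.Basic
import Pool.Agent.SepCI.Dim
import Pool.Agent.SepCI.Numeric
import Pool.Agent.SepCI.Growth
import Pool.Agent.SepCI.Pack

/-!
# M7 (second half): degree of a multiplicity one component, Bezout
-/

set_option autoImplicit false

namespace SepCI

open MvPolynomial Finset

attribute [local instance] MvPolynomial.gradedAlgebra

/-! ### numerical lemmas -/

theorem fac_choose_le (x k : ℕ) : k.factorial * (x + k).choose k ≤ (x + k) ^ k := by
  rw [← Nat.descFactorial_eq_factorial_mul_choose]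
  exact Nat.descFactorial_le_pow _ _

theorem add_pow_ge (u d k : ℕ) : u ^ (k + 1) + d * (k + 1) * u ^ k ≤ (u + d) ^ (k + 1) := by
  induction k with
  | zero => simp
  | succ k ih =>
    have h1 : (u + d) ^ (k + 1 + 1) = (u + d) * (u + d) ^ (k + 1) := by ring
    rw [h1]
    have h2 := Nat.mul_le_mul_left (u + d) ih
    refine le_trans ?_ h2
    have h3 : (u + d) * (u ^ (k + 1) + d * (k + 1) * u ^ k) =
        u ^ (k + 1 + 1) + d * (k + 1 + 1) * u ^ (k + 1) + d * d * (k + 1) * u ^ k := by ring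
    rw [h3]
    exact Nat.le_add_right _ _

theorem pow_le_add (u v d : ℕ) (huv : u ≤ v) (hvd : v ≤ u + d) (k : ℕ) :
    v ^ (k + 1) ≤ u ^ (k + 1) + d * (k + 1) * v ^ k := by
  induction k with
  | zero => simpa using hvd
  | succ k ih =>
    have h1 : v ^ (k + 1 + 1) = v * v ^ (k + 1) := by ring
    rw [h1]
    have h2 : v * v ^ (k + 1) ≤ v * (u ^ (k + 1) + d * (k + 1) * v ^ k) :=
      Nat.mul_le_mul_left v ih
    have h3 : v * u ^ (k + 1) ≤ (u + d) * u ^ (k + 1) := Nat.mul_le_mul_right _ hvd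
    have h4 : d * u ^ (k + 1) ≤ d * v ^ (k + 1) :=
      Nat.mul_le_mul_left _ (Nat.pow_le_pow_left huv _)
    have h5 : v * (u ^ (k + 1) + d * (k + 1) * v ^ k) =
        v * u ^ (k + 1) + d * (k + 1) * v ^ (k + 1) := by ring
    have h6 : (u + d) * u ^ (k + 1) = u ^ (k + 1 + 1) + d * u ^ (k + 1) := by ring
    have h7 : d * (k + 1 + 1) * v ^ (k + 1) = d * (k + 1) * v ^ (k + 1) + d * v ^ (k + 1) := by
      ring
    omega

theorem sum_pow_upper (d a k n : ℕ) :
    d * (k + 1) * ∑ j ∈ range n, ((j + 1) * d + a) ^ k ≤ ((n + 1) * d + a) ^ (k + 1) := by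
  induction n with
  | zero => simp
  | succ n ih =>
    rw [sum_range_succ, mul_add]
    have h1 := add_pow_ge ((n + 1) * d + a) d k
    have h2 : (n + 1 + 1) * d + a = (n + 1) * d + a + d := by ring
    rw [h2]
    omega

theorem sum_pow_lower (d b k n : ℕ) :
    (n * d - b) ^ (k + 1) ≤ d * (k + 1) * ∑ j ∈ range n, ((j + 1) * d - b) ^ k := by
  induction n with
  | zero => simp
  | succ n ih =>
    rw [sum_range_succ, mul_add]
    have h0 : (n + 1) * d = n * d + d := by ring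
    have h1 := pow_le_add (n * d - b) ((n + 1) * d - b) d (by omega) (by omega) k
    omega

theorem asymp (a c0 c1 c2 b b' d k : ℕ) (hd : 1 ≤ d)
    (h : ∀ n : ℕ, a * (n * d - b) ^ (k + 2) ≤
      c0 + n * (c1 * (n * d + 1) ^ k) + c2 * (n * d + b') ^ (k + 2)) : a ≤ c2 := by
  have hinv : Filter.Tendsto (fun n : ℕ => (1 : ℝ) / n) Filter.atTop (nhds 0) :=
    tendsto_const_div_atTop_nhds_zero_nat 1
  have hlin : ∀ t : ℝ, Filter.Tendsto (fun n : ℕ => ((n : ℝ) * d + t) / n) Filter.atTop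
      (nhds (d : ℝ)) := by
    intro t
    have h1 : Filter.Tendsto (fun n : ℕ => (d : ℝ) + t * (1 / n)) Filter.atTop
        (nhds ((d : ℝ) + t * 0)) := (hinv.const_mul t).const_add _
    rw [mul_zero, add_zero] at h1
    refine h1.congr' ?_
    filter_upwards [Filter.eventually_gt_atTop 0] with n hn
    have : (n : ℝ) ≠ 0 := by positivity
    field_simp
  have hL : Filter.Tendsto (fun n : ℕ => (a : ℝ) * (((n : ℝ) * d + (-b)) / n) ^ (k + 2))
      Filter.atTop (nhds ((a : ℝ) * (d : ℝ) ^ (k + 2))) := ((hlin (-b)).pow _).const_mul _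
  have hR : Filter.Tendsto (fun n : ℕ => (c0 : ℝ) * (1 / n) ^ (k + 2) +
      (c1 : ℝ) * ((((n : ℝ) * d + 1) / n) ^ k * (1 / n)) +
      (c2 : ℝ) * (((n : ℝ) * d + b') / n) ^ (k + 2))
      Filter.atTop (nhds ((c0 : ℝ) * 0 ^ (k + 2) + (c1 : ℝ) * ((d : ℝ) ^ k * 0) +
        (c2 : ℝ) * (d : ℝ) ^ (k + 2))) :=
    (((hinv.pow _).const_mul _).add ((((hlin 1).pow _).mul hinv).const_mul _)).add
      (((hlin b').pow _).const_mul _)
  have hle := le_of_tendsto_of_tendsto hL hR (by
    filter_upwards [Filter.eventually_gt_atTop b] with n hn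
    have hn0 : (0 : ℝ) < n := by
      have : 0 < n := by omega
      exact_mod_cast this
    have h1 : b ≤ n * d := by nlinarith
    have h2 : (a : ℝ) * ((n : ℝ) * d + (-b)) ^ (k + 2) ≤
        c0 + n * (c1 * ((n : ℝ) * d + 1) ^ k) + c2 * ((n : ℝ) * d + b') ^ (k + 2) := by
      have h3 := h n
      have h4 : ((n * d - b : ℕ) : ℝ) = (n : ℝ) * d + (-b) := by
        rw [Nat.cast_sub h1]
        push_cast
        ring
      rw [← h4]
      exact_mod_cast h3
    have h5 : (a : ℝ) * (((n : ℝ) * d + (-b)) / n) ^ (k + 2) =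
        ((a : ℝ) * ((n : ℝ) * d + (-b)) ^ (k + 2)) / (n : ℝ) ^ (k + 2) := by
      rw [div_pow]
      ring
    have h6 : (c0 : ℝ) * (1 / n) ^ (k + 2) +
      (c1 : ℝ) * ((((n : ℝ) * d + 1) / n) ^ k * (1 / n)) +
      (c2 : ℝ) * (((n : ℝ) * d + b') / n) ^ (k + 2) =
        (c0 + n * (c1 * ((n : ℝ) * d + 1) ^ k) + c2 * ((n : ℝ) * d + b') ^ (k + 2)) /
          (n : ℝ) ^ (k + 2) := by
      rw [div_pow, div_pow, div_pow]
      field_simp
      ring
    rw [h5, h6]
    exact div_le_div_of_nonneg_right h2 (by positivity))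
  have hdpos : (0 : ℝ) < (d : ℝ) ^ (k + 2) := by
    have : (0 : ℝ) < d := by exact_mod_cast hd
    positivity
  have hle2 : (a : ℝ) * (d : ℝ) ^ (k + 2) ≤ (c2 : ℝ) * (d : ℝ) ^ (k + 2) := by
    simpa using hle
  have hle3 : (a : ℝ) ≤ c2 := le_of_mul_le_mul_right hle2 hdpos
  exact_mod_cast hle3

theorem Bd_upper {N : ℕ} {P : Ideal (S N)} {m e : ℕ} (h : Bd P (m + 1) e) (l : ℕ) :
    m.factorial * hf P l ≤ e * (l + e + m) ^ m := by
  calc m.factorial * hf P l
      ≤ m.factorial * ∑ i ∈ range e, (l + i + (m + 1) - 1).choose (m + 1 - 1) :=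
        Nat.mul_le_mul_left _ (h l).2
    _ = ∑ i ∈ range e, m.factorial * (l + i + m).choose m := by
        rw [mul_sum]
        rfl
    _ ≤ ∑ i ∈ range e, (l + e + m) ^ m := by
        apply sum_le_sum
        intro i hi
        rw [mem_range] at hi
        exact (fac_choose_le (l + i) m).trans (Nat.pow_le_pow_left (by omega) _)
    _ = e * (l + e + m) ^ m := by simp

theorem Bd_lower {N : ℕ} {P : Ideal (S N)} {m e : ℕ} (hm : 1 ≤ m) (h : Bd P (m + 1) e) (l : ℕ) :
    e * (l - e) ^ m ≤ m.factorial * hf P l := by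
  rcases le_or_gt e l with hel | hel
  · calc e * (l - e) ^ m = ∑ i ∈ range e, (l - e) ^ m := by simp
      _ ≤ ∑ i ∈ range e,
          m.factorial * (if i ≤ l then (l - i + (m + 1) - 1).choose (m + 1 - 1) else 0) := by
          apply sum_le_sum
          intro i hi
          rw [mem_range] at hi
          rw [if_pos (by omega)]
          have h1 := pow_le_choose' (l - i) m
          refine le_trans (Nat.pow_le_pow_left (by omega) _) h1
      _ = m.factorial * ∑ i ∈ range e,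
          (if i ≤ l then (l - i + (m + 1) - 1).choose (m + 1 - 1) else 0) := by rw [mul_sum]
      _ ≤ m.factorial * hf P l := Nat.mul_le_mul_left _ (h l).1
  · have h1 : l - e = 0 := by omega
    rw [h1, zero_pow (by omega), mul_zero]
    exact Nat.zero_le _

theorem telescope {N : ℕ} {Q : Ideal (S N)} (hQ : HP Q) {d : ℕ} {F : S N} (hF : F ∈ Sd N d)
    (hFQ : F ∉ Q) (n : ℕ) :
    ∑ j ∈ range n, hf (Q ⊔ Ideal.span {F}) ((j + 1) * d) + hf Q 0 = hf Q (n * d) := by
  induction n with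
  | zero => simp
  | succ n ih =>
    rw [sum_range_succ]
    have h1 := hf_principal hQ hF hFQ (n * d)
    have h2 : (n + 1) * d = n * d + d := by ring
    rw [h2]
    omega

theorem hom_principal {N : ℕ} {Q : Ideal (S N)} (hQ : Hom Q) {d : ℕ} {F : S N}
    (hF : F ∈ Sd N d) : Hom (Q ⊔ Ideal.span {F}) := by
  apply Ideal.IsHomogeneous.sup hQ
  apply Ideal.homogeneous_span
  rintro f hf
  rw [Set.mem_singleton_iff] at hf
  exact ⟨d, by rw [hf]; exact hF⟩

theorem g2_decompose_eq {N : ℕ} (f : S N) (l : ℕ) :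
    ((DirectSum.decompose (homogeneousSubmodule (Fin (N + 1)) ℂ) f) l : S N) =
      homogeneousComponent l f := decomposition.decompose'_apply f l

theorem g2_comp_mul {N : ℕ} (f : S N) {g : S N} {γ : ℕ} (hg : g ∈ Sd N γ) (l : ℕ) :
    homogeneousComponent (l + γ) (f * g) = homogeneousComponent l f * g := by
  have h := DirectSum.coe_decompose_mul_add_of_right_mem
    (homogeneousSubmodule (Fin (N + 1)) ℂ) (i := l) (a := f) hg
  rw [g2_decompose_eq, g2_decompose_eq] at h
  exact h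

theorem g2_comp_mem {N : ℕ} {J : Ideal (S N)} (hJ : Hom J) {f : S N} (hf : f ∈ J) (l : ℕ) :
    homogeneousComponent l f ∈ J := homogeneousComponent_mem_of_mem hJ hf l

theorem g2_comp_self {N : ℕ} {f : S N} {l : ℕ} (hf : f ∈ Sd N l) :
    homogeneousComponent l f = f := by
  rw [homogeneousComponent_of_mem hf, if_pos rfl]

theorem la_step {V W : Type*} [AddCommGroup V] [Module ℂ V] [AddCommGroup W] [Module ℂ W]
    [FiniteDimensional ℂ V] [FiniteDimensional ℂ W] (μ : V →ₗ[ℂ] W) (P : Submodule ℂ V)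
    (A B : Submodule ℂ W) (hP : ∀ x ∈ P, μ x ∈ A) (hB : ∀ f ∈ B, ∃ x, ∃ a ∈ A, f = μ x + a) :
    Module.finrank ℂ B + Module.finrank ℂ P ≤ Module.finrank ℂ V + Module.finrank ℂ A := by
  let Φ : (V × A) →ₗ[ℂ] W := LinearMap.coprod μ A.subtype
  have hrange : B ≤ LinearMap.range Φ := by
    intro f hf
    obtain ⟨x, a, ha, rfl⟩ := hB f hf
    exact ⟨(x, ⟨a, ha⟩), rfl⟩
  have hψ : ∀ x : P, (-(μ.comp P.subtype)) x ∈ A := fun x => A.neg_mem (hP x x.2)
  let ψ : P →ₗ[ℂ] A := LinearMap.codRestrict A (-(μ.comp P.subtype)) hψ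
  let χ : P →ₗ[ℂ] V × A := LinearMap.prod P.subtype ψ
  have hχ : LinearMap.range χ ≤ LinearMap.ker Φ := by
    rintro _ ⟨x, rfl⟩
    rw [LinearMap.mem_ker]
    change μ x.1 + (-(μ x.1)) = 0
    exact add_neg_cancel _
  have hinj : Function.Injective χ := by
    intro a b hab
    exact Subtype.ext (congrArg Prod.fst hab)
  have h0 : Module.finrank ℂ P ≤ Module.finrank ℂ (LinearMap.ker Φ) := by
    rw [← LinearMap.finrank_range_of_inj hinj]
    exact Submodule.finrank_mono hχ
  have h1 := LinearMap.finrank_range_add_finrank_ker Φ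
  have h2 := Submodule.finrank_mono hrange
  rw [Module.finrank_prod] at h1
  omega

/-- multiplication by a form `g` of degree `γ` -/
noncomputable def mulForm {N : ℕ} (g : S N) {γ : ℕ} (hg : g ∈ Sd N γ) (l : ℕ) :
    Sd N l →ₗ[ℂ] Sd N (l + γ) where
  toFun f := ⟨f.1 * g, by
    rw [mem_homogeneousSubmodule]
    exact IsHomogeneous.mul f.2 hg⟩
  map_add' a b := Subtype.ext (add_mul _ _ _)
  map_smul' a b := Subtype.ext (smul_mul_assoc _ _ _)

/-- multiplication by a form `g` sends `P_l` into `J` -/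
theorem mul_step {N : ℕ} {J P : Ideal (S N)} (hJ : Hom J) {g : S N} {γ : ℕ} (hg : g ∈ Sd N γ)
    {l : ℕ} (hgP : ∀ x ∈ P, x ∈ Sd N l → x * g ∈ J) :
    hf J (l + γ) ≤ hf P l + hf (J ⊔ Ideal.span {g}) (l + γ) := by
  have h1 := la_step (mulForm g hg l) (LinearMap.ker (resl P l))
    (LinearMap.ker (resl J (l + γ))) (LinearMap.ker (resl (J ⊔ Ideal.span {g}) (l + γ)))
    (by
      intro x hx
      rw [mem_ker_resl] at hx ⊢
      exact hgP _ hx x.2)
    (by
      intro f hf
      rw [mem_ker_resl, Submodule.mem_sup] at hf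
      obtain ⟨a, ha, b, hb, hab⟩ := hf
      rw [Ideal.mem_span_singleton'] at hb
      obtain ⟨h, rfl⟩ := hb
      have h1 : (f : S N) = homogeneousComponent (l + γ) a + homogeneousComponent l h * g := by
        rw [← g2_comp_mul h hg l, ← map_add, hab, g2_comp_self f.2]
      have h2 : (⟨homogeneousComponent (l + γ) a, homogeneousComponent_mem _ a⟩ :
          Sd N (l + γ)) ∈ LinearMap.ker (resl J (l + γ)) := by
        rw [mem_ker_resl]
        exact g2_comp_mem hJ ha _
      refine ⟨⟨homogeneousComponent l h, homogeneousComponent_mem _ h⟩, _, h2, ?_⟩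
      apply Subtype.ext
      rw [h1, add_comm (homogeneousComponent (l + γ) a)]
      rfl)
  have h3 := hf_add_ker J (l + γ)
  have h4 := hf_add_ker (J ⊔ Ideal.span {g}) (l + γ)
  have h5 := hf_add_ker P l
  omega

/-- replace a multiplier outside a homogeneous prime by a homogeneous one -/
theorem hom_multiplier {N : ℕ} {J P : Ideal (S N)} (hJ : Hom J)
    (hmult : ∃ g, g ∉ P ∧ ∀ x ∈ P, g * x ∈ J) :
    ∃ γ, ∃ g ∈ Sd N γ, g ∉ P ∧ ∀ l, ∀ x ∈ P, x ∈ Sd N l → x * g ∈ J := by
  obtain ⟨g, hg, hgx⟩ := hmult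
  have h1 : ∃ γ, homogeneousComponent γ g ∉ P := by
    by_contra hcon
    push Not at hcon
    apply hg
    rw [← sum_homogeneousComponent g]
    exact P.sum_mem fun i _ => hcon i
  obtain ⟨γ, hγ⟩ := h1
  refine ⟨γ, homogeneousComponent γ g, homogeneousComponent_mem _ g, hγ, ?_⟩
  intro l x hx hxl
  rw [mul_comm, ← g2_comp_mul g hxl γ]
  exact g2_comp_mem hJ (hgx x hx) _

/-- upper bound for the Hilbert function of `Q` from one for `Q + (F)` -/
theorem telescope_upper {N : ℕ} {Q : Ideal (S N)} (hQ : HP Q) {d : ℕ} {F : S N}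
    (hF : F ∈ Sd N d) (hFQ : F ∉ Q) (k C0 e b : ℕ)
    (h : ∀ j : ℕ, (k + 1).factorial * hf (Q ⊔ Ideal.span {F}) ((j + 1) * d) ≤
      C0 * ((j + 1) * d + 1) ^ k + e * ((j + 1) * d + b) ^ (k + 1)) (n : ℕ) :
    d * (k + 2).factorial * hf Q (n * d) ≤ d * (k + 2).factorial * hf Q 0 +
      n * (d * (k + 2) * C0 * (n * d + 1) ^ k) + e * (n * d + (d + b)) ^ (k + 2) := by
  have h1 := telescope hQ hF hFQ n
  have h2 : (k + 1).factorial * ∑ j ∈ range n, hf (Q ⊔ Ideal.span {F}) ((j + 1) * d) ≤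
      ∑ j ∈ range n, (C0 * (n * d + 1) ^ k + e * ((j + 1) * d + b) ^ (k + 1)) := by
    rw [mul_sum]
    apply sum_le_sum
    intro j hj
    rw [mem_range] at hj
    refine (h j).trans (Nat.add_le_add_right (Nat.mul_le_mul_left _ (Nat.pow_le_pow_left ?_ _)) _)
    have : (j + 1) * d ≤ n * d := Nat.mul_le_mul_right _ hj
    omega
  rw [sum_add_distrib, sum_const, card_range, smul_eq_mul, ← mul_sum] at h2
  have h3 := sum_pow_upper d b (k + 1) n
  have h4 : (n + 1) * d + b = n * d + (d + b) := by ring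
  rw [h4] at h3
  have h5 : (k + 2).factorial = (k + 2) * (k + 1).factorial := Nat.factorial_succ (k + 1)
  calc d * (k + 2).factorial * hf Q (n * d)
      = d * (k + 2).factorial * hf Q 0 + d * (k + 2) * ((k + 1).factorial *
        ∑ j ∈ range n, hf (Q ⊔ Ideal.span {F}) ((j + 1) * d)) := by
        rw [← h1, h5]
        ring
    _ ≤ d * (k + 2).factorial * hf Q 0 + d * (k + 2) * (n * (C0 * (n * d + 1) ^ k) +
        e * ∑ j ∈ range n, ((j + 1) * d + b) ^ (k + 1)) :=
        Nat.add_le_add_left (Nat.mul_le_mul_left _ h2) _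
    _ = d * (k + 2).factorial * hf Q 0 + n * (d * (k + 2) * C0 * (n * d + 1) ^ k) +
        e * (d * (k + 1 + 1) * ∑ j ∈ range n, ((j + 1) * d + b) ^ (k + 1)) := by ring
    _ ≤ _ := Nat.add_le_add_left (Nat.mul_le_mul_left _ h3) _

set_option linter.unusedVariables false in
/-- if `P` is the only prime of dimension `m` above `Q + (F)` and it has multiplicity one, then
`deg P ≥ d * deg Q` -/
theorem deg_lower {N : ℕ} {Q P : Ideal (S N)} (hQ : HP Q) (hP : HP P) {m d s e : ℕ}
    (hm : 2 ≤ m) (hmQ : md Q = m + 1) (hmP : md P = m) (hs : Bd Q (m + 1) s) (he : Bd P m e)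
    {F : S N} (hd : 1 ≤ d) (hF : F ∈ Sd N d) (hFQ : F ∉ Q) (hFP : F ∈ P) (hQP : Q ≤ P)
    (huniq : ∀ q, HP q → Q ⊔ Ideal.span {F} ≤ q → md q = m → q = P)
    (hmult : ∃ g, g ∉ P ∧ ∀ x ∈ P, g * x ∈ Q ⊔ Ideal.span {F}) : s * d ≤ e := by
  obtain ⟨k, rfl⟩ : ∃ k, m = k + 2 := ⟨m - 2, by omega⟩
  have hJ : Hom (Q ⊔ Ideal.span {F}) := hom_principal hQ.hom hF
  obtain ⟨γ, g, hg, hgP, hgx⟩ := hom_multiplier hJ hmult
  have hJg : Hom ((Q ⊔ Ideal.span {F}) ⊔ Ideal.span {g}) := by
    apply Ideal.IsHomogeneous.sup hJ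
    apply Ideal.homogeneous_span
    rintro f hf
    rw [Set.mem_singleton_iff] at hf
    exact ⟨γ, by rw [hf]; exact hg⟩
  have hdim : ∀ q, HP q → (Q ⊔ Ideal.span {F}) ⊔ Ideal.span {g} ≤ q → md q ≤ k + 2 - 1 := by
    intro q hq hle
    have h1 : Q ⊔ Ideal.span {F} ≤ q := le_sup_left.trans hle
    have h2 : Q ≤ q := le_sup_left.trans h1
    have hFq : F ∈ q := h1 (Ideal.mem_sup_right (Ideal.subset_span rfl))
    have h3 : Q < q := lt_of_le_of_ne h2 (by rintro rfl; exact hFQ hFq)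
    have h4 := md_lt hQ hq h3
    have h5 : md q ≠ k + 2 := by
      intro h5
      have h6 := huniq q hq h1 h5
      apply hgP
      rw [← h6]
      exact hle (Ideal.mem_sup_right (Ideal.subset_span rfl))
    omega
  obtain ⟨C, hC⟩ := growth hJg (k + 2) hm hdim
  simp only [Nat.add_sub_cancel] at hC
  let C0 := ∑ l ∈ range γ, hf (Q ⊔ Ideal.span {F}) l
  have hbound : ∀ x, hf (Q ⊔ Ideal.span {F}) x ≤ C0 + hf P (x - γ) + C * (x + 1) ^ k := by
    intro x
    rcases lt_or_ge x γ with hx | hx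
    · have h1 : hf (Q ⊔ Ideal.span {F}) x ≤ C0 :=
        single_le_sum (f := fun l => hf (Q ⊔ Ideal.span {F}) l) (fun _ _ => Nat.zero_le _)
          (mem_range.2 hx)
      omega
    · have h1 := mul_step hJ hg (l := x - γ) (fun y hy hyl => hgx _ y hy hyl)
      rw [Nat.sub_add_cancel hx] at h1
      have h2 := hC x
      omega
  have hup := telescope_upper hQ hF hFQ k ((k + 1).factorial * (C0 + C)) e
    (e + (k + 1)) (by
      intro j
      set x := (j + 1) * d with hx
      have h1 := hbound x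
      have h2 := Bd_upper (m := k + 1) he (x - γ)
      have h3 : (x - γ + e + (k + 1)) ^ (k + 1) ≤ (x + (e + (k + 1))) ^ (k + 1) :=
        Nat.pow_le_pow_left (by omega) _
      have h4 : 1 ≤ (x + 1) ^ k := Nat.one_le_pow _ _ (by omega)
      calc (k + 1).factorial * hf (Q ⊔ Ideal.span {F}) x
          ≤ (k + 1).factorial * (C0 + hf P (x - γ) + C * (x + 1) ^ k) :=
            Nat.mul_le_mul_left _ h1
        _ = (k + 1).factorial * C0 * 1 + (k + 1).factorial * C * (x + 1) ^ k +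
            (k + 1).factorial * hf P (x - γ) := by ring
        _ ≤ (k + 1).factorial * C0 * (x + 1) ^ k + (k + 1).factorial * C * (x + 1) ^ k +
            e * (x + (e + (k + 1))) ^ (k + 1) := by
            refine Nat.add_le_add (Nat.add_le_add_right (Nat.mul_le_mul_left _ h4) _) ?_
            exact h2.trans (Nat.mul_le_mul_left _ h3)
        _ = _ := by ring)
  have hlow := fun n => Bd_lower (m := k + 2) (by omega) hs (n * d)
  have hfin := asymp (s * d) (d * (k + 2).factorial * hf Q 0)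
    (d * (k + 2) * ((k + 1).factorial * (C0 + C))) e s (d + (e + (k + 1))) d k hd (by
      intro n
      refine le_trans ?_ (hup n)
      have := Nat.mul_le_mul_left d (hlow n)
      calc s * d * (n * d - s) ^ (k + 2) = d * (s * (n * d - s) ^ (k + 2)) := by ring
        _ ≤ d * ((k + 2).factorial * hf Q (n * d)) := this
        _ = _ := by ring)
  exact hfin

theorem hf_zero_pos {N : ℕ} {Q : Ideal (S N)} (hQ : Q.IsPrime) : 1 ≤ hf Q 0 := by
  by_contra hcon
  have h0 : hf Q 0 = 0 := by omega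
  rw [hf, ← range_resl] at h0
  have h1 : LinearMap.range (resl Q 0) = ⊥ := Submodule.finrank_eq_zero.1 h0
  have h2 : (⟨1, isHomogeneous_one _ _⟩ : Sd N 0) ∈ LinearMap.ker (resl Q 0) := by
    rw [LinearMap.range_eq_bot.1 h1]
    simp
  rw [mem_ker_resl] at h2
  exact hQ.ne_top ((Ideal.eq_top_iff_one _).2 h2)

theorem Bd_pos {N : ℕ} {Q : Ideal (S N)} (hQ : Q.IsPrime) {m s : ℕ} (h : Bd Q m s) : 1 ≤ s := by
  by_contra hcon
  have h0 : s = 0 := by omega
  subst h0
  have h1 := (h 0).2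
  have h2 := hf_zero_pos hQ
  simp at h1
  omega

/-- Bezout, the form not being in `Q` -/
theorem bezout_aux {N : ℕ} {Q : Ideal (S N)} (hQ : HP Q) {m d s : ℕ} (hm : 2 ≤ m)
    (hmQ : md Q = m + 1) (hs : Bd Q (m + 1) s) {F : S N} (hd : 1 ≤ d) (hF : F ∈ Sd N d)
    (hFQ : F ∉ Q) :
    ∃ (P : Ideal (S N)) (e : ℕ), HP P ∧ Q ≤ P ∧ F ∈ P ∧ md P = m ∧ Bd P m e ∧ e ≤ s * d := by
  obtain ⟨k, rfl⟩ : ∃ k, m = k + 2 := ⟨m - 2, by omega⟩
  have hJ : Hom (Q ⊔ Ideal.span {F}) := hom_principal hQ.hom hF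
  have hs1 := Bd_pos hQ.prime hs
  have hex : ∃ P, HP P ∧ Q ⊔ Ideal.span {F} ≤ P ∧ md P = k + 2 := by
    by_contra hcon
    push Not at hcon
    have hdim : ∀ q, HP q → Q ⊔ Ideal.span {F} ≤ q → md q ≤ k + 2 - 1 := by
      intro q hq h1
      have h2 : Q ≤ q := le_sup_left.trans h1
      have hFq : F ∈ q := h1 (Ideal.mem_sup_right (Ideal.subset_span rfl))
      have h3 : Q < q := lt_of_le_of_ne h2 (by rintro rfl; exact hFQ hFq)
      have h4 := md_lt hQ hq h3
      have h5 := hcon q hq h1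
      omega
    obtain ⟨C, hC⟩ := growth hJ (k + 2) hm hdim
    simp only [Nat.add_sub_cancel] at hC
    have hup := telescope_upper hQ hF hFQ k ((k + 1).factorial * C) 0 0 (by
      intro j
      have h1 := Nat.mul_le_mul_left (k + 1).factorial (hC ((j + 1) * d))
      rw [zero_mul, add_zero, mul_assoc]
      exact h1)
    have hlow := fun n => Bd_lower (m := k + 2) (by omega) hs (n * d)
    have hfin := asymp (s * d) (d * (k + 2).factorial * hf Q 0)
      (d * (k + 2) * ((k + 1).factorial * C)) 0 s (d + 0) d k hd (by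
        intro n
        refine le_trans ?_ (hup n)
        have := Nat.mul_le_mul_left d (hlow n)
        calc s * d * (n * d - s) ^ (k + 2) = d * (s * (n * d - s) ^ (k + 2)) := by ring
          _ ≤ d * ((k + 2).factorial * hf Q (n * d)) := this
          _ = _ := by ring)
    have : 1 ≤ s * d := Nat.mul_pos hs1 hd
    omega
  obtain ⟨P, hP, hJP, hmP⟩ := hex
  obtain ⟨e, -, he⟩ := exists_Bd hP (by omega)
  rw [hmP] at he
  refine ⟨P, e, hP, le_sup_left.trans hJP, hJP (Ideal.mem_sup_right (Ideal.subset_span rfl)),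
    hmP, he, ?_⟩
  have h1 : ∀ n, ∑ j ∈ range n, hf P ((j + 1) * d) ≤ hf Q (n * d) := by
    intro n
    have h2 := telescope hQ hF hFQ n
    have h3 : ∑ j ∈ range n, hf P ((j + 1) * d) ≤
        ∑ j ∈ range n, hf (Q ⊔ Ideal.span {F}) ((j + 1) * d) :=
      sum_le_sum fun j _ => hf_anti hJP _
    omega
  have hfin := asymp e 0 0 (s * d) e (s + (k + 2)) d k hd (by
    intro n
    have h2 := sum_pow_lower d e (k + 1) n
    have h3 : ∑ j ∈ range n, e * ((j + 1) * d - e) ^ (k + 1) ≤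
        (k + 1).factorial * ∑ j ∈ range n, hf P ((j + 1) * d) := by
      rw [mul_sum]
      exact sum_le_sum fun j _ => Bd_lower (m := k + 1) (by omega) he _
    have h4 := Bd_upper (m := k + 2) hs (n * d)
    have h5 : (k + 2).factorial = (k + 2) * (k + 1).factorial := Nat.factorial_succ (k + 1)
    calc e * (n * d - e) ^ (k + 2)
        ≤ e * (d * (k + 1 + 1) * ∑ j ∈ range n, ((j + 1) * d - e) ^ (k + 1)) :=
          Nat.mul_le_mul_left _ h2
      _ = d * (k + 2) * ∑ j ∈ range n, e * ((j + 1) * d - e) ^ (k + 1) := by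
          rw [← mul_sum]
          ring
      _ ≤ d * (k + 2) * ((k + 1).factorial * ∑ j ∈ range n, hf P ((j + 1) * d)) :=
          Nat.mul_le_mul_left _ h3
      _ ≤ d * (k + 2) * ((k + 1).factorial * hf Q (n * d)) :=
          Nat.mul_le_mul_left _ (Nat.mul_le_mul_left _ (h1 n))
      _ = d * ((k + 2).factorial * hf Q (n * d)) := by
          rw [h5]
          ring
      _ ≤ d * (s * (n * d + s + (k + 2)) ^ (k + 2)) := Nat.mul_le_mul_left _ h4
      _ = 0 + n * (0 * (n * d + 1) ^ k) + s * d * (n * d + (s + (k + 2))) ^ (k + 2) := by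
          ring)
  exact hfin

/-- Bezout: existence of a component of `V(Q) ∩ V(F)` of small degree -/
theorem bezout {N : ℕ} {Q : Ideal (S N)} (hQ : HP Q) {m d s : ℕ} (hm : 2 ≤ m)
    (hmQ : md Q = m + 1) (hs : Bd Q (m + 1) s) {F : S N} (hd : 1 ≤ d) (hF : F ∈ Sd N d) :
    ∃ (P : Ideal (S N)) (e : ℕ), HP P ∧ Q ≤ P ∧ F ∈ P ∧ md P = m ∧ Bd P m e ∧ e ≤ s * d := by
  by_cases hFQ : F ∈ Q
  · have h1 : ∃ j, (X j : S N) ∉ Q := by
      by_contra hcon
      push Not at hcon
      have := (md_eq_zero hQ).2 hcon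
      omega
    obtain ⟨j, hj⟩ := h1
    obtain ⟨P, e, hP, hQP, -, hmP, he, hes⟩ := bezout_aux hQ hm hmQ hs le_rfl
      (isHomogeneous_X ℂ j) hj
    refine ⟨P, e, hP, hQP, hQP hFQ, hmP, he, hes.trans ?_⟩
    exact Nat.mul_le_mul_left _ hd
  · exact bezout_aux hQ hm hmQ hs hd hF hFQ

end SepCI
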