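import Pool.Agent.SepCI.Pack
import Pool.Agent.SepCI.Hopf
import Pool.Agent.SepCI.Growth
import Pool.Agent.SepCI.Growth2
import Pool.Agent.SepCI.Exist
import Pool.Agent.SepCI.CI
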