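import Pool.Agent.SepCI.AlphaCore

set_option autoImplicit false

/-! # M13: unramified fibres -/

namespace SepCI

open Matrix

/-- If `y ^ n ∈ π B` then the trace of `y` is divisible by the prime `π`. -/
theorem dvd_trace_of_pow {R B : Type*} [CommRing R] [IsDomain R] [CommRing B] [Algebra R B]
    {ι : Type*} [Fintype ι] [DecidableEq ι] (b : Module.Basis ι R B) {π : R} (hπ : Prime π)
    (y : B) (n : ℕ) (h : ∃ c : B, y ^ n = π • c) : π ∣ Algebra.trace R B y := by
  obtain ⟨c, hc⟩ := h
  let f : R →+* R ⧸ Ideal.span {π} := Ideal.Quotient.mk _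
  have hdom : (Ideal.span {π}).IsPrime := (Ideal.span_singleton_prime hπ.ne_zero).2 hπ
  have h1 : ((Algebra.leftMulMatrix b y).map f) ^ n = 0 := by
    have h2 : (Algebra.leftMulMatrix b y) ^ n = π • Algebra.leftMulMatrix b c := by
      rw [← map_pow, hc, map_smul]
    have h3 : ((Algebra.leftMulMatrix b y).map f) ^ n = ((Algebra.leftMulMatrix b y) ^ n).map f :=
      (map_pow (f.mapMatrix) (Algebra.leftMulMatrix b y) n).symm
    rw [h3, h2]
    ext i j
    rw [Matrix.map_apply, Matrix.smul_apply, smul_eq_mul, map_mul]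
    have : f π = 0 := Ideal.Quotient.eq_zero_iff_mem.2 (Ideal.mem_span_singleton_self π)
    rw [this, zero_mul, Matrix.zero_apply]
  have h4 : IsNilpotent ((Algebra.leftMulMatrix b y).map f).trace :=
    Matrix.isNilpotent_trace_of_isNilpotent ⟨n, h1⟩
  have h5 : ((Algebra.leftMulMatrix b y).map f).trace = 0 := h4.eq_zero
  have h6 : f (Algebra.trace R B y) = 0 := by
    rw [Algebra.trace_eq_matrix_trace b, ← h5]
    simp [Matrix.trace, map_sum]
  rw [← Ideal.mem_span_singleton]
  exact Ideal.Quotient.eq_zero_iff_mem.1 h6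

/-- unramified fibre: elements nilpotent modulo `π` are, up to the discriminant, divisible by
`π` -/
theorem beta_core {R A : Type*} [CommRing R] [IsDomain R] [UniqueFactorizationMonoid R]
    [CommRing A] [IsDomain A] [IsNoetherianRing A] [Algebra R A] [FaithfulSMul R A]
    [Algebra.IsIntegral R A] (B : Subalgebra R A) {ι : Type*} [Fintype ι] [DecidableEq ι]
    (b : Module.Basis ι R B) (hδ : Algebra.discr R b ≠ 0)
    (hden : ∀ a : A, Algebra.discr R b • a ∈ B) (π : R) (hπ : Prime π) (P : Ideal A) [P.IsPrime]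
    (hcomap : P.comap (algebraMap R A) = Ideal.span {π})
    (hδP : algebraMap R A (Algebra.discr R b) ∉ P) :
    ∃ g, g ∉ P ∧ ∀ x ∈ P, g * x ∈ Ideal.span {algebraMap R A π} := by
  classical
  set δ := Algebra.discr R b with hδdef
  -- (i)
  have hi : ∀ (x : A) (n : ℕ), x ^ n ∈ Ideal.span {algebraMap R A π} →
      algebraMap R A δ ^ 2 * x ∈ Ideal.span {algebraMap R A π} := by
    intro x n hx
    -- we may take exponent `n + 1`
    have hx1 : x ^ (n + 1) ∈ Ideal.span {algebraMap R A π} := by
      rw [pow_succ]; exact Ideal.mul_mem_right _ _ hx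
    obtain ⟨a, ha⟩ := Ideal.mem_span_singleton.1 hx1
    set x' : B := ⟨δ • x, hden x⟩ with hx'
    have hpow : ∃ c : B, x' ^ (n + 1) = π • c := by
      refine ⟨⟨δ ^ n • (δ • a), B.smul_mem (hden a) _⟩, ?_⟩
      apply Subtype.ext
      rw [SubmonoidClass.coe_pow, hx']
      change (δ • x) ^ (n + 1) = π • (δ ^ n • (δ • a))
      rw [smul_pow, ha, Algebra.smul_def, Algebra.smul_def, Algebra.smul_def, Algebra.smul_def,
        map_pow, map_pow]
      ring
    obtain ⟨c, hc⟩ := hpow
    have htr : ∀ i, π ∣ Algebra.trace R B (b i * x') := by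
      intro i
      apply dvd_trace_of_pow b hπ (b i * x') (n + 1)
      exact ⟨b i ^ (n + 1) * c, by rw [mul_pow, hc, mul_smul_comm]⟩
    choose w hw using htr
    have h1 : δ • x' = π • b.equivFun.symm ((Algebra.traceMatrix R b).adjugate *ᵥ w) := by
      rw [hδdef, discr_smul_eq b x', ← map_smul, ← Matrix.mulVec_smul]
      congr 2
      funext i
      rw [hw i, Pi.smul_apply, smul_eq_mul]
    have h2 := congrArg (fun v : B => (v : A)) h1
    simp only [Subalgebra.coe_smul, hx'] at h2
    rw [Ideal.mem_span_singleton]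
    refine ⟨((b.equivFun.symm ((Algebra.traceMatrix R b).adjugate *ᵥ w) : B) : A), ?_⟩
    rw [← Algebra.smul_def, ← h2, Algebra.smul_def, Algebra.smul_def]
    ring
  -- (ii)
  have hPmin : P ∈ (Ideal.span {algebraMap R A π}).minimalPrimes := by
    have h := Ideal.IsIntegral.mem_minimalPrimes_map_under (R := R) P
    rw [Ideal.under_def, hcomap, Ideal.map_span, Set.image_singleton] at h
    exact h
  obtain ⟨g, hgP, hg⟩ : ∃ g, g ∉ P ∧ ∀ x ∈ P, g * x ∈ (Ideal.span {algebraMap R A π}).radical := by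
    have hfin := (Ideal.span {algebraMap R A π}).finite_minimalPrimes_of_isNoetherianRing
    set s : Finset (Ideal A) := hfin.toFinset.erase P with hs
    have hnot : ¬ s.inf id ≤ P := by
      intro hle
      obtain ⟨q, hq, hqP⟩ := (Ideal.IsPrime.inf_le' ‹P.IsPrime›).1 hle
      rw [hs, Finset.mem_erase, Set.Finite.mem_toFinset] at hq
      exact hq.1 (le_antisymm hqP (hPmin.2 hq.2.1 hqP))
    obtain ⟨g, hg, hgP⟩ := Set.not_subset.1 hnot
    refine ⟨g, hgP, ?_⟩
    intro x hx
    rw [← Ideal.sInf_minimalPrimes, Ideal.mem_sInf]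
    intro q hq
    by_cases hqP : q = P
    · rw [hqP]; exact Ideal.mul_mem_left _ _ hx
    · apply Ideal.mul_mem_right
      have : s.inf id ≤ q := Finset.inf_le (f := id)
        (by rw [hs, Finset.mem_erase, Set.Finite.mem_toFinset]; exact ⟨hqP, hq⟩)
      exact this hg
  refine ⟨algebraMap R A δ ^ 2 * g, ?_, ?_⟩
  · intro h
    rcases (Ideal.IsPrime.mem_or_mem ‹P.IsPrime› h) with h | h
    · exact hδP (Ideal.IsPrime.mem_of_pow_mem ‹P.IsPrime› _ h)
    · exact hgP h
  · intro x hx
    obtain ⟨n, hn⟩ := hg x hx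
    rw [mul_assoc]
    exact hi _ n hn

end SepCI
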