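import Pool.Agent.SepCI.DLog

set_option autoImplicit false

/-! # a derivation killing a basis kills the discriminant -/

namespace SepCI

open Matrix

theorem dtrace {R B : Type*} [CommRing R] [IsDomain R] [CommRing B] [IsDomain B] [Algebra R B]
    [FaithfulSMul R B] {ι : Type*} [Fintype ι] [DecidableEq ι]
    (b : Module.Basis ι R B) (D : Derivation ℤ B B) (D' : Derivation ℤ R R)
    (hD : ∀ r, D (algebraMap R B r) = algebraMap R B (D' r))
    (hDb : ∀ i, D (b i) = 0) (x : B) :
    D' (Algebra.trace R B x) = Algebra.trace R B (D x) := by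
  have hmat : Algebra.leftMulMatrix b (D x) = (Algebra.leftMulMatrix b x).map D' := by
    ext i j
    rw [Algebra.leftMulMatrix_eq_repr_mul, Matrix.map_apply,
      Algebra.leftMulMatrix_eq_repr_mul]
    have h1 : D x * b j = D (x * b j) := by
      rw [Derivation.leibniz, hDb, smul_zero, zero_add, smul_eq_mul, mul_comm]
    have h2 : D (x * b j) = ∑ i, D' (b.repr (x * b j) i) • b i := by
      conv_lhs => rw [← b.sum_repr (x * b j)]
      rw [map_sum]
      refine Finset.sum_congr rfl fun i _ => ?_
      rw [Algebra.smul_def, Derivation.leibniz, hDb, smul_zero, zero_add, hD, smul_eq_mul,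
        mul_comm, Algebra.smul_def]
    rw [h1, h2]
    have := b.repr_sum_self (fun i => D' (b.repr (x * b j) i))
    exact congrFun this i
  rw [Algebra.trace_eq_matrix_trace b, Algebra.trace_eq_matrix_trace b, hmat, Matrix.trace,
    Matrix.trace, map_sum]
  rfl

theorem ddiscr {R B : Type*} [CommRing R] [IsDomain R] [CommRing B] [IsDomain B] [Algebra R B]
    [FaithfulSMul R B] {ι : Type*} [Fintype ι] [DecidableEq ι]
    (b : Module.Basis ι R B)
    (D : Derivation ℤ B B) (DR : R → R) (hD : ∀ r, D (algebraMap R B r) = algebraMap R B (DR r))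
    (hDb : ∀ i, D (b i) = 0) :
    DR (Algebra.discr R b) = 0 := by
  classical
  have hinj : Function.Injective (algebraMap R B) := FaithfulSMul.algebraMap_injective R B
  have hadd : ∀ x y, DR (x + y) = DR x + DR y := by
    intro x y
    apply hinj
    rw [← hD, map_add, map_add, map_add, hD, hD]
  let DRlin : R →+ R := AddMonoidHom.mk' DR hadd
  let D' : Derivation ℤ R R := Derivation.mk' DRlin.toIntLinearMap (by
    intro x y
    apply hinj
    change algebraMap R B (DR (x * y)) = algebraMap R B (x • DR y + y • DR x)
    rw [← hD, map_mul, Derivation.leibniz, map_add, smul_eq_mul, smul_eq_mul, smul_eq_mul,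
      smul_eq_mul, map_mul, map_mul, hD, hD])
  have hD' : ∀ r, D' r = DR r := fun r => rfl
  rw [Algebra.discr_def, ← hD', jacobi]
  have h0 : (Algebra.traceMatrix R b).map D' = 0 := by
    ext i j
    rw [Matrix.map_apply, Algebra.traceMatrix_apply, Algebra.traceForm_apply,
      dtrace b D D' (fun r => by rw [hD, hD']) hDb, Derivation.leibniz, hDb, hDb]
    simp
  rw [h0, Matrix.mul_zero, Matrix.trace_zero]

end SepCI
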