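import Pool.Agent.SepCI.Flag

/-!
# Separating two homogeneous primes by minimal polynomials of a linear form
-/

set_option autoImplicit false

namespace SepCI

open MvPolynomial nonZeroDivisors

attribute [local instance] MvPolynomial.gradedAlgebra

section
attribute [local instance] FractionRing.liftAlgebra FractionRing.isScalarTower_liftAlgebra

/-- finitely many embeddings realise all conjugates -/
theorem exists_homs (R A E : Type*) [CommRing R] [IsDomain R] [IsIntegrallyClosed R]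
    [CommRing A] [IsDomain A] [Algebra R A] [Module.Finite R A] [FaithfulSMul R A]
    [Field E] [IsAlgClosed E] [Algebra R E] [FaithfulSMul R E] :
    ∃ Φ : Set (A →ₐ[R] E), Φ.Finite ∧ Φ.Nonempty ∧ (∀ φ ∈ Φ, Function.Injective φ) ∧
      ∀ (x : A) (α : E), Polynomial.aeval α (minpoly R x) = 0 → ∃ φ ∈ Φ, φ x = α := by
  have : Algebra.IsIntegral R A := inferInstance
  have : Algebra.IsAlgebraic R A := inferInstance
  let K := FractionRing R
  let L := FractionRing A
  have hRL : FaithfulSMul R L := by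
    rw [faithfulSMul_iff_algebraMap_injective, IsScalarTower.algebraMap_eq R A L]
    exact (IsFractionRing.injective A L).comp (FaithfulSMul.algebraMap_injective R A)
  have hfin : FiniteDimensional K L := .of_isLocalization R A R⁰
  have halg : Algebra.IsAlgebraic K L := Algebra.IsAlgebraic.of_finite K L
  let res : (L →ₐ[K] E) → (A →ₐ[R] E) := fun σ =>
    (σ.restrictScalars R).comp (IsScalarTower.toAlgHom R A L)
  refine ⟨Set.range res, ?_, ?_, ?_, ?_⟩
  · have : Finite (L →ₐ[K] E) := inferInstance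
    exact Set.finite_range res
  · have : Nonempty (L →ₐ[K] E) := ⟨IsAlgClosed.lift⟩
    exact Set.range_nonempty res
  · rintro _ ⟨σ, rfl⟩
    exact σ.injective.comp (IsFractionRing.injective A L)
  · intro x α hα
    have hx : IsIntegral R x := Algebra.IsIntegral.isIntegral x
    have hmin : minpoly K (algebraMap A L x) = (minpoly R x).map (algebraMap R K) :=
      minpoly.isIntegrallyClosed_eq_field_fractions K L hx
    have hroot : α ∈ (minpoly K (algebraMap A L x)).rootSet E := by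
      rw [Polynomial.mem_rootSet]
      refine ⟨minpoly.ne_zero (Algebra.IsIntegral.isIntegral _), ?_⟩
      rw [hmin, Polynomial.aeval_map_algebraMap]
      exact hα
    rw [← Algebra.IsAlgebraic.range_eval_eq_rootSet_minpoly E (algebraMap A L x)] at hroot
    obtain ⟨σ, hσ⟩ := hroot
    exact ⟨res σ, ⟨σ, rfl⟩, hσ⟩

end

theorem cr_faithful {N : ℕ} {P : Ideal (S N)} {m : ℕ} {y : Fin m → Fin (N + 1) → ℚ}
    (h : IsNN P y) : FaithfulSMul (MvPolynomial (Fin m) ℂ) (CR P y) :=
  (faithfulSMul_iff_algebraMap_injective _ _).mpr h.1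

theorem cr_finite {N : ℕ} {P : Ideal (S N)} {m : ℕ} {y : Fin m → Fin (N + 1) → ℚ}
    (h : IsNN P y) : Module.Finite (MvPolynomial (Fin m) ℂ) (CR P y) := h.2

theorem cr_domain {N : ℕ} {P : Ideal (S N)} (hP : P.IsPrime) {m : ℕ}
    (y : Fin m → Fin (N + 1) → ℚ) : IsDomain (CR P y) :=
  Ideal.Quotient.isDomain P

theorem cr_mk_C {N : ℕ} {P : Ideal (S N)} {m : ℕ} (y : Fin m → Fin (N + 1) → ℚ) (a : ℂ) :
    CR.mk P y (C a) = algebraMap (MvPolynomial (Fin m) ℂ) (CR P y) (C a) := by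
  have h1 : algebraMap (MvPolynomial (Fin m) ℂ) (CR P y) (C a) = phi P y (C a) := rfl
  rw [h1, phi, aeval_C]
  rfl

theorem exists_separate {N : ℕ} {P1 P2 : Ideal (S N)} (hP1 : HP P1) (hP2 : HP P2) (hne : P1 ≠ P2)
    {m : ℕ} (y : Fin m → Fin (N + 1) → ℚ) (h1 : IsNN P1 y) (h2 : IsNN P2 y) :
    ∃ U : Finset (Submodule ℚ (Fin (N + 1) → ℚ)), (∀ u ∈ U, u ≠ ⊤) ∧
      ∀ c, (∀ u ∈ U, c ∉ u) →
        minpoly (MvPolynomial (Fin m) ℂ) (CR.mk P1 y (lin c))
          ≠ minpoly (MvPolynomial (Fin m) ℂ) (CR.mk P2 y (lin c)) := by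
  classical
  let R := MvPolynomial (Fin m) ℂ
  let E := AlgebraicClosure (FractionRing R)
  have := cr_faithful h1
  have := cr_faithful h2
  have := cr_finite h1
  have := cr_finite h2
  have := cr_domain hP1.prime y
  have := cr_domain hP2.prime y
  have hRE : FaithfulSMul R E := by
    rw [faithfulSMul_iff_algebraMap_injective, IsScalarTower.algebraMap_eq R (FractionRing R) E]
    exact (algebraMap (FractionRing R) E).injective.comp (IsFractionRing.injective R _)
  obtain ⟨Φ, hΦf, hΦn, hΦi, -⟩ := exists_homs R (CR P1 y) E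
  obtain ⟨Ψ, hΨf, -, hΨi, hΨr⟩ := exists_homs R (CR P2 y) E
  -- the coincidence subspaces
  have hlin1 : ∀ (φ : CR P1 y →ₐ[R] E) (a b : Fin (N + 1) → ℚ),
      φ (CR.mk P1 y (lin (a + b))) = φ (CR.mk P1 y (lin a)) + φ (CR.mk P1 y (lin b)) := by
    intro φ a b; rw [lin_add, map_add, map_add]
  have hlin2 : ∀ (ψ : CR P2 y →ₐ[R] E) (a b : Fin (N + 1) → ℚ),
      ψ (CR.mk P2 y (lin (a + b))) = ψ (CR.mk P2 y (lin a)) + ψ (CR.mk P2 y (lin b)) := by
    intro φ a b; rw [lin_add, map_add, map_add]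
  have hsm1 : ∀ (φ : CR P1 y →ₐ[R] E) (q : ℚ) (a : Fin (N + 1) → ℚ),
      φ (CR.mk P1 y (lin (q • a))) = algebraMap R E (C (q : ℂ)) * φ (CR.mk P1 y (lin a)) := by
    intro φ q a; rw [lin_smul, map_mul, map_mul, cr_mk_C, AlgHom.commutes]
  have hsm2 : ∀ (ψ : CR P2 y →ₐ[R] E) (q : ℚ) (a : Fin (N + 1) → ℚ),
      ψ (CR.mk P2 y (lin (q • a))) = algebraMap R E (C (q : ℂ)) * ψ (CR.mk P2 y (lin a)) := by
    intro φ q a; rw [lin_smul, map_mul, map_mul, cr_mk_C, AlgHom.commutes]
  let V : (CR P1 y →ₐ[R] E) × (CR P2 y →ₐ[R] E) → Submodule ℚ (Fin (N + 1) → ℚ) := fun p =>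
    { carrier := {c | p.1 (CR.mk P1 y (lin c)) = p.2 (CR.mk P2 y (lin c))}
      add_mem' := by
        intro a b ha hb
        change p.1 (CR.mk P1 y (lin (a + b))) = p.2 (CR.mk P2 y (lin (a + b)))
        rw [hlin1, hlin2]
        exact congrArg₂ (· + ·) ha hb
      zero_mem' := by
        change p.1 (CR.mk P1 y (lin 0)) = p.2 (CR.mk P2 y (lin 0))
        rw [lin_zero, map_zero, map_zero, map_zero, map_zero]
      smul_mem' := by
        intro q a ha
        change p.1 (CR.mk P1 y (lin (q • a))) = p.2 (CR.mk P2 y (lin (q • a)))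
        rw [hsm1, hsm2]
        exact congrArg (fun z => algebraMap R E (C (q : ℂ)) * z) ha }
  have hV : ∀ p c, c ∈ V p ↔ p.1 (CR.mk P1 y (lin c)) = p.2 (CR.mk P2 y (lin c)) :=
    fun p c => Iff.rfl
  have hprod : (Φ ×ˢ Ψ).Finite := hΦf.prod hΨf
  refine ⟨hprod.toFinset.image V, ?_, ?_⟩
  · intro u hu htop
    rw [Finset.mem_image] at hu
    obtain ⟨⟨φ, ψ⟩, hp, rfl⟩ := hu
    rw [Set.Finite.mem_toFinset] at hp
    apply hne
    -- the two ring homs agree
    have hX : ∀ j : Fin (N + 1), φ (CR.mk P1 y (X j)) = ψ (CR.mk P2 y (X j)) := by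
      intro j
      have : Pi.single j (1 : ℚ) ∈ V (φ, ψ) := by rw [htop]; trivial
      rw [hV, lin_single] at this
      exact this
    have hall : ∀ f : S N, φ (CR.mk P1 y f) = ψ (CR.mk P2 y f) := by
      intro f
      induction f using MvPolynomial.induction_on with
      | C a => rw [cr_mk_C, cr_mk_C, AlgHom.commutes, AlgHom.commutes]
      | add p q hp hq => rw [map_add, map_add, map_add, map_add, hp, hq]
      | mul_X p j hp => rw [map_mul, map_mul, map_mul, map_mul, hp, hX]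
    have hk1 : ∀ f : S N, f ∈ P1 ↔ φ (CR.mk P1 y f) = 0 := by
      intro f
      rw [map_eq_zero_iff φ (hΦi φ hp.1)]
      exact Ideal.Quotient.eq_zero_iff_mem.symm
    have hk2 : ∀ f : S N, f ∈ P2 ↔ ψ (CR.mk P2 y f) = 0 := by
      intro f
      rw [map_eq_zero_iff ψ (hΨi ψ hp.2)]
      exact Ideal.Quotient.eq_zero_iff_mem.symm
    ext f
    rw [hk1, hk2, hall]
  · intro c hc heq
    obtain ⟨φ, hφ⟩ := hΦn
    have hroot : Polynomial.aeval (φ (CR.mk P1 y (lin c)))
        (minpoly R (CR.mk P2 y (lin c))) = 0 := by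
      rw [← heq, Polynomial.aeval_algHom_apply, minpoly.aeval, map_zero]
    obtain ⟨ψ, hψ, hψe⟩ := hΨr _ _ hroot
    apply hc (V (φ, ψ))
    · rw [Finset.mem_image]
      exact ⟨(φ, ψ), (Set.Finite.mem_toFinset _).mpr ⟨hφ, hψ⟩, rfl⟩
    · rw [hV]
      exact hψe.symm

end SepCI
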