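import Mathlib

set_option autoImplicit false

/-! # M11: linear forms avoiding a resultant are nonzerodivisors modulo `(p, q)` -/

namespace SepCI

open Matrix

/-- `a` divides its norm. -/
theorem exists_mul_eq_norm {R B : Type*} [CommRing R] [CommRing B] [Algebra R B] {ι : Type*}
    [Fintype ι] [DecidableEq ι] (b : Module.Basis ι R B) (a : B) :
    ∃ c : B, a * c = algebraMap R B (Algebra.norm R a) := by
  refine ⟨b.equivFun.symm ((Algebra.leftMulMatrix b a).adjugate *ᵥ b.equivFun 1), ?_⟩
  apply b.equivFun.injective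
  have h1 : ∀ v : B, b.equivFun (a * v) = Algebra.leftMulMatrix b a *ᵥ b.equivFun v := by
    intro v
    have := Algebra.leftMulMatrix_mulVec_repr b a v
    simpa [Module.Basis.equivFun_apply] using this.symm
  rw [h1, LinearEquiv.apply_symm_apply, Matrix.mulVec_mulVec, Matrix.mul_adjugate,
    Matrix.smul_mulVec, Matrix.one_mulVec, ← Algebra.norm_eq_matrix_det b, ← map_smul,
    Algebra.smul_def, mul_one]

/-- the norm of a nonzerodivisor is nonzero -/
theorem norm_ne_zero_of_nzd {R B : Type*} [CommRing R] [IsDomain R] [CommRing B] [Algebra R B]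
    {ι : Type*} [Fintype ι] [DecidableEq ι] (b : Module.Basis ι R B) (a : B)
    (ha : ∀ v : B, a * v = 0 → v = 0) : Algebra.norm R a ≠ 0 := by
  rw [Algebra.norm_eq_matrix_det b]
  intro h0
  obtain ⟨v, hv, hv0⟩ := Matrix.exists_mulVec_eq_zero_iff.2 h0
  apply hv
  have h1 : a * b.equivFun.symm v = 0 := by
    apply b.equivFun.injective
    have := Algebra.leftMulMatrix_mulVec_repr b a (b.equivFun.symm v)
    rw [map_zero, ← hv0]
    have h2 : (⇑(b.repr (b.equivFun.symm v)) : ι → R) = v := by
      rw [← Module.Basis.equivFun_apply, LinearEquiv.apply_symm_apply]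
    rw [h2] at this
    rw [Module.Basis.equivFun_apply, this]
  exact (LinearEquiv.map_eq_zero_iff _).1 (ha _ h1)

theorem z_nonzero {R : Type*} [CommRing R] [IsDomain R] [UniqueFactorizationMonoid R]
    (p q : Polynomial R) (hp : p.Monic) (hrel : IsRelPrime p q) :
    ∃ ρ : R, ρ ≠ 0 ∧ ∀ z : R, Prime z → ¬ z ∣ ρ → ∀ r : Polynomial R,
      Polynomial.C z * r ∈ Ideal.span {p, q} → r ∈ Ideal.span {p, q} := by
  classical
  let pb := AdjoinRoot.powerBasis' hp
  let b := pb.basis
  set a : AdjoinRoot p := AdjoinRoot.mk p q with ha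
  obtain ⟨c, hc⟩ := exists_mul_eq_norm b a
  refine ⟨Algebra.norm R a, ?_, ?_⟩
  · apply norm_ne_zero_of_nzd b
    intro v hv
    obtain ⟨r, rfl⟩ := AdjoinRoot.mk_surjective v
    rw [ha, ← map_mul, AdjoinRoot.mk_eq_zero] at hv
    rw [AdjoinRoot.mk_eq_zero]
    exact hrel.dvd_of_dvd_mul_left hv
  · intro z hz hzρ r hr
    obtain ⟨s, t, hst⟩ := Ideal.mem_span_pair.1 hr
    -- z r = a t in M
    have h1 : z • AdjoinRoot.mk p r = a * AdjoinRoot.mk p t := by
      have := congrArg (AdjoinRoot.mk p) hst
      rw [map_add, map_mul, map_mul, AdjoinRoot.mk_self, mul_zero, zero_add, map_mul,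
        AdjoinRoot.mk_C] at this
      rw [ha, mul_comm (AdjoinRoot.mk p q), this, Algebra.smul_def]
      rfl
    have h2 : Algebra.norm R a • AdjoinRoot.mk p t = z • (c * AdjoinRoot.mk p r) := by
      rw [Algebra.smul_def, ← hc, mul_comm a c, mul_assoc, ← h1, mul_smul_comm]
    have hdiv : ∀ i, z ∣ b.equivFun (AdjoinRoot.mk p t) i := by
      intro i
      have h := congrArg (fun v => b.equivFun v i) h2
      simp only [map_smul, Pi.smul_apply, smul_eq_mul] at h
      have h3 : z ∣ Algebra.norm R a * b.equivFun (AdjoinRoot.mk p t) i := ⟨_, h⟩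
      exact (hz.dvd_or_dvd h3).resolve_left hzρ
    choose w hw using hdiv
    have h4 : AdjoinRoot.mk p t = z • b.equivFun.symm w := by
      rw [← map_smul, LinearEquiv.eq_symm_apply]
      funext i
      rw [hw i, Pi.smul_apply, smul_eq_mul]
    have hfree : Module.IsTorsionFree R (AdjoinRoot p) := by
      have := Module.Free.of_basis b
      infer_instance
    have h5 : AdjoinRoot.mk p r = a * b.equivFun.symm w := by
      apply smul_right_injective (AdjoinRoot p) hz.ne_zero
      change z • AdjoinRoot.mk p r = z • (a * b.equivFun.symm w)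
      rw [h1, h4, mul_smul_comm]
    obtain ⟨u, hu⟩ := AdjoinRoot.mk_surjective (b.equivFun.symm w)
    rw [← hu, ha, ← map_mul, AdjoinRoot.mk_eq_mk] at h5
    obtain ⟨k, hk⟩ := h5
    rw [Ideal.mem_span_pair]
    exact ⟨k, u, by linear_combination -hk⟩

end SepCI
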