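import Pool.Agent.SepCI.AlphaPre
import Pool.Agent.SepCI.NN
import Pool.Agent.SepCI.AlphaCore
import Pool.Agent.SepCI.ZNonzero
import Pool.Agent.SepCI.DDiscr
import Pool.Agent.SepCI.Pack
import Pool.Agent.SepCI.BetaCore
import Pool.Agent.SepCI.Separate
import Pool.Agent.SepCI.Base

set_option autoImplicit false

namespace SepCI

open MvPolynomial

attribute [local instance] MvPolynomial.gradedAlgebra

section ideals
variable {N : ℕ} {Q P : Ideal (S N)} {m : ℕ} (y : Fin m → Fin (N + 1) → ℚ)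

/-- image of an ideal `P ≥ Q` in the coordinate ring of `Q` -/
noncomputable def IA (Q P : Ideal (S N)) {m : ℕ} (y : Fin m → Fin (N + 1) → ℚ) :
    Ideal (CR Q y) := P.map (CR.mk Q y)

theorem mem_IA (hQP : Q ≤ P) (f : S N) : CR.mk Q y f ∈ IA Q P y ↔ f ∈ P := by
  rw [IA, Ideal.mem_map_iff_of_surjective (CR.mk Q y) (CR_mk_surjective y)]
  constructor
  · rintro ⟨g, hg, hgf⟩
    have : g - f ∈ Q := by
      rw [← CR_mk_eq_zero y, map_sub, hgf, sub_self]
    have h2 : g - (g - f) ∈ P := P.sub_mem hg (hQP this)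
    simpa using h2
  · intro hf
    exact ⟨f, hf, rfl⟩

theorem IA_prime (hP : P.IsPrime) (hQP : Q ≤ P) : (IA Q P y).IsPrime := by
  constructor
  · intro h
    have : CR.mk Q y 1 ∈ IA Q P y := by rw [h]; trivial
    rw [mem_IA y hQP] at this
    exact hP.ne_top ((Ideal.eq_top_iff_one P).2 this)
  · intro a b hab
    obtain ⟨f, rfl⟩ := CR_mk_surjective y a
    obtain ⟨g, rfl⟩ := CR_mk_surjective y b
    rw [← map_mul, mem_IA y hQP] at hab
    rw [mem_IA y hQP, mem_IA y hQP]
    exact hP.mem_or_mem hab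

theorem exists_of_mem_IA {a : CR Q y} (ha : a ∈ IA Q P y) : ∃ f ∈ P, CR.mk Q y f = a := by
  rw [IA, Ideal.mem_map_iff_of_surjective (CR.mk Q y) (CR_mk_surjective y)] at ha
  exact ha

end ideals

theorem pnn_cons {N : ℕ} {J : Ideal (S N)} {M m : ℕ} {y : Fin m → Fin (N + 1) → ℚ}
    {t : Fin (N + 1) → ℚ}
    (h : PNN J M (Fin.snoc (α := fun _ => Fin (N + 1) → ℚ) y t)) :
    PNN J M (Fin.cons (α := fun _ => Fin (N + 1) → ℚ) t y) := by
  intro q hq hJ hl
  refine h q hq hJ ?_
  intro i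
  refine Fin.lastCases ?_ (fun i => ?_) i
  · rw [Fin.snoc_last]
    simpa using hl 0
  · rw [Fin.snoc_castSucc]
    simpa using hl i.succ

theorem isHomogeneous_lin {N : ℕ} (c : Fin (N + 1) → ℚ) : (lin c).IsHomogeneous 1 := by
  rw [lin]
  apply MvPolynomial.IsHomogeneous.sum
  intro j _
  exact isHomogeneous_C_mul_X _ j

theorem isHomogeneous_liftS {N m : ℕ} (y : Fin m → Fin (N + 1) → ℚ) {r : MvPolynomial (Fin m) ℂ}
    {n : ℕ} (h : r.IsHomogeneous n) : (liftS y r).IsHomogeneous n := by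
  have := h.aeval (fun i => lin (y i)) (fun i => isHomogeneous_lin (y i))
  rw [one_mul] at this
  exact this

theorem hom_component {N : ℕ} {I : Ideal (S N)} (hI : Hom I) {u : S N} (hu : u ∈ I) (L : ℕ) :
    homogeneousComponent L u ∈ I := by
  have h := hI L hu
  have e : ((DirectSum.decompose (homogeneousSubmodule (Fin (N + 1)) ℂ) u L :
      homogeneousSubmodule (Fin (N + 1)) ℂ L) : S N) = homogeneousComponent L u :=
    decomposition.decompose'_apply u L
  rwa [e] at h

theorem finSucc_rename_succ {m : ℕ} (z : MvPolynomial (Fin m) ℂ) :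
    finSuccEquiv ℂ m (rename Fin.succ z) = Polynomial.C z := by
  have h : ((finSuccEquiv ℂ m : MvPolynomial (Fin (m + 1)) ℂ →ₐ[ℂ] _).comp (rename Fin.succ)) =
      (Polynomial.CAlgHom : MvPolynomial (Fin m) ℂ →ₐ[ℂ] Polynomial (MvPolynomial (Fin m) ℂ)) := by
    apply MvPolynomial.algHom_ext
    intro i
    simp [finSuccEquiv_X_succ]
  exact DFunLike.congr_fun h z

theorem liftS_rename_succ {N m : ℕ} (y : Fin m → Fin (N + 1) → ℚ) (t : Fin (N + 1) → ℚ)
    (z : MvPolynomial (Fin m) ℂ) :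
    liftS (Fin.cons (α := fun _ => Fin (N + 1) → ℚ) t y) (rename Fin.succ z) = liftS y z := by
  rw [liftS, liftS, aeval_rename]
  rfl

section aux
variable {N : ℕ} {Q P1 P2 : Ideal (S N)} {m s c d l : ℕ}

open Classical in
/-- the trace form argument excluding two components -/
theorem alpha_aux (hQ : HP Q) (hP1 : HP P1) (hP2 : HP P2) (hm : 2 ≤ m)
    (hQ1 : Q ≤ P1) (hQ2 : Q ≤ P2) (y : Fin m → Fin (N + 1) → ℚ) (t cc : Fin (N + 1) → ℚ)
    (hy1 : IsNN P1 y) (hy2 : IsNN P2 y)
    (hsep : minpoly (MvPolynomial (Fin m) ℂ) (CR.mk P1 y (lin t)) ≠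
      minpoly (MvPolynomial (Fin m) ℂ) (CR.mk P2 y (lin t)))
    (hy' : IsNN Q (Fin.cons (α := fun _ => Fin (N + 1) → ℚ) t y))
    (pk : Pack Q (Fin.cons (α := fun _ => Fin (N + 1) → ℚ) t y) cc s)
    {F : S N} (hF1 : F ∈ P1) (hF2 : F ∈ P2) (hFQ : F ∉ Q)
    {kW : IntermediateField ℚ ℂ} (hdef : DefOver kW Q) {T : Submodule ℂ (S N)}
    (hT : Tang kW d c F T) (hl : l + s ≤ d + 1)
    (hag1 : Agree P1 Q (l + 2 * (s * (s - 1)))) (hag2 : Agree P2 Q (l + 2 * (s * (s - 1)))) :
    hf Q l ≤ s * c := by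
  set y' : Fin (m + 1) → Fin (N + 1) → ℚ := Fin.cons (α := fun _ => Fin (N + 1) → ℚ) t y with hy'def
  have hdomA : IsDomain (CR Q y') := isDomain_CRa y' hQ.prime
  have hfaith : FaithfulSMul (MvPolynomial (Fin (m + 1)) ℂ) (CR Q y') :=
    (faithfulSMul_iff_algebraMap_injective _ _).2 (injective_CR y' hy')
  have hinj := injective_CR y' hy'
  have hfaithB : FaithfulSMul (MvPolynomial (Fin (m + 1)) ℂ) (BB Q y' cc) := by
    rw [faithfulSMul_iff_algebraMap_injective]
    intro a b hab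
    apply hinj
    exact congrArg (fun x : BB Q y' cc => (x : CR Q y')) hab
  set δ := Algebra.discr (MvPolynomial (Fin (m + 1)) ℂ) pk.b with hδ
  have hδ0 : δ ≠ 0 := pk.hd
  -- multiplication by δ lands in B
  let dl : CR Q y' → BB Q y' cc := fun a => ⟨δ • a, pk.hden a⟩
  have hdl : ∀ a, ((dl a : BB Q y' cc) : CR Q y') = δ • a := fun a => rfl
  set Ft : BB Q y' cc := dl (CR.mk Q y' F) with hFt
  have hmkF : CR.mk Q y' F ≠ 0 := fun h => hFQ ((CR_mk_eq_zero y').1 h)
  have hFt0 : Ft ≠ 0 := by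
    intro h
    have h1 : δ • CR.mk Q y' F = 0 := by rw [← hdl, ← hFt, h]; rfl
    rw [Algebra.smul_def] at h1
    rcases mul_eq_zero.1 h1 with h2 | h2
    · exact hδ0 (hinj (by rw [h2, map_zero]))
    · exact hmkF h2
  obtain ⟨Fs, hFF, hdlog⟩ := dlog pk.b Ft hFt0
  set Nn := Algebra.norm (MvPolynomial (Fin (m + 1)) ℂ) Ft with hNn
  have hNn0 : Nn ≠ 0 := by
    rw [hNn, Algebra.norm_ne_zero_iff_of_basis pk.b]
    exact hFt0
  have hFFA : (Ft : CR Q y') * (Fs : CR Q y') = algebraMap _ (CR Q y') Nn := by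
    have := congrArg (fun x : BB Q y' cc => (x : CR Q y')) hFF
    exact this
  have hFtmem : ∀ P : Ideal (S N), Q ≤ P → F ∈ P → (Ft : CR Q y') ∈ IA Q P y' := by
    intro P hQP hFP
    rw [hFt, hdl, Algebra.smul_def]
    exact (IA Q P y').mul_mem_left _ ((mem_IA y' hQP F).2 hFP)
  -- divisibility criterion
  have hdvd : ∀ (P : Ideal (S N)) (hP : HP P) (hy : IsNN P y) (hQP : Q ≤ P)
      (g : MvPolynomial (Fin (m + 1)) ℂ), algebraMap _ (CR Q y') g ∈ IA Q P y' ↔
        minpoly (MvPolynomial (Fin m) ℂ) (CR.mk P y (lin t)) ∣ finSuccEquiv ℂ m g := by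
    intro P hP hy hQP g
    rw [algebraMap_CR, mem_IA y' hQP]
    exact mem_iff_minpoly_dvd y t hP.prime hy g
  set e := finSuccEquiv ℂ m with he
  set mp1 := minpoly (MvPolynomial (Fin m) ℂ) (CR.mk P1 y (lin t)) with hmp1
  set mp2 := minpoly (MvPolynomial (Fin m) ℂ) (CR.mk P2 y (lin t)) with hmp2
  have hpr1 : Prime mp1 := minpoly_prime y t hP1.prime hy1
  have hpr2 : Prime mp2 := minpoly_prime y t hP2.prime hy2
  have hmon1 : mp1.Monic := minpoly_monic y t hy1
  have hmon2 : mp2.Monic := minpoly_monic y t hy2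
  have h1N : mp1 ∣ e Nn := by
    rw [← hdvd P1 hP1 hy1 hQ1, ← hFFA]
    exact (IA Q P1 y').mul_mem_right _ (hFtmem P1 hQ1 hF1)
  have h2N : mp2 ∣ e Nn := by
    rw [← hdvd P2 hP2 hy2 hQ2, ← hFFA]
    exact (IA Q P2 y').mul_mem_right _ (hFtmem P2 hQ2 hF2)
  have heN0 : e Nn ≠ 0 := by
    intro h
    exact hNn0 (e.injective (by rw [h, map_zero]))
  obtain ⟨a, q', hq'1, hq'⟩ := WfDvdMonoid.max_power_factor heN0 hpr1.irreducible
  have h21 : ¬ mp2 ∣ mp1 ^ a := by
    intro h
    have h' := hpr2.dvd_of_dvd_pow h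
    have hassoc : Associated mp2 mp1 :=
      hpr2.irreducible.associated_of_dvd hpr1.irreducible h'
    exact hsep (Polynomial.eq_of_monic_of_associated hmon2 hmon1 hassoc).symm
  have h2q : mp2 ∣ q' := by
    rw [hq'] at h2N
    rcases hpr2.dvd_or_dvd h2N with h | h
    · exact absurd h h21
    · exact h
  have hq'0 : q' ≠ 0 := by
    rintro rfl
    exact hq'1 (dvd_zero _)
  set p' := mp1 ^ a with hp'
  have hp'mon : p'.Monic := hmon1.pow a
  have hrel' : IsRelPrime p' q' :=
    (hpr1.irreducible.isRelPrime_iff_not_dvd.2 hq'1).pow_left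
  set p := e.symm p' with hp
  set q := e.symm q' with hq
  have hep : e p = p' := by rw [hp]; exact e.apply_symm_apply p'
  have heq : e q = q' := by rw [hq]; exact e.apply_symm_apply q'
  have hNpq : Nn = p * q := by
    apply e.injective
    rw [map_mul, hep, heq, hq']
  have hp0 : p ≠ 0 := by
    intro h; rw [h, zero_mul] at hNpq; exact hNn0 hNpq
  have hq0 : q ≠ 0 := by
    intro h; rw [h, mul_zero] at hNpq; exact hNn0 hNpq
  have hrel : IsRelPrime p q := by
    intro x hxp hxq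
    have h1 : e x ∣ p' := by rw [← hep]; exact map_dvd e hxp
    have h2 : e x ∣ q' := by rw [← heq]; exact map_dvd e hxq
    have h3 : IsUnit (e x) := hrel' h1 h2
    have h4 := h3.map e.symm
    rwa [e.symm_apply_apply] at h4
  have hqP1 : algebraMap _ (CR Q y') q ∉ IA Q P1 y' := by
    rw [hdvd P1 hP1 hy1 hQ1, heq]; exact hq'1
  have hpP2 : algebraMap _ (CR Q y') p ∉ IA Q P2 y' := by
    rw [hdvd P2 hP2 hy2 hQ2, hep]; exact h21
  -- the linear form z
  obtain ⟨ρ, hρ, hzρ⟩ := z_nonzero p' q' hp'mon hrel'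
  obtain ⟨z, hz, hzhom, hzn⟩ := exists_z hm hρ
  have hzdiv' := hzρ z hz hzn
  set z' := e.symm (Polynomial.C z) with hz'
  have hez : e z' = Polynomial.C z := by rw [hz']; exact e.apply_symm_apply _
  have hspan : ∀ r : MvPolynomial (Fin (m + 1)) ℂ, r ∈ Ideal.span {p, q} ↔
      e r ∈ Ideal.span {p', q'} := by
    intro r
    rw [Ideal.mem_span_pair, Ideal.mem_span_pair]
    constructor
    · rintro ⟨u, v, huv⟩
      refine ⟨e u, e v, ?_⟩
      rw [← hep, ← heq, ← map_mul, ← map_mul, ← map_add, huv]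
    · rintro ⟨u, v, huv⟩
      refine ⟨e.symm u, e.symm v, ?_⟩
      apply e.injective
      rw [map_add, map_mul, map_mul, hep, heq, e.apply_symm_apply, e.apply_symm_apply, huv]
  have hzdiv : ∀ r : MvPolynomial (Fin (m + 1)) ℂ, z' * r ∈ Ideal.span {p, q} →
      r ∈ Ideal.span {p, q} := by
    intro r hr
    rw [hspan] at hr ⊢
    rw [map_mul, hez] at hr
    exact hzdiv' _ hr
  have hzpow : ∀ (n : ℕ) (r : MvPolynomial (Fin (m + 1)) ℂ), z' ^ n * r ∈ Ideal.span {p, q} →
      r ∈ Ideal.span {p, q} := by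
    intro n
    induction n with
    | zero => intro r hr; simpa using hr
    | succ n ih =>
      intro r hr
      apply ih
      apply hzdiv
      rw [← mul_assoc, ← pow_succ']
      exact hr
  have hz'X : z' = rename Fin.succ z := by
    apply e.injective
    rw [hez, he]
    exact (finSucc_rename_succ z).symm
  have hzS : liftS y' z' = liftS y z := by rw [hz'X]; exact liftS_rename_succ y t z
  have hzShom : (liftS y z).IsHomogeneous 1 := isHomogeneous_liftS y hzhom
  -- elements of T have trace in (p, q)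
  have hTtr : ∀ G ∈ T, Algebra.trace (MvPolynomial (Fin (m + 1)) ℂ) (BB Q y' cc)
      (Fs * dl (CR.mk Q y' G)) ∈ Ideal.span {p, q} := by
    intro G hG
    obtain ⟨D, hD, hDG⟩ := hT.2.2 G hG
    have hb0 : ∀ i, dB hdef D hD y' cc (pk.b i) = 0 := fun i =>
      dB_pow hdef D hD y' cc (pk.b i) i (pk.hb i)
    have hDR := dB_algebraMap hdef D hD y' cc
    have hδD : cD (Fin (m + 1)) D δ = 0 := ddiscr pk.b (dB hdef D hD y' cc) _ hDR hb0
    have h1 := hdlog (dB hdef D hD y' cc) _ hDR hb0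
    have h2 : dB hdef D hD y' cc Ft = dl (CR.mk Q y' G) := by
      apply Subtype.ext
      rw [coe_dB, hdl]
      rw [Algebra.smul_def, Derivation.leibniz, dA_algebraMap, hδD,
        map_zero, smul_zero, add_zero, dA_mk, cD_eq_coefD, hDG, smul_eq_mul]
      exact (Algebra.smul_def δ _).symm
    rw [h2] at h1
    rw [← h1]
    change cD (Fin (m + 1)) D Nn ∈ _
    rw [hNpq, Derivation.leibniz, smul_eq_mul, smul_eq_mul]
    exact Ideal.add_mem _ (Ideal.mul_mem_right _ _ (Ideal.subset_span (by simp)))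
      (Ideal.mul_mem_right _ _ (Ideal.subset_span (by simp)))
  -- the space K of forms of degree l
  let T' : Submodule ℂ (Sd N d) := T.comap (Sd N d).subtype
  have hT'fin : Module.finrank ℂ T' = Module.finrank ℂ T := by
    apply LinearEquiv.finrank_eq
    exact Submodule.comapSubtypeEquivOfLe hT.1
  let μ : Fin s → Sd N l →ₗ[ℂ] Sd N d := fun i =>
    { toFun := fun x => ⟨lin cc ^ (i : ℕ) * (liftS y z ^ (d - l - i) * x), by
        have h1 : (lin cc ^ (i : ℕ)).IsHomogeneous (1 * i) := (isHomogeneous_lin cc).pow i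
        have h2 : (liftS y z ^ (d - l - i)).IsHomogeneous (1 * (d - l - i)) := hzShom.pow _
        have h3 : ((x : S N)).IsHomogeneous l := x.2
        have h4 := h1.mul (h2.mul h3)
        have hi := i.2
        have e1 : 1 * (i : ℕ) + (1 * (d - l - i) + l) = d := by omega
        rw [e1] at h4
        exact h4⟩
      map_add' := fun a b => Subtype.ext (by simp [mul_add])
      map_smul' := fun r a => Subtype.ext (by simp) }
  obtain ⟨K, hK, hKfin⟩ := codim_inter T' s μ c (by rw [hT'fin]; exact hT.2.1)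
  have hKQ : ∀ x ∈ K, (x : S N) ∈ Q := by
    intro x hx
    -- trace condition for x
    have htr : ∀ i : Fin s, Algebra.trace (MvPolynomial (Fin (m + 1)) ℂ) (BB Q y' cc)
        (pk.b i * (Fs * dl (CR.mk Q y' (x : S N)))) ∈ Ideal.span {p, q} := by
      intro i
      apply hzpow (d - l - i)
      have h1 : Algebra.trace (MvPolynomial (Fin (m + 1)) ℂ) (BB Q y' cc)
          (Fs * dl (CR.mk Q y' ((μ i x : Sd N d) : S N))) ∈ Ideal.span {p, q} :=
        hTtr _ (hK x hx i)
      have h2 : Fs * dl (CR.mk Q y' ((μ i x : Sd N d) : S N)) =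
          z' ^ (d - l - i) • (pk.b i * (Fs * dl (CR.mk Q y' (x : S N)))) := by
        apply Subtype.ext
        rw [Algebra.smul_def]
        simp only [Subalgebra.coe_mul, hdl, Subalgebra.coe_algebraMap, pk.hb]
        change (Fs : CR Q y') * (δ • CR.mk Q y' (lin cc ^ (i : ℕ) *
          (liftS y z ^ (d - l - i) * (x : S N)))) = _
        rw [algebraMap_CR, map_pow (liftS y'), hzS, map_mul, map_mul, Algebra.smul_def,
          Algebra.smul_def, map_pow, map_pow]
        ring
      rw [h2, map_smul, smul_eq_mul] at h1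
      exact h1
    obtain ⟨g1, g2, C1, C2, hsum, hg1, hg2⟩ := alpha_core pk.b pk.hd Ft Fs p q
      (by rw [hFF, hNpq]) hrel hp0 hq0 (dl (CR.mk Q y' (x : S N))) htr
    have hg1A : (g1 : CR Q y') ∈ IA Q P1 y' := by
      have h1 : algebraMap _ (CR Q y') q * (g1 : CR Q y') = (Ft : CR Q y') * (C1 : CR Q y') := by
        have := congrArg (fun x : BB Q y' cc => (x : CR Q y')) hg1
        rw [Algebra.smul_def] at this
        exact this
      have h2 : algebraMap _ (CR Q y') q * (g1 : CR Q y') ∈ IA Q P1 y' := by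
        rw [h1]; exact (IA Q P1 y').mul_mem_right _ (hFtmem P1 hQ1 hF1)
      exact ((IA_prime y' hP1.prime hQ1).mem_or_mem h2).resolve_left hqP1
    have hg2A : (g2 : CR Q y') ∈ IA Q P2 y' := by
      have h1 : algebraMap _ (CR Q y') p * (g2 : CR Q y') = (Ft : CR Q y') * (C2 : CR Q y') := by
        have := congrArg (fun x : BB Q y' cc => (x : CR Q y')) hg2
        rw [Algebra.smul_def] at this
        exact this
      have h2 : algebraMap _ (CR Q y') p * (g2 : CR Q y') ∈ IA Q P2 y' := by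
        rw [h1]; exact (IA Q P2 y').mul_mem_right _ (hFtmem P2 hQ2 hF2)
      exact ((IA_prime y' hP2.prime hQ2).mem_or_mem h2).resolve_left hpP2
    obtain ⟨u1, hu1, hu1'⟩ := exists_of_mem_IA y' hg1A
    obtain ⟨u2, hu2, hu2'⟩ := exists_of_mem_IA y' hg2A
    obtain ⟨f, hf, hfδ⟩ := pk.hhom
    have hfQ : f ∉ Q := by
      intro hfQ
      rw [(CR_mk_eq_zero y').2 hfQ] at hfδ
      exact hδ0 (hinj (by rw [hfδ, map_zero]))
    have hmem : f * (f * (x : S N)) - (u1 + u2) ∈ Q := by
      rw [← CR_mk_eq_zero y', map_sub, map_mul, map_mul, map_add, hu1', hu2', ← hfδ]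
      have h1 := congrArg (fun x : BB Q y' cc => (x : CR Q y')) hsum
      simp only [Subalgebra.coe_add, Algebra.smul_def] at h1
      rw [sub_eq_zero]
      exact h1
    set L := l + 2 * (s * (s - 1)) with hL
    have hxhom : ((x : S N)).IsHomogeneous l := x.2
    have hfhom : f.IsHomogeneous (s * (s - 1)) := hf
    have hhomL : (f * (f * (x : S N))).IsHomogeneous L := by
      have := hfhom.mul (hfhom.mul hxhom)
      have e1 : s * (s - 1) + (s * (s - 1) + l) = L := by rw [hL]; ring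
      rwa [e1] at this
    have hcomp : homogeneousComponent L (f * (f * (x : S N))) = f * (f * (x : S N)) := by
      rw [homogeneousComponent_of_mem hhomL, if_pos rfl]
    have hdecomp := congrArg (homogeneousComponent L)
      (show f * (f * (x : S N)) = (f * (f * (x : S N)) - (u1 + u2)) + (u1 + u2) by ring)
    rw [hcomp, map_add, map_add] at hdecomp
    have hv0 := hom_component hQ.hom hmem L
    have hv1 := hag1 _ (homogeneousComponent_mem L u1) (hom_component hP1.hom hu1 L)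
    have hv2 := hag2 _ (homogeneousComponent_mem L u2) (hom_component hP2.hom hu2 L)
    have hfin : f * (f * (x : S N)) ∈ Q := by
      rw [hdecomp]
      exact Q.add_mem hv0 (Q.add_mem hv1 hv2)
    have h1 := (hQ.prime.mem_or_mem hfin).resolve_left hfQ
    exact (hQ.prime.mem_or_mem h1).resolve_left hfQ
  -- conclusion
  have hKS : K.map (Sd N l).subtype ≤ Sd N l := by
    rintro _ ⟨x, _, rfl⟩
    exact x.2
  refine hf_le_of_codim (T := K.map (Sd N l).subtype) hKS ?_ ?_
  · have : Module.finrank ℂ (K.map (Sd N l).subtype) = Module.finrank ℂ K :=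
      Submodule.finrank_map_subtype_eq _ K
    rw [this]
    exact hKfin
  · rintro _ ⟨x, hx, rfl⟩
    exact hKQ x hx

end aux

theorem alpha {N : ℕ} {Q P1 P2 : Ideal (S N)} (hQ : HP Q) (hP1 : HP P1) (hP2 : HP P2)
    {m s c d l : ℕ} (hm : 2 ≤ m) (hmQ : md Q = m + 1) (hm1 : md P1 = m) (hm2 : md P2 = m)
    (hQ1 : Q ≤ P1) (hQ2 : Q ≤ P2) (hne : P1 ≠ P2) (hs : Bd Q (m + 1) s) {F : S N}
    (hF1 : F ∈ P1) (hF2 : F ∈ P2) (hFQ : F ∉ Q)
    {kW : IntermediateField ℚ ℂ} (hdef : DefOver kW Q) {T : Submodule ℂ (S N)}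
    (hT : Tang kW d c F T) (hl : l + s ≤ d + 1)
    (hag1 : Agree P1 Q (l + 2 * (s * (s - 1)))) (hag2 : Agree P2 Q (l + 2 * (s * (s - 1)))) :
    hf Q l ≤ s * c := by
  classical
  obtain ⟨ys, hys⟩ := exists_flag (ι := Fin 3) ![Q, P1, P2] ![m + 1, m, m]
    (by
      intro i
      fin_cases i
      · exact hQ.hom
      · exact hP1.hom
      · exact hP2.hom)
    (by
      intro i q hq hle
      fin_cases i
      · exact (md_le hQ hq hle).trans hmQ.le
      · exact (md_le hP1 hq hle).trans hm1.le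
      · exact (md_le hP2 hq hle).trans hm2.le)
  have hysQ : PNN Q (m + 1) (fun a : Fin m => ys a) := hys 0 m
  have hys1 : PNN P1 m (fun a : Fin m => ys a) := hys 1 m
  have hys2 : PNN P2 m (fun a : Fin m => ys a) := hys 2 m
  have hy1 := isNN_of_pnn hP1 hm1 _ hys1
  have hy2 := isNN_of_pnn hP2 hm2 _ hys2
  obtain ⟨U1, hU1, hU1'⟩ := pnn_step hQ.hom (m + 1) _ hysQ
  obtain ⟨U2, hU2, hU2'⟩ := exists_separate hP1 hP2 hne _ hy1 hy2
  obtain ⟨t, ht⟩ := avoid (U1 ∪ U2) (by
    intro u hu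
    rcases Finset.mem_union.1 hu with h | h
    · exact hU1 u h
    · exact hU2 u h)
  have hsep := hU2' t (fun u hu => ht u (Finset.mem_union_right _ hu))
  have hpnn := pnn_cons (hU1' t (fun u hu => ht u (Finset.mem_union_left _ hu)))
  have hy' := isNN_of_pnn hQ hmQ _ hpnn
  obtain ⟨s', U3, _, hs', hU3, hU3'⟩ := exists_pack hQ (by omega) _ hy'
  have hss : s' = s := Bd_unique (by omega) hs' hs
  subst hss
  obtain ⟨cc, hcc⟩ := avoid U3 hU3
  obtain ⟨pk⟩ := hU3' cc hcc
  exact alpha_aux hQ hP1 hP2 hm hQ1 hQ2 _ t cc hy1 hy2 hsep hy' pk hF1 hF2 hFQ hdef hT hl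
    hag1 hag2

end SepCI
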