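import Pool.Agent.SepCI.DAct

set_option autoImplicit false

namespace SepCI

open MvPolynomial

attribute [local instance] MvPolynomial.gradedAlgebra

/-! ## Linear algebra -/

theorem codim_inter {V W : Type*} [AddCommGroup V] [Module ℂ V] [FiniteDimensional ℂ V]
    [AddCommGroup W] [Module ℂ W] [FiniteDimensional ℂ W] (T : Submodule ℂ W) (s : ℕ)
    (μ : Fin s → V →ₗ[ℂ] W) (c : ℕ) (hc : Module.finrank ℂ W ≤ Module.finrank ℂ T + c) :
    ∃ K : Submodule ℂ V, (∀ x ∈ K, ∀ i, μ i x ∈ T) ∧
      Module.finrank ℂ V ≤ Module.finrank ℂ K + s * c := by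
  let f : V →ₗ[ℂ] (Fin s → W ⧸ T) := LinearMap.pi fun i => T.mkQ.comp (μ i)
  refine ⟨LinearMap.ker f, ?_, ?_⟩
  · intro x hx i
    have h1 : f x i = 0 := by rw [LinearMap.mem_ker.1 hx]; rfl
    exact (Submodule.Quotient.mk_eq_zero T).1 h1
  · have h1 := LinearMap.finrank_range_add_finrank_ker f
    have h2 : Module.finrank ℂ (LinearMap.range f) ≤ Module.finrank ℂ (Fin s → W ⧸ T) :=
      Submodule.finrank_le _
    have h3 : Module.finrank ℂ (Fin s → W ⧸ T) = s * Module.finrank ℂ (W ⧸ T) := by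
      rw [Module.finrank_pi_fintype]; simp
    have h4 := Submodule.finrank_quotient_add_finrank T
    have h5 : Module.finrank ℂ (W ⧸ T) ≤ c := by omega
    have h6 : s * Module.finrank ℂ (W ⧸ T) ≤ s * c := Nat.mul_le_mul_left _ h5
    omega

/-! ## Linear primes not dividing a given polynomial -/

theorem prime_linear {σ : Type*} [Finite σ] {i j : σ} (hij : i ≠ j) (a : ℂ) :
    Prime (X i + C a * X j : MvPolynomial σ ℂ) := by
  classical
  have hhom : (X i + C a * X j : MvPolynomial σ ℂ).IsHomogeneous 1 :=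
    (isHomogeneous_X ℂ i).add (isHomogeneous_C_mul_X a j)
  have hc : coeff (Finsupp.single i 1) (X i + C a * X j : MvPolynomial σ ℂ) = 1 := by
    rw [coeff_add, coeff_C_mul, coeff_X, coeff_X]
    rw [if_pos rfl, if_neg, mul_zero, add_zero]
    intro h
    exact hij ((Finsupp.single_left_inj one_ne_zero).1 h).symm
  have hne : (X i + C a * X j : MvPolynomial σ ℂ) ≠ 0 := by
    intro h; rw [h, coeff_zero] at hc; exact zero_ne_one hc
  have hdeg := hhom.totalDegree hne
  rw [← UniqueFactorizationMonoid.irreducible_iff_prime]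
  refine ⟨?_, ?_⟩
  · intro hu
    rw [MvPolynomial.isUnit_iff_totalDegree_of_isReduced] at hu
    omega
  · intro f g hfg
    have hf : f ≠ 0 := by rintro rfl; rw [zero_mul] at hfg; exact hne hfg
    have hg : g ≠ 0 := by rintro rfl; rw [mul_zero] at hfg; exact hne hfg
    have hsum := totalDegree_mul_of_isDomain hf hg
    rw [← hfg, hdeg] at hsum
    have hcase : f.totalDegree = 0 ∨ g.totalDegree = 0 := by omega
    have key : ∀ p : MvPolynomial σ ℂ, p ≠ 0 → p.totalDegree = 0 → IsUnit p := by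
      intro p hp h0
      rw [totalDegree_eq_zero_iff_eq_C] at h0
      rw [h0]
      apply IsUnit.map
      rw [isUnit_iff_ne_zero]
      intro h1
      rw [h1, map_zero] at h0
      exact hp h0
    rcases hcase with h | h
    · exact Or.inl (key f hf h)
    · exact Or.inr (key g hg h)

theorem exists_z {m : ℕ} (hm : 2 ≤ m) {ρ : MvPolynomial (Fin m) ℂ} (hρ : ρ ≠ 0) :
    ∃ z : MvPolynomial (Fin m) ℂ, Prime z ∧ z.IsHomogeneous 1 ∧ ¬ z ∣ ρ := by
  let i : Fin m := ⟨0, by omega⟩
  let j : Fin m := ⟨1, by omega⟩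
  have hij : i ≠ j := by simp [i, j, Fin.ext_iff]
  have hne : ρ * X j ≠ 0 := mul_ne_zero hρ (X_ne_zero j)
  obtain ⟨v, hv⟩ : ∃ v : Fin m → ℂ, eval v (ρ * X j) ≠ 0 := by
    by_contra hc
    push Not at hc
    exact hne (MvPolynomial.funext fun x => by rw [hc x, map_zero])
  rw [map_mul, eval_X] at hv
  have hv1 : eval v ρ ≠ 0 := left_ne_zero_of_mul hv
  have hv2 : v j ≠ 0 := right_ne_zero_of_mul hv
  refine ⟨X i + C (-(v i) / v j) * X j, prime_linear hij _,
    (isHomogeneous_X ℂ i).add (isHomogeneous_C_mul_X _ j), ?_⟩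
  rintro ⟨g, hg⟩
  apply hv1
  rw [hg, map_mul, map_add, map_mul, eval_X, eval_X, eval_C, div_mul_cancel₀ _ hv2]
  ring

/-! ## Kernels of the map to the coordinate ring of a hypersurface -/

section kernel
variable {N : ℕ} {P : Ideal (S N)} {m : ℕ} (y : Fin m → Fin (N + 1) → ℚ)
  (t : Fin (N + 1) → ℚ)

theorem isDomain_CRa (hP : P.IsPrime) : IsDomain (CR P y) :=
  inferInstanceAs (IsDomain (S N ⧸ P))

theorem injective_CR (hy : IsNN P y) :
    Function.Injective (algebraMap (MvPolynomial (Fin m) ℂ) (CR P y)) := hy.1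

theorem finite_CRa (hy : IsNN P y) : Module.Finite (MvPolynomial (Fin m) ℂ) (CR P y) := hy.2

theorem torsionFree_CR (hP : P.IsPrime) (hy : IsNN P y) :
    Module.IsTorsionFree (MvPolynomial (Fin m) ℂ) (CR P y) := by
  have := isDomain_CRa y hP
  have : FaithfulSMul (MvPolynomial (Fin m) ℂ) (CR P y) :=
    (faithfulSMul_iff_algebraMap_injective _ _).2 (injective_CR y hy)
  infer_instance

/-- membership in `P` of polynomials in `t, y` is divisibility by the minimal polynomial of
`t` -/
theorem mem_iff_minpoly_dvd (hP : P.IsPrime) (hy : IsNN P y)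
    (g : MvPolynomial (Fin (m + 1)) ℂ) :
    liftS (Fin.cons (α := fun _ => Fin (N + 1) → ℚ) t y) g ∈ P ↔
      minpoly (MvPolynomial (Fin m) ℂ) (CR.mk P y (lin t)) ∣ finSuccEquiv ℂ m g := by
  have := isDomain_CRa y hP
  have := finite_CRa y hy
  have := torsionFree_CR y hP hy
  have hint : IsIntegral (MvPolynomial (Fin m) ℂ) (CR.mk P y (lin t)) :=
    Algebra.IsIntegral.isIntegral _
  rw [← minpoly.isIntegrallyClosed_dvd_iff hint]
  have key : ∀ g : MvPolynomial (Fin (m + 1)) ℂ,
      Polynomial.aeval (CR.mk P y (lin t)) (finSuccEquiv ℂ m g) =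
        CR.mk P y (liftS (Fin.cons (α := fun _ => Fin (N + 1) → ℚ) t y) g) := by
    intro g
    induction g using MvPolynomial.induction_on with
    | C a =>
      have h1 : finSuccEquiv ℂ m (C a) = Polynomial.C (C a) := by
        rw [finSuccEquiv_apply, eval₂Hom_C]; rfl
      have h2 : liftS (Fin.cons (α := fun _ => Fin (N + 1) → ℚ) t y) (C a) = C a := by
        rw [liftS]; exact aeval_C _ _
      rw [h1, h2, Polynomial.aeval_C, algebraMap_CR]
      congr 1
      rw [liftS]; exact aeval_C _ _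
    | add p q hp hq => simp only [map_add, hp, hq]
    | mul_X p i hp =>
      have hX : Polynomial.aeval (CR.mk P y (lin t)) (finSuccEquiv ℂ m (X i)) =
          CR.mk P y (liftS (Fin.cons (α := fun _ => Fin (N + 1) → ℚ) t y) (X i)) := by
        refine Fin.cases ?_ (fun i => ?_) i
        · rw [finSuccEquiv_X_zero, Polynomial.aeval_X, liftS, aeval_X, Fin.cons_zero]
        · rw [finSuccEquiv_X_succ, Polynomial.aeval_C, algebraMap_CR, liftS, liftS, aeval_X,
            aeval_X, Fin.cons_succ]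
      rw [map_mul, map_mul, map_mul, map_mul, hp, hX]
  rw [key, CR_mk_eq_zero]

theorem minpoly_prime (hP : P.IsPrime) (hy : IsNN P y) :
    Prime (minpoly (MvPolynomial (Fin m) ℂ) (CR.mk P y (lin t))) := by
  have := isDomain_CRa y hP
  have := finite_CRa y hy
  have := torsionFree_CR y hP hy
  exact minpoly.prime_of_isIntegrallyClosed (Algebra.IsIntegral.isIntegral _)

theorem minpoly_monic (hy : IsNN P y) :
    (minpoly (MvPolynomial (Fin m) ℂ) (CR.mk P y (lin t))).Monic := by
  have := finite_CRa y hy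
  exact minpoly.monic (Algebra.IsIntegral.isIntegral _)

end kernel

end SepCI
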