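import Pool.Agent.SepCI.Defs2

/-!
# Coordinates of a generic form: some coordinate along `g * S_a` is transcendental over the
# field generated by the other coordinates
-/

set_option autoImplicit false

namespace SepCI

open MvPolynomial Finset

attribute [local instance] MvPolynomial.gradedAlgebra

/-- the forms of degree `d` are spanned by monomials -/
theorem span_monomials (N d : ℕ) :
    Submodule.span ℂ (Set.range fun m : Mon N d => (monomial m.1 (1 : ℂ) : S N)) = Sd N d := by
  apply le_antisymm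
  · rw [Submodule.span_le]
    rintro _ ⟨m, rfl⟩
    exact (mem_homogeneousSubmodule _ _).2 (isHomogeneous_monomial _ m.2)
  · intro f hf
    have h1 : f = ∑ m : Mon N d, coeff m.1 f • (monomial m.1 (1 : ℂ) : S N) := by
      have h2 := (sdEquiv N d).symm_apply_apply ⟨f, hf⟩
      have h3 := congrArg (fun g : Sd N d => (g : S N)) h2
      simp only at h3
      have h4 : (∑ m : Mon N d, monomial m.1 (coeff m.1 f) : S N) = f := h3
      refine h4.symm.trans ?_
      apply Finset.sum_congr rfl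
      intro m _
      rw [smul_monomial, smul_eq_mul, mul_one]
    rw [h1]
    apply Submodule.sum_mem
    intro m _
    apply Submodule.smul_mem
    exact Submodule.subset_span ⟨m, rfl⟩

/-- a basis of the forms of degree `a` modulo `Q`, consisting of monomials -/
theorem exists_mon_basis {N : ℕ} (Q : Ideal (S N)) (a : ℕ) :
    ∃ x : Fin (hf Q a) → Mon N a,
      LinearIndependent ℂ (fun i => Ideal.Quotient.mkₐ ℂ Q (monomial (x i).1 (1 : ℂ))) := by
  let s : Set (S N ⧸ Q) := Set.range fun m : Mon N a =>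
    Ideal.Quotient.mkₐ ℂ Q (monomial m.1 (1 : ℂ))
  have hs : Submodule.span ℂ s = (Sd N a).map (Ideal.Quotient.mkₐ ℂ Q).toLinearMap := by
    rw [← span_monomials, Submodule.map_span]
    congr 1
    rw [← Set.range_comp]
    rfl
  have hfin : Module.Finite ℂ (Submodule.span ℂ s) := by
    rw [hs]
    infer_instance
  obtain ⟨v, hv, -, hvi⟩ := Submodule.exists_fun_fin_finrank_span_eq ℂ s
  choose x hx using hv
  have hn : hf Q a = Module.finrank ℂ (Submodule.span ℂ s) := by
    rw [hs]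
    rfl
  refine ⟨fun i => x (Fin.cast hn i), ?_⟩
  have h1 : (fun i => Ideal.Quotient.mkₐ ℂ Q (monomial (x (Fin.cast hn i)).1 (1 : ℂ))) =
      v ∘ Fin.cast hn := by
    funext i
    exact hx _
  rw [h1]
  exact hvi.comp _ (Fin.cast_injective _)

/-- a basis of the forms of degree `d` modulo `Q` extending `g` times a basis of the forms of
degree `a` -/
theorem exists_ext_basis {N : ℕ} {k' : IntermediateField ℚ ℂ} {Q : Ideal (S N)} (hQ : Q.IsPrime)
    {d a b : ℕ} (hab : a + b = d) {g : S N} (hg : g ∈ Sd N b) (hgk : ∀ m, coeff m g ∈ k')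
    (hgQ : g ∉ Q) :
    ∃ (B : Finset (Mon N d)) (V : Fin (hf Q a) ⊕ B → S N),
      (∀ i, V i ∈ Sd N d ∧ ∀ m, coeff m (V i) ∈ k') ∧
      (∀ i, ∃ x ∈ Sd N a, V (Sum.inl i) = g * x) ∧
      LinearIndependent ℂ (fun i => Ideal.Quotient.mkₐ ℂ Q (V i)) ∧
      Submodule.span ℂ (Set.range fun i => Ideal.Quotient.mkₐ ℂ Q (V i)) =
        (Sd N d).map (Ideal.Quotient.mkₐ ℂ Q).toLinearMap := by
  classical
  obtain ⟨x, hx⟩ := exists_mon_basis Q a
  let V : Fin (hf Q a) ⊕ Mon N d → S N :=
    Sum.elim (fun i => g * monomial (x i).1 (1 : ℂ)) (fun m => monomial m.1 (1 : ℂ))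
  have hVd : ∀ i, V i ∈ Sd N d := by
    rintro (i | m)
    · rw [mem_homogeneousSubmodule]
      have := ((mem_homogeneousSubmodule _ _).1 hg).mul (isHomogeneous_monomial (1 : ℂ) (x i).2)
      rw [add_comm b a, hab] at this
      exact this
    · exact (mem_homogeneousSubmodule _ _).2 (isHomogeneous_monomial _ m.2)
  have hVk : ∀ i m, coeff m (V i) ∈ k' := by
    rintro (i | m') m
    · change coeff m (g * monomial (x i).1 (1 : ℂ)) ∈ k'
      rw [coeff_mul_monomial']
      split_ifs
      · rw [mul_one]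
        exact hgk _
      · exact zero_mem _
    · change coeff m (monomial m'.1 (1 : ℂ)) ∈ k'
      rw [coeff_monomial]
      split_ifs
      · exact one_mem _
      · exact zero_mem _
  let W : Fin (hf Q a) ⊕ Mon N d → S N ⧸ Q := fun i => Ideal.Quotient.mkₐ ℂ Q (V i)
  have hli : LinearIndependent ℂ (fun i : Fin (hf Q a) => W (Sum.inl i)) := by
    have hker : LinearMap.ker (LinearMap.mulLeft ℂ (Ideal.Quotient.mkₐ ℂ Q g)) = ⊥ := by
      rw [LinearMap.ker_eq_bot']
      intro z hz
      rw [LinearMap.mulLeft_apply] at hz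
      rcases mul_eq_zero.1 hz with h | h
      · exact absurd (Ideal.Quotient.eq_zero_iff_mem.1 h) hgQ
      · exact h
    have h1 := hx.map' _ hker
    have h2 : (fun i : Fin (hf Q a) => W (Sum.inl i)) =
        (LinearMap.mulLeft ℂ (Ideal.Quotient.mkₐ ℂ Q g)) ∘
          (fun i => Ideal.Quotient.mkₐ ℂ Q (monomial (x i).1 (1 : ℂ))) := by
      funext i
      change Ideal.Quotient.mkₐ ℂ Q (g * monomial (x i).1 (1 : ℂ)) = _
      rw [map_mul]
      rfl
    rw [h2]
    exact h1
  have hli' : LinearIndepOn ℂ W (Set.range Sum.inl) := by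
    rw [linearIndepOn_range_iff Sum.inl_injective]
    exact hli
  obtain ⟨B, -, hsB, hspan, hB⟩ := exists_linearIndepOn_extension hli' (Set.subset_univ _)
  let B' : Finset (Mon N d) := Finset.univ.filter fun m => Sum.inr m ∈ B
  let j : Fin (hf Q a) ⊕ B' → Fin (hf Q a) ⊕ Mon N d := Sum.map id Subtype.val
  have hj : Function.Injective j := Sum.map_injective.2 ⟨Function.injective_id, Subtype.val_injective⟩
  have hjB : ∀ i, j i ∈ B := by
    rintro (i | m)
    · exact hsB ⟨i, rfl⟩
    · exact (Finset.mem_filter.1 m.2).2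
  refine ⟨B', fun i => V (j i), fun i => ⟨hVd _, hVk _⟩, ?_, ?_, ?_⟩
  · intro i
    exact ⟨monomial (x i).1 (1 : ℂ), (mem_homogeneousSubmodule _ _).2
      (isHomogeneous_monomial _ (x i).2), rfl⟩
  · have h1 : LinearIndependent ℂ (fun i : B => W i) := hB
    have h2 := h1.comp (fun i => (⟨j i, hjB i⟩ : B)) (fun i i' h => hj (congrArg Subtype.val h))
    exact h2
  · apply le_antisymm
    · rw [Submodule.span_le]
      rintro _ ⟨i, rfl⟩
      exact ⟨V (j i), hVd _, rfl⟩
    · rw [← span_monomials, Submodule.map_span, Submodule.span_le]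
      rintro _ ⟨_, ⟨m, rfl⟩, rfl⟩
      have h1 : (Ideal.Quotient.mkₐ ℂ Q).toLinearMap (monomial m.1 (1 : ℂ)) ∈
          Submodule.span ℂ (W '' B) := hspan ⟨Sum.inr m, Set.mem_univ _, rfl⟩
      refine Submodule.span_mono ?_ h1
      rintro _ ⟨i, hi, rfl⟩
      rcases i with i | m'
      · exact ⟨Sum.inl i, rfl⟩
      · exact ⟨Sum.inr ⟨m', Finset.mem_filter.2 ⟨Finset.mem_univ _, hi⟩⟩, rfl⟩

theorem generic_coords {N : ℕ} {k k' : IntermediateField ℚ ℂ} {c : ℕ} (hs : Small k k' c)
    {Q : Ideal (S N)} (hQ : HP Q) (hdef : DefOver k' Q) {d a b : ℕ} (hab : a + b = d) {F : S N}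
    (hF : GenOver k d F) {g : S N} (hg : g ∈ Sd N b) (hgk : ∀ m, coeff m g ∈ k') (hgQ : g ∉ Q)
    (hca : c < hf Q a) :
    ∃ (n : ℕ) (T : Set (Fin n)) (v : Fin n → S N) (f : Fin n → ℂ) (K : IntermediateField ℚ ℂ),
      IsAlgClosed K ∧ k' ≤ K ∧ (∀ i, v i ∈ Sd N d ∧ ∀ m, coeff m (v i) ∈ k') ∧
      (∀ i ∉ T, ∃ x ∈ Sd N a, v i = g * x) ∧
      (∀ α : Fin n → ℂ, ∑ i, α i • v i ∈ Q → α = 0) ∧ F - ∑ i, f i • v i ∈ Q ∧
      (∀ i ∈ T, f i ∈ K) ∧ ∃ j, f j ∉ K := by
  classical
  obtain ⟨-, -, w, hw⟩ := hs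
  obtain ⟨hFd, hFi⟩ := hF
  obtain ⟨B, V, hV, hVg, hVi, hVs⟩ := exists_ext_basis (k' := k') hQ.prime hab hg hgk hgQ
  -- coordinates of `F`
  have hFs : Ideal.Quotient.mkₐ ℂ Q F ∈
      Submodule.span ℂ (Set.range fun i => Ideal.Quotient.mkₐ ℂ Q (V i)) := by
    rw [hVs]
    exact ⟨F, hFd, rfl⟩
  rw [Submodule.mem_span_range_iff_exists_fun] at hFs
  obtain ⟨f, hf'⟩ := hFs
  have hfQ : F - ∑ i, f i • V i ∈ Q := by
    rw [← Ideal.Quotient.eq_zero_iff_mem]
    change Ideal.Quotient.mkₐ ℂ Q (F - ∑ i, f i • V i) = 0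
    rw [map_sub, map_sum, ← hf', sub_eq_zero]
    apply Finset.sum_congr rfl
    intro i _
    rw [map_smul]
  set K := acl (gen k' (Set.range fun m : B => f (Sum.inr m))) with hK
  have hk'K : k' ≤ K := (le_gen _ _).trans (le_acl _)
  have hTK : ∀ m : B, f (Sum.inr m) ∈ K := fun m => le_acl _ (subset_gen _ _ ⟨m, rfl⟩)
  -- the number of elements of the basis
  have hcard : hf Q a + B.card = hf Q d := by
    have h1 := finrank_span_eq_card hVi
    rw [hVs, Fintype.card_sum, Fintype.card_fin, Fintype.card_coe] at h1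
    exact h1.symm
  -- some coordinate is not in `K`
  have hne : ∃ j, f j ∉ K := by
    by_contra hcon
    push Not at hcon
    let V0 : Set (Sd N d) := {v | (v : S N) ∈ Q ∧ ∀ m, coeff m (v : S N) ∈ k'}
    have hV0 : Submodule.span ℂ V0 ≤ LinearMap.ker (resl Q d) := by
      rw [Submodule.span_le]
      rintro v ⟨hv, -⟩
      exact (mem_ker_resl Q d v).2 hv
    obtain ⟨v, hv0, hvs, -⟩ := Submodule.exists_fun_fin_finrank_span_eq ℂ V0
    set G : S N := F - ∑ i, f i • V i with hG
    have hGd : G ∈ Sd N d := by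
      apply Submodule.sub_mem _ hFd
      apply Submodule.sum_mem
      intro i _
      exact Submodule.smul_mem _ _ (hV i).1
    have hGV : (⟨G, hGd⟩ : Sd N d) ∈ Submodule.span ℂ V0 := by
      have h1 := mem_span_fmap (K := k') G
      have h2 : Submodule.span ℂ (Set.range fun φ : ℂ →ₗ[k'] k' => bc N k' (fmap φ G)) ≤
          (Submodule.span ℂ V0).map (Sd N d).subtype := by
        rw [Submodule.span_le]
        rintro _ ⟨φ, rfl⟩
        refine ⟨⟨bc N k' (fmap φ G), bc_fmap_Sd hGd φ⟩, ?_, rfl⟩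
        exact Submodule.subset_span ⟨bc_fmap_mem hdef hfQ φ, bc_fmap_coeff G φ⟩
      obtain ⟨u, hu, huG⟩ := h2 h1
      have h3 : u = ⟨G, hGd⟩ := Subtype.ext huG
      rwa [← h3]
    rw [← hvs, Submodule.mem_span_range_iff_exists_fun] at hGV
    obtain ⟨τ, hτ⟩ := hGV
    have hk' : k' ≤ acl (gen k (Set.range w)) := by
      intro z hz
      rw [mem_acl]
      exact hw z hz
    let y : Fin c ⊕ (B ⊕ Fin (Module.finrank ℂ (Submodule.span ℂ V0))) → ℂ :=
      Sum.elim w (Sum.elim (fun m => f (Sum.inr m)) τ)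
    have hKy : K ≤ acl (gen k (Set.range y)) := by
      refine (acl_gen_trans hk').trans (acl_mono (gen_mono ?_))
      apply Set.union_subset
      · rintro _ ⟨i, rfl⟩
        exact ⟨Sum.inl i, rfl⟩
      · rintro _ ⟨i, rfl⟩
        exact ⟨Sum.inr (Sum.inl i), rfl⟩
    have h1 : ∀ m : Mon N d, coeff m.1 F ∈ acl (gen k (Set.range y)) := by
      intro m
      have h2 : coeff m.1 F = ∑ i, τ i * coeff m.1 (v i : S N) +
          ∑ i, f i * coeff m.1 (V i) := by
        have h3 := congrArg (fun g : Sd N d => coeff m.1 (g : S N)) hτ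
        simp only at h3
        have h4 : coeff m.1 G = coeff m.1 F - ∑ i, f i * coeff m.1 (V i) := by
          rw [hG, coeff_sub, coeff_sum]
          simp only [coeff_smul, smul_eq_mul]
        rw [h4] at h3
        rw [← sub_eq_iff_eq_add, ← h3]
        simp [coeff_sum]
      rw [h2]
      apply add_mem
      · apply sum_mem
        intro i _
        apply mul_mem
        · exact le_acl _ (subset_gen _ _ ⟨Sum.inr (Sum.inr i), rfl⟩)
        · exact hKy (hk'K ((hv0 i).2 m.1))
      · apply sum_mem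
        intro i _
        apply mul_mem
        · exact hKy (hcon i)
        · exact hKy (hk'K ((hV i).2 m.1))
    have h2 := card_le_of_mem_acl hFi _ h1
    rw [Fintype.card_sum, Fintype.card_sum, Fintype.card_fin, Fintype.card_fin,
      Fintype.card_coe, ← finrank_Sd] at h2
    have h3 := hf_add_ker Q d
    have h4 := Submodule.finrank_mono hV0
    omega
  -- transfer to `Fin n`
  let e := (Fintype.equivFin (Fin (hf Q a) ⊕ B)).symm
  refine ⟨_, {i | ∃ m, e i = Sum.inr m}, fun i => V (e i), fun i => f (e i), K,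
    isAlgClosed_acl _, hk'K, fun i => hV _, ?_, ?_, ?_, ?_, ?_⟩
  · intro i hi
    change ∃ x ∈ Sd N a, V (e i) = g * x
    rcases h : e i with j | m
    · exact hVg j
    · exact absurd ⟨m, h⟩ hi
  · intro α hα
    have h1 : ∑ i, α i • Ideal.Quotient.mkₐ ℂ Q (V (e i)) = 0 := by
      have h2 : Ideal.Quotient.mkₐ ℂ Q (∑ i, α i • V (e i)) = 0 :=
        Ideal.Quotient.eq_zero_iff_mem.2 hα
      rw [map_sum] at h2
      rw [← h2]
      apply Finset.sum_congr rfl
      intro i _
      rw [map_smul]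
    have h3 : LinearIndependent ℂ (fun i => Ideal.Quotient.mkₐ ℂ Q (V (e i))) :=
      hVi.comp _ e.injective
    funext i
    exact (Fintype.linearIndependent_iff.1 h3) α h1 i
  · have h1 : ∑ i, f (e i) • V (e i) = ∑ i, f i • V i := Equiv.sum_comp e (fun i => f i • V i)
    rw [h1]
    exact hfQ
  · rintro i ⟨m, hm⟩
    change f (e i) ∈ K
    rw [hm]
    exact hTK m
  · obtain ⟨j, hj⟩ := hne
    refine ⟨e.symm j, ?_⟩
    change f (e (e.symm j)) ∉ K
    rw [Equiv.apply_symm_apply]
    exact hj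

end SepCI
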