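import Pool.Agent.SepCI.Exist
import Pool.Agent.SepCI.Krull

/-!
# Growth3: upper Bezout bound, Krull for homogeneous primes, degrees of level ideals
-/

set_option autoImplicit false

namespace SepCI

open MvPolynomial Finset

attribute [local instance] MvPolynomial.gradedAlgebra

theorem d_pos_of_mem {N d : ℕ} {Q P : Ideal (S N)} (hP : P.IsPrime) {F : S N} (hF : F ∈ Sd N d)
    (hFQ : F ∉ Q) (hFP : F ∈ P) : 1 ≤ d := by
  rcases Nat.eq_zero_or_pos d with rfl | h
  · exfalso
    rw [mem_homogeneousSubmodule] at hF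
    have h1 : F = C (coeff 0 F) := by
      have := totalDegree_eq_zero_iff_eq_C.1 (Nat.le_zero.1 hF.totalDegree_le)
      exact this
    have h2 : coeff 0 F ≠ 0 := by
      intro h0
      rw [h0, C_0] at h1
      exact hFQ (h1 ▸ Ideal.zero_mem _)
    have h3 : IsUnit F := by
      rw [h1]
      exact (isUnit_iff_ne_zero.2 h2).map C
    exact hP.ne_top (Ideal.eq_top_of_isUnit_mem _ hFP h3)
  · exact h

theorem bezout_ub {N : ℕ} {Q P : Ideal (S N)} (hQ : HP Q) (hP : HP P) {μ d s e : ℕ} (hμ : 1 ≤ μ)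
    (hmQ : md Q = μ + 1) (hmP : md P = μ) (hs : Bd Q (μ + 1) s) (he : Bd P μ e) {F : S N}
    (hF : F ∈ Sd N d) (hFQ : F ∉ Q) (hFP : F ∈ P) (hQP : Q ≤ P) : e ≤ s * d := by
  have hd : 1 ≤ d := d_pos_of_mem hP.prime hF hFQ hFP
  have hJP : Q ⊔ Ideal.span {F} ≤ P := by
    rw [sup_le_iff, Ideal.span_singleton_le_iff_mem]
    exact ⟨hQP, hFP⟩
  have h1 : ∀ n, ∑ j ∈ range n, hf P ((j + 1) * d) ≤ hf Q (n * d) := by
    intro n
    have h2 := telescope hQ hF hFQ n
    have h3 : ∑ j ∈ range n, hf P ((j + 1) * d) ≤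
        ∑ j ∈ range n, hf (Q ⊔ Ideal.span {F}) ((j + 1) * d) :=
      sum_le_sum fun j _ => hf_anti hJP _
    omega
  rcases Nat.lt_or_ge μ 2 with hμ2 | hμ2
  · obtain rfl : μ = 1 := by omega
    have hlow : ∀ l, e ≤ l → e ≤ hf P l := by
      intro l hl
      refine le_trans ?_ (he l).1
      have : ∑ i ∈ range e, (if i ≤ l then (l - i + 1 - 1).choose (1 - 1) else 0) =
          ∑ i ∈ range e, 1 := by
        apply sum_congr rfl
        intro i hi
        rw [mem_range] at hi
        rw [if_pos (by omega)]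
        simp
      rw [this]
      simp
    have hup : ∀ n, hf Q (n * d) ≤ s * (n * d + s + 1) := by
      intro n
      have := Bd_upper (m := 1) hs (n * d)
      simpa using this
    have hsum : ∀ n, e * n ≤ e * e + ∑ j ∈ range n, hf P ((j + 1) * d) := by
      intro n
      induction n with
      | zero => simp
      | succ n ih =>
        rw [sum_range_succ]
        rcases Nat.lt_or_ge n e with hn | hn
        · have : e * (n + 1) ≤ e * e := Nat.mul_le_mul_left _ hn
          omega
        · have h2 : e ≤ (n + 1) * d := by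
            calc e ≤ n + 1 := by omega
              _ ≤ (n + 1) * d := Nat.le_mul_of_pos_right _ hd
          have h3 := hlow _ h2
          have h4 : e * (n + 1) = e * n + e := by ring
          omega
    by_contra hcon
    push Not at hcon
    have h2 := hsum (e * e + s * (s + 1) + 1)
    have h3 := h1 (e * e + s * (s + 1) + 1)
    have h4 := hup (e * e + s * (s + 1) + 1)
    set n := e * e + s * (s + 1) + 1 with hn
    have h5 : (s * d + 1) * n ≤ e * n := Nat.mul_le_mul_right _ hcon
    have h6 : s * (n * d + s + 1) = s * d * n + s * (s + 1) := by ring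
    have h7 : (s * d + 1) * n = s * d * n + n := by ring
    omega
  · obtain ⟨k, rfl⟩ : ∃ k, μ = k + 2 := ⟨μ - 2, by omega⟩
    exact asymp e 0 0 (s * d) e (s + (k + 2)) d k hd (by
      intro n
      have h2 := sum_pow_lower d e (k + 1) n
      have h3 : ∑ j ∈ range n, e * ((j + 1) * d - e) ^ (k + 1) ≤
          (k + 1).factorial * ∑ j ∈ range n, hf P ((j + 1) * d) := by
        rw [mul_sum]
        exact sum_le_sum fun j _ => Bd_lower (m := k + 1) (by omega) he _
      have h4 := Bd_upper (m := k + 2) hs (n * d)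
      have h5 : (k + 2).factorial = (k + 2) * (k + 1).factorial := Nat.factorial_succ (k + 1)
      calc e * (n * d - e) ^ (k + 2)
          ≤ e * (d * (k + 1 + 1) * ∑ j ∈ range n, ((j + 1) * d - e) ^ (k + 1)) :=
            Nat.mul_le_mul_left _ h2
        _ = d * (k + 2) * ∑ j ∈ range n, e * ((j + 1) * d - e) ^ (k + 1) := by
            rw [← mul_sum]
            ring
        _ ≤ d * (k + 2) * ((k + 1).factorial * ∑ j ∈ range n, hf P ((j + 1) * d)) :=
            Nat.mul_le_mul_left _ h3
        _ ≤ d * (k + 2) * ((k + 1).factorial * hf Q (n * d)) :=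
            Nat.mul_le_mul_left _ (Nat.mul_le_mul_left _ (h1 n))
        _ = d * ((k + 2).factorial * hf Q (n * d)) := by
            rw [h5]
            ring
        _ ≤ d * (s * (n * d + s + (k + 2)) ^ (k + 2)) := Nat.mul_le_mul_left _ h4
        _ = 0 + n * (0 * (n * d + 1) ^ k) + s * d * (n * d + (s + (k + 2))) ^ (k + 2) := by
            ring)

/-- the other variables remain algebraically independent modulo a nonconstant polynomial -/
theorem rename_not_dvd {s : ℕ} {π : MvPolynomial (Fin s) ℂ} {i : Fin s}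
    (hi : degreeOf i π ≠ 0) (hπ : π ≠ 0) (G : MvPolynomial {j : Fin s // j ≠ i} ℂ)
    (h : π ∣ rename Subtype.val G) : G = 0 := by
  obtain ⟨H, hH⟩ := h
  by_contra hG
  have h0 : rename (Subtype.val : {j : Fin s // j ≠ i} → Fin s) G ≠ 0 := by
    intro h
    exact hG ((map_eq_zero_iff _ (rename_injective _ Subtype.val_injective)).1 h)
  have hH0 : H ≠ 0 := by
    rintro rfl
    rw [mul_zero] at hH
    exact h0 hH
  have h1 : degreeOf i (rename (Subtype.val : {j : Fin s // j ≠ i} → Fin s) G) = 0 := by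
    by_contra hne
    have hmem : i ∈ (rename (Subtype.val : {j : Fin s // j ≠ i} → Fin s) G).vars := by
      rw [degreeOf_def] at hne
      rw [vars_def, Multiset.mem_toFinset]
      by_contra hc
      exact hne (Multiset.count_eq_zero_of_notMem hc)
    have := vars_rename (Subtype.val : {j : Fin s // j ≠ i} → Fin s) G hmem
    rw [Finset.mem_image] at this
    obtain ⟨j, -, hj⟩ := this
    exact j.2 hj
  have h2 : degreeOf i (π * H) = degreeOf i π + degreeOf i H := degreeOf_mul_eq hπ hH0
  rw [hH, h2] at h1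
  omega

theorem card_le_md {N : ℕ} {P : Ideal (S N)} {ι : Type} [Fintype ι]
    (hP : P.IsPrime) (θ : MvPolynomial ι ℂ →ₐ[ℂ] S N ⧸ P) (hθ : Function.Injective θ) :
    Fintype.card ι ≤ md P := by
  have := faithful_quot hP
  let x : ι → S N ⧸ P := fun i => θ (X i)
  have hgx : θ = aeval x := by ext i; simp [x]
  have hai : AlgebraicIndependent ℂ x := by
    rw [algebraicIndependent_iff_injective_aeval, ← hgx]; exact hθ
  have h1 : Cardinal.mk ι ≤ Algebra.trdeg ℂ (S N ⧸ P) := by
    have := hai.lift_cardinalMk_le_trdeg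
    simpa using this
  rw [← cast_md P, Cardinal.mk_fintype] at h1
  exact_mod_cast h1

theorem md_of_finite_inj {N : ℕ} {P : Ideal (S N)} (hP : P.IsPrime) {s : ℕ}
    (g : MvPolynomial (Fin s) ℂ →ₐ[ℂ] S N ⧸ P) (hg : Function.Injective g)
    (hfin : g.toRingHom.Finite) : md P = s := by
  have := faithful_quot hP
  let x : Fin s → S N ⧸ P := fun i => g (X i)
  have hgx : g = aeval x := by ext i; simp [x]
  have halg : Algebra.IsAlgebraic (Algebra.adjoin ℂ (Set.range x)) (S N ⧸ P) := by
    constructor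
    intro z
    obtain ⟨p, hp, hpz⟩ := hfin.to_isIntegral z
    have hr : ∀ a : MvPolynomial (Fin s) ℂ, g a ∈ Algebra.adjoin ℂ (Set.range x) := by
      intro a
      rw [Algebra.adjoin_range_eq_range_aeval, ← hgx]
      exact ⟨a, rfl⟩
    let ψ : MvPolynomial (Fin s) ℂ →ₐ[ℂ] Algebra.adjoin ℂ (Set.range x) :=
      g.codRestrict (Algebra.adjoin ℂ (Set.range x)) hr
    refine IsIntegral.isAlgebraic ⟨p.map ψ.toRingHom, hp.map _, ?_⟩
    rw [Polynomial.eval₂_map]
    exact hpz
  apply le_antisymm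
  · have h2 : Algebra.trdeg ℂ (S N ⧸ P) ≤ Cardinal.mk (Fin s) := by
      refine (Algebra.IsAlgebraic.trdeg_le_cardinalMk ℂ (Set.range x)).trans ?_
      exact Cardinal.mk_range_le
    rw [← cast_md P, Cardinal.mk_fin] at h2
    exact_mod_cast h2
  · have := card_le_md hP g hg
    rwa [Fintype.card_fin] at this

theorem exists_degreeOf_ne_zero {s : ℕ} {π : MvPolynomial (Fin s) ℂ} (hπ : Prime π) :
    ∃ i, degreeOf i π ≠ 0 := by
  by_contra hcon
  push Not at hcon
  have h1 : π = C (coeff 0 π) := by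
    ext m
    rw [coeff_C]
    split_ifs with h
    · rw [h]
    · by_contra hm
      apply h
      symm
      ext i
      have h2 := monomial_le_degreeOf i (mem_support_iff.2 hm)
      rw [hcon i] at h2
      simpa using h2
  apply hπ.not_isUnit
  rw [h1]
  have h2 : coeff 0 π ≠ 0 := by
    intro h0
    rw [h0, C_0] at h1
    exact hπ.ne_zero h1
  exact (isUnit_iff_ne_zero.2 h2).map C

/-- Krull: a minimal prime over `Q + (F)` has dimension one less -/
theorem md_minimal {N : ℕ} {Q P : Ideal (S N)} (hQ : HP Q) {d : ℕ} {F : S N} (hF : F ∈ Sd N d)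
    (hFQ : F ∉ Q) (hP : P ∈ (Q ⊔ Ideal.span {F}).minimalPrimes) : md P + 1 = md Q := by
  have hPP : HP P := minimal_hom (hom_principal hQ.hom hF) hP
  have hQP : Q ≤ P := le_sup_left.trans hP.1.2
  have hFP : F ∈ P := hP.1.2 (Ideal.mem_sup_right (Ideal.subset_span rfl))
  have hlt : Q < P := lt_of_le_of_ne hQP (by rintro rfl; exact hFQ hFP)
  have h1 : md P < md Q := md_lt hQ hPP hlt
  have := hQ.prime
  have := hPP.prime
  have hfaith := faithful_quot hQ.prime
  -- the prime `p = P / Q`
  let p : Ideal (S N ⧸ Q) := P.map (Ideal.Quotient.mk Q)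
  have hcomap : p.comap (Ideal.Quotient.mk Q) = P := by
    rw [Ideal.comap_map_of_surjective _ Ideal.Quotient.mk_surjective, sup_eq_left]
    rw [← RingHom.ker_eq_comap_bot, Ideal.mk_ker]
    exact hQP
  have hp : p.IsPrime := Ideal.map_isPrime_of_surjective Ideal.Quotient.mk_surjective
    (by rw [Ideal.mk_ker]; exact hQP)
  have hpne : p ≠ ⊥ := by
    intro h
    have h2 : (Ideal.Quotient.mk Q) F ∈ p := Ideal.mem_map_of_mem _ hFP
    rw [h, Ideal.mem_bot, Ideal.Quotient.eq_zero_iff_mem] at h2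
    exact hFQ h2
  have hpmin : ∀ q : Ideal (S N ⧸ Q), q.IsPrime → q ≠ ⊥ → q < p → False := by
    intro q hq hq0 hqp
    -- Krull's principal ideal theorem
    have hmin : p ∈ (Ideal.span {(Ideal.Quotient.mk Q) F}).minimalPrimes := by
      refine ⟨⟨hp, ?_⟩, ?_⟩
      · rw [Ideal.span_singleton_le_iff_mem]
        exact Ideal.mem_map_of_mem _ hFP
      · intro q' hq' hq'p
        have h3 : P ≤ q'.comap (Ideal.Quotient.mk Q) := by
          apply hP.2
          · have := hq'.1
            refine ⟨Ideal.comap_isPrime _ _, ?_⟩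
            rw [sup_le_iff, Ideal.span_singleton_le_iff_mem]
            constructor
            · intro x hx
              rw [Ideal.mem_comap, Ideal.Quotient.eq_zero_iff_mem.2 hx]
              exact Ideal.zero_mem _
            · rw [Ideal.mem_comap]
              exact hq'.2 (Ideal.subset_span rfl)
          · intro x hx
            rw [← hcomap]
            exact hq'p hx
        rw [Ideal.map_le_iff_le_comap]
        exact h3
    have h2 : p.height ≤ 1 := Ideal.height_le_one_of_isPrincipal_of_mem_minimalPrimes _ p hmin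
    have h3 : (⊥ : Ideal (S N ⧸ Q)) < q := bot_lt_iff_ne_bot.2 hq0
    have hbp : (⊥ : Ideal (S N ⧸ Q)).IsPrime := Ideal.isPrime_bot
    have h4 : (⊥ : Ideal (S N ⧸ Q)).height < q.height :=
      Ideal.height_strict_mono_of_isPrime_of_isPrime h3
    have h5 : q.height < p.height := Ideal.height_strict_mono_of_isPrime_of_isPrime hqp
    have h6 : (1 : ℕ∞) ≤ q.height := by
      have : 0 < q.height := lt_of_le_of_lt bot_le h4
      exact Order.one_le_iff_pos.2 this
    have h7 := h6.trans_lt h5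
    exact absurd h2 (not_le.2 h7)
  obtain ⟨s, g, hg, hfin⟩ := exists_finite_inj_algHom_of_fg ℂ (S N ⧸ Q)
  have hs : md Q = s := md_of_finite_inj hQ.prime g hg hfin
  let _ : Algebra (MvPolynomial (Fin s) ℂ) (S N ⧸ Q) := g.toRingHom.toAlgebra
  have hint : Algebra.IsIntegral (MvPolynomial (Fin s) ℂ) (S N ⧸ Q) :=
    ⟨fun z => hfin.to_isIntegral z⟩
  have hfs : FaithfulSMul (MvPolynomial (Fin s) ℂ) (S N ⧸ Q) :=
    (faithfulSMul_iff_algebraMap_injective _ _).mpr hg
  let r : Ideal (MvPolynomial (Fin s) ℂ) :=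
    p.comap (algebraMap (MvPolynomial (Fin s) ℂ) (S N ⧸ Q))
  have hr : r.IsPrime := Ideal.comap_isPrime _ _
  have hr0 : r ≠ ⊥ := Ideal.IsIntegral.comap_ne_bot _ hpne
  obtain ⟨π, hπr, hπ⟩ := hr.exists_mem_prime_of_ne_bot hr0
  have hspan : Ideal.span {π} = r := by
    by_contra hne
    have hle : Ideal.span {π} ≤ r := (Ideal.span_singleton_le_iff_mem _).2 hπr
    have hlt' : Ideal.span {π} < r := lt_of_le_of_ne hle hne
    have hsp : (Ideal.span {π}).IsPrime := (Ideal.span_singleton_prime hπ.ne_zero).2 hπ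
    have hlo : p.LiesOver r := ⟨rfl⟩
    obtain ⟨q, hqp, hq, hql⟩ := Ideal.exists_ideal_lt_liesOver_of_lt p hlt'
    refine hpmin q hq ?_ hqp
    rintro rfl
    have h2 := hql.over
    have h3 : π ∈ (⊥ : Ideal (S N ⧸ Q)).under (MvPolynomial (Fin s) ℂ) := by
      rw [← h2]
      exact Ideal.subset_span rfl
    rw [Ideal.mem_comap, Ideal.mem_bot] at h3
    exact hπ.ne_zero (hg (by rw [map_zero]; exact h3))
  obtain ⟨i, hi⟩ := exists_degreeOf_ne_zero hπ
  let θ : MvPolynomial {j : Fin s // j ≠ i} ℂ →ₐ[ℂ] S N ⧸ P :=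
    ((Ideal.Quotient.factorₐ ℂ hQP).comp g).comp (rename Subtype.val)
  have hθ : Function.Injective θ := by
    rw [injective_iff_map_eq_zero]
    intro G hG
    apply rename_not_dvd hi hπ.ne_zero G
    rw [← Ideal.mem_span_singleton, hspan]
    change g (rename Subtype.val G) ∈ p
    have h2 : (Ideal.Quotient.factorₐ ℂ hQP) (g (rename Subtype.val G)) = 0 := hG
    obtain ⟨a, ha⟩ := Ideal.Quotient.mk_surjective (g (rename Subtype.val G))
    rw [← ha] at h2 ⊢
    have h3 : Ideal.Quotient.mk P a = 0 := h2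
    rw [Ideal.Quotient.eq_zero_iff_mem] at h3
    exact Ideal.mem_map_of_mem _ h3
  have h2 := card_le_md hPP.prime θ hθ
  have h3 : Fintype.card {j : Fin s // j ≠ i} = s - 1 := by
    rw [Fintype.card_subtype_compl]
    simp
  rw [h3] at h2
  omega

theorem deg_level {N L : ℕ} {Q : Ideal (S N)} (hQ : HP Q) (hm : 1 ≤ md Q) (hL : 1 ≤ L)
    (hmin : Q ∈ (Ideal.span {f | f ∈ Q ∧ f ∈ Sd N L}).minimalPrimes) {s : ℕ}
    (hs : Bd Q (md Q) s) : s ≤ L ^ (N + 1) := by
  have hmN : md Q ≤ N + 1 := md_le_top hQ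
  have key : ∀ i : ℕ, i + md Q ≤ N + 1 →
      ∃ (q : Ideal (S N)) (t : ℕ), HP q ∧ q ≤ Q ∧ md q + i = N + 1 ∧ Bd q (md q) t ∧
        t ≤ L ^ i := by
    intro i
    induction i with
    | zero =>
      intro _
      refine ⟨⊥, 1, hp_bot N, bot_le, by rw [md_bot], ?_, by simp⟩
      rw [md_bot]
      exact Bd_bot N
    | succ i ih =>
      intro hi
      obtain ⟨q, t, hq, hqQ, hmq, ht, htL⟩ := ih (by omega)
      have hne : ∃ G, G ∈ Q ∧ G ∈ Sd N L ∧ G ∉ q := by
        by_contra hcon
        push Not at hcon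
        have h1 : Ideal.span {f | f ∈ Q ∧ f ∈ Sd N L} ≤ q := by
          rw [Ideal.span_le]
          intro f hf
          exact hcon f hf.1 hf.2
        have h2 : Q ≤ q := hmin.2 ⟨hq.prime, h1⟩ hqQ
        have h3 : Q = q := le_antisymm h2 hqQ
        rw [← h3] at hmq
        omega
      obtain ⟨G, hGQ, hGL, hGq⟩ := hne
      have hle : q ⊔ Ideal.span {G} ≤ Q := by
        rw [sup_le_iff, Ideal.span_singleton_le_iff_mem]
        exact ⟨hqQ, hGQ⟩
      have := hQ.prime
      obtain ⟨q', hq', hq'Q⟩ := Ideal.exists_minimalPrimes_le hle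
      have hHq' : HP q' := minimal_hom (hom_principal hq.hom hGL) hq'
      have hmd : md q' + 1 = md q := md_minimal hq hGL hGq hq'
      have hqq' : q ≤ q' := le_sup_left.trans hq'.1.2
      have hGq' : G ∈ q' := hq'.1.2 (Ideal.mem_sup_right (Ideal.subset_span rfl))
      have hm' : 1 ≤ md q' := hm.trans (md_le' hHq'.prime hQ.prime hq'Q)
      obtain ⟨e, _, he⟩ := exists_Bd hHq' hm'
      refine ⟨q', e, hHq', hq'Q, by omega, he, ?_⟩
      rw [← hmd] at ht
      have h4 := bezout_ub hq hHq' hm' hmd.symm rfl ht he hGL hGq hGq' hqq'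
      rw [pow_succ]
      exact h4.trans (Nat.mul_le_mul_right _ htL)
  obtain ⟨q, t, hq, hqQ, hmq, ht, htL⟩ := key (N + 1 - md Q) (by omega)
  have hqeq : q = Q := by
    by_contra hne
    have := md_lt hq hQ (lt_of_le_of_ne hqQ hne)
    omega
  rw [hqeq] at ht
  have h1 : s = t := Bd_unique hm hs ht
  rw [h1]
  exact htL.trans (Nat.pow_le_pow_right hL (by omega))

end SepCI
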