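import Pool.Agent.SepCI.Basic

/-!
# Comparison of degrees from Hilbert functions
-/

set_option autoImplicit false

namespace SepCI

open MvPolynomial Finset Filter Topology

attribute [local instance] MvPolynomial.gradedAlgebra

theorem hf_inf_sup {N : ℕ} {I J : Ideal (S N)} (hI : Hom I) (hJ : Hom J) (l : ℕ) :
    hf I l + hf J l = hf (I ⊓ J) l + hf (I ⊔ J) l := by
  have h1 : LinearMap.ker (resl (I ⊓ J) l) =
      LinearMap.ker (resl I l) ⊓ LinearMap.ker (resl J l) := by
    ext f
    rw [Submodule.mem_inf, mem_ker_resl, mem_ker_resl, mem_ker_resl, Submodule.mem_inf]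
  have h2 : LinearMap.ker (resl (I ⊔ J) l) =
      LinearMap.ker (resl I l) ⊔ LinearMap.ker (resl J l) := by
    apply le_antisymm
    · intro f hf
      rw [mem_ker_resl] at hf
      obtain ⟨u, hu, v, hv, huv⟩ := Submodule.mem_sup.1 hf
      rw [Submodule.mem_sup]
      refine ⟨⟨homogeneousComponent l u, homogeneousComponent_mem l u⟩, ?_,
        ⟨homogeneousComponent l v, homogeneousComponent_mem l v⟩, ?_, ?_⟩
      · rw [mem_ker_resl]
        exact homogeneousComponent_mem_of_mem hI hu l
      · rw [mem_ker_resl]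
        exact homogeneousComponent_mem_of_mem hJ hv l
      · apply Subtype.ext
        change homogeneousComponent l u + homogeneousComponent l v = (f : S N)
        rw [← map_add, huv, homogeneousComponent_of_mem f.2, if_pos rfl]
    · apply sup_le
      · intro f hf
        rw [mem_ker_resl] at hf ⊢
        exact Ideal.mem_sup_left hf
      · intro f hf
        rw [mem_ker_resl] at hf ⊢
        exact Ideal.mem_sup_right hf
  have h3 := Submodule.finrank_sup_add_finrank_inf_eq (LinearMap.ker (resl I l))
    (LinearMap.ker (resl J l))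
  rw [← h1, ← h2] at h3
  have h4 := hf_add_ker I l
  have h5 := hf_add_ker J l
  have h6 := hf_add_ker (I ⊓ J) l
  have h7 := hf_add_ker (I ⊔ J) l
  omega

/-- comparison of leading coefficients -/
theorem asym_le {A B C K a b : ℕ} (hK : 1 ≤ K)
    (h : ∃ᶠ x : ℕ in atTop, A * x ^ K ≤ B * (x + a) ^ K + C * (x + b) ^ (K - 1)) : A ≤ B := by
  by_contra hlt
  push Not at hlt
  have t1 : Tendsto (fun x : ℕ => (B : ℝ) * (1 + (a : ℝ) / x) ^ K +
      C * (1 + (b : ℝ) / x) ^ (K - 1) * (1 / (x : ℝ))) atTop
      (𝓝 ((B : ℝ) * (1 + 0) ^ K + C * (1 + 0) ^ (K - 1) * 0)) := by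
    refine Tendsto.add (Tendsto.mul tendsto_const_nhds (Tendsto.pow
      (Tendsto.add tendsto_const_nhds (tendsto_const_div_atTop_nhds_zero_nat _)) _))
      (Tendsto.mul (Tendsto.mul tendsto_const_nhds (Tendsto.pow
      (Tendsto.add tendsto_const_nhds (tendsto_const_div_atTop_nhds_zero_nat _)) _))
      (tendsto_const_div_atTop_nhds_zero_nat _))
  have h0 : (B : ℝ) * (1 + 0) ^ K + C * (1 + 0) ^ (K - 1) * 0 < (A : ℝ) := by
    have : (B : ℝ) < A := by exact_mod_cast hlt
    simpa using this
  have h1 := t1.eventually_lt_const h0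
  have h2 := h.and_eventually (h1.and (eventually_ge_atTop 1))
  obtain ⟨x, hx, hx1, hx2⟩ := h2.exists
  have hx0 : (0 : ℝ) < x := by exact_mod_cast hx2
  have hx3 : (A : ℝ) * (x : ℝ) ^ K ≤ B * ((x : ℝ) + a) ^ K + C * ((x : ℝ) + b) ^ (K - 1) := by
    exact_mod_cast hx
  have h3 : (1 + (a : ℝ) / x) = ((x : ℝ) + a) / x := by field_simp
  have h4 : (1 + (b : ℝ) / x) = ((x : ℝ) + b) / x := by field_simp
  rw [h3, h4, div_pow, div_pow] at hx1
  have h5 : (x : ℝ) ^ K = (x : ℝ) ^ (K - 1) * x := by
    rw [← pow_succ]
    congr 1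
    omega
  have h6 : (B : ℝ) * (((x : ℝ) + a) ^ K / (x : ℝ) ^ K) +
      C * (((x : ℝ) + b) ^ (K - 1) / (x : ℝ) ^ (K - 1)) * (1 / (x : ℝ)) =
      (B * ((x : ℝ) + a) ^ K + C * ((x : ℝ) + b) ^ (K - 1)) / (x : ℝ) ^ K := by
    rw [h5]
    field_simp
  rw [h6, div_lt_iff₀ (by positivity)] at hx1
  linarith

/-- lower bound in `Bd` -/
theorem bd_lower {N : ℕ} {P : Ideal (S N)} {m e : ℕ} (he : Bd P m e) {E l : ℕ} (hE : e ≤ E)
    (hl : E ≤ l) : e * (l - E + m - 1).choose (m - 1) ≤ hf P l := by
  refine le_trans ?_ (he l).1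
  have h1 : e * (l - E + m - 1).choose (m - 1) =
      ∑ _i ∈ Finset.range e, (l - E + m - 1).choose (m - 1) := by
    rw [Finset.sum_const, Finset.card_range, smul_eq_mul]
  rw [h1]
  apply Finset.sum_le_sum
  intro i hi
  rw [Finset.mem_range] at hi
  rw [if_pos (by omega)]
  exact Nat.choose_le_choose _ (by omega)

/-- upper bound in `Bd` -/
theorem bd_upper {N : ℕ} {P : Ideal (S N)} {m e : ℕ} (he : Bd P m e) (l : ℕ) :
    hf P l ≤ e * (l + e + m - 1).choose (m - 1) := by
  refine le_trans (he l).2 ?_
  have h1 : e * (l + e + m - 1).choose (m - 1) =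
      ∑ _i ∈ Finset.range e, (l + e + m - 1).choose (m - 1) := by
    rw [Finset.sum_const, Finset.card_range, smul_eq_mul]
  rw [h1]
  apply Finset.sum_le_sum
  intro i hi
  rw [Finset.mem_range] at hi
  exact Nat.choose_le_choose _ (by omega)

theorem pow_le_fact_choose (x M : ℕ) : (x + 1) ^ M ≤ M.factorial * (x + M).choose M := by
  rw [← Nat.ascFactorial_eq_factorial_mul_choose]
  exact Nat.pow_succ_le_ascFactorial _ _

theorem fact_choose_le_pow (x M : ℕ) : M.factorial * (x + M).choose M ≤ (x + M) ^ M := by
  rw [← Nat.descFactorial_eq_factorial_mul_choose]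
  exact Nat.descFactorial_le_pow _ _

theorem deg_le_of_hf {N : ℕ} {P P' : Ideal (S N)} {μ e e' C : ℕ} (hμ : 2 ≤ μ) (he : Bd P μ e)
    (he' : Bd P' μ e') (h : ∀ l, hf P l ≤ hf P' l + C * (l + 1) ^ (μ - 2)) : e ≤ e' := by
  obtain ⟨M, rfl⟩ : ∃ M, μ = M + 2 := ⟨μ - 2, by omega⟩
  have key : ∀ x : ℕ, e * x ^ (M + 1) ≤ e' * (x + (e + e' + (M + 1))) ^ (M + 1) +
      ((M + 1).factorial * C) * (x + (e + 1)) ^ (M + 1 - 1) := by
    intro x
    have h1 := bd_lower he le_rfl (Nat.le_add_left e x)
    have h2 := bd_upper he' (x + e)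
    have h3 := h (x + e)
    have e1 : x + e - e + (M + 2) - 1 = x + (M + 1) := by omega
    have e2 : x + e + e' + (M + 2) - 1 = x + e + e' + (M + 1) := by omega
    have e3 : M + 2 - 1 = M + 1 := by omega
    have e4 : M + 2 - 2 = M := by omega
    rw [e1, e3] at h1
    rw [e2, e3] at h2
    rw [e4] at h3
    have h4 := pow_le_fact_choose x (M + 1)
    have h5 := fact_choose_le_pow (x + e + e') (M + 1)
    have h6 : x ^ (M + 1) ≤ (x + 1) ^ (M + 1) := Nat.pow_le_pow_left (Nat.le_succ x) _
    calc e * x ^ (M + 1) ≤ e * ((M + 1).factorial * (x + (M + 1)).choose (M + 1)) :=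
          Nat.mul_le_mul_left _ (h6.trans h4)
      _ = (M + 1).factorial * (e * (x + (M + 1)).choose (M + 1)) := by ring
      _ ≤ (M + 1).factorial * (e' * (x + e + e' + (M + 1)).choose (M + 1) +
            C * (x + e + 1) ^ M) :=
          Nat.mul_le_mul_left _ (h1.trans (h3.trans (Nat.add_le_add_right h2 _)))
      _ = e' * ((M + 1).factorial * (x + e + e' + (M + 1)).choose (M + 1)) +
            (M + 1).factorial * C * (x + (e + 1)) ^ M := by ring
      _ ≤ e' * (x + e + e' + (M + 1)) ^ (M + 1) +
            (M + 1).factorial * C * (x + (e + 1)) ^ M :=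
          Nat.add_le_add_right (Nat.mul_le_mul_left _ h5) _
      _ = _ := by
          rw [Nat.add_sub_cancel]
          ring
  exact asym_le (K := M + 1) (by omega) (Frequently.of_forall key)

theorem deg_add_le {N : ℕ} {P P' Q : Ideal (S N)} {μ e e' s d C : ℕ} (hμ : 2 ≤ μ)
    (he : Bd P μ e) (he' : Bd P' μ e') (hs : Bd Q (μ + 1) s)
    (h : ∀ l, hf P (l + d) + hf P' (l + d) + hf Q l ≤ hf Q (l + d) + C * (l + 1) ^ (μ - 2)) :
    e + e' ≤ s * d := by
  obtain ⟨M, rfl⟩ : ∃ M, μ = M + 2 := ⟨μ - 2, by omega⟩
  have e3 : M + 2 - 1 = M + 1 := by omega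
  have e4 : M + 2 - 2 = M := by omega
  rcases Nat.eq_zero_or_pos d with rfl | hd
  · have key : ∀ (P : Ideal (S N)) (e : ℕ), Bd P (M + 2) e →
        (∀ l, hf P l ≤ C * (l + 1) ^ M) → e ≤ 0 := by
      intro P e he hP
      refine asym_le (K := M + 1) (C := (M + 1).factorial * C) (a := 0) (b := e + 1) (by omega)
        (Frequently.of_forall ?_)
      intro x
      have h1 := bd_lower he le_rfl (Nat.le_add_left e x)
      have e1 : x + e - e + (M + 2) - 1 = x + (M + 1) := by omega
      rw [e1, e3] at h1
      have h4 := pow_le_fact_choose x (M + 1)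
      have h6 : x ^ (M + 1) ≤ (x + 1) ^ (M + 1) := Nat.pow_le_pow_left (Nat.le_succ x) _
      calc e * x ^ (M + 1) ≤ e * ((M + 1).factorial * (x + (M + 1)).choose (M + 1)) :=
            Nat.mul_le_mul_left _ (h6.trans h4)
        _ = (M + 1).factorial * (e * (x + (M + 1)).choose (M + 1)) := by ring
        _ ≤ (M + 1).factorial * (C * (x + e + 1) ^ M) :=
            Nat.mul_le_mul_left _ (h1.trans (hP _))
        _ = 0 * (x + 0) ^ (M + 1) + (M + 1).factorial * C * (x + (e + 1)) ^ (M + 1 - 1) := by
            rw [Nat.add_sub_cancel]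
            ring
    have h1 := key P e he (fun l => by
      have := h l
      rw [Nat.add_zero, e4] at this
      omega)
    have h2 := key P' e' he' (fun l => by
      have := h l
      rw [Nat.add_zero, e4] at this
      omega)
    omega
  · set E := e + e' with hE
    -- telescoping
    have step : ∀ n : ℕ, (e + e') * (n * d + (M + 1)).choose (M + 2) + d * hf Q E ≤
        d * hf Q (E + n * d) + d * n * C * (E + n * d + 1) ^ M := by
      intro n
      induction n with
      | zero =>
        have h1 : (0 * d + (M + 1)).choose (M + 2) = 0 := by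
          rw [Nat.zero_mul, Nat.zero_add]
          exact Nat.choose_eq_zero_of_lt (by omega)
        rw [h1, Nat.zero_mul, Nat.add_zero, Nat.mul_zero, Nat.zero_add]
        exact Nat.le_add_right _ _
      | succ n ih =>
        have hf1 : ∀ x i : ℕ, i ≤ d → (x + i + (M + 1)).choose (M + 2) ≤
            (x + (M + 1)).choose (M + 2) + i * (x + d + (M + 1)).choose (M + 1) := by
          intro x i
          induction i with
          | zero =>
            intro _
            simp
          | succ i ihi =>
            intro hi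
            have h1 := ihi (by omega)
            have h2 : (x + (i + 1) + (M + 1)).choose (M + 2) =
                (x + i + (M + 1)).choose (M + 1) + (x + i + (M + 1)).choose (M + 2) := by
              have : x + (i + 1) + (M + 1) = (x + i + (M + 1)) + 1 := by omega
              rw [this, Nat.choose_succ_succ]
            have h3 : (x + i + (M + 1)).choose (M + 1) ≤ (x + d + (M + 1)).choose (M + 1) :=
              Nat.choose_le_choose _ (by omega)
            rw [h2, Nat.add_mul, Nat.one_mul]
            omega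
        have h1 := hf1 (n * d) d le_rfl
        have h2 := bd_lower he (E := E) (l := E + n * d + d) (by omega) (by omega)
        have h3 := bd_lower he' (E := E) (l := E + n * d + d) (by omega) (by omega)
        have e1 : E + n * d + d - E + (M + 2) - 1 = n * d + d + (M + 1) := by omega
        rw [e1, e3] at h2 h3
        have h4 := h (E + n * d)
        rw [e4] at h4
        have e5 : (n + 1) * d = n * d + d := by ring
        rw [e5]
        have e6 : E + (n * d + d) = E + n * d + d := by omega
        rw [e6]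
        have h5 : (E + n * d + 1) ^ M ≤ (E + n * d + d + 1) ^ M :=
          Nat.pow_le_pow_left (by omega) _
        calc (e + e') * (n * d + d + (M + 1)).choose (M + 2) + d * hf Q E
            ≤ (e + e') * ((n * d + (M + 1)).choose (M + 2) +
                d * (n * d + d + (M + 1)).choose (M + 1)) + d * hf Q E :=
              Nat.add_le_add_right (Nat.mul_le_mul_left _ h1) _
          _ = ((e + e') * (n * d + (M + 1)).choose (M + 2) + d * hf Q E) +
                d * (e * (n * d + d + (M + 1)).choose (M + 1) +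
                  e' * (n * d + d + (M + 1)).choose (M + 1)) := by ring
          _ ≤ (d * hf Q (E + n * d) + d * n * C * (E + n * d + 1) ^ M) +
                d * (hf P (E + n * d + d) + hf P' (E + n * d + d)) :=
              Nat.add_le_add ih (Nat.mul_le_mul_left _ (Nat.add_le_add h2 h3))
          _ = d * n * C * (E + n * d + 1) ^ M +
                d * (hf P (E + n * d + d) + hf P' (E + n * d + d) + hf Q (E + n * d)) := by ring
          _ ≤ d * n * C * (E + n * d + 1) ^ M +
                d * (hf Q (E + n * d + d) + C * (E + n * d + 1) ^ M) :=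
              Nat.add_le_add_left (Nat.mul_le_mul_left _ h4) _
          _ = d * hf Q (E + n * d + d) + d * (n + 1) * C * (E + n * d + 1) ^ M := by ring
          _ ≤ d * hf Q (E + n * d + d) + d * (n + 1) * C * (E + n * d + d + 1) ^ M :=
              Nat.add_le_add_left (Nat.mul_le_mul_left _ h5) _
    refine asym_le (K := M + 2) (C := (M + 2).factorial * C) (a := E + s + (M + 2)) (b := E + 1)
      (by omega) ?_
    rw [frequently_atTop]
    intro n
    refine ⟨n * d, Nat.le_mul_of_pos_right _ hd, ?_⟩
    have h1 := step n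
    set x := n * d with hx
    have h2 := bd_upper hs (E + x)
    have e7 : M + 2 + 1 - 1 = M + 2 := by omega
    have e8 : E + x + s + (M + 2 + 1) - 1 = E + x + s + (M + 2) := by omega
    rw [e7, e8] at h2
    have h3 := fact_choose_le_pow (E + x + s) (M + 2)
    have h4 : x ^ (M + 2) ≤ (M + 2).factorial * (x + (M + 1)).choose (M + 2) := by
      rcases Nat.eq_zero_or_pos x with h0 | h0
      · rw [h0, Nat.zero_pow (by omega)]
        exact Nat.zero_le _
      · obtain ⟨y, hy⟩ : ∃ y, x = y + 1 := ⟨x - 1, by omega⟩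
        have h5 := pow_le_fact_choose y (M + 2)
        rw [hy]
        have e9 : y + 1 + (M + 1) = y + (M + 2) := by omega
        rw [e9]
        exact h5
    have h5 : x * (E + x + 1) ^ M ≤ (E + x + 1) ^ (M + 1) := by
      rw [pow_succ, mul_comm]
      exact Nat.mul_le_mul_left _ (by omega)
    have e10 : d * n = x := by rw [hx, mul_comm]
    rw [e10] at h1
    calc (e + e') * x ^ (M + 2)
        ≤ (e + e') * ((M + 2).factorial * (x + (M + 1)).choose (M + 2)) :=
          Nat.mul_le_mul_left _ h4
      _ = (M + 2).factorial * ((e + e') * (x + (M + 1)).choose (M + 2)) := by ring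
      _ ≤ (M + 2).factorial * (d * hf Q (E + x) + x * C * (E + x + 1) ^ M) :=
          Nat.mul_le_mul_left _ (le_trans (Nat.le_add_right _ _) h1)
      _ ≤ (M + 2).factorial * (d * (s * (E + x + s + (M + 2)).choose (M + 2)) +
            x * C * (E + x + 1) ^ M) :=
          Nat.mul_le_mul_left _ (Nat.add_le_add_right (Nat.mul_le_mul_left _ h2) _)
      _ = s * d * ((M + 2).factorial * (E + x + s + (M + 2)).choose (M + 2)) +
            (M + 2).factorial * C * (x * (E + x + 1) ^ M) := by ring
      _ ≤ s * d * (E + x + s + (M + 2)) ^ (M + 2) +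
            (M + 2).factorial * C * (E + x + 1) ^ (M + 1) :=
          Nat.add_le_add (Nat.mul_le_mul_left _ h3) (Nat.mul_le_mul_left _ h5)
      _ = s * d * (x + (E + s + (M + 2))) ^ (M + 2) +
            (M + 2).factorial * C * (x + (E + 1)) ^ (M + 2 - 1) := by
          have e11 : M + 2 - 1 = M + 1 := by omega
          rw [e11]
          have e12 : E + x + s + (M + 2) = x + (E + s + (M + 2)) := by omega
          have e13 : E + x + 1 = x + (E + 1) := by omega
          rw [e12, e13]

end SepCI
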