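import Pool.Agent.SepCI.Height

/-!
# Joint genericity, auxiliary transcendental elements
-/

set_option autoImplicit false

namespace SepCI

open MvPolynomial Finset

attribute [local instance] MvPolynomial.gradedAlgebra

theorem algInd_gen_iff {k : IntermediateField ℚ ℂ} {W : Set ℂ} {ι : Type*} {y : ι → ℂ} :
    AlgebraicIndependent (gen k W) y ↔ AlgebraicIndependent (Algebra.adjoin k W) y := by
  have h1 : gen k W = (IntermediateField.adjoin k W).restrictScalars ℚ := by
    exact (IntermediateField.restrictScalars_adjoin ℚ k W).symm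
  have h2 : AlgebraicIndependent (gen k W) y ↔
      AlgebraicIndependent (IntermediateField.adjoin k W) y := by
    rw [h1]
    exact Iff.rfl
  rw [h2]
  exact IntermediateField.algebraicIndependent_adjoin_iff

theorem algInd_mono {K L : IntermediateField ℚ ℂ} (h : K ≤ L) {ι : Type*} {y : ι → ℂ}
    (hy : AlgebraicIndependent L y) : AlgebraicIndependent K y := by
  let _ : Algebra K L := (IntermediateField.inclusion h).toRingHom.toAlgebra
  have : IsScalarTower K L ℂ := IsScalarTower.of_algebraMap_eq fun x => rfl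
  exact hy.restrictScalars (IntermediateField.inclusion h).injective

theorem jgen_of_algInd {N r : ℕ} (d : Fin r → ℕ) (F : Fin r → S N) (hF : ∀ i, F i ∈ Sd N (d i))
    (h : AlgebraicIndependent ℚ
      (fun p : Σ i : Fin r, Mon N (d i) => coeff p.2.1 (F p.1))) : JGen ⊥ d F := by
  intro i
  refine ⟨hF i, ?_⟩
  set x := fun p : Σ i : Fin r, Mon N (d i) => coeff p.2.1 (F p.1) with hx
  have h1 := h.adjoin_of_disjoint (s := {p | p.1 < i}) (t := {p | p.1 = i}) (by
    rw [Set.disjoint_left]
    intro p hp hp'
    exact absurd hp' (ne_of_lt hp))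
  have h2 := h1.comp (fun m : Mon N (d i) => (⟨⟨i, m⟩, rfl⟩ : {p : Σ i : Fin r, Mon N (d i) | p.1 = i}))
    (by
      intro m m' hm
      have h3 := congrArg Subtype.val hm
      simpa using h3)
  have h3 : AlgebraicIndependent (IntermediateField.adjoin ℚ (x '' {p | p.1 < i}))
      (fun m : Mon N (d i) => coeff m.1 (F i)) :=
    IntermediateField.algebraicIndependent_adjoin_iff.2 h2
  refine algInd_mono ?_ h3
  apply gen_le bot_le
  rintro z ⟨j, hj, m, rfl⟩
  by_cases hm : m.degree = d j
  · exact IntermediateField.subset_adjoin _ _ ⟨⟨j, ⟨m, hm⟩⟩, hj, rfl⟩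
  · rw [((mem_homogeneousSubmodule _ _).1 (hF j)).coeff_eq_zero hm]
    exact zero_mem _

theorem genOver_ext {N d : ℕ} {k : IntermediateField ℚ ℂ} {F : S N} (hF : GenOver k d F)
    {u : Fin 2 → ℂ} (hu : AlgebraicIndependent (gen k {z | ∃ m, z = coeff m F}) u) :
    GenOver (gen k (Set.range u)) d F := by
  obtain ⟨hFd, hFi⟩ := hF
  refine ⟨hFd, ?_⟩
  have h1 : AlgebraicIndependent (gen k (Set.range fun m : Mon N d => coeff m.1 F)) u := by
    refine algInd_mono (gen_mono ?_) hu
    rintro _ ⟨m, rfl⟩
    exact ⟨m.1, rfl⟩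
  rw [algInd_gen_iff] at h1
  have h2 := hFi.sumElim h1
  have h3 : AlgebraicIndependent k (Sum.elim (fun m : Mon N d => coeff m.1 F) u) := by
    have h4 := h2.comp Sum.swap (Equiv.sumComm _ _).injective
    have h5 : Sum.elim u (fun m : Mon N d => coeff m.1 F) ∘ Sum.swap =
        Sum.elim (fun m : Mon N d => coeff m.1 F) u := by
      funext i
      rcases i with i | i <;> rfl
    rwa [h5] at h4
  rw [algInd_gen_iff]
  exact (AlgebraicIndependent.sumElim_iff.1 h3).2

theorem countable_acl_gen {k : IntermediateField ℚ ℂ} (hk : (k : Set ℂ).Countable) {W : Set ℂ}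
    (hW : W.Countable) : (acl (gen k W) : Set ℂ).Countable := by
  have h1 : (gen k W : Set ℂ).Countable := by
    have h2 := IntermediateField.lift_cardinalMk_adjoin_le ℚ ((k : Set ℂ) ∪ W)
    have h3 : Countable ((k : Set ℂ) ∪ W : Set ℂ) := (hk.union hW).to_subtype
    rw [← Set.countable_coe_iff, ← Cardinal.mk_le_aleph0_iff]
    have h4 : Cardinal.mk (gen k W) ≤ Cardinal.aleph0 := by
      have h5 := h2
      simp only [Cardinal.lift_id] at h5
      refine h5.trans ?_
      simp
    exact h4
  have h2 : Countable (gen k W) := h1.to_subtype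
  have h3 := Algebraic.countable (gen k W) ℂ
  refine h3.mono ?_
  intro z hz
  exact mem_acl.1 hz

theorem exists_indep2 (K : IntermediateField ℚ ℂ) (hK : (K : Set ℂ).Countable) :
    ∃ u : Fin 2 → ℂ, AlgebraicIndependent K u := by
  have hunc : ∀ s : Set ℂ, s.Countable → ∃ z, z ∉ s := by
    intro s hs
    by_contra hcon
    push Not at hcon
    have h1 : s = Set.univ := Set.eq_univ_of_forall hcon
    rw [h1] at hs
    exact not_countable_complex hs
  obtain ⟨a, ha⟩ := hunc _ (countable_acl_gen hK Set.countable_empty)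
  obtain ⟨b, hb⟩ := hunc _ (countable_acl_gen hK (Set.countable_singleton a))
  have ha' : Transcendental K a := by
    intro h
    apply ha
    exact mem_acl.2 (isAlgebraic_mono (le_gen _ _) h)
  have h1 : AlgebraicIndependent K (fun _ : Unit => a) :=
    (algebraicIndependent_unique_type_iff).2 ha'
  have h2 : AlgebraicIndependent (gen K (Set.range fun _ : Unit => a)) (fun _ : Unit => b) := by
    rw [algebraicIndependent_unique_type_iff]
    intro h
    apply hb
    rw [Set.range_const] at h
    exact mem_acl.2 h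
  rw [algInd_gen_iff] at h2
  have h3 := h1.sumElim h2
  let j : Fin 2 → Unit ⊕ Unit := ![Sum.inl (), Sum.inr ()]
  have hj : Function.Injective j := by
    intro x y hxy
    fin_cases x <;> fin_cases y <;> simp [j] at hxy ⊢
  exact ⟨_, h3.comp j hj⟩

end SepCI
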