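import Pool.Agent.SepCI.IrrC
import Pool.Agent.SepCI.Growth2
import Pool.Agent.SepCI.Exist

set_option autoImplicit false

/-! # Bertini: sections of large degree defined over a small extension -/

namespace SepCI

open MvPolynomial

attribute [local instance] MvPolynomial.gradedAlgebra

/-- comparison of degrees of ideals in different polynomial rings -/
theorem Bd_le_of {N N' : ℕ} {P : Ideal (S N)} {P' : Ideal (S N')} {m e e' : ℕ} (hm : 1 ≤ m)
    (h : Bd P m e) (h' : Bd P' m e') (hle : ∀ l, hf P l ≤ hf P' l) : e ≤ e' := by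
  obtain ⟨n, rfl⟩ : ∃ n, m = n + 1 := ⟨m - 1, by omega⟩
  -- `e * C(a + n, n) ≤ e' * C(a + (e + e') + n, n)`
  have h1 : ∀ a : ℕ, e * (a + 1) ^ n ≤ e' * (a + (e + e') + 1) ^ n := by
    intro a
    have h2 := le_trans (h (a + e)).1 (le_trans (hle _) (h' (a + e)).2)
    have h3 : e * (a + n).choose n ≤ ∑ i ∈ Finset.range e,
        (if i ≤ a + e then (a + e - i + (n + 1) - 1).choose (n + 1 - 1) else 0) := by
      calc e * (a + n).choose n = ∑ _i ∈ Finset.range e, (a + n).choose n := by simp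
        _ ≤ _ := by
          apply Finset.sum_le_sum
          intro i hi
          rw [Finset.mem_range] at hi
          rw [if_pos (by omega), Nat.add_sub_cancel]
          exact Nat.choose_le_choose n (by omega)
    have h4 : ∑ i ∈ Finset.range e', (a + e + i + (n + 1) - 1).choose (n + 1 - 1) ≤
        e' * (a + (e + e') + n).choose n := by
      calc _ ≤ ∑ _i ∈ Finset.range e', (a + (e + e') + n).choose n := by
            apply Finset.sum_le_sum
            intro i hi
            rw [Finset.mem_range] at hi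
            rw [Nat.add_sub_cancel]
            exact Nat.choose_le_choose n (by omega)
        _ = _ := by simp
    have h5 := le_trans h3 (le_trans h2 h4)
    have h6 := choose_ratio a (e + e') n
    have hpos : 0 < (a + n).choose n := Nat.choose_pos (by omega)
    have h7 : (a + n).choose n * (e * (a + 1) ^ n) ≤
        (a + n).choose n * (e' * (a + (e + e') + 1) ^ n) := by
      calc (a + n).choose n * (e * (a + 1) ^ n) = (e * (a + n).choose n) * (a + 1) ^ n := by ring
        _ ≤ (e' * (a + (e + e') + n).choose n) * (a + 1) ^ n := Nat.mul_le_mul_right _ h5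
        _ = e' * ((a + (e + e') + n).choose n * (a + 1) ^ n) := by ring
        _ ≤ e' * ((a + n).choose n * (a + (e + e') + 1) ^ n) := Nat.mul_le_mul_left _ h6
        _ = _ := by ring
    exact Nat.le_of_mul_le_mul_left h7 hpos
  -- let `a → ∞`
  have h2 : Filter.Tendsto (fun a : ℕ => (e : ℝ)) Filter.atTop (nhds (e : ℝ)) :=
    tendsto_const_nhds
  have h3 : Filter.Tendsto (fun a : ℕ => (e' : ℝ) * ((1 + ((e : ℝ) + e') * (1 / ((a : ℝ) + 1))) ^ n))
      Filter.atTop (nhds ((e' : ℝ) * ((1 + ((e : ℝ) + e') * 0) ^ n))) := by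
    apply Filter.Tendsto.const_mul
    apply Filter.Tendsto.pow
    apply Filter.Tendsto.const_add
    apply Filter.Tendsto.const_mul
    exact tendsto_one_div_add_atTop_nhds_zero_nat
  have h4 : (e : ℝ) ≤ (e' : ℝ) * ((1 + ((e : ℝ) + e') * 0) ^ n) := by
    apply le_of_tendsto_of_tendsto' h2 h3
    intro a
    have h5 : (e : ℝ) * ((a : ℝ) + 1) ^ n ≤ (e' : ℝ) * ((a : ℝ) + (e + e') + 1) ^ n := by
      exact_mod_cast h1 a
    have h6 : (0 : ℝ) < (a : ℝ) + 1 := by positivity
    have h7 : (1 + ((e : ℝ) + e') * (1 / ((a : ℝ) + 1))) = ((a : ℝ) + (e + e') + 1) / ((a : ℝ) + 1) := by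
      field_simp
      ring
    rw [h7, div_pow, ← mul_div_assoc, le_div_iff₀ (by positivity)]
    exact h5
  simp only [mul_zero, add_zero, one_pow, mul_one] at h4
  exact_mod_cast h4

theorem liftS_Sd {N m : ℕ} (y : Fin m → Fin (N + 1) → ℚ) {l : ℕ} {f : MvPolynomial (Fin m) ℂ}
    (hf : f ∈ homogeneousSubmodule (Fin m) ℂ l) : liftS y f ∈ Sd N l := by
  have h2 := IsHomogeneous.aeval hf (fun i => lin (y i)) (fun i => lin_mem (y i))
  rw [one_mul] at h2
  exact h2

/-- the Hilbert function of the contraction to the normalisation ring -/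
theorem hf_comap_le {N μ : ℕ} (P : Ideal (S N)) (y : Fin (μ + 1) → Fin (N + 1) → ℚ) (l : ℕ) :
    hf (P.comap (liftS y)) l ≤ hf P l := by
  let T : Sd μ l →ₗ[ℂ] Sd N l :=
    { toFun := fun f => ⟨liftS y (f : S μ), liftS_Sd y f.2⟩
      map_add' := fun a b => Subtype.ext (map_add _ _ _)
      map_smul' := fun a b => Subtype.ext (map_smul (liftS y) a (b : S μ)) }
  have h1 := hf_add_ker (P.comap (liftS y)) l
  have h2 := LinearMap.finrank_range_add_finrank_ker ((resl P l).comp T)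
  have h3 : LinearMap.ker ((resl P l).comp T) = LinearMap.ker (resl (P.comap (liftS y)) l) := by
    ext f
    rw [mem_ker_resl, LinearMap.mem_ker, LinearMap.comp_apply, ← LinearMap.mem_ker, mem_ker_resl,
      Ideal.mem_comap]
    exact Iff.rfl
  have h4 : Module.finrank ℂ (LinearMap.range ((resl P l).comp T)) ≤ hf P l := by
    rw [hf, ← range_resl]
    apply Submodule.finrank_mono
    exact LinearMap.range_comp_le_range _ _
  rw [h3] at h2
  omega

/-- the dimension of the contraction to the normalisation ring -/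
theorem md_comap {N μ : ℕ} {Q P : Ideal (S N)} (hP : P.IsPrime) (hQP : Q ≤ P)
    (y : Fin (μ + 1) → Fin (N + 1) → ℚ) (hy : IsNN Q y) : md (P.comap (liftS y)) = md P := by
  have hp : (P.comap (liftS y)).IsPrime := Ideal.comap_isPrime _ _
  set p := P.comap (liftS y) with hpdef
  let φ : S μ ⧸ p →ₐ[ℂ] S N ⧸ P := Ideal.quotientMapₐ P (liftS y) le_rfl
  have hφ : ∀ f, φ (Ideal.Quotient.mk p f) = Ideal.Quotient.mk P (liftS y f) := fun f => rfl
  have hinj : Function.Injective φ := by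
    rw [injective_iff_map_eq_zero]
    intro z hz
    obtain ⟨f, rfl⟩ := Ideal.Quotient.mk_surjective z
    rw [hφ, Ideal.Quotient.eq_zero_iff_mem] at hz
    rw [Ideal.Quotient.eq_zero_iff_mem]
    exact hz
  let _ : Algebra (S μ ⧸ p) (S N ⧸ P) := φ.toRingHom.toAlgebra
  have hst : @IsScalarTower ℂ (S μ ⧸ p) (S N ⧸ P) Algebra.toSMul Algebra.toSMul Algebra.toSMul := by
    apply IsScalarTower.of_algebraMap_eq
    intro z
    exact (φ.commutes z).symm
  have hf1 : FaithfulSMul (S μ ⧸ p) (S N ⧸ P) := by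
    rw [faithfulSMul_iff_algebraMap_injective]
    exact hinj
  have hf2 : FaithfulSMul ℂ (S μ ⧸ p) := faithful_quot hp
  have hdom : IsDomain (S N ⧸ P) := inferInstance
  have hint : φ.toRingHom.IsIntegral := by
    intro z
    obtain ⟨f, rfl⟩ := Ideal.Quotient.mk_surjective z
    obtain ⟨g, hg, hg0⟩ := hy.2.to_isIntegral (Ideal.Quotient.mk Q f)
    refine ⟨g.map (Ideal.Quotient.mk p), hg.map _, ?_⟩
    rw [Polynomial.eval₂_map]
    have h1 := congrArg (Ideal.Quotient.factor hQP) hg0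
    rw [map_zero, Polynomial.hom_eval₂] at h1
    have h2 : (Ideal.Quotient.factor hQP).comp (phi Q y).toRingHom =
        φ.toRingHom.comp (Ideal.Quotient.mk p) := by
      apply RingHom.ext
      intro r
      have h3 : phi Q y r = Ideal.Quotient.mk Q (liftS y r) := algebraMap_CR (Q := Q) (y := y) r
      change Ideal.Quotient.factor hQP (phi Q y r) = φ (Ideal.Quotient.mk p r)
      rw [h3, hφ]
      rfl
    rw [h2] at h1
    exact h1
  have halg : Algebra.IsAlgebraic (S μ ⧸ p) (S N ⧸ P) := by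
    constructor
    intro z
    obtain ⟨g, hg, hg0⟩ := hint z
    exact ⟨g, hg.ne_zero, hg0⟩
  have h1 := trdeg_add_eq ℂ (S μ ⧸ p) (A := S N ⧸ P)
  have h2 : Algebra.trdeg (S μ ⧸ p) (S N ⧸ P) = 0 := trdeg_eq_zero
  rw [h2, add_zero] at h1
  rw [md, md, h1]

theorem exists_irr {N : ℕ} {Q : Ideal (S N)} (hQ : HP Q) {μ s b : ℕ} (hμ : 2 ≤ μ)
    (hmQ : md Q = μ + 1) (hs : Bd Q (μ + 1) s) (hb : 1 ≤ b) {k' : IntermediateField ℚ ℂ}
    (hk' : IsAlgClosed k') (hdef : DefOver k' Q) (u : Fin 2 → ℂ)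
    (hu : AlgebraicIndependent k' u) :
    ∃ g ∈ Sd N b, (∀ m, coeff m g ∈ gen k' (Set.range u)) ∧ g ∉ Q ∧
      ∃ (Pg : Ideal (S N)) (e : ℕ), HP Pg ∧ Q ≤ Pg ∧ g ∈ Pg ∧ md Pg = μ ∧ Bd Pg μ e ∧
        s * b ≤ e := by
  classical
  -- normalisation and primitive form
  obtain ⟨ys, hys⟩ := exists_flag (ι := Unit) (fun _ => Q) (fun _ => μ + 1) (fun _ => hQ.hom)
    (fun _ q hq hle => by rw [← hmQ]; exact md_le hQ hq hle)
  set y : Fin (μ + 1) → Fin (N + 1) → ℚ := fun a => ys a with hydef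
  have hy : IsNN Q y := isNN_of_pnn hQ hmQ y (hys () (μ + 1))
  obtain ⟨s', U, hs1, hbd, hU, hpk⟩ := exists_pack hQ (by omega : 1 ≤ μ + 1) y hy
  have hss : s' = s := Bd_unique (by omega) hbd hs
  subst hss
  obtain ⟨c, hc⟩ := avoid U hU
  obtain ⟨pk⟩ := hpk c hc
  have i1 : IsDomain (CR Q y) := isDomain_CR hQ
  obtain ⟨χ, hχm, hχd, hχ0⟩ := pack_monic pk
  set w : MvPolynomial (Fin (μ + 1)) ℂ := X 0 ^ (b - 1) with hw
  have hw0 : w ≠ 0 := pow_ne_zero _ (X_ne_zero 0)
  set t : S N := lin (y 0) ^ (b - 1) * lin c with ht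
  have htS : t ∈ Sd N b := by
    have h1 := IsHomogeneous.mul (IsHomogeneous.pow (lin_mem (y 0)) (b - 1)) (lin_mem c)
    rwa [show 1 * (b - 1) + 1 = b by omega] at h1
  have hθ : CR.mk Q y t = algebraMap (MvPolynomial (Fin (μ + 1)) ℂ) (CR Q y) w *
      CR.mk Q y (lin c) := by
    rw [algebraMap_CR, ht, map_mul, hw, map_pow (liftS y)]
    congr 3
    rw [liftS, aeval_X]
  set Φ := χ.scaleRoots w with hΦ
  have hΦm : Φ.Monic := (Polynomial.monic_scaleRoots_iff w).2 hχm
  have hΦd : Φ.natDegree = s' := by rw [hΦ, Polynomial.natDegree_scaleRoots, hχd]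
  have hΦ0 : Polynomial.aeval (CR.mk Q y t) Φ = 0 := by
    rw [hθ]
    exact Polynomial.scaleRoots_aeval_eq_zero hχ0
  have hind : ∀ f : Polynomial (MvPolynomial (Fin (μ + 1)) ℂ), f.degree < Φ.natDegree →
      Polynomial.aeval (CR.mk Q y t) f = 0 → f = 0 := by
    rw [hΦd, hθ]
    exact indep_scale hw0 (pack_indep pk)
  have hΦirr : Irreducible Φ := irr_of_indep hΦm hΦ0 (by omega) hind
  have hΦc : ∀ l, Φ.coeff l ∈ CF (Fin (μ + 1)) k' := by
    intro l x
    refine phi_coeff hk' hdef ?_ hΦm hΦ0 hind l x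
    intro D _
    rw [ht, Derivation.leibniz, Derivation.leibniz_pow, cD_lin, cD_lin]
    simp
  have hΦh := phi_hom hQ hy htS hΦm hΦ0 hind
  -- the norm
  have i01 : (⟨1, by omega⟩ : Fin (μ + 1)) ≠ ⟨0, by omega⟩ := by simp
  have i12 : (⟨1, by omega⟩ : Fin (μ + 1)) ≠ ⟨2, by omega⟩ := by simp
  have i02 : (⟨0, by omega⟩ : Fin (μ + 1)) ≠ ⟨2, by omega⟩ := by simp
  obtain ⟨G, hG, hGF, hN, hNh⟩ := exists_N hk' i01 i12 i02 hΦm hΦirr hΦc hb hΦh u hu
  set Nm : S μ := Φ.eval G with hNm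
  rw [hΦd] at hNh
  -- the form
  set g : S N := t - liftS y G with hg
  have hgS : g ∈ Sd N b := Submodule.sub_mem _ htS (liftS_Sd y hG)
  have hgF : ∀ m, coeff m g ∈ gen k' (Set.range u) := by
    have h1 : g ∈ CF (Fin (N + 1)) (gen k' (Set.range u)) := by
      apply (CF _ _).sub_mem
      · exact (CF _ _).mul_mem ((CF _ _).pow_mem (lin_mem_CF _) _) (lin_mem_CF _)
      · exact aeval_mem_CF (fun i => lin_mem_CF _) hGF
    exact h1
  obtain ⟨z, hz⟩ : CR.mk Q y g ∣ algebraMap (MvPolynomial (Fin (μ + 1)) ℂ) (CR Q y) Nm := by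
    have h1 := Polynomial.sub_dvd_eval_sub (CR.mk Q y t)
      (algebraMap (MvPolynomial (Fin (μ + 1)) ℂ) (CR Q y) G)
      (Φ.map (algebraMap (MvPolynomial (Fin (μ + 1)) ℂ) (CR Q y)))
    rw [Polynomial.eval_map_algebraMap, hΦ0, zero_sub, dvd_neg, Polynomial.eval_map,
      Polynomial.eval₂_hom] at h1
    have h2 : CR.mk Q y g = CR.mk Q y t -
        algebraMap (MvPolynomial (Fin (μ + 1)) ℂ) (CR Q y) G := by
      rw [hg, map_sub, algebraMap_CR]
    rw [h2]
    exact h1
  have hgQ : g ∉ Q := by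
    intro h0
    rw [← CR_mk_eq_zero y] at h0
    rw [h0, zero_mul] at hz
    apply hN.ne_zero
    apply hy.1
    rw [map_zero]
    exact hz
  obtain ⟨Pg, e, hP, hQP, hgP, hmP, hbP, -⟩ := bezout_aux hQ hμ hmQ hs hb hgS hgQ
  refine ⟨g, hgS, hgF, hgQ, Pg, e, hP, hQP, hgP, hmP, hbP, ?_⟩
  -- the contraction of `Pg` is generated by the norm
  set p : Ideal (S μ) := Pg.comap (liftS y) with hp
  have hPp : Pg.IsPrime := hP.prime
  have hpp : p.IsPrime := Ideal.comap_isPrime _ _
  have hmp : md p = μ := by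
    rw [hp, md_comap hP.prime hQP y hy, hmP]
  have hNp : Nm ∈ p := by
    rw [hp, Ideal.mem_comap]
    obtain ⟨z', rfl⟩ := CR_mk_surjective (Q := Q) y z
    rw [algebraMap_CR, ← map_mul, ← sub_eq_zero, ← map_sub, CR_mk_eq_zero] at hz
    have h1 := Pg.add_mem (hQP hz) (Pg.mul_mem_right z' hgP)
    rwa [sub_add_cancel] at h1
  have hpr : (Ideal.span {Nm} : Ideal (S μ)).IsPrime :=
    (Ideal.span_singleton_prime hN.ne_zero).2 hN.prime
  have hNH : HP (Ideal.span {Nm} : Ideal (S μ)) := by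
    refine ⟨hpr, ?_⟩
    have h1 := hom_principal (Q := (⊥ : Ideal (S μ))) (hp_bot μ).hom hNh
    rwa [bot_sup_eq] at h1
  have hle : (Ideal.span {Nm} : Ideal (S μ)) ≤ p := by
    rw [Ideal.span_singleton_le_iff_mem]
    exact hNp
  have hbot : (⊥ : Ideal (S μ)) < Ideal.span {Nm} := by
    rw [bot_lt_iff_ne_bot, Ne, Ideal.span_singleton_eq_bot]
    exact hN.ne_zero
  have hm1 := md_lt (hp_bot μ) hNH hbot
  rw [md_bot] at hm1
  have hm2 := md_le' hpr hpp hle
  have hmN : md (Ideal.span {Nm} : Ideal (S μ)) = μ := by omega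
  have hpe : (Ideal.span {Nm} : Ideal (S μ)) = p := by
    by_contra hne
    have := md_lt' hpr hpp (lt_of_le_of_ne hle hne)
    omega
  obtain ⟨e'', -, hb''⟩ := exists_Bd hNH (by omega)
  rw [hmN] at hb''
  have hlow : 1 * (b * s') ≤ e'' := by
    refine deg_lower (hp_bot μ) hNH hμ (md_bot μ) hmN (Bd_bot μ) hb'' ?_ hNh ?_
      (Ideal.mem_span_singleton_self Nm) bot_le ?_ ?_
    · exact Nat.mul_pos hb hs1
    · rw [Ideal.mem_bot]
      exact hN.ne_zero
    · intro q hq hle' hmq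
      rw [bot_sup_eq] at hle'
      by_contra hne
      have := md_lt hNH hq (lt_of_le_of_ne hle' (Ne.symm hne))
      omega
    · refine ⟨1, fun h1 => hpr.ne_top ((Ideal.eq_top_iff_one _).2 h1), fun x hx => ?_⟩
      rw [one_mul, bot_sup_eq]
      exact hx
  have hup : e'' ≤ e := by
    apply Bd_le_of (by omega) hb'' hbP
    intro l
    rw [hpe]
    exact hf_comap_le Pg y l
  calc s' * b = 1 * (b * s') := by ring
    _ ≤ e'' := hlow
    _ ≤ e := hup

end SepCI
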