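import Pool.Agent.SepCI.Defs2

set_option autoImplicit false

/-! # Existence of places of `ℂ` over an algebraically closed subfield -/

namespace SepCI

open MvPolynomial

/-- a residue field of a valuation ring of `ℂ` over `k` embeds into `ℂ` over `k` -/
theorem exists_embed {k O κ : Type} [Field k] [Algebra k ℂ] [CommRing O] [Field κ]
    (i : k →+* O) (j : O →+* ℂ) (hij : ∀ a, j (i a) = algebraMap k ℂ a)
    (hj : Function.Injective j) (r : O →+* κ) (hr : Function.Surjective r) :
    ∃ ψ : κ →+* ℂ, ∀ a, ψ (r (i a)) = algebraMap k ℂ a := by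
  let _ : Algebra k O := i.toAlgebra
  let _ : Algebra k κ := (r.comp i).toAlgebra
  let r' : O →ₐ[k] κ := { r with commutes' := fun a => rfl }
  let j' : O →ₐ[k] ℂ := { j with commutes' := hij }
  obtain ⟨ι, x, hx⟩ := exists_isTranscendenceBasis' k κ
  choose y hy using fun a => hr (x a)
  have hy1 : AlgebraicIndependent k y := by
    apply AlgebraicIndependent.of_comp r'
    have : (r' : O → κ) ∘ y = x := funext hy
    rw [this]
    exact hx.1
  have hz : AlgebraicIndependent k (j' ∘ y) := hy1.map' hj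
  have := hx.isAlgebraic
  let θ : Algebra.adjoin k (Set.range x) →ₐ[k] ℂ := (aeval (j' ∘ y)).comp hx.1.repr
  have hθ : Function.Injective θ := by
    have h1 : Function.Injective (aeval (R := k) (j' ∘ y)) := hz
    have h2 : Function.Injective hx.1.repr := hx.1.aevalEquiv.symm.injective
    exact h1.comp h2
  let _ : Algebra (Algebra.adjoin k (Set.range x)) ℂ := θ.toRingHom.toAlgebra
  have : FaithfulSMul (Algebra.adjoin k (Set.range x)) ℂ :=
    (faithfulSMul_iff_algebraMap_injective _ _).2 hθ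
  have : Module.IsTorsionFree (Algebra.adjoin k (Set.range x)) ℂ := inferInstance
  let ψ : κ →ₐ[Algebra.adjoin k (Set.range x)] ℂ := IsAlgClosed.lift
  refine ⟨ψ.toRingHom, fun a => ?_⟩
  have h3 : ψ (algebraMap (Algebra.adjoin k (Set.range x)) κ (algebraMap k _ a)) =
      θ (algebraMap k _ a) := ψ.commutes _
  have h4 : θ (algebraMap k _ a) = algebraMap k ℂ a := θ.commutes a
  rw [← h4, ← h3]
  rfl

/-- an algebraically closed subfield is integrally closed -/
theorem isIntegrallyClosedIn_of_isAlgClosed {K : IntermediateField ℚ ℂ} (hK : IsAlgClosed K) :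
    IsIntegrallyClosedIn K.toSubfield.toSubring ℂ := by
  rw [Subring.isIntegrallyClosedIn_iff]
  intro x hx
  have hx' : IsIntegral K x := hx
  have h := IsAlgClosed.degree_eq_one_of_irreducible K (minpoly.irreducible hx')
  obtain ⟨y, hy⟩ := minpoly.mem_range_of_degree_eq_one K x h
  rw [← hy]
  exact y.2

theorem exists_place {K : IntermediateField ℚ ℂ} (hK : IsAlgClosed K) {n : ℕ} (f : Fin n → ℂ)
    (T : Set (Fin n)) (hT : ∀ i ∈ T, f i ∈ K) (hj : ∃ j, f j ∉ K) :
    ∃ (p : Plc K) (u : ℂ), u ≠ 0 ∧ ∃ h : ∀ i, u * f i ∈ p.O,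
      (∀ i ∈ T, p.φ ⟨u * f i, h i⟩ = 0) ∧ ∃ j, p.φ ⟨u * f j, h j⟩ = 1 := by
  obtain ⟨j, hj⟩ := hj
  have := isIntegrallyClosedIn_of_isAlgClosed hK
  obtain ⟨V, hV, hjV⟩ := Subring.exists_le_valuationSubring_of_isIntegrallyClosedIn
    (x := f j) (R := K.toSubfield.toSubring) hj
  have hKV : ∀ z ∈ K, z ∈ V := fun z hz => hV hz
  let i : K →+* V := (algebraMap K ℂ).codRestrict V (fun z => hKV z z.2)
  let r : V →+* IsLocalRing.ResidueField V := IsLocalRing.residue V
  obtain ⟨ψ, hψ⟩ := exists_embed i V.subtype (fun a => rfl) V.subtype_injective r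
    IsLocalRing.residue_surjective
  have hzero : ∀ (x : ℂ) (h : x ∈ V), x⁻¹ ∉ V ∨ x = 0 → ψ (r ⟨x, h⟩) = 0 := by
    intro x h h1
    have h2 : (⟨x, h⟩ : V) ∈ IsLocalRing.maximalIdeal V := by
      rw [← ValuationSubring.coe_mem_nonunits_iff, ValuationSubring.mem_nonunits_iff_or]
      exact h1.symm
    have h3 : r ⟨x, h⟩ = 0 := (IsLocalRing.residue_eq_zero_iff _).2 h2
    rw [h3, map_zero]
  let p : Plc K :=
    { O := V
      φ := ψ.comp r
      hK := hKV
      hφ := fun z hz => hψ ⟨z, hz⟩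
      hneg := fun x hx h => hzero _ h (Or.inl (by rwa [inv_inv])) }
  obtain ⟨j0, -, hj0⟩ := Finset.exists_max_image Finset.univ (fun i => V.valuation (f i))
    ⟨j, Finset.mem_univ j⟩
  have hj0V : f j0 ∉ V := by
    intro h
    apply hjV
    rw [← V.valuation_le_one_iff] at h ⊢
    exact (hj0 j (Finset.mem_univ j)).trans h
  have h0 : f j0 ≠ 0 := by
    intro h
    apply hj0V
    rw [h]
    exact V.zero_mem
  have hmem : ∀ i, (f j0)⁻¹ * f i ∈ V := by
    intro i
    rw [← V.valuation_le_one_iff, map_mul, map_inv₀]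
    have h1 : V.valuation (f j0) ≠ 0 := (Valuation.ne_zero_iff _).2 h0
    rw [inv_mul_le_one₀ (zero_lt_iff.2 h1)]
    exact hj0 i (Finset.mem_univ i)
  refine ⟨p, (f j0)⁻¹, inv_ne_zero h0, hmem, ?_, j0, ?_⟩
  · intro i hi
    apply hzero
    by_cases hfi : f i = 0
    · right
      rw [hfi, mul_zero]
    · left
      intro h
      apply hj0V
      have h1 : f j0 = ((f j0)⁻¹ * f i)⁻¹ * f i := by
        field_simp
      rw [h1]
      exact V.mul_mem _ _ h (hKV _ (hT i hi))
  · have h1 : (⟨(f j0)⁻¹ * f j0, hmem j0⟩ : V) = 1 := by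
      apply Subtype.ext
      exact inv_mul_cancel₀ h0
    change ψ (r ⟨(f j0)⁻¹ * f j0, hmem j0⟩) = 1
    rw [h1, map_one, map_one]

end SepCI
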