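import Pool.Agent.SepCI.Pack

set_option autoImplicit false
set_option linter.unusedSectionVars false

/-! # Comparison of Hilbert functions (norm argument) -/

namespace SepCI

open MvPolynomial Finset
open scoped nonZeroDivisors

attribute [local instance] MvPolynomial.gradedAlgebra

/-! ## The norm -/

section

variable {R A : Type*} [CommRing R] [IsDomain R] [IsIntegrallyClosed R] [CommRing A] [IsDomain A]
  [Algebra R A] [Module.Finite R A] [FaithfulSMul R A]
variable (K L : Type*) [Field K] [Field L] [Algebra R K] [IsFractionRing R K] [Algebra A L]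
  [IsFractionRing A L] [Algebra R L] [Algebra K L] [IsScalarTower R K L] [IsScalarTower R A L]

theorem exists_nm (a : A) : ∃ r : R, algebraMap R K r = Algebra.norm K (algebraMap A L a) := by
  have : FiniteDimensional K L := finDim_frac (R := R) (A := A) K L
  have h1 : IsIntegral R a := Algebra.IsIntegral.isIntegral a
  have h2 : IsIntegral R (algebraMap A L a) := h1.map (IsScalarTower.toAlgHom R A L)
  exact IsIntegrallyClosed.isIntegral_iff.1 (Algebra.isIntegral_norm K h2)

/-- The norm of the fraction fields, restricted to `A → R`. -/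
noncomputable def nmA (a : A) : R := (exists_nm (R := R) K L a).choose

theorem nmA_spec (a : A) :
    algebraMap R K (nmA (R := R) K L a) = Algebra.norm K (algebraMap A L a) :=
  (exists_nm K L a).choose_spec

theorem nmA_ne_zero {a : A} (ha : a ≠ 0) : nmA (R := R) K L a ≠ 0 := by
  have hfd : FiniteDimensional K L := finDim_frac (R := R) (A := A) K L
  intro h
  have h1 := nmA_spec (R := R) K L a
  rw [h, map_zero] at h1
  have h2 := Algebra.norm_eq_zero_iff.1 h1.symm
  exact ha (IsFractionRing.injective A L (h2.trans (map_zero _).symm))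

theorem nmA_equiv (σR : R ≃+* R) (σA : A ≃+* A)
    (h : ∀ r, σA (algebraMap R A r) = algebraMap R A (σR r)) (a : A) :
    nmA (R := R) K L (σA a) = σR (nmA (R := R) K L a) := by
  apply IsFractionRing.injective R K
  set σK : K ≃+* K := IsFractionRing.ringEquivOfRingEquiv σR with hσK
  set σL : L ≃+* L := IsFractionRing.ringEquivOfRingEquiv σA with hσL
  have hK : ∀ r, σK (algebraMap R K r) = algebraMap R K (σR r) := fun r =>
    IsFractionRing.ringEquivOfRingEquiv_algebraMap σR r
  have hL : ∀ r, σL (algebraMap A L r) = algebraMap A L (σA r) := fun r =>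
    IsFractionRing.ringEquivOfRingEquiv_algebraMap σA r
  have hcomp : RingHom.comp (algebraMap K L) ↑σK = RingHom.comp ↑σL (algebraMap K L) := by
    apply IsLocalization.ringHom_ext R⁰
    ext r
    show algebraMap K L (σK (algebraMap R K r)) = σL (algebraMap K L (algebraMap R K r))
    rw [hK, ← IsScalarTower.algebraMap_apply R K L, ← IsScalarTower.algebraMap_apply R K L,
      IsScalarTower.algebraMap_apply R A L, IsScalarTower.algebraMap_apply R A L, hL, h]
  have h1 := Algebra.norm_eq_of_equiv_equiv σK σL hcomp (algebraMap A L a)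
  rw [nmA_spec, ← hL]
  rw [← hK, nmA_spec, h1]
  simp

theorem nmA_smul (r : R) (a : A) :
    nmA (R := R) K L (r • a) = r ^ Module.finrank K L * nmA (R := R) K L a := by
  have hfd : FiniteDimensional K L := finDim_frac (R := R) (A := A) K L
  apply IsFractionRing.injective R K
  rw [nmA_spec, Algebra.smul_def, map_mul, map_mul, map_mul, nmA_spec, map_pow,
    ← IsScalarTower.algebraMap_apply R A L, IsScalarTower.algebraMap_apply R K L,
    Algebra.norm_algebraMap]

end

/-! ## Orders of vanishing -/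

theorem det_mem_pow {B : Type*} [CommRing B] (J : Ideal B) {s : ℕ} (M : Matrix (Fin s) (Fin s) B)
    (h : ∀ i j, M i j ∈ J) : M.det ∈ J ^ s := by
  rw [Matrix.det_apply]
  refine Ideal.sum_mem _ fun σ _ => ?_
  have h1 : (∏ i, M (σ i) i) ∈ ∏ _i : Fin s, J := Ideal.prod_mem_prod fun i _ => h _ _
  rw [Finset.prod_const, Finset.card_univ, Fintype.card_fin] at h1
  rw [Units.smul_def, zsmul_eq_mul]
  exact Ideal.mul_mem_left _ _ h1

theorem cancel_order {w n : ℕ} {g h : MvPolynomial (Fin w) ℂ} (hg : coeff 0 g ≠ 0)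
    (hgh : g * h ∈ idealOfVars (Fin w) ℂ ^ n) : h ∈ idealOfVars (Fin w) ℂ ^ n := by
  have h1 : IsCoprime (Ideal.span {g}) (idealOfVars (Fin w) ℂ) := by
    rw [Ideal.isCoprime_iff_exists]
    refine ⟨g * C (coeff 0 g)⁻¹, Ideal.mul_mem_right _ _ (Ideal.mem_span_singleton_self g),
      1 - g * C (coeff 0 g)⁻¹, ?_, by ring⟩
    rw [← pow_one (idealOfVars (Fin w) ℂ), mem_pow_idealOfVars_iff']
    intro x hx
    have hx0 : x = 0 := by
      rw [← Finsupp.degree_eq_zero_iff]
      omega
    rw [hx0, coeff_sub, mul_comm g, coeff_C_mul, inv_mul_cancel₀ hg]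
    simp
  have h2 := (IsCoprime.pow_right (n := n) h1)
  rw [Ideal.isCoprime_iff_exists] at h2
  obtain ⟨u, hu, v, hv, huv⟩ := h2
  rw [Ideal.mem_span_singleton'] at hu
  obtain ⟨t, ht⟩ := hu
  have h3 : h = t * (g * h) + h * v := by
    calc h = h * (u + v) := by rw [huv, mul_one]
      _ = _ := by rw [← ht]; ring
  rw [h3]
  exact Ideal.add_mem _ (Ideal.mul_mem_left _ _ hgh) (Ideal.mul_mem_left _ _ hv)

/-- Restriction to the slice `Y 0 = a 0`, in coordinates centred at `a`. -/
noncomputable def slice {w : ℕ} (a : Fin (w + 1) → ℂ) :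
    MvPolynomial (Fin (w + 1)) ℂ →ₐ[ℂ] MvPolynomial (Fin w) ℂ :=
  aeval (Fin.cons (C (a 0)) fun i => X i + C (a i.succ))

theorem eval_slice {w : ℕ} (a : Fin (w + 1) → ℂ) (b : Fin w → ℂ)
    (G : MvPolynomial (Fin (w + 1)) ℂ) :
    eval b (slice a G) = eval (Fin.cons (a 0) fun i => b i + a i.succ) G := by
  have h : (eval b : MvPolynomial (Fin w) ℂ →+* ℂ).comp
      (slice a : MvPolynomial (Fin (w + 1)) ℂ →+* MvPolynomial (Fin w) ℂ) =
      eval (Fin.cons (a 0) fun i => b i + a i.succ) := by
    apply MvPolynomial.ringHom_ext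
    · intro z
      simp [slice]
    · intro i
      refine Fin.cases ?_ (fun i => ?_) i
      · simp [slice]
      · simp [slice]
  exact congrArg (fun g : MvPolynomial (Fin (w + 1)) ℂ →+* ℂ => g G) h

theorem coeff_slice {w : ℕ} (a : Fin (w + 1) → ℂ) (G : MvPolynomial (Fin (w + 1)) ℂ) :
    coeff 0 (slice a G) = eval a G := by
  have h1 := eval_slice a 0 G
  have h2 : (Fin.cons (a 0) fun i : Fin w => (0 : Fin w → ℂ) i + a i.succ : Fin (w + 1) → ℂ) = a := by
    funext i
    refine Fin.cases rfl (fun i => ?_) i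
    simp
  rw [h2] at h1
  rw [← h1, ← constantCoeff_eq, eval_zero]

theorem totalDegree_slice {w D : ℕ} (a : Fin (w + 1) → ℂ) {G : MvPolynomial (Fin (w + 1)) ℂ}
    (hG : G ∈ homogeneousSubmodule (Fin (w + 1)) ℂ D) : (slice a G).totalDegree ≤ D := by
  rw [slice, aeval_def, eval₂_eq']
  apply totalDegree_finsetSum_le
  intro x hx
  refine le_trans (totalDegree_mul _ _) ?_
  have h0 : (algebraMap ℂ (MvPolynomial (Fin w) ℂ) (coeff x G)).totalDegree = 0 :=
    totalDegree_C _
  rw [h0, zero_add]
  refine le_trans (totalDegree_finsetProd _ _) ?_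
  have hx' : x.degree = D := by
    have h1 := hG (mem_support_iff.1 hx)
    rw [Finsupp.degree_eq_weight_one]
    exact h1
  rw [← hx', Finsupp.degree_eq_sum]
  apply Finset.sum_le_sum
  intro i _
  refine le_trans (totalDegree_pow _ _) ?_
  conv_rhs => rw [← mul_one (x i)]
  apply Nat.mul_le_mul_left
  refine Fin.cases ?_ (fun i => ?_) i
  · simp
  · simp only [Fin.cons_succ]
    refine le_trans (totalDegree_add _ _) ?_
    simp [totalDegree_X]

theorem slice_inj {w D : ℕ} {a : Fin (w + 1) → ℂ} (ha : a 0 ≠ 0)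
    {G : MvPolynomial (Fin (w + 1)) ℂ} (hG : G ∈ homogeneousSubmodule (Fin (w + 1)) ℂ D)
    (h : slice a G = 0) : G = 0 := by
  have h1 : X 0 * G = 0 := by
    apply MvPolynomial.funext
    intro z
    rw [map_mul, eval_X, map_zero]
    by_cases hz : z 0 = 0
    · rw [hz, zero_mul]
    · have h2 := eval_slice a (fun i => a 0 * z i.succ / z 0 - a i.succ) G
      rw [h, map_zero] at h2
      have h3 : (Fin.cons (a 0) fun i : Fin w => a 0 * z i.succ / z 0 - a i.succ + a i.succ :
          Fin (w + 1) → ℂ) = fun i => a 0 / z 0 * z i := by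
        funext i
        refine Fin.cases ?_ (fun i => ?_) i
        · simp [hz]
        · simp
          ring
      rw [h3] at h2
      have h4 : eval (fun i => a 0 / z 0 * z i) G = eval z (scal (Fin (w + 1)) (a 0 / z 0) G) := by
        rw [scal, ← coe_aeval_eq_eval, ← coe_aeval_eq_eval]
        simp only [RingHom.coe_coe]
        rw [← AlgHom.comp_apply, comp_aeval]
        simp
      rw [h4, scal_of_hom _ hG, map_mul, eval_C] at h2
      have h5 : (a 0 / z 0) ^ D ≠ 0 := pow_ne_zero _ (div_ne_zero ha hz)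
      have h6 := (mul_eq_zero.1 h2.symm).resolve_left h5
      rw [h6, mul_zero]
  exact (mul_eq_zero.1 h1).resolve_left (X_ne_zero 0)

theorem eq_zero_of_order {w D n : ℕ} {a : Fin (w + 1) → ℂ} (ha : a 0 ≠ 0)
    {G : MvPolynomial (Fin (w + 1)) ℂ} (hG : G ∈ homogeneousSubmodule (Fin (w + 1)) ℂ D)
    (hn : D < n) (h : slice a G ∈ idealOfVars (Fin w) ℂ ^ n) : G = 0 := by
  apply slice_inj ha hG
  rw [mem_pow_idealOfVars_iff] at h
  by_contra h0
  obtain ⟨x, hx⟩ := (support_nonempty).2 h0
  have h1 := h x hx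
  have h2 := le_totalDegree hx
  have h3 := totalDegree_slice a hG
  have h4 : x.degree = x.sum fun _ e => e := rfl
  omega

/-! ## The upper bound -/

theorem card_exps (w l : ℕ) :
    ((Finset.univ : Finset (Fin (w + 1))).finsuppAntidiag l).card = (l + w).choose w := by
  rw [Finset.card_finsuppAntidiag_nat_eq_choose, Finset.card_univ, Fintype.card_fin]
  rw [show w + 1 + l - 1 = l + w by omega]
  apply Nat.choose_symm_of_eq_add
  omega

theorem mem_exps {w l : ℕ} (d : Fin (w + 1) →₀ ℕ) :
    d ∈ (Finset.univ : Finset (Fin (w + 1))).finsuppAntidiag l ↔ d.degree = l := by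
  rw [Finset.mem_finsuppAntidiag]
  simp [Finsupp.degree_eq_sum]

section

variable {w : ℕ} {A : Type} [CommRing A] [IsDomain A] [Algebra ℂ A]
  [Algebra (MvPolynomial (Fin (w + 1)) ℂ) A] [Module.Finite (MvPolynomial (Fin (w + 1)) ℂ) A]
  [FaithfulSMul (MvPolynomial (Fin (w + 1)) ℂ) A] [IsScalarTower ℂ (MvPolynomial (Fin (w + 1)) ℂ) A]
variable (K L : Type) [Field K] [Field L] [Algebra (MvPolynomial (Fin (w + 1)) ℂ) K]
  [IsFractionRing (MvPolynomial (Fin (w + 1)) ℂ) K] [Algebra A L] [IsFractionRing A L]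
  [Algebra (MvPolynomial (Fin (w + 1)) ℂ) L] [Algebra K L]
  [IsScalarTower (MvPolynomial (Fin (w + 1)) ℂ) K L]
  [IsScalarTower (MvPolynomial (Fin (w + 1)) ℂ) A L]

theorem upper_rank {l : ℕ} (V : Submodule ℂ A) [Module.Finite ℂ V]
    (hV : ∀ f ∈ V, nmA (R := MvPolynomial (Fin (w + 1)) ℂ) K L f ∈
      homogeneousSubmodule (Fin (w + 1)) ℂ (Module.finrank K L * l))
    {ρ : ℕ} (v : Fin ρ → L)
    (hspan : ∀ f ∈ V, algebraMap A L f ∈ Submodule.span K (Set.range v)) :
    Module.finrank ℂ V ≤ ρ * (l + w).choose w := by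
  classical
  have hfd : FiniteDimensional K L :=
    finDim_frac (R := MvPolynomial (Fin (w + 1)) ℂ) (A := A) K L
  let bV := Module.finBasis ℂ V
  let bL := Module.finBasis K L
  have h1 : ∀ k, ∃ r : Fin ρ → K, ∑ i, r i • v i = algebraMap A L (bV k : A) := by
    intro k
    exact (Submodule.mem_span_range_iff_exists_fun K).1 (hspan _ (bV k).2)
  choose r hr using h1
  obtain ⟨d, hd⟩ := IsLocalization.exist_integer_multiples_of_finite
    (MvPolynomial (Fin (w + 1)) ℂ)⁰ (fun x : Fin (Module.finrank ℂ V) × Fin ρ => r x.1 x.2)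
  choose p hp using hd
  obtain ⟨dR, hdR⟩ : ∃ x : MvPolynomial (Fin (w + 1)) ℂ, x = d := ⟨_, rfl⟩
  have hdR0 : dR ≠ 0 := by
    rw [hdR]
    exact nonZeroDivisors.coe_ne_zero d
  have hp' : ∀ k i, algebraMap (MvPolynomial (Fin (w + 1)) ℂ) K (p (k, i)) =
      algebraMap (MvPolynomial (Fin (w + 1)) ℂ) K dR * r k i := by
    intro k i
    rw [hp, ← hdR, Algebra.smul_def]
  obtain ⟨D, hD⟩ := IsLocalization.exist_integer_multiples_of_finite
    (MvPolynomial (Fin (w + 1)) ℂ)⁰
    (fun x : Fin ρ × Fin (Module.finrank K L) × Fin (Module.finrank K L) =>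
      Algebra.leftMulMatrix bL (v x.1) x.2.1 x.2.2)
  choose q hq using hD
  obtain ⟨DR, hDR⟩ : ∃ x : MvPolynomial (Fin (w + 1)) ℂ, x = D := ⟨_, rfl⟩
  have hDR0 : DR ≠ 0 := by
    rw [hDR]
    exact nonZeroDivisors.coe_ne_zero D
  have hq' : ∀ i x y, algebraMap (MvPolynomial (Fin (w + 1)) ℂ) K (q (i, x, y)) =
      algebraMap (MvPolynomial (Fin (w + 1)) ℂ) K DR * Algebra.leftMulMatrix bL (v i) x y := by
    intro i x y
    rw [hq, ← hDR, Algebra.smul_def]
  -- the point
  have hne : (X 0 * (DR * dR) : MvPolynomial (Fin (w + 1)) ℂ) ≠ 0 :=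
    mul_ne_zero (X_ne_zero 0) (mul_ne_zero hDR0 hdR0)
  obtain ⟨a, ha⟩ : ∃ a, eval a (X 0 * (DR * dR) : MvPolynomial (Fin (w + 1)) ℂ) ≠ 0 := by
    by_contra hcon
    push Not at hcon
    apply hne
    apply MvPolynomial.funext
    intro x
    rw [hcon x, map_zero]
  rw [map_mul, eval_X] at ha
  have ha0 : a 0 ≠ 0 := left_ne_zero_of_mul ha
  have hDd : eval a (DR * dR) ≠ 0 := right_ne_zero_of_mul ha
  set T := (Finset.univ : Finset (Fin (w + 1))).finsuppAntidiag l with hT
  let P : (Fin (Module.finrank ℂ V) → ℂ) →ₗ[ℂ] (Fin ρ → MvPolynomial (Fin (w + 1)) ℂ) :=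
    { toFun := fun c i => ∑ k, c k • p (k, i)
      map_add' := by
        intro c c'
        funext i
        simp only [Pi.add_apply, add_smul, Finset.sum_add_distrib]
      map_smul' := by
        intro t c
        funext i
        simp only [Pi.smul_apply, smul_eq_mul, RingHom.id_apply, Finset.smul_sum, mul_smul] }
  let Φ : (Fin (Module.finrank ℂ V) → ℂ) →ₗ[ℂ] (Fin ρ × T → ℂ) :=
    { toFun := fun c x => coeff (Finsupp.tail x.2.1) (slice a (P c x.1))
      map_add' := by
        intro c c'
        funext x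
        simp only [map_add, Pi.add_apply, coeff_add]
      map_smul' := by
        intro t c
        funext x
        simp only [map_smul, Pi.smul_apply, coeff_smul, RingHom.id_apply] }
  have hinj : Function.Injective Φ := by
    rw [injective_iff_map_eq_zero]
    intro c hc
    -- orders
    have hord : ∀ i, slice a (P c i) ∈ idealOfVars (Fin w) ℂ ^ (l + 1) := by
      intro i
      rw [mem_pow_idealOfVars_iff']
      intro x hx
      have h2 : Finsupp.cons (l - x.degree) x ∈ T := by
        rw [hT, mem_exps]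
        have h3 : (Finsupp.cons (l - x.degree) x).degree = (l - x.degree) + x.degree := by
          rw [Finsupp.degree_eq_sum, Fin.sum_univ_succ, Finsupp.cons_zero, Finsupp.degree_eq_sum]
          simp only [Finsupp.cons_succ]
        rw [h3]
        omega
      have h4 := congrFun hc (i, ⟨_, h2⟩)
      have h5 : coeff (Finsupp.tail (Finsupp.cons (l - x.degree) x)) (slice a (P c i)) = 0 := h4
      rwa [Finsupp.tail_cons] at h5
    set f : A := ((∑ k, c k • bV k : V) : A) with hf
    have hfL : algebraMap A L f = ∑ k, algebraMap (MvPolynomial (Fin (w + 1)) ℂ) K (C (c k)) •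
        algebraMap A L (bV k : A) := by
      rw [hf, AddSubmonoidClass.coe_finsetSum, map_sum]
      apply Finset.sum_congr rfl
      intro k _
      have h6 : ((c k • bV k : V) : A) = (C (c k) : MvPolynomial (Fin (w + 1)) ℂ) • (bV k : A) := by
        rw [Submodule.coe_smul, ← algebraMap_smul (MvPolynomial (Fin (w + 1)) ℂ) (c k)]
        rfl
      rw [h6, Algebra.smul_def, map_mul, ← IsScalarTower.algebraMap_apply,
        IsScalarTower.algebraMap_apply (MvPolynomial (Fin (w + 1)) ℂ) K L, ← Algebra.smul_def]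
    have hdf : algebraMap K L (algebraMap (MvPolynomial (Fin (w + 1)) ℂ) K dR) * algebraMap A L f =
        ∑ i, algebraMap (MvPolynomial (Fin (w + 1)) ℂ) K (P c i) • v i := by
      have h7 : ∀ i, algebraMap (MvPolynomial (Fin (w + 1)) ℂ) K (P c i) =
          ∑ k, algebraMap (MvPolynomial (Fin (w + 1)) ℂ) K dR *
            (algebraMap (MvPolynomial (Fin (w + 1)) ℂ) K (C (c k)) * r k i) := by
        intro i
        show algebraMap (MvPolynomial (Fin (w + 1)) ℂ) K (∑ k, c k • p (k, i)) = _
        rw [map_sum]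
        apply Finset.sum_congr rfl
        intro k _
        rw [smul_eq_C_mul, map_mul, hp']
        ring
      rw [hfL]
      simp only [h7, Finset.sum_smul]
      rw [Finset.sum_comm, Finset.mul_sum]
      apply Finset.sum_congr rfl
      intro k _
      rw [← hr k, ← Algebra.smul_def, Finset.smul_sum, Finset.smul_sum]
      apply Finset.sum_congr rfl
      intro i _
      rw [smul_smul, smul_smul, mul_assoc]
    -- the matrix
    set W : Matrix (Fin (Module.finrank K L)) (Fin (Module.finrank K L))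
      (MvPolynomial (Fin (w + 1)) ℂ) := Matrix.of fun x y => ∑ i, P c i * q (i, x, y) with hW
    have hWK : (algebraMap (MvPolynomial (Fin (w + 1)) ℂ) K).mapMatrix W =
        Algebra.leftMulMatrix bL (algebraMap A L ((DR * dR) • f)) := by
      have h8 : algebraMap A L ((DR * dR) • f) =
          ∑ i, (algebraMap (MvPolynomial (Fin (w + 1)) ℂ) K DR *
            algebraMap (MvPolynomial (Fin (w + 1)) ℂ) K (P c i)) • v i := by
        rw [Algebra.smul_def, map_mul, ← IsScalarTower.algebraMap_apply,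
          IsScalarTower.algebraMap_apply (MvPolynomial (Fin (w + 1)) ℂ) K L, map_mul, map_mul,
          mul_assoc, hdf, ← Algebra.smul_def, Finset.smul_sum]
        apply Finset.sum_congr rfl
        intro i _
        rw [smul_smul]
      rw [h8, map_sum]
      ext x y
      rw [Matrix.sum_apply]
      simp only [RingHom.mapMatrix_apply, Matrix.map_apply, hW, Matrix.of_apply, map_sum, map_mul]
      apply Finset.sum_congr rfl
      intro i _
      rw [map_smul, Matrix.smul_apply, hq', smul_eq_mul]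
      ring
    have hdet : W.det = ((DR * dR)) ^ Module.finrank K L *
            nmA (R := MvPolynomial (Fin (w + 1)) ℂ) K L f := by
      rw [← nmA_smul]
      apply IsFractionRing.injective (MvPolynomial (Fin (w + 1)) ℂ) K
      rw [RingHom.map_det, hWK, nmA_spec, Algebra.norm_eq_matrix_det bL]
    have hdetJ : slice a W.det ∈ idealOfVars (Fin w) ℂ ^ ((l + 1) * Module.finrank K L) := by
      rw [AlgHom.map_det, pow_mul]
      apply det_mem_pow
      intro x y
      rw [AlgHom.mapMatrix_apply, Matrix.map_apply, hW, Matrix.of_apply, map_sum]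
      refine Ideal.sum_mem _ fun i _ => ?_
      rw [map_mul]
      exact Ideal.mul_mem_right _ _ (hord i)
    rw [hdet, map_mul] at hdetJ
    have h9 : coeff 0 (slice a (((DR * dR)) ^ Module.finrank K L)) ≠ 0 := by
      rw [coeff_slice, map_pow]
      exact pow_ne_zero _ hDd
    have h10 := cancel_order h9 hdetJ
    have hs : 0 < Module.finrank K L := Module.finrank_pos
    have hfV : f ∈ V := (∑ k, c k • bV k : V).2
    have h11 := eq_zero_of_order ha0 (hV f hfV) (by nlinarith) h10
    have hf0 : f = 0 := by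
      by_contra hne0
      exact nmA_ne_zero (R := MvPolynomial (Fin (w + 1)) ℂ) K L hne0 h11
    have h12 : (∑ k, c k • bV k : V) = 0 := Subtype.ext hf0
    funext k
    exact Fintype.linearIndependent_iff.1 bV.linearIndependent c h12 k
  have h13 := LinearMap.finrank_le_finrank_of_injective hinj
  rw [Module.finrank_fintype_fun_eq_card, Module.finrank_fintype_fun_eq_card, Fintype.card_fin,
    Fintype.card_prod, Fintype.card_fin, Fintype.card_coe, hT, card_exps] at h13
  exact h13

end

/-! ## The lower bound -/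

section

variable {N : ℕ} {P : Ideal (S N)} {m : ℕ} {y : Fin m → Fin (N + 1) → ℚ}

theorem lower_rank (hm : 1 ≤ m) {l j ρ : ℕ} (F : Fin ρ → S N) (hF : ∀ i, F i ∈ Sd N l)
    (hind : LinearIndependent (MvPolynomial (Fin m) ℂ) fun i => CR.mk P y (F i)) :
    ρ * (j + m - 1).choose (m - 1) ≤ hf P (l + j) := by
  have hfin : Module.Finite ℂ (homogeneousSubmodule (Fin m) ℂ j) :=
    Module.Finite.iff_fg.mpr (homogeneousSubmodule_fg (Fin m) ℂ _)
  have hmem : ∀ r : Fin ρ → homogeneousSubmodule (Fin m) ℂ j,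
      (∑ i, ((r i : MvPolynomial (Fin m) ℂ) • CR.mk P y (F i)) : CR P y) ∈
        (Sd N (l + j)).map (Ideal.Quotient.mkₐ ℂ P).toLinearMap := by
    intro r
    refine Submodule.sum_mem _ ?_
    intro i _
    have h2 := IsHomogeneous.aeval (r i).2 (fun i => lin (y i)) (fun i => lin_mem (y i))
    have h4 := IsHomogeneous.mul h2 (hF i)
    rw [one_mul, add_comm j l] at h4
    have h5 : (r i : MvPolynomial (Fin m) ℂ) • CR.mk P y (F i) =
        CR.mk P y (aeval (fun i => lin (y i)) (r i : MvPolynomial (Fin m) ℂ) * F i) := by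
      rw [Algebra.smul_def, algMap_mk, ← map_mul]
    have h6 := Submodule.mem_map_of_mem (f := (Ideal.Quotient.mkₐ ℂ P).toLinearMap)
      (p := Sd N (l + j)) h4
    have h7 : (Ideal.Quotient.mkₐ ℂ P).toLinearMap
        (aeval (fun i => lin (y i)) (r i : MvPolynomial (Fin m) ℂ) * F i) =
        (r i : MvPolynomial (Fin m) ℂ) • CR.mk P y (F i) := h5.symm
    rw [h7] at h6
    exact h6
  let Φ : (Fin ρ → homogeneousSubmodule (Fin m) ℂ j) →ₗ[ℂ]
      ((Sd N (l + j)).map (Ideal.Quotient.mkₐ ℂ P).toLinearMap) :=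
    { toFun := fun r => ⟨_, hmem r⟩
      map_add' := by
        intro r r'
        apply Subtype.ext
        show (∑ i, (((r + r') i : homogeneousSubmodule (Fin m) ℂ j) : MvPolynomial (Fin m) ℂ) •
            CR.mk P y (F i)) =
          (∑ i, (r i : MvPolynomial (Fin m) ℂ) • CR.mk P y (F i)) +
          (∑ i, (r' i : MvPolynomial (Fin m) ℂ) • CR.mk P y (F i))
        rw [← Finset.sum_add_distrib]
        apply Finset.sum_congr rfl
        intro i _
        rw [← add_smul]
        rfl
      map_smul' := by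
        intro t r
        apply Subtype.ext
        show (∑ i, (((t • r) i : homogeneousSubmodule (Fin m) ℂ j) : MvPolynomial (Fin m) ℂ) •
            CR.mk P y (F i)) =
          t • (∑ i, (r i : MvPolynomial (Fin m) ℂ) • CR.mk P y (F i))
        rw [Finset.smul_sum]
        apply Finset.sum_congr rfl
        intro i _
        rw [← smul_assoc]
        rfl }
  have hinj : Function.Injective Φ := by
    rw [injective_iff_map_eq_zero]
    intro r hr
    have h1 : (∑ i, (r i : MvPolynomial (Fin m) ℂ) • CR.mk P y (F i)) = 0 :=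
      congrArg Subtype.val hr
    have h3 := Fintype.linearIndependent_iff.1 hind _ h1
    funext i
    exact Subtype.ext (h3 i)
  have h1 := LinearMap.finrank_le_finrank_of_injective hinj
  rw [Module.finrank_pi_fintype] at h1
  refine le_trans (le_of_eq ?_) h1
  rw [Finset.sum_const, Finset.card_univ, Fintype.card_fin, smul_eq_mul, finrank_forms hm j]

variable [IsDomain (CR P y)] [Module.Finite (MvPolynomial (Fin m) ℂ) (CR P y)]
  [FaithfulSMul (MvPolynomial (Fin m) ℂ) (CR P y)]
variable (K L : Type) [Field K] [Field L] [Algebra (MvPolynomial (Fin m) ℂ) K]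
  [IsFractionRing (MvPolynomial (Fin m) ℂ) K] [Algebra (CR P y) L] [IsFractionRing (CR P y) L]
  [Algebra (MvPolynomial (Fin m) ℂ) L] [Algebra K L]
  [IsScalarTower (MvPolynomial (Fin m) ℂ) K L] [IsScalarTower (MvPolynomial (Fin m) ℂ) (CR P y) L]

theorem nmA_hom (hP : HP P) {f : S N} {l : ℕ} (hf : f ∈ Sd N l) :
    nmA (R := MvPolynomial (Fin m) ℂ) K L (CR.mk P y f) ∈
      homogeneousSubmodule (Fin m) ℂ (Module.finrank K L * l) := by
  obtain ⟨σ, hσ⟩ := exists_scalA (y := y) hP
  apply hom_of_scal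
  have h1 := nmA_equiv (R := MvPolynomial (Fin m) ℂ) K L (scalE (Fin m)) σ (scalA_algMap hσ)
    (CR.mk P y f)
  rw [hσ, mk_hom_scal hf, nmA_smul] at h1
  rw [mul_comm (Module.finrank K L) l, pow_mul, C_pow]
  exact h1.symm

end

attribute [local instance] FractionRing.liftAlgebra in
/-- Growth of the Hilbert function of a homogeneous prime, compared to the polynomial ring. -/
theorem hf_ratio {N : ℕ} {Q : Ideal (S N)} (hQ : HP Q) {μ : ℕ} (hμ : 1 ≤ μ) (hm : md Q = μ)
    (l j : ℕ) : hf Q l * (j + μ - 1).choose (μ - 1) ≤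
      hf Q (l + j) * (l + μ - 1).choose (μ - 1) := by
  obtain ⟨w, rfl⟩ : ∃ w, μ = w + 1 := ⟨μ - 1, by omega⟩
  obtain ⟨y', hy'⟩ := exists_flag (ι := Unit) (fun _ => Q) (fun _ => md Q) (fun _ => hQ.hom)
    (fun _ q hq hle => md_le hQ hq hle)
  obtain ⟨y, hy⟩ : ∃ y : Fin (w + 1) → Fin (N + 1) → ℚ, IsNN Q y := by
    have h := isNN_of_pnn hQ rfl _ (hy' () (md Q))
    rw [hm] at h
    exact ⟨_, h⟩
  have i1 : IsDomain (CR Q y) := isDomain_CR hQ
  have i2 : Module.Finite (MvPolynomial (Fin (w + 1)) ℂ) (CR Q y) := finite_CR hy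
  have i3 : FaithfulSMul (MvPolynomial (Fin (w + 1)) ℂ) (CR Q y) := faithful_CR hy
  let K := FractionRing (MvPolynomial (Fin (w + 1)) ℂ)
  let L := FractionRing (CR Q y)
  have hfd : FiniteDimensional K L :=
    finDim_frac (R := MvPolynomial (Fin (w + 1)) ℂ) (A := CR Q y) K L
  let V : Submodule ℂ (CR Q y) := (Sd N l).map (CR.mk Q y).toLinearMap
  have hVfin : Module.Finite ℂ V := inferInstanceAs (Module.Finite ℂ ((Sd N l).map _))
  obtain ⟨ρ, v, hvV, hvspan, hvind⟩ : ∃ (ρ : ℕ) (v : Fin ρ → L),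
      (∀ i, v i ∈ algebraMap (CR Q y) L '' (V : Set (CR Q y))) ∧
      Submodule.span K (Set.range v) =
        Submodule.span K (algebraMap (CR Q y) L '' (V : Set (CR Q y))) ∧
      LinearIndependent K v :=
    ⟨_, Submodule.exists_fun_fin_finrank_span_eq K
      (algebraMap (CR Q y) L '' (V : Set (CR Q y)))⟩
  have h1 : ∀ i, ∃ F ∈ Sd N l, algebraMap (CR Q y) L (CR.mk Q y F) = v i := by
    intro i
    obtain ⟨a, ha, hai⟩ := hvV i
    obtain ⟨F, hF, rfl⟩ := ha
    exact ⟨F, hF, hai⟩
  choose F hF hFv using h1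
  have hind : LinearIndependent (MvPolynomial (Fin (w + 1)) ℂ) fun i => CR.mk Q y (F i) := by
    have h2 : LinearIndependent (MvPolynomial (Fin (w + 1)) ℂ) v := by
      apply hvind.restrict_scalars
      intro a b hab
      simp only [Algebra.smul_def, mul_one] at hab
      exact IsFractionRing.injective (MvPolynomial (Fin (w + 1)) ℂ) K hab
    apply LinearIndependent.of_comp
      (IsScalarTower.toAlgHom (MvPolynomial (Fin (w + 1)) ℂ) (CR Q y) L).toLinearMap
    have h6 : (IsScalarTower.toAlgHom (MvPolynomial (Fin (w + 1)) ℂ) (CR Q y) L).toLinearMap ∘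
        (fun i => CR.mk Q y (F i)) = v := funext fun i => hFv i
    rw [h6]
    exact h2
  have h3 := lower_rank (P := Q) (y := y) hμ (j := j) F hF hind
  have h4 : Module.finrank ℂ V ≤ ρ * (l + w).choose w := by
    apply upper_rank K L V _ v
    · intro f hf
      rw [hvspan]
      exact Submodule.subset_span ⟨f, hf, rfl⟩
    · rintro f ⟨g, hg, rfl⟩
      exact nmA_hom K L hQ hg
  have h5 : hf Q l ≤ ρ * (l + (w + 1) - 1).choose (w + 1 - 1) := h4
  calc hf Q l * (j + (w + 1) - 1).choose (w + 1 - 1)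
      ≤ (ρ * (l + (w + 1) - 1).choose (w + 1 - 1)) * (j + (w + 1) - 1).choose (w + 1 - 1) :=
        Nat.mul_le_mul_right _ h5
    _ = (ρ * (j + (w + 1) - 1).choose (w + 1 - 1)) * (l + (w + 1) - 1).choose (w + 1 - 1) := by
        ring
    _ ≤ _ := Nat.mul_le_mul_right _ h3

theorem le_of_pow_le {a b k n : ℕ} (h : ∀ j : ℕ, a * (j + 1) ^ n ≤ b * (j + k + 1) ^ n) :
    a ≤ b := by
  have h2 : Filter.Tendsto (fun _ : ℕ => (a : ℝ)) Filter.atTop (nhds (a : ℝ)) :=
    tendsto_const_nhds
  have h3 : Filter.Tendsto (fun j : ℕ => (b : ℝ) * ((1 + (k : ℝ) * (1 / ((j : ℝ) + 1))) ^ n))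
      Filter.atTop (nhds ((b : ℝ) * ((1 + (k : ℝ) * 0) ^ n))) := by
    apply Filter.Tendsto.const_mul
    apply Filter.Tendsto.pow
    apply Filter.Tendsto.const_add
    apply Filter.Tendsto.const_mul
    exact tendsto_one_div_add_atTop_nhds_zero_nat
  have h4 : (a : ℝ) ≤ (b : ℝ) * ((1 + (k : ℝ) * 0) ^ n) := by
    apply le_of_tendsto_of_tendsto' h2 h3
    intro j
    have h5 : (a : ℝ) * ((j : ℝ) + 1) ^ n ≤ (b : ℝ) * ((j : ℝ) + k + 1) ^ n := by
      exact_mod_cast h j
    have h6 : (0 : ℝ) < (j : ℝ) + 1 := by positivity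
    have h7 : (1 + (k : ℝ) * (1 / ((j : ℝ) + 1))) = ((j : ℝ) + k + 1) / ((j : ℝ) + 1) := by
      field_simp
      ring
    rw [h7, div_pow, ← mul_div_assoc, le_div_iff₀ (by positivity)]
    exact h5
  simp only [mul_zero, add_zero, one_pow, mul_one] at h4
  exact_mod_cast h4

/-- The Hilbert function is bounded by the degree times that of a linear space. -/
theorem hf_le_deg {N : ℕ} {Q : Ideal (S N)} (hQ : HP Q) {μ e : ℕ} (hμ : 1 ≤ μ) (hm : md Q = μ)
    (he : Bd Q μ e) (l : ℕ) : hf Q l ≤ e * (l + μ - 1).choose (μ - 1) := by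
  obtain ⟨n, rfl⟩ : ∃ n, μ = n + 1 := ⟨μ - 1, by omega⟩
  simp only [Nat.add_sub_cancel, ← Nat.add_assoc] at *
  apply le_of_pow_le (k := l + e) (n := n)
  intro j
  have h1 := hf_ratio hQ hμ hm l j
  simp only [Nat.add_sub_cancel, ← Nat.add_assoc] at h1
  have h2 := (he (l + j)).2
  simp only [Nat.add_sub_cancel, ← Nat.add_assoc] at h2
  have h3 : ∑ i ∈ Finset.range e, (l + j + i + n).choose n ≤ e * (j + (l + e) + n).choose n := by
    calc _ ≤ ∑ _i ∈ Finset.range e, (j + (l + e) + n).choose n := by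
          apply Finset.sum_le_sum
          intro i hi
          rw [Finset.mem_range] at hi
          exact Nat.choose_le_choose n (by omega)
      _ = _ := by simp
  have h4 := choose_ratio j (l + e) n
  have hpos : 0 < (j + n).choose n := Nat.choose_pos (by omega)
  have h5 := le_trans h2 h3
  apply Nat.le_of_mul_le_mul_left _ hpos
  calc (j + n).choose n * (hf Q l * (j + 1) ^ n)
      = (hf Q l * (j + n).choose n) * (j + 1) ^ n := by ring
    _ ≤ (hf Q (l + j) * (l + n).choose n) * (j + 1) ^ n := Nat.mul_le_mul_right _ h1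
    _ ≤ ((e * (j + (l + e) + n).choose n) * (l + n).choose n) * (j + 1) ^ n :=
        Nat.mul_le_mul_right _ (Nat.mul_le_mul_right _ h5)
    _ = e * (l + n).choose n * ((j + (l + e) + n).choose n * (j + 1) ^ n) := by ring
    _ ≤ e * (l + n).choose n * ((j + n).choose n * (j + (l + e) + 1) ^ n) :=
        Nat.mul_le_mul_left _ h4
    _ = (j + n).choose n * (e * (l + n).choose n * (j + (l + e) + 1) ^ n) := by ring

end SepCI
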