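import Pool.Agent.SepCI.Coords

set_option autoImplicit false

/-! # Specialisation of ideals along a place -/

namespace SepCI

open MvPolynomial Finset

attribute [local instance] MvPolynomial.gradedAlgebra

theorem sp_mul_le {N : ℕ} {K : IntermediateField ℚ ℂ} (p : Plc K) {I J I' : Ideal (S N)}
    (h : I * J ≤ I') : sp p I * sp p J ≤ sp p I' := by
  unfold sp
  rw [← Ideal.map_mul]
  apply Ideal.map_mono
  rw [Ideal.mul_le]
  intro r hr s hs
  rw [Ideal.mem_comap] at hr hs ⊢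
  rw [map_mul]
  exact h (Ideal.mul_mem_mul hr hs)

/-- an element of maximal value -/
theorem exists_max_value (V : ValuationSubring ℂ) {ι : Type} [Fintype ι] (c : ι → ℂ)
    (hc : ∃ i, c i ≠ 0) :
    ∃ i0, c i0 ≠ 0 ∧ (∀ i, (c i0)⁻¹ * c i ∈ V) ∧ ((∃ i, c i ∉ V) → c i0 ∉ V) := by
  obtain ⟨j, hj⟩ := hc
  obtain ⟨i0, -, hi0⟩ := Finset.exists_max_image Finset.univ (fun i => V.valuation (c i))
    ⟨j, Finset.mem_univ j⟩
  have h0 : c i0 ≠ 0 := by
    intro h
    have h1 := hi0 j (Finset.mem_univ j)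
    simp only [h, map_zero, nonpos_iff_eq_zero] at h1
    exact hj ((Valuation.zero_iff _).1 h1)
  refine ⟨i0, h0, ?_, ?_⟩
  · intro i
    rw [← V.valuation_le_one_iff, map_mul, map_inv₀]
    have h1 : V.valuation (c i0) ≠ 0 := (Valuation.ne_zero_iff _).2 h0
    rw [inv_mul_le_one₀ (zero_lt_iff.2 h1)]
    exact hi0 i (Finset.mem_univ i)
  · rintro ⟨i, hi⟩ h
    apply hi
    rw [← V.valuation_le_one_iff] at h ⊢
    exact (hi0 i (Finset.mem_univ i)).trans h

theorem map_sum_monomial {N : ℕ} {K : IntermediateField ℚ ℂ} (p : Plc K) {ι : Type} [Fintype ι]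
    (c : ι → ℂ) (h : ∀ i, c i ∈ p.O) (x : ι → (Fin (N + 1) →₀ ℕ)) :
    MvPolynomial.map (σ := Fin (N + 1)) p.O.subtype
        (∑ i, monomial (x i) (⟨c i, h i⟩ : p.O)) = ∑ i, c i • (monomial (x i) (1 : ℂ) : S N) ∧
      MvPolynomial.map (σ := Fin (N + 1)) p.φ
        (∑ i, monomial (x i) (⟨c i, h i⟩ : p.O)) =
          ∑ i, p.φ ⟨c i, h i⟩ • (monomial (x i) (1 : ℂ) : S N) := by
  constructor
  · rw [map_sum]
    apply Finset.sum_congr rfl
    intro i _
    rw [map_monomial, smul_monomial, smul_eq_mul, mul_one]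
    rfl
  · rw [map_sum]
    apply Finset.sum_congr rfl
    intro i _
    rw [map_monomial, smul_monomial, smul_eq_mul, mul_one]

theorem hf_sp_le {N : ℕ} {K : IntermediateField ℚ ℂ} (p : Plc K) (J : Ideal (S N)) (l : ℕ) :
    hf (sp p J) l ≤ hf J l := by
  obtain ⟨x, hx⟩ := exists_mon_basis (sp p J) l
  have hli : LinearIndependent ℂ
      (fun i => Ideal.Quotient.mkₐ ℂ J (monomial (x i).1 (1 : ℂ))) := by
    rw [Fintype.linearIndependent_iff]
    intro c hc
    by_contra hcon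
    push Not at hcon
    obtain ⟨i0, hi0, hmem, -⟩ := exists_max_value p.O c hcon
    have h1 : ∑ i, c i • (monomial (x i).1 (1 : ℂ) : S N) ∈ J := by
      rw [← Ideal.Quotient.eq_zero_iff_mem]
      have h2 : Ideal.Quotient.mkₐ ℂ J (∑ i, c i • (monomial (x i).1 (1 : ℂ) : S N)) = 0 := by
        rw [map_sum, ← hc]
        apply Finset.sum_congr rfl
        intro i _
        rw [map_smul]
      exact h2
    have h3 : ∑ i, ((c i0)⁻¹ * c i) • (monomial (x i).1 (1 : ℂ) : S N) ∈ J := by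
      have h4 : ∑ i, ((c i0)⁻¹ * c i) • (monomial (x i).1 (1 : ℂ) : S N) =
          C (c i0)⁻¹ * ∑ i, c i • (monomial (x i).1 (1 : ℂ) : S N) := by
        rw [Finset.mul_sum]
        apply Finset.sum_congr rfl
        intro i _
        rw [mul_smul, C_mul']
      rw [h4]
      exact J.mul_mem_left _ h1
    obtain ⟨h5, h6⟩ := map_sum_monomial (N := N) p (fun i => (c i0)⁻¹ * c i) hmem
      (fun i => (x i).1)
    have h7 : ∑ i, p.φ ⟨(c i0)⁻¹ * c i, hmem i⟩ • (monomial (x i).1 (1 : ℂ) : S N) ∈ sp p J := by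
      rw [← h6]
      apply Ideal.mem_map_of_mem
      rw [Ideal.mem_comap, h5]
      exact h3
    have h8 : ∑ i, p.φ ⟨(c i0)⁻¹ * c i, hmem i⟩ •
        Ideal.Quotient.mkₐ ℂ (sp p J) (monomial (x i).1 (1 : ℂ)) = 0 := by
      have h9 : Ideal.Quotient.mkₐ ℂ (sp p J)
          (∑ i, p.φ ⟨(c i0)⁻¹ * c i, hmem i⟩ • (monomial (x i).1 (1 : ℂ) : S N)) = 0 :=
        Ideal.Quotient.eq_zero_iff_mem.2 h7
      rw [map_sum] at h9
      rw [← h9]
      apply Finset.sum_congr rfl
      intro i _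
      rw [map_smul]
    have h10 := Fintype.linearIndependent_iff.1 hx _ h8 i0
    have h11 : (⟨(c i0)⁻¹ * c i0, hmem i0⟩ : p.O) = 1 := Subtype.ext (inv_mul_cancel₀ hi0)
    rw [h11, map_one] at h10
    exact one_ne_zero h10
  have h1 : ∀ i, Ideal.Quotient.mkₐ ℂ J (monomial (x i).1 (1 : ℂ)) ∈
      (Sd N l).map (Ideal.Quotient.mkₐ ℂ J).toLinearMap := fun i =>
    ⟨monomial (x i).1 (1 : ℂ), (mem_homogeneousSubmodule _ _).2
      (isHomogeneous_monomial _ (x i).2), rfl⟩
  let w : Fin (hf (sp p J) l) → (Sd N l).map (Ideal.Quotient.mkₐ ℂ J).toLinearMap :=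
    fun i => ⟨_, h1 i⟩
  have hw : LinearIndependent ℂ w := by
    apply LinearIndependent.of_comp (Submodule.subtype _)
    exact hli
  have h2 := hw.fintype_card_le_finrank
  rw [Fintype.card_fin] at h2
  exact h2

/-- reduction of elements of an ideal defined over the constant field -/
theorem red_mem {N : ℕ} {K : IntermediateField ℚ ℂ} (p : Plc K) {Q : Ideal (S N)}
    (hdef : DefOver K Q) (h : MvPolynomial (Fin (N + 1)) p.O)
    (hQ : MvPolynomial.map p.O.subtype h ∈ Q) : MvPolynomial.map p.φ h ∈ Q := by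
  let P0 := Q.comap (bc N K)
  have hP0 : P0.map (bc N K) = Q := by
    apply le_antisymm Ideal.map_comap_le
    refine hdef.trans ?_
    rw [Ideal.span_le]
    rintro g ⟨hg, hgK⟩
    obtain ⟨r, rfl⟩ := exists_bc hgK
    exact Ideal.mem_map_of_mem _ hg
  rw [← hP0, mem_map_bc_iff] at hQ ⊢
  intro lam
  let W : Submodule K ℂ :=
    { carrier := p.O
      add_mem' := fun {a b} ha hb => p.O.add_mem a b ha hb
      zero_mem' := p.O.zero_mem
      smul_mem' := fun c x hx => by
        rw [Algebra.smul_def]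
        exact p.O.mul_mem _ _ (p.hK c c.2) hx }
  let g : W →ₗ[K] K :=
    { toFun := fun z => lam (p.φ ⟨z.1, z.2⟩)
      map_add' := fun a b => by
        rw [← map_add, ← map_add]
        rfl
      map_smul' := fun c a => by
        have h1 : (⟨(c • a : W).1, (c • a : W).2⟩ : p.O) = ⟨c, p.hK c c.2⟩ * ⟨a.1, a.2⟩ := rfl
        rw [h1, map_mul, p.hφ c c.2]
        have h2 : (c : ℂ) * p.φ ⟨a.1, a.2⟩ = c • p.φ ⟨a.1, a.2⟩ := by
          rw [Algebra.smul_def]
          rfl
        rw [h2, map_smul]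
        rfl }
  obtain ⟨Lam, hLam⟩ := LinearMap.exists_extend g
  have hL : ∀ z : p.O, Lam (z : ℂ) = lam (p.φ z) := by
    intro z
    have h1 := congrArg (fun f => f (⟨z.1, z.2⟩ : W)) hLam
    exact h1
  have h3 : fmap lam (MvPolynomial.map p.φ h) = fmap Lam (MvPolynomial.map p.O.subtype h) := by
    ext m
    rw [coeff_fmap, coeff_fmap, coeff_map, coeff_map]
    rw [← hL]
    rfl
  rw [h3]
  exact hQ Lam

/-- expansion modulo a prime in monomials independent modulo it -/
theorem exists_mon_expansion {N : ℕ} (Q : Ideal (S N)) (A : S N) :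
    ∃ (n : ℕ) (x : Fin n → (Fin (N + 1) →₀ ℕ)) (α : Fin n → ℂ),
      LinearIndependent ℂ (fun i => Ideal.Quotient.mkₐ ℂ Q (monomial (x i) (1 : ℂ))) ∧
      A - ∑ i, α i • (monomial (x i) (1 : ℂ) : S N) ∈ Q := by
  let s : Set (S N ⧸ Q) := (fun m => Ideal.Quotient.mkₐ ℂ Q (monomial m (1 : ℂ))) '' A.support
  have hfin : s.Finite := A.support.finite_toSet.image _
  have hfd : Module.Finite ℂ (Submodule.span ℂ s) := Module.Finite.span_of_finite ℂ hfin
  obtain ⟨v, hv, hspan, hvi⟩ := Submodule.exists_fun_fin_finrank_span_eq ℂ s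
  choose x hxA hx using hv
  have hA : Ideal.Quotient.mkₐ ℂ Q A ∈ Submodule.span ℂ s := by
    have h1 : A = ∑ m ∈ A.support, coeff m A • (monomial m (1 : ℂ) : S N) := by
      conv_lhs => rw [← A.support_sum_monomial_coeff]
      apply Finset.sum_congr rfl
      intro m _
      rw [smul_monomial, smul_eq_mul, mul_one]
    rw [h1, map_sum]
    apply Submodule.sum_mem
    intro m hm
    rw [map_smul]
    exact Submodule.smul_mem _ _ (Submodule.subset_span ⟨m, hm, rfl⟩)
  rw [← hspan, Submodule.mem_span_range_iff_exists_fun] at hA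
  obtain ⟨α, hα⟩ := hA
  refine ⟨_, x, α, ?_, ?_⟩
  · have h1 : (fun i => Ideal.Quotient.mkₐ ℂ Q (monomial (x i) (1 : ℂ))) = v := by
      funext i
      exact hx i
    rw [h1]
    exact hvi
  · rw [← Ideal.Quotient.eq_zero_iff_mem]
    have h2 : Ideal.Quotient.mkₐ ℂ Q (A - ∑ i, α i • (monomial (x i) (1 : ℂ) : S N)) = 0 := by
      rw [map_sub, map_sum, ← hα, sub_eq_zero]
      apply Finset.sum_congr rfl
      intro i _
      rw [map_smul]
      congr 1
      exact (hx i).symm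
    exact h2

theorem sp_gen_le {N : ℕ} {K : IntermediateField ℚ ℂ} (p : Plc K) {Q : Ideal (S N)} (hQ : HP Q)
    (hdef : DefOver K Q) (F1 : MvPolynomial (Fin (N + 1)) p.O)
    (hG : MvPolynomial.map p.φ F1 ∉ Q) :
    sp p (Q ⊔ Ideal.span {MvPolynomial.map p.O.subtype F1}) ≤
      Q ⊔ Ideal.span {MvPolynomial.map p.φ F1} := by
  unfold sp
  rw [Ideal.map_le_iff_le_comap]
  intro f hf
  rw [Ideal.mem_comap] at hf ⊢
  obtain ⟨q, hq, r, hr, hqr⟩ := Submodule.mem_sup.1 hf
  obtain ⟨A, hA⟩ := Ideal.mem_span_singleton.1 hr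
  obtain ⟨n, x, α, hli, hα⟩ := exists_mon_expansion Q A
  set F1' := MvPolynomial.map p.O.subtype F1 with hF1'
  have hq' : MvPolynomial.map p.O.subtype f -
      (∑ i, α i • (monomial (x i) (1 : ℂ) : S N)) * F1' ∈ Q := by
    have h1 : MvPolynomial.map p.O.subtype f -
        (∑ i, α i • (monomial (x i) (1 : ℂ) : S N)) * F1' =
        q + (A - ∑ i, α i • (monomial (x i) (1 : ℂ) : S N)) * F1' := by
      rw [← hqr, hA]
      ring
    rw [h1]
    exact Q.add_mem hq (Q.mul_mem_right _ hα)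
  by_cases hall : ∀ i, α i ∈ p.O
  · obtain ⟨h5, h6⟩ := map_sum_monomial (N := N) p α hall x
    set A0 : MvPolynomial (Fin (N + 1)) p.O := ∑ i, monomial (x i) (⟨α i, hall i⟩ : p.O) with hA0
    have h1 : MvPolynomial.map p.O.subtype (f - A0 * F1) ∈ Q := by
      rw [map_sub, map_mul, h5]
      exact hq'
    have h2 := red_mem p hdef _ h1
    rw [map_sub, map_mul] at h2
    have h3 : MvPolynomial.map p.φ f = (MvPolynomial.map p.φ f -
        MvPolynomial.map p.φ A0 * MvPolynomial.map p.φ F1) +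
        MvPolynomial.map p.φ A0 * MvPolynomial.map p.φ F1 := by ring
    rw [h3]
    apply Ideal.add_mem
    · exact Ideal.mem_sup_left h2
    · exact Ideal.mem_sup_right (Ideal.mul_mem_left _ _ (Ideal.mem_span_singleton_self _))
  · exfalso
    push Not at hall
    obtain ⟨i1, hi1⟩ := hall
    have hne : ∃ i, α i ≠ 0 := by
      refine ⟨i1, ?_⟩
      intro h
      apply hi1
      rw [h]
      exact p.O.zero_mem
    obtain ⟨i0, hi0, hmem, hnot⟩ := exists_max_value p.O α hne
    have hi0O : α i0 ∉ p.O := hnot ⟨i1, hi1⟩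
    have hinv : (α i0)⁻¹ ∈ p.O := (p.O.mem_or_inv_mem (α i0)).resolve_left hi0O
    have hφ0 : p.φ ⟨(α i0)⁻¹, hinv⟩ = 0 := p.hneg _ hi0O hinv
    obtain ⟨h5, h6⟩ := map_sum_monomial (N := N) p (fun i => (α i0)⁻¹ * α i) hmem x
    set B0 : MvPolynomial (Fin (N + 1)) p.O :=
      ∑ i, monomial (x i) (⟨(α i0)⁻¹ * α i, hmem i⟩ : p.O) with hB0
    have h1 : MvPolynomial.map p.O.subtype (C ⟨(α i0)⁻¹, hinv⟩ * f - B0 * F1) ∈ Q := by
      rw [map_sub, map_mul, map_mul, h5, map_C]
      have h2 : C (p.O.subtype ⟨(α i0)⁻¹, hinv⟩) * MvPolynomial.map p.O.subtype f -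
          (∑ i, ((α i0)⁻¹ * α i) • (monomial (x i) (1 : ℂ) : S N)) *
            MvPolynomial.map p.O.subtype F1 =
          C (α i0)⁻¹ * (MvPolynomial.map p.O.subtype f -
            (∑ i, α i • (monomial (x i) (1 : ℂ) : S N)) * F1') := by
        rw [mul_sub, ← mul_assoc, Finset.mul_sum]
        congr 1
        congr 1
        apply Finset.sum_congr rfl
        intro i _
        rw [mul_smul, C_mul']
      rw [h2]
      exact Q.mul_mem_left _ hq'
    have h2 := red_mem p hdef _ h1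
    rw [map_sub, map_mul, map_mul, map_C, hφ0, C_0, zero_mul, zero_sub, neg_mem_iff] at h2
    rcases hQ.prime.mem_or_mem h2 with h3 | h3
    · rw [h6] at h3
      have h8 : ∑ i, p.φ ⟨(α i0)⁻¹ * α i, hmem i⟩ •
          Ideal.Quotient.mkₐ ℂ Q (monomial (x i) (1 : ℂ)) = 0 := by
        have h9 : Ideal.Quotient.mkₐ ℂ Q
            (∑ i, p.φ ⟨(α i0)⁻¹ * α i, hmem i⟩ • (monomial (x i) (1 : ℂ) : S N)) = 0 :=
          Ideal.Quotient.eq_zero_iff_mem.2 h3
        rw [map_sum] at h9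
        rw [← h9]
        apply Finset.sum_congr rfl
        intro i _
        rw [map_smul]
      have h10 := Fintype.linearIndependent_iff.1 hli _ h8 i0
      have h11 : (⟨(α i0)⁻¹ * α i0, hmem i0⟩ : p.O) = 1 := Subtype.ext (inv_mul_cancel₀ hi0)
      rw [h11, map_one] at h10
      exact one_ne_zero h10
    · exact hG h3

end SepCI
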