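import Pool.Agent.SepCI.Defs2
import Pool.Agent.SepCI.Pack
import Pool.Agent.SepCI.Height2
import Pool.Agent.SepCI.Coords
import Pool.Agent.SepCI.Place
import Pool.Agent.SepCI.Growth3
import Pool.Agent.SepCI.Growth3b
import Pool.Agent.SepCI.Irr
import Pool.Agent.SepCI.Ratio
import Pool.Agent.SepCI.Special
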