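import Pool.Agent.SepCI.Base
import Pool.Agent.SepCI.Base2

set_option autoImplicit false

namespace SepCI

open MvPolynomial Finset

attribute [local instance] MvPolynomial.gradedAlgebra

theorem choose_mul_succ (a w : ℕ) :
    (a + (w + 1)).choose (w + 1) * (w + 1) = (a + w).choose w * (a + w + 1) := by
  have := Nat.add_one_mul_choose_eq (a + w) w
  rw [show a + (w + 1) = a + w + 1 by omega, ← this]
  ring

theorem choose_growth {j l' : ℕ} (hl' : 1 ≤ l') (hj : l' ≤ j) (K : ℕ) :
    ∀ w : ℕ, 2 * (w + 1) ≤ K → ∀ ν ≤ w,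
      (l' + j) ^ ν * (l' + w).choose w ≤ K ^ ν * l' ^ ν * (j + w).choose w := by
  intro w
  induction w with
  | zero =>
    intro _ ν hν
    obtain rfl : ν = 0 := by omega
    simp
  | succ w ih =>
    intro hK ν hν
    have hK' : 2 * (w + 1) ≤ K := by omega
    have e1 := choose_mul_succ l' w
    have e2 := choose_mul_succ j w
    apply Nat.le_of_mul_le_mul_right (c := w + 1) _ (by omega)
    rcases Nat.lt_or_ge ν (w + 1) with h | h
    · calc (l' + j) ^ ν * (l' + (w + 1)).choose (w + 1) * (w + 1)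
          = ((l' + j) ^ ν * (l' + w).choose w) * (l' + w + 1) := by
            rw [mul_assoc, e1]; ring
        _ ≤ (K ^ ν * l' ^ ν * (j + w).choose w) * (j + w + 1) :=
            Nat.mul_le_mul (ih hK' ν (by omega)) (by omega)
        _ = K ^ ν * l' ^ ν * (j + (w + 1)).choose (w + 1) * (w + 1) := by
            rw [mul_assoc (K ^ ν * l' ^ ν), mul_assoc (K ^ ν * l' ^ ν), e2]
    · obtain rfl : ν = w + 1 := by omega
      have h1 : (l' + j) * (l' + w + 1) ≤ K * l' * (j + w + 1) := by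
        calc (l' + j) * (l' + w + 1) ≤ (2 * j) * (l' * (w + 2)) := by
              apply Nat.mul_le_mul (by omega)
              nlinarith
          _ = 2 * (w + 2) * l' * j := by ring
          _ ≤ K * l' * (j + w + 1) := by
              apply Nat.mul_le_mul
              · apply Nat.mul_le_mul_right
                omega
              · omega
      calc (l' + j) ^ (w + 1) * (l' + (w + 1)).choose (w + 1) * (w + 1)
          = ((l' + j) ^ w * (l' + w).choose w) * ((l' + j) * (l' + w + 1)) := by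
            rw [mul_assoc, e1]; ring
        _ ≤ (K ^ w * l' ^ w * (j + w).choose w) * (K * l' * (j + w + 1)) :=
            Nat.mul_le_mul (ih hK' w le_rfl) h1
        _ = K ^ (w + 1) * l' ^ (w + 1) * ((j + w).choose w * (j + w + 1)) := by ring
        _ = K ^ (w + 1) * l' ^ (w + 1) * (j + (w + 1)).choose (w + 1) * (w + 1) := by
            rw [← e2]; ring

theorem growth_rel (N : ℕ) : ∃ C₁ : ℕ, 1 ≤ C₁ ∧ ∀ (Q : Ideal (S N)) (l' l ν : ℕ), HP Q →
    1 ≤ l' → l' ≤ l → 1 ≤ ν → ν ≤ md Q →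
    l ^ (ν - 1) * hf Q l' ≤ C₁ * l' ^ (ν - 1) * hf Q l := by
  refine ⟨(2 * (N + 2)) ^ N, Nat.one_le_pow _ _ (by omega), ?_⟩
  intro Q l' l ν hQ hl' hl hν hνm
  have hmN := md_le_top hQ
  obtain ⟨j, rfl⟩ : ∃ j, l = l' + j := ⟨l - l', by omega⟩
  have hr := hf_ratio hQ (μ := md Q) (by omega) rfl l' j
  obtain ⟨w, hw⟩ : ∃ w, md Q = w + 1 := ⟨md Q - 1, by omega⟩
  rw [hw] at hr
  simp only [Nat.add_sub_cancel, show j + (w + 1) - 1 = j + w by omega,
    show l' + (w + 1) - 1 = l' + w by omega] at hr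
  obtain ⟨ν', rfl⟩ : ∃ ν', ν = ν' + 1 := ⟨ν - 1, by omega⟩
  simp only [Nat.add_sub_cancel]
  have hpow : (2 * (N + 2)) ^ ν' ≤ (2 * (N + 2)) ^ N :=
    Nat.pow_le_pow_right (by omega) (by omega)
  rcases Nat.lt_or_ge j l' with h | h
  · -- `l < 2 l'`
    have hmono : hf Q l' ≤ hf Q (l' + j) := hf_mono hQ (by omega) (by omega)
    calc (l' + j) ^ ν' * hf Q l' ≤ (2 * l') ^ ν' * hf Q (l' + j) :=
          Nat.mul_le_mul (Nat.pow_le_pow_left (by omega) _) hmono
      _ = 2 ^ ν' * l' ^ ν' * hf Q (l' + j) := by rw [mul_pow]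
      _ ≤ (2 * (N + 2)) ^ N * l' ^ ν' * hf Q (l' + j) := by
          apply Nat.mul_le_mul_right
          apply Nat.mul_le_mul_right
          exact (Nat.pow_le_pow_left (by omega) _).trans hpow
  · have hc := choose_growth hl' h (2 * (N + 2)) w (by omega) ν' (by omega)
    have hpos : 0 < (l' + w).choose w := Nat.choose_pos (by omega)
    apply Nat.le_of_mul_le_mul_right (c := (l' + w).choose w) _ hpos
    calc (l' + j) ^ ν' * hf Q l' * (l' + w).choose w
        = ((l' + j) ^ ν' * (l' + w).choose w) * hf Q l' := by ring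
      _ ≤ ((2 * (N + 2)) ^ ν' * l' ^ ν' * (j + w).choose w) * hf Q l' :=
          Nat.mul_le_mul_right _ hc
      _ = (2 * (N + 2)) ^ ν' * l' ^ ν' * (hf Q l' * (j + w).choose w) := by ring
      _ ≤ (2 * (N + 2)) ^ ν' * l' ^ ν' * (hf Q (l' + j) * (l' + w).choose w) :=
          Nat.mul_le_mul_left _ hr
      _ ≤ (2 * (N + 2)) ^ N * l' ^ ν' * (hf Q (l' + j) * (l' + w).choose w) := by
          apply Nat.mul_le_mul_right
          exact Nat.mul_le_mul_right _ hpow
      _ = (2 * (N + 2)) ^ N * l' ^ ν' * hf Q (l' + j) * (l' + w).choose w := by ring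

end SepCI
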