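import Pool.Agent.SepCI.Dich
import Pool.Agent.SepCI.GrowthRel

set_option autoImplicit false

namespace SepCI

open MvPolynomial Finset

attribute [local instance] MvPolynomial.gradedAlgebra

/-- the property proved in `growth_rel` -/
def GR (N C₁ : ℕ) : Prop := ∀ (Q : Ideal (S N)) (l' l ν : ℕ), HP Q →
    1 ≤ l' → l' ≤ l → 1 ≤ ν → ν ≤ md Q →
    l ^ (ν - 1) * hf Q l' ≤ C₁ * l' ^ (ν - 1) * hf Q l

theorem choose_le_pow (l w : ℕ) : (l + w).choose w ≤ (l + 1) ^ w := by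
  induction w with
  | zero => simp
  | succ w ih =>
    have h := choose_mul_succ l w
    apply Nat.le_of_mul_le_mul_right (c := w + 1) _ (by omega)
    rw [h]
    calc (l + w).choose w * (l + w + 1) ≤ (l + 1) ^ w * ((l + 1) * (w + 1)) := by
          apply Nat.mul_le_mul ih
          nlinarith
      _ = (l + 1) ^ (w + 1) * (w + 1) := by ring

theorem hf_double {N C₁ : ℕ} (hG : GR N C₁) {P : Ideal (S N)} (hP : HP P) (h2 : 2 ≤ md P)
    {l d : ℕ} (hl : 1 ≤ l) (hd : C₁ * (N + 2) * l ≤ d) (hC : 1 ≤ C₁) :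
    (N + 2) * hf P l ≤ hf P d := by
  have hld : l ≤ d := by
    refine le_trans ?_ hd
    exact Nat.le_mul_of_pos_left l (by positivity)
  have h := hG P l d 2 hP hl hld (by omega) h2
  simp only [show 2 - 1 = 1 from rfl, pow_one] at h
  have h1 : C₁ * l * ((N + 2) * hf P l) ≤ C₁ * l * hf P d := by
    calc C₁ * l * ((N + 2) * hf P l) = C₁ * (N + 2) * l * hf P l := by ring
      _ ≤ d * hf P l := Nat.mul_le_mul_right _ hd
      _ ≤ C₁ * l * hf P d := h
  exact Nat.le_of_mul_le_mul_left h1 (by positivity)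

theorem comp_agree {N C₁ : ℕ} (hG : GR N C₁) (hC : 1 ≤ C₁) {Q P : Ideal (S N)} (hQ : HP Q)
    (hP : HP P) {k k' : IntermediateField ℚ ℂ} {c d l : ℕ} (hk : Small k k' c)
    (hdef : DefOver k' Q) (h2 : 2 ≤ md P) (hmQ : md Q = md P + 1) (hQP : Q ≤ P)
    {F : S N} (hF : GenOver k d F) (hFP : F ∈ P) (hl : 1 ≤ l) (hd : C₁ * (N + 2) * l ≤ d)
    (hcl : c ≤ l) : Agree P Q l := by
  by_contra hcon
  unfold Agree at hcon
  push Not at hcon
  obtain ⟨f, hfl, hfP, hfQ⟩ := hcon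
  set J : Ideal (S N) := Q ⊔ Ideal.span {f | f ∈ P ∧ f ∈ Sd N l} with hJ
  have hJh : Hom J := hQ.hom.sup (hom_span_level P l)
  have hJP : J ≤ P := sup_le hQP (Ideal.span_le.2 fun g hg => hg.1)
  have hfJ : f ∈ J := Ideal.mem_sup_right (Ideal.subset_span ⟨hfP, hfl⟩)
  have hQJ : Q < J := lt_of_le_of_ne le_sup_left fun h => hfQ (h ▸ hfJ)
  have hmin := minimal_of_md hQ hP hJh hmQ hQJ hJP
  obtain ⟨k'', hk'', hdef''⟩ := small_of_level hk hdef hP l hmin
  have h3 := count hk'' hP.hom hdef'' hF hFP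
  have h4 := hf_double hG hP h2 hl hd hC
  have h5 := hf_lower hP h2 l
  have h6 : (N + 2) * hf P l = (N + 1) * hf P l + hf P l := by ring
  omega

theorem deg_big {N C₁ : ℕ} (hC : 1 ≤ C₁) {Q P : Ideal (S N)} (hQ : HP Q)
    (hP : HP P) {d l μ s e C : ℕ} (hμ : 1 ≤ μ) (hmP : md P = μ) (hQP : Q ≤ P)
    (he : Bd P μ e) (hl : 1 ≤ l) (hd : d ≤ 2 * (C₁ * (N + 2)) * l)
    (hLB : s * l ^ μ ≤ C * hf Q l) (hag : Agree P Q l) :
    s * d ≤ 2 * (C₁ * (N + 2)) * C * 2 ^ N * e := by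
  have hμN : μ ≤ N + 1 := hmP ▸ md_le_top hP
  have h1 := hf_eq_of_agree hQP hag
  have h2 := hf_le_deg hP hμ hmP he l
  obtain ⟨w, rfl⟩ : ∃ w, μ = w + 1 := ⟨μ - 1, by omega⟩
  simp only [Nat.add_sub_cancel, show l + (w + 1) - 1 = l + w by omega] at h2
  have h3 : (l + w).choose w ≤ 2 ^ N * l ^ w := by
    calc (l + w).choose w ≤ (l + 1) ^ w := choose_le_pow l w
      _ ≤ (2 * l) ^ w := Nat.pow_le_pow_left (by omega) _
      _ = 2 ^ w * l ^ w := mul_pow _ _ _
      _ ≤ 2 ^ N * l ^ w := Nat.mul_le_mul_right _ (Nat.pow_le_pow_right (by omega) (by omega))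
  have h4 : (s * l) * l ^ w ≤ (C * 2 ^ N * e) * l ^ w := by
    calc (s * l) * l ^ w = s * l ^ (w + 1) := by ring
      _ ≤ C * hf Q l := hLB
      _ = C * hf P l := by rw [h1]
      _ ≤ C * (e * (2 ^ N * l ^ w)) :=
          Nat.mul_le_mul_left _ (h2.trans (Nat.mul_le_mul_left _ h3))
      _ = (C * 2 ^ N * e) * l ^ w := by ring
  have h5 : s * l ≤ C * 2 ^ N * e := Nat.le_of_mul_le_mul_right h4 (by positivity)
  calc s * d ≤ s * (2 * (C₁ * (N + 2)) * l) := Nat.mul_le_mul_left _ hd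
    _ = 2 * (C₁ * (N + 2)) * (s * l) := by ring
    _ ≤ 2 * (C₁ * (N + 2)) * (C * 2 ^ N * e) := Nat.mul_le_mul_left _ h5
    _ = _ := by ring

/-- One Bertini step. -/
theorem bertini_step {N C₁ : ℕ} (hG : GR N C₁) (hC : 1 ≤ C₁) (C c : ℕ) (hC1 : 1 ≤ C) :
    ∃ d₀ : ℕ, ∀ (Q P : Ideal (S N)) (k k' : IntermediateField ℚ ℂ) (μ s d : ℕ) (F : S N),
      HP Q → HP P → 2 ≤ μ → md Q = μ + 1 → md P = μ → Bd Q (μ + 1) s → 1 ≤ s →
      (k : Set ℂ).Countable → Small k k' c → DefOver k' Q → d₀ ≤ d → GenOver k d F →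
      (∀ l, d / (C₁ * (N + 2)) ≤ l → s * l ^ μ ≤ C * hf Q l) → Q ≤ P → F ∈ P →
      F ∉ Q ∧ Bd P μ (s * d) ∧
        ∀ l, d / (C₁ * (N + 2)) ≤ l → (s * d) * l ^ (μ - 1) ≤
          (2 * (C₁ * (N + 2)) * C₁ * C) * hf P l := by
  set κ := C₁ * (N + 2) with hκ
  have hκ1 : 1 ≤ κ := by
    rw [hκ]; nlinarith
  refine ⟨κ * (c + 1) + 2 * κ * C * 2 ^ N * (c + 1) + 2 * (c + 1) + c + 1, ?_⟩
  intro Q P k k' μ s d F hQ hP hμ hmQ hmP hs hs1 hkc hk hdef hd hF hLB hQP hFP
  set l := d / κ with hl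
  have hdκ : κ * (c + 1) ≤ d := by
    have : 0 ≤ 2 * κ * C * 2 ^ N * (c + 1) := Nat.zero_le _
    omega
  have hlc : c + 1 ≤ l := by
    rw [hl, Nat.le_div_iff_mul_le (by omega)]
    linarith [mul_comm κ (c + 1)]
  have hl1 : 1 ≤ l := by omega
  have hκl : κ * l ≤ d := Nat.mul_div_le d κ
  have hdl : d ≤ 2 * κ * l := by
    have h1 : d < κ * (l + 1) := by
      rw [hl]
      exact Nat.lt_mul_div_succ d (by omega)
    calc d ≤ κ * (l + 1) := h1.le
      _ ≤ κ * (2 * l) := Nat.mul_le_mul_left _ (by omega)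
      _ = 2 * κ * l := by ring
  have hFQ : F ∉ Q := by
    intro h
    have h1 := count hk hQ.hom hdef hF h
    have h2 := hf_lower hQ (by omega) d
    have : 0 ≤ 2 * κ * C * 2 ^ N * (c + 1) := Nat.zero_le _
    omega
  have hcd : ∀ P' : Ideal (S N), HP P' → md P' = μ → c < hf P' d := by
    intro P' hP' hm'
    have h2 := hf_lower hP' (by omega) d
    omega
  -- every component has large degree
  have hall : ∀ P' : Ideal (S N), HP P' → md P' = μ → Q ≤ P' → F ∈ P' → ∀ e', Bd P' μ e' →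
      s * (d - (c + 1)) ≤ e' := by
    intro P' hP' hm' hQP' hFP' e' he'
    have hag : Agree P' Q l := comp_agree hG hC hQ hP' hk hdef (by omega) (by omega) hQP' hF hFP'
      hl1 hκl (by omega)
    have hbig := deg_big (d := d) hC hQ hP' (by omega) hm' hQP' he' hl1 hdl
      (hLB l le_rfl) hag
    rw [← hκ] at hbig
    have hmult := mult_one hQ hP' hk hdef (by omega) hmQ hm' hQP' hs hF hFP' (hcd P' hP' hm')
    have hca : c < hf Q (c + 1) := by
      have := hf_lower hQ (by omega) (c + 1)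
      omega
    rcases dichotomy hQ hP' hkc hk hdef hμ hmQ hm' hQP' hs he' hF hFQ hFP' hmult hca
      (by have : 0 ≤ 2 * κ * C * 2 ^ N * (c + 1) := Nat.zero_le _
          omega) with h | h
    · exfalso
      have h3 : s * d ≤ s * (2 * κ * C * 2 ^ N * (c + 1)) := by
        calc s * d ≤ 2 * κ * C * 2 ^ N * e' := hbig
          _ ≤ 2 * κ * C * 2 ^ N * (s * (c + 1)) := Nat.mul_le_mul_left _ h
          _ = s * (2 * κ * C * 2 ^ N * (c + 1)) := by ring
      have h4 := Nat.le_of_mul_le_mul_left h3 (by omega)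
      omega
    · exact h
  have hFd := hF.1
  have hPI : Q ⊔ Ideal.span {F} ≤ P := sup_le hQP ((Ideal.span_singleton_le_iff_mem _).2 hFP)
  obtain ⟨e, he1, he⟩ := exists_Bd hP (by omega)
  rw [hmP] at he
  have huniq : ∀ q, HP q → Q ⊔ Ideal.span {F} ≤ q → md q = μ → q = P := by
    intro q hq hIq hmq
    by_contra hne
    obtain ⟨e', -, he'⟩ := exists_Bd hq (by omega)
    rw [hmq] at he'
    have h1 := hall P hP hmP hQP hFP e he
    have h2 := hall q hq hmq (le_sup_left.trans hIq)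
      (hIq (Ideal.mem_sup_right (Ideal.mem_span_singleton_self F))) e' he'
    have h3 : e + e' ≤ s * d := by
      refine comp_add hQ hP hq.hom hμ hs he he' hFd hFQ hPI hIq ?_ (fun l => le_rfl)
      intro q' hq' hPq' hqq'
      by_contra hcon
      have hle : md q' ≤ μ := hmP ▸ md_le hP hq' hPq'
      have heq1 : P = q' := by
        by_contra h
        have := md_lt hP hq' (lt_of_le_of_ne hPq' h)
        omega
      have heq2 : q = q' := by
        by_contra h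
        have := md_lt hq hq' (lt_of_le_of_ne hqq' h)
        omega
      exact hne (heq2.trans heq1.symm)
    have h4 : 2 * (c + 1) < d := by
      have : 0 ≤ 2 * κ * C * 2 ^ N * (c + 1) := Nat.zero_le _
      omega
    have h5 : s * (d - (c + 1)) + s * (d - (c + 1)) ≤ s * d := by omega
    rw [← mul_add] at h5
    have h6 := Nat.le_of_mul_le_mul_left h5 (by omega)
    omega
  have hmult := mult_one hQ hP hk hdef (by omega) hmQ hmP hQP hs hF hFP (hcd P hP hmP)
  have hlow := deg_lower hQ hP hμ hmQ hmP hs he (by omega) hFd hFQ hFP hQP huniq hmult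
  have hup := bezout_ub hQ hP (by omega) hmQ hmP hs he hFd hFQ hFP hQP
  have hee : e = s * d := le_antisymm hup hlow
  refine ⟨hFQ, hee ▸ he, ?_⟩
  intro l' hl'
  have hag : Agree P Q l := comp_agree hG hC hQ hP hk hdef (by omega) (by omega) hQP hF hFP
    hl1 hκl (by omega)
  have h1 := hf_eq_of_agree hQP hag
  have h2 := hG P l l' μ hP hl1 hl' (by omega) (by omega)
  have h3 := hLB l le_rfl
  obtain ⟨w, rfl⟩ : ∃ w, μ = w + 1 := ⟨μ - 1, by omega⟩
  simp only [Nat.add_sub_cancel] at h2 ⊢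
  have h4 : (s * l * l' ^ w) * l ^ w ≤ (C₁ * C * hf P l') * l ^ w := by
    calc (s * l * l' ^ w) * l ^ w = (s * l ^ (w + 1)) * l' ^ w := by ring
      _ ≤ (C * hf Q l) * l' ^ w := Nat.mul_le_mul_right _ h3
      _ = C * (l' ^ w * hf P l) := by rw [h1]; ring
      _ ≤ C * (C₁ * l ^ w * hf P l') := Nat.mul_le_mul_left _ h2
      _ = (C₁ * C * hf P l') * l ^ w := by ring
  have h5 : s * l * l' ^ w ≤ C₁ * C * hf P l' := Nat.le_of_mul_le_mul_right h4 (by positivity)
  calc s * d * l' ^ w ≤ s * (2 * κ * l) * l' ^ w :=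
        Nat.mul_le_mul_right _ (Nat.mul_le_mul_left _ hdl)
    _ = 2 * κ * (s * l * l' ^ w) := by ring
    _ ≤ 2 * κ * (C₁ * C * hf P l') := Nat.mul_le_mul_left _ h5
    _ = _ := by ring

end SepCI
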