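import Pool.Agent.SepCI.Alpha

set_option autoImplicit false

namespace SepCI

open MvPolynomial

attribute [local instance] MvPolynomial.gradedAlgebra

theorem beta_aux {N : ℕ} {Q P : Ideal (S N)} (hQ : HP Q) (hP : HP P) {m s c d : ℕ}
    (hQP : Q ≤ P) (y : Fin m → Fin (N + 1) → ℚ) (t cc : Fin (N + 1) → ℚ) (hy : IsNN P y)
    (hy' : IsNN Q (Fin.cons (α := fun _ => Fin (N + 1) → ℚ) t y))
    (pk : Pack Q (Fin.cons (α := fun _ => Fin (N + 1) → ℚ) t y) cc s) {F : S N} (hFP : F ∈ P)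
    {kW : IntermediateField ℚ ℂ} (hdef : DefOver kW Q) {T : Submodule ℂ (S N)}
    (hT : Tang kW d c F T) (hc : c < hf P d) (hag : Agree P Q (s * (s - 1))) :
    ∃ g, g ∉ P ∧ ∀ x ∈ P, g * x ∈ Q ⊔ Ideal.span {F} := by
  classical
  set y' : Fin (m + 1) → Fin (N + 1) → ℚ := Fin.cons (α := fun _ => Fin (N + 1) → ℚ) t y with hy'def
  have hdomA : IsDomain (CR Q y') := isDomain_CRa y' hQ.prime
  have hfaith : FaithfulSMul (MvPolynomial (Fin (m + 1)) ℂ) (CR Q y') :=
    (faithfulSMul_iff_algebraMap_injective _ _).2 (injective_CR y' hy')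
  have hinj := injective_CR y' hy'
  have hfinA := finite_CRa y' hy'
  have hnoeth : IsNoetherianRing (CR Q y') := inferInstanceAs (IsNoetherianRing (S N ⧸ Q))
  have hintA : Algebra.IsIntegral (MvPolynomial (Fin (m + 1)) ℂ) (CR Q y') := inferInstance
  set δ := Algebra.discr (MvPolynomial (Fin (m + 1)) ℂ) pk.b with hδ
  have hδ0 : δ ≠ 0 := pk.hd
  set e := finSuccEquiv ℂ m with he
  set mp := minpoly (MvPolynomial (Fin m) ℂ) (CR.mk P y (lin t)) with hmp
  have hpr : Prime mp := minpoly_prime y t hP.prime hy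
  set π := e.symm mp with hπ
  have heπ : e π = mp := by rw [hπ]; exact e.apply_symm_apply mp
  have hπprime : Prime π := by
    have := (MulEquiv.prime_iff (e.symm : Polynomial (MvPolynomial (Fin m) ℂ) ≃*
      MvPolynomial (Fin (m + 1)) ℂ) (p := mp)).2 hpr
    exact this
  have hPA : (IA Q P y').IsPrime := IA_prime y' hP.prime hQP
  have hmem : ∀ g : MvPolynomial (Fin (m + 1)) ℂ, algebraMap _ (CR Q y') g ∈ IA Q P y' ↔
      π ∣ g := by
    intro g
    rw [algebraMap_CR, mem_IA y' hQP, mem_iff_minpoly_dvd y t hP.prime hy g]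
    constructor
    · intro h
      have := map_dvd e.symm h
      rwa [e.symm_apply_apply] at this
    · intro h
      have := map_dvd e h
      rwa [heπ] at this
  have hcomap : (IA Q P y').comap (algebraMap (MvPolynomial (Fin (m + 1)) ℂ) (CR Q y')) =
      Ideal.span {π} := by
    ext g
    rw [Ideal.mem_comap, hmem, Ideal.mem_span_singleton]
  have hδP : algebraMap _ (CR Q y') δ ∉ IA Q P y' := by
    obtain ⟨f, hf, hfδ⟩ := pk.hhom
    intro h
    rw [hδ, hfδ, mem_IA y' hQP] at h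
    have h2 := hag f hf h
    rw [(CR_mk_eq_zero y').2 h2] at hfδ
    exact hδ0 (hinj (by rw [hδ, hfδ, map_zero]))
  obtain ⟨g1, hg1, hg1'⟩ := beta_core (BB Q y' cc) pk.b pk.hd pk.hden π hπprime (IA Q P y')
    hcomap hδP
  obtain ⟨γ, rfl⟩ := CR_mk_surjective y' g1
  have hπA : algebraMap _ (CR Q y') π ∈ IA Q P y' := (hmem π).2 dvd_rfl
  have hFA : CR.mk Q y' F ∈ IA Q P y' := (mem_IA y' hQP F).2 hFP
  obtain ⟨u', hu'⟩ := Ideal.mem_span_singleton'.1 (hg1' _ hFA)
  obtain ⟨u, rfl⟩ := CR_mk_surjective y' u'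
  have hγP : γ ∉ P := fun h => hg1 ((mem_IA y' hQP γ).2 h)
  have huP : u ∉ P := by
    intro hu
    have huA : CR.mk Q y' u ∈ IA Q P y' := (mem_IA y' hQP u).2 hu
    obtain ⟨w, hw⟩ := Ideal.mem_span_singleton'.1 (hg1' _ huA)
    have hTP : ∀ G ∈ T, G ∈ P := by
      intro G hG
      obtain ⟨D, hD, hDG⟩ := hT.2.2 G hG
      have heq : CR.mk Q y' γ * CR.mk Q y' γ * CR.mk Q y' F =
          algebraMap _ (CR Q y') π * algebraMap _ (CR Q y') π * w := by
        calc CR.mk Q y' γ * CR.mk Q y' γ * CR.mk Q y' F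
            = CR.mk Q y' γ * (CR.mk Q y' γ * CR.mk Q y' F) := by ring
          _ = CR.mk Q y' γ * (CR.mk Q y' u * algebraMap _ (CR Q y') π) := by rw [hu']
          _ = (CR.mk Q y' γ * CR.mk Q y' u) * algebraMap _ (CR Q y') π := by ring
          _ = (w * algebraMap _ (CR Q y') π) * algebraMap _ (CR Q y') π := by rw [hw]
          _ = _ := by ring
      have hD2 := congrArg (dA hdef D hD y') heq
      rw [Derivation.leibniz, Derivation.leibniz _ (algebraMap _ (CR Q y') π *
        algebraMap _ (CR Q y') π) w, Derivation.leibniz _ (algebraMap _ (CR Q y') π)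
        (algebraMap _ (CR Q y') π), dA_mk, cD_eq_coefD, hDG] at hD2
      simp only [smul_eq_mul] at hD2
      have h1 : CR.mk Q y' γ * CR.mk Q y' γ * CR.mk Q y' G ∈ IA Q P y' := by
        have h2 : CR.mk Q y' γ * CR.mk Q y' γ * CR.mk Q y' G =
            (algebraMap _ (CR Q y') π * algebraMap _ (CR Q y') π * dA hdef D hD y' w +
              w * (algebraMap _ (CR Q y') π * dA hdef D hD y' (algebraMap _ (CR Q y') π) +
                algebraMap _ (CR Q y') π * dA hdef D hD y' (algebraMap _ (CR Q y') π))) -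
              CR.mk Q y' F * dA hdef D hD y' (CR.mk Q y' γ * CR.mk Q y' γ) := by
          rw [← hD2]; ring
        rw [h2]
        refine Ideal.sub_mem _ (Ideal.add_mem _ ?_ ?_) ?_
        · exact Ideal.mul_mem_right _ _ (Ideal.mul_mem_right _ _ hπA)
        · exact Ideal.mul_mem_left _ _ (Ideal.add_mem _ (Ideal.mul_mem_right _ _ hπA)
            (Ideal.mul_mem_right _ _ hπA))
        · exact Ideal.mul_mem_right _ _ hFA
      rw [← map_mul, ← map_mul, mem_IA y' hQP] at h1
      rcases hP.prime.mem_or_mem h1 with h | h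
      · rcases hP.prime.mem_or_mem h with h | h <;> exact absurd h hγP
      · exact h
    have := hf_le_of_codim hT.1 hT.2.1 hTP
    omega
  refine ⟨u * γ, ?_, ?_⟩
  · intro h
    rcases hP.prime.mem_or_mem h with h | h
    · exact huP h
    · exact hγP h
  · intro x hx
    have hxA : CR.mk Q y' x ∈ IA Q P y' := (mem_IA y' hQP x).2 hx
    obtain ⟨a', ha'⟩ := Ideal.mem_span_singleton'.1 (hg1' _ hxA)
    obtain ⟨a, rfl⟩ := CR_mk_surjective y' a'
    have h1 : CR.mk Q y' (u * γ * x - γ * a * F) = 0 := by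
      rw [map_sub, map_mul, map_mul, map_mul, map_mul, sub_eq_zero]
      calc CR.mk Q y' u * CR.mk Q y' γ * CR.mk Q y' x
          = CR.mk Q y' u * (CR.mk Q y' γ * CR.mk Q y' x) := by ring
        _ = CR.mk Q y' u * (CR.mk Q y' a * algebraMap _ (CR Q y') π) := by rw [ha']
        _ = CR.mk Q y' a * (CR.mk Q y' u * algebraMap _ (CR Q y') π) := by ring
        _ = CR.mk Q y' a * (CR.mk Q y' γ * CR.mk Q y' F) := by rw [hu']
        _ = _ := by ring
    have h2 := (CR_mk_eq_zero y').1 h1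
    have h3 : u * γ * x = (u * γ * x - γ * a * F) + γ * a * F := by ring
    rw [h3]
    exact Ideal.add_mem _ (Ideal.mem_sup_left h2)
      (Ideal.mem_sup_right (Ideal.mul_mem_left _ _ (Ideal.mem_span_singleton_self F)))

theorem beta {N : ℕ} {Q P : Ideal (S N)} (hQ : HP Q) (hP : HP P)
    {m s c d : ℕ} (hmQ : md Q = m + 1) (hmP : md P = m)
    (hQP : Q ≤ P) (hs : Bd Q (m + 1) s) {F : S N}
    (hFP : F ∈ P)
    {kW : IntermediateField ℚ ℂ} (hdef : DefOver kW Q) {T : Submodule ℂ (S N)}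
    (hT : Tang kW d c F T) (hc : c < hf P d) (hag : Agree P Q (s * (s - 1))) :
    ∃ g, g ∉ P ∧ ∀ x ∈ P, g * x ∈ Q ⊔ Ideal.span {F} := by
  classical
  obtain ⟨ys, hys⟩ := exists_flag (ι := Fin 2) ![Q, P] ![m + 1, m]
    (by
      intro i
      fin_cases i
      · exact hQ.hom
      · exact hP.hom)
    (by
      intro i q hq hle
      fin_cases i
      · exact (md_le hQ hq hle).trans hmQ.le
      · exact (md_le hP hq hle).trans hmP.le)
  have hysQ : PNN Q (m + 1) (fun a : Fin m => ys a) := hys 0 m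
  have hys1 : PNN P m (fun a : Fin m => ys a) := hys 1 m
  have hy1 := isNN_of_pnn hP hmP _ hys1
  obtain ⟨U1, hU1, hU1'⟩ := pnn_step hQ.hom (m + 1) _ hysQ
  obtain ⟨t, ht⟩ := avoid U1 hU1
  have hpnn := pnn_cons (hU1' t ht)
  have hy' := isNN_of_pnn hQ hmQ _ hpnn
  obtain ⟨s', U3, _, hs', hU3, hU3'⟩ := exists_pack hQ (by omega) _ hy'
  have hss : s' = s := Bd_unique (by omega) hs' hs
  subst hss
  obtain ⟨cc, hcc⟩ := avoid U3 hU3
  obtain ⟨pk⟩ := hU3' cc hcc
  exact beta_aux hQ hP hQP _ t cc hy1 hy' pk hFP hdef hT hc hag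

end SepCI
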