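import Pool.Agent.SepCI.Acl

/-!
# M8: fields of definition
-/

set_option autoImplicit false

namespace SepCI

open MvPolynomial

attribute [local instance] MvPolynomial.gradedAlgebra

/-! ### mapping coefficients by an additive map -/

section cmap

variable {σ A B : Type*} [CommRing A] [CommRing B]

/-- apply an additive map to the coefficients -/
noncomputable def cmap (φ : A →+ B) (f : MvPolynomial σ A) : MvPolynomial σ B :=
  ∑ m ∈ f.support, monomial m (φ (coeff m f))

theorem cmap_def (φ : A →+ B) (f : MvPolynomial σ A) :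
    cmap φ f = ∑ m ∈ f.support, monomial m (φ (coeff m f)) := rfl

theorem coeff_cmap (φ : A →+ B) (f : MvPolynomial σ A) (m : σ →₀ ℕ) :
    coeff m (cmap φ f) = φ (coeff m f) := by
  classical
  rw [cmap, coeff_sum]
  simp only [coeff_monomial]
  rw [Finset.sum_ite_eq']
  split_ifs with h
  · rfl
  · rw [notMem_support_iff.1 h, map_zero]

theorem cmap_add (φ : A →+ B) (f g : MvPolynomial σ A) :
    cmap φ (f + g) = cmap φ f + cmap φ g := by
  ext m
  simp [coeff_cmap]

theorem cmap_zero (φ : A →+ B) : cmap φ (0 : MvPolynomial σ A) = 0 := by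
  ext m
  simp [coeff_cmap]

theorem cmap_C_mul (φ : A →+ B) (a : A) (f : MvPolynomial σ A) :
    cmap φ (C a * f) = cmap (φ.comp (AddMonoidHom.mulLeft a)) f := by
  ext m
  simp [coeff_cmap]

theorem cmap_mul_X (φ : A →+ B) (i : σ) (f : MvPolynomial σ A) :
    cmap φ (f * X i) = cmap φ f * X i := by
  classical
  ext m
  rw [coeff_cmap, coeff_mul_X', coeff_mul_X']
  split_ifs
  · rw [coeff_cmap]
  · rw [map_zero]

end cmap

section functionals

variable {N : ℕ} {K : IntermediateField ℚ ℂ}

/-- base change of polynomials -/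
noncomputable abbrev bc (N : ℕ) (K : IntermediateField ℚ ℂ) :
    MvPolynomial (Fin (N + 1)) K →+* S N := MvPolynomial.map (algebraMap K ℂ)

/-- apply a `K`-linear functional of `ℂ` to the coefficients -/
noncomputable abbrev fmap (φ : ℂ →ₗ[K] K) (f : S N) : MvPolynomial (Fin (N + 1)) K :=
  cmap φ.toAddMonoidHom f

theorem coeff_fmap (φ : ℂ →ₗ[K] K) (f : S N) (m : Fin (N + 1) →₀ ℕ) :
    coeff m (fmap φ f) = φ (coeff m f) := coeff_cmap _ _ _

theorem coeff_bc (r : MvPolynomial (Fin (N + 1)) K) (m : Fin (N + 1) →₀ ℕ) :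
    coeff m (bc N K r) = ((coeff m r : K) : ℂ) := by
  rw [coeff_map]
  rfl

theorem fmap_bc (φ : ℂ →ₗ[K] K) (r : MvPolynomial (Fin (N + 1)) K) :
    fmap φ (bc N K r) = C (φ 1) * r := by
  ext m
  rw [coeff_fmap, coeff_bc, coeff_C_mul]
  have h : (((coeff m r : K)) : ℂ) = (coeff m r : K) • (1 : ℂ) := by
    rw [Algebra.smul_def, mul_one]
    rfl
  rw [h, map_smul, smul_eq_mul, mul_comm]

/-- every polynomial is a `ℂ`-combination of its images under functionals -/
theorem mem_span_fmap (f : S N) :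
    f ∈ Submodule.span ℂ (Set.range fun φ : ℂ →ₗ[K] K => bc N K (fmap φ f)) := by
  classical
  let b := Module.Basis.ofVectorSpace K ℂ
  let s := f.support.biUnion fun m => (b.repr (coeff m f)).support
  have h : f = ∑ i ∈ s, (b i : ℂ) • bc N K (fmap (b.coord i) f) := by
    ext m
    rw [coeff_sum]
    have h1 : ∀ i ∈ s, coeff m ((b i : ℂ) • bc N K (fmap (b.coord i) f)) =
        (b.repr (coeff m f)) i • b i := by
      intro i _
      rw [coeff_smul, coeff_bc, coeff_fmap, Module.Basis.coord_apply,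
        smul_eq_mul, mul_comm]
      rfl
    rw [Finset.sum_congr rfl h1]
    have h2 := b.linearCombination_repr (coeff m f)
    rw [Finsupp.linearCombination_apply, Finsupp.sum_of_support_subset (s := s)] at h2
    · exact h2.symm
    · by_cases hm : m ∈ f.support
      · exact Finset.subset_biUnion_of_mem (fun m => (b.repr (coeff m f)).support) hm
      · rw [notMem_support_iff.1 hm]
        simp
    · intro i _
      exact zero_smul _ _
  rw [h]
  apply Submodule.sum_mem
  intro i _
  apply Submodule.smul_mem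
  rw [← h]
  exact Submodule.subset_span ⟨b.coord i, rfl⟩

theorem eval_fmap (φ : ℂ →ₗ[K] K) (f : S N) (a : Fin (N + 1) → K) :
    aeval a (fmap φ f) = φ (aeval (fun i => (a i : ℂ)) f) := by
  have h0 : fmap φ f = ∑ m ∈ f.support, monomial m (φ (coeff m f)) := rfl
  rw [h0, map_sum]
  have h : aeval (fun i => (a i : ℂ)) f =
      ∑ m ∈ f.support, (m.prod fun i e => a i ^ e : K) • coeff m f := by
    rw [aeval_def, eval₂_eq]
    apply Finset.sum_congr rfl
    intro m _
    rw [Algebra.smul_def, mul_comm, Finsupp.prod]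
    congr 1
    simp
  rw [h, map_sum]
  apply Finset.sum_congr rfl
  intro m _
  rw [map_smul, aeval_monomial, smul_eq_mul, mul_comm]
  rfl

theorem aeval_bc (r : MvPolynomial (Fin (N + 1)) K) (a : Fin (N + 1) → K) :
    aeval (fun i => (a i : ℂ)) (bc N K r) = ((aeval a r : K) : ℂ) := by
  rw [aeval_map_algebraMap]
  have := (MvPolynomial.aeval_algebraMap_apply ℂ a r)
  exact this

theorem exists_bc {f : S N} (hf : ∀ m, coeff m f ∈ K) : ∃ r, bc N K r = f := by
  classical
  refine ⟨∑ m ∈ f.support, monomial m (⟨coeff m f, hf m⟩ : K), ?_⟩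
  rw [map_sum]
  simp only [map_monomial]
  exact f.support_sum_monomial_coeff

theorem span_le_ideal {I : Ideal (S N)} {s : Set (S N)} (h : s ⊆ I) {f : S N}
    (hf : f ∈ Submodule.span ℂ s) : f ∈ I := by
  have h1 : Submodule.span ℂ s ≤ I.restrictScalars ℂ := Submodule.span_le.2 h
  exact h1 hf

theorem mem_map_bc_iff (P0 : Ideal (MvPolynomial (Fin (N + 1)) K)) (f : S N) :
    f ∈ P0.map (bc N K) ↔ ∀ φ : ℂ →ₗ[K] K, fmap φ f ∈ P0 := by
  constructor
  · intro hf
    refine Submodule.span_induction (p := fun f _ => ∀ φ : ℂ →ₗ[K] K, fmap φ f ∈ P0)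
      ?_ ?_ ?_ ?_ hf
    · rintro _ ⟨r, hr, rfl⟩ φ
      have h1 : fmap φ ((bc N K) r) = C (φ 1) * r := fmap_bc φ r
      rw [h1]
      exact P0.mul_mem_left _ hr
    · intro φ
      have h1 : fmap φ (0 : S N) = 0 := cmap_zero _
      rw [h1]
      exact P0.zero_mem
    · intro x y _ _ hx hy φ
      have h1 : fmap φ (x + y) = fmap φ x + fmap φ y := cmap_add _ _ _
      rw [h1]
      exact P0.add_mem (hx φ) (hy φ)
    · intro a x _ hx
      rw [smul_eq_mul]
      refine MvPolynomial.induction_on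
        (motive := fun a => ∀ φ : ℂ →ₗ[K] K, fmap φ (a * x) ∈ P0) a ?_ ?_ ?_
      · intro z φ
        have h1 : fmap φ (C z * x) = fmap (φ.comp ((LinearMap.mulLeft K z))) x := by
          ext m
          rw [coeff_fmap, coeff_fmap, coeff_C_mul]
          rfl
        rw [h1]
        exact hx _
      · intro p q hp hq φ
        have h1 : fmap φ ((p + q) * x) = fmap φ (p * x) + fmap φ (q * x) := by
          rw [add_mul]
          exact cmap_add _ _ _
        rw [h1]
        exact P0.add_mem (hp φ) (hq φ)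
      · intro p i hp φ
        have h1 : fmap φ (p * X i * x) = fmap φ (p * x) * X i := by
          rw [mul_right_comm]
          exact cmap_mul_X _ _ _
        rw [h1]
        exact P0.mul_mem_right _ (hp φ)
  · intro h
    apply span_le_ideal _ (mem_span_fmap (K := K) f)
    rintro _ ⟨φ, rfl⟩
    exact Ideal.mem_map_of_mem _ (h φ)

/-- over an algebraically closed field the extension of a prime is prime -/
theorem isPrime_map_bc [IsAlgClosed K] (P0 : Ideal (MvPolynomial (Fin (N + 1)) K))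
    (hP0 : P0.IsPrime) : (P0.map (bc N K)).IsPrime := by
  have hvan := MvPolynomial.IsPrime.vanishingIdeal_zeroLocus (K := K) P0
  have hev : ∀ f ∈ P0.map (bc N K), ∀ a ∈ zeroLocus K P0, aeval (fun i => (a i : ℂ)) f = 0 := by
    intro f hf a ha
    refine Submodule.span_induction (p := fun f _ => aeval (fun i => (a i : ℂ)) f = 0)
      ?_ ?_ ?_ ?_ hf
    · rintro _ ⟨r, hr, rfl⟩
      have h1 : aeval (fun i => (a i : ℂ)) ((bc N K) r) = ((aeval a r : K) : ℂ) := aeval_bc r a
      rw [h1, ha r hr]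
      rfl
    · exact map_zero _
    · intro x y _ _ hx hy
      rw [map_add, hx, hy, add_zero]
    · intro c x _ hx
      rw [smul_eq_mul, map_mul, hx, mul_zero]
  refine ⟨?_, ?_⟩
  · intro htop
    have h1 : (1 : S N) ∈ P0.map (bc N K) := by
      rw [htop]
      exact Submodule.mem_top
    have h2 : ∃ a, a ∈ zeroLocus K P0 := by
      by_contra hcon
      push Not at hcon
      apply hP0.ne_top
      rw [← hvan, Set.eq_empty_of_forall_notMem hcon, vanishingIdeal_empty]
    obtain ⟨a, ha⟩ := h2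
    have h3 := hev 1 h1 a ha
    rw [map_one] at h3
    exact one_ne_zero h3
  · intro f g hfg
    by_contra hcon
    push Not at hcon
    obtain ⟨hf, hg⟩ := hcon
    rw [mem_map_bc_iff] at hf hg
    push Not at hf hg
    obtain ⟨φ, hφ⟩ := hf
    obtain ⟨ψ, hψ⟩ := hg
    have h1 : fmap φ f * fmap ψ g ∉ P0 := by
      intro h
      rcases hP0.mem_or_mem h with h | h
      · exact hφ h
      · exact hψ h
    rw [← hvan, mem_vanishingIdeal_iff] at h1
    push Not at h1
    obtain ⟨a, ha, h2⟩ := h1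
    rw [map_mul, eval_fmap, eval_fmap] at h2
    have h3 := hev _ hfg a ha
    rw [map_mul] at h3
    rcases mul_eq_zero.1 h3 with h4 | h4
    · rw [h4, map_zero, zero_mul] at h2
      exact h2 rfl
    · rw [h4, map_zero, mul_zero] at h2
      exact h2 rfl

/-- a prime minimal over an ideal defined over an algebraically closed field is defined over
that field -/
theorem defOver_minimal [IsAlgClosed K] {J P : Ideal (S N)} (hJ : DefOver K J)
    (hP : P ∈ J.minimalPrimes) : DefOver K P := by
  have hPp : P.IsPrime := hP.1.1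
  have hJP : J ≤ P := hP.1.2
  set P0 := P.comap (bc N K) with hP0
  have hP0p : P0.IsPrime := Ideal.comap_isPrime _ _
  have h1 : (P0.map (bc N K)).IsPrime := isPrime_map_bc P0 hP0p
  have h2 : P0.map (bc N K) ≤ P := Ideal.map_comap_le
  have h3 : J ≤ P0.map (bc N K) := by
    refine hJ.trans ?_
    rw [Ideal.span_le]
    rintro f ⟨hf, hfK⟩
    obtain ⟨r, rfl⟩ := exists_bc hfK
    exact Ideal.mem_map_of_mem _ (hJP hf)
  have h4 : P ≤ P0.map (bc N K) := hP.2 ⟨h1, h3⟩ h2
  refine h4.trans ?_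
  rw [Ideal.map, Ideal.span_le]
  rintro _ ⟨r, hr, rfl⟩
  apply Ideal.subset_span
  refine ⟨hr, ?_⟩
  intro m
  have h5 : coeff m ((bc N K) r) = ((coeff m r : K) : ℂ) := coeff_bc r m
  rw [h5]
  exact (coeff m r).2

theorem bc_fmap_mem {P : Ideal (S N)} (hP : DefOver K P) {f : S N} (hf : f ∈ P)
    (φ : ℂ →ₗ[K] K) : bc N K (fmap φ f) ∈ P := by
  have h1 : f ∈ (P.comap (bc N K)).map (bc N K) := by
    refine (hP.trans ?_) hf
    rw [Ideal.span_le]
    rintro g ⟨hg, hgK⟩
    obtain ⟨r, rfl⟩ := exists_bc hgK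
    exact Ideal.mem_map_of_mem _ hg
  rw [mem_map_bc_iff] at h1
  exact h1 φ

theorem bc_fmap_coeff (f : S N) (φ : ℂ →ₗ[K] K) (m : Fin (N + 1) →₀ ℕ) :
    coeff m (bc N K (fmap φ f)) ∈ K := by
  have h5 : coeff m ((bc N K) (fmap φ f)) = ((coeff m (fmap φ f) : K) : ℂ) := coeff_bc _ m
  rw [h5]
  exact (coeff m (fmap φ f)).2

theorem bc_fmap_Sd {d : ℕ} {f : S N} (hf : f ∈ Sd N d) (φ : ℂ →ₗ[K] K) :
    bc N K (fmap φ f) ∈ Sd N d := by
  rw [mem_homogeneousSubmodule] at hf ⊢
  intro m hm
  apply hf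
  intro h
  apply hm
  have h5 : coeff m ((bc N K) (fmap φ f)) = ((coeff m (fmap φ f) : K) : ℂ) := coeff_bc _ m
  rw [h5, coeff_fmap, h, map_zero]
  rfl

end functionals

theorem small_zero (k : IntermediateField ℚ ℂ) : ∃ k0, Small k k0 0 := by
  refine ⟨acl k, le_acl k, isAlgClosed_acl k, Fin.elim0, ?_⟩
  intro z hz
  rw [mem_acl] at hz
  exact isAlgebraic_mono (le_gen k _) hz

theorem defOver_bot {N : ℕ} (k : IntermediateField ℚ ℂ) : DefOver k (⊥ : Ideal (S N)) := bot_le

set_option linter.unusedVariables false in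
/-- counting: a form with coefficients algebraically independent over `k` in an ideal defined
over a small extension -/
theorem count {N : ℕ} {k k' : IntermediateField ℚ ℂ} {c : ℕ} (hs : Small k k' c)
    {P : Ideal (S N)} (hP : Hom P) (hdef : DefOver k' P) {d : ℕ} {F : S N} (hF : GenOver k d F)
    (hFP : F ∈ P) : hf P d ≤ c := by
  obtain ⟨-, -, w, hw⟩ := hs
  obtain ⟨hFd, hFi⟩ := hF
  let V0 : Set (Sd N d) := {v | (v : S N) ∈ P ∧ ∀ m, coeff m (v : S N) ∈ k'}
  have hV0 : Submodule.span ℂ V0 ≤ LinearMap.ker (resl P d) := by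
    rw [Submodule.span_le]
    rintro v ⟨hv, -⟩
    exact (mem_ker_resl P d v).2 hv
  obtain ⟨v, hv0, hvs, -⟩ := Submodule.exists_fun_fin_finrank_span_eq ℂ V0
  have hFV : (⟨F, hFd⟩ : Sd N d) ∈ Submodule.span ℂ V0 := by
    have h1 := mem_span_fmap (K := k') F
    have h2 : Submodule.span ℂ (Set.range fun φ : ℂ →ₗ[k'] k' => bc N k' (fmap φ F)) ≤
        (Submodule.span ℂ V0).map (Sd N d).subtype := by
      rw [Submodule.span_le]
      rintro _ ⟨φ, rfl⟩
      refine ⟨⟨bc N k' (fmap φ F), bc_fmap_Sd hFd φ⟩, ?_, rfl⟩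
      exact Submodule.subset_span ⟨bc_fmap_mem hdef hFP φ, bc_fmap_coeff F φ⟩
    obtain ⟨g, hg, hgF⟩ := h2 h1
    have h3 : g = ⟨F, hFd⟩ := Subtype.ext hgF
    rwa [← h3]
  rw [← hvs, Submodule.mem_span_range_iff_exists_fun] at hFV
  obtain ⟨τ, hτ⟩ := hFV
  have hk' : k' ≤ acl (gen k (Set.range w)) := by
    intro z hz
    rw [mem_acl]
    exact hw z hz
  have h1 : ∀ m : Mon N d, coeff m.1 F ∈ acl (gen k (Set.range (Sum.elim w τ))) := by
    intro m
    have h2 : coeff m.1 F = ∑ i, τ i * coeff m.1 (v i : S N) := by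
      have h3 := congrArg (fun g : Sd N d => coeff m.1 (g : S N)) hτ
      simp only at h3
      rw [← h3]
      simp [coeff_sum]
    rw [h2]
    apply sum_mem
    intro i _
    apply mul_mem
    · exact le_acl _ (subset_gen _ _ ⟨Sum.inr i, rfl⟩)
    · refine acl_mono (gen_mono ?_) (hk' ((hv0 i).2 m.1))
      rw [Set.Sum.elim_range]
      exact Set.subset_union_left
  have h2 := card_le_of_mem_acl hFi _ h1
  rw [Fintype.card_sum, Fintype.card_fin, Fintype.card_fin, ← finrank_Sd] at h2
  have h3 := hf_add_ker P d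
  have h4 := Submodule.finrank_mono hV0
  omega

/-- the forms of degree `j` in a prime are cut out by `hf P j` points -/
theorem exists_points {N : ℕ} {P : Ideal (S N)} (hP : P.IsPrime) (j : ℕ) :
    ∃ p : Fin (hf P j) → Fin (N + 1) → ℂ, (∀ i, p i ∈ zeroLocus ℂ P) ∧
      ∀ f ∈ Sd N j, (∀ i, aeval (p i) f = 0) → f ∈ P := by
  let ev : (Fin (N + 1) → ℂ) → Module.Dual ℂ (Sd N j) := fun a =>
    (aeval a).toLinearMap.comp (Sd N j).subtype
  let s : Set (Module.Dual ℂ (Sd N j)) := ev '' zeroLocus ℂ P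
  have hker : (Submodule.span ℂ s).dualCoannihilator = LinearMap.ker (resl P j) := by
    ext f
    rw [Submodule.mem_dualCoannihilator, mem_ker_resl]
    constructor
    · intro h
      rw [← MvPolynomial.IsPrime.vanishingIdeal_zeroLocus (K := ℂ) P, mem_vanishingIdeal_iff]
      intro a ha
      exact h (ev a) (Submodule.subset_span ⟨a, ha, rfl⟩)
    · intro h φ hφ
      refine Submodule.span_induction (p := fun φ _ => φ f = 0) ?_ ?_ ?_ ?_ hφ
      · rintro _ ⟨a, ha, rfl⟩
        exact ha _ h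
      · rfl
      · intro x y _ _ hx hy
        rw [LinearMap.add_apply, hx, hy, add_zero]
      · intro c x _ hx
        rw [LinearMap.smul_apply, hx, smul_zero]
  have hdim : Module.finrank ℂ (Submodule.span ℂ s) = hf P j := by
    have h1 := Subspace.finrank_add_finrank_dualCoannihilator_eq (Submodule.span ℂ s)
    have h2 := hf_add_ker P j
    rw [hker] at h1
    omega
  obtain ⟨g, hg0, hgs, -⟩ := Submodule.exists_fun_fin_finrank_span_eq ℂ s
  choose pt hpt hpt' using hg0
  refine ⟨fun i => pt (Fin.cast hdim.symm i), fun i => hpt _, ?_⟩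
  intro f hf h
  have h1 : (⟨f, hf⟩ : Sd N j) ∈ (Submodule.span ℂ s).dualCoannihilator := by
    rw [← hgs, Submodule.mem_dualCoannihilator]
    intro φ hφ
    refine Submodule.span_induction (p := fun φ _ => φ ⟨f, hf⟩ = 0) ?_ ?_ ?_ ?_ hφ
    · rintro _ ⟨i, rfl⟩
      rw [← hpt' i]
      have := h (Fin.cast hdim i)
      exact this
    · rfl
    · intro x y _ _ hx hy
      rw [LinearMap.add_apply, hx, hy, add_zero]
    · intro c x _ hx
      rw [LinearMap.smul_apply, hx, smul_zero]
  rw [hker, mem_ker_resl] at h1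
  exact h1

/-- a prime minimal over `Q + (P_j)` is defined over a small extension -/
theorem small_of_level {N : ℕ} {k kW : IntermediateField ℚ ℂ} {c : ℕ} (hs : Small k kW c)
    {Q P : Ideal (S N)} (hQ : DefOver kW Q) (hP : HP P) (j : ℕ)
    (hmin : P ∈ (Q ⊔ Ideal.span {f | f ∈ P ∧ f ∈ Sd N j}).minimalPrimes) :
    ∃ k', Small k k' (c + (N + 1) * hf P j) ∧ DefOver k' P := by
  obtain ⟨hk, -, w, hw⟩ := hs
  obtain ⟨p, hp, hpf⟩ := exists_points hP.prime j
  let w' : Fin (c + (N + 1) * hf P j) → ℂ := Fin.append w fun i =>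
    p (finProdFinEquiv.symm i).2 (finProdFinEquiv.symm i).1
  set k' := acl (gen k (Set.range w')) with hk'
  have hw1 : ∀ i, w i ∈ Set.range w' := fun i => ⟨Fin.castAdd _ i, by simp [w']⟩
  have hw2 : ∀ i a, p i a ∈ k' := by
    intro i a
    apply le_acl
    apply subset_gen
    refine ⟨Fin.natAdd c (finProdFinEquiv (a, i)), ?_⟩
    change Fin.append w _ (Fin.natAdd c _) = _
    rw [Fin.append_right, Equiv.symm_apply_apply]
  have hkW : kW ≤ k' := by
    intro z hz
    have h1 : z ∈ acl (gen k (Set.range w)) := by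
      rw [mem_acl]
      exact hw z hz
    refine acl_mono (gen_mono ?_) h1
    rintro _ ⟨i, rfl⟩
    exact hw1 i
  have halg : IsAlgClosed k' := isAlgClosed_acl _
  refine ⟨k', ⟨(le_gen _ _).trans (le_acl _), halg, w', ?_⟩, ?_⟩
  · intro z hz
    rw [hk', mem_acl] at hz
    exact hz
  · refine defOver_minimal ?_ hmin
    apply sup_le
    · refine hQ.trans (Ideal.span_mono ?_)
      rintro f ⟨hf, hfk⟩
      exact ⟨Ideal.mem_sup_left hf, fun m => hkW (hfk m)⟩
    · rw [Ideal.span_le]
      rintro f ⟨hfP, hfj⟩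
      refine span_le_ideal ?_ (mem_span_fmap (K := k') f)
      rintro _ ⟨φ, rfl⟩
      apply Ideal.subset_span
      refine ⟨Ideal.mem_sup_right (Ideal.subset_span ⟨?_, bc_fmap_Sd hfj φ⟩), bc_fmap_coeff f φ⟩
      apply hpf _ (bc_fmap_Sd hfj φ)
      intro i
      let a : Fin (N + 1) → k' := fun x => ⟨p i x, hw2 i x⟩
      have h1 : aeval (p i) (bc N k' (fmap φ f)) = ((aeval a (fmap φ f) : k') : ℂ) :=
        aeval_bc _ a
      have h2 : aeval a (fmap φ f) = φ (aeval (p i) f) := eval_fmap φ f a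
      have h3 : aeval (p i) f = 0 := hp i f hfP
      rw [h3, map_zero] at h2
      rw [h2] at h1
      exact h1

end SepCI
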