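import Pool.Agent.SepCI.Fields

/-!
# M9: derivations of `ℂ` and tangent directions of a generic form
-/

set_option autoImplicit false

namespace SepCI

open MvPolynomial

attribute [local instance] MvPolynomial.gradedAlgebra

section der

open TensorProduct IntermediateField.algebraAdjoinAdjoin in
/-- derivations with prescribed values on a transcendence basis, characteristic zero -/
theorem exists_der_basis {K L ι : Type} [Field K] [Field L] [Algebra K L] [CharZero K]
    {x : ι → L} (hx : IsTranscendenceBasis K x) (a : ι → L) :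
    ∃ D : Derivation K L L, ∀ i, D (x i) = a i := by
  let A := MvPolynomial ι K
  let A0 := Algebra.adjoin K (Set.range x)
  let E := IntermediateField.adjoin K (Set.range x)
  let e0 : A ≃ₐ[K] A0 := hx.1.aevalEquiv
  let _ : Algebra A A0 := e0.toRingEquiv.toRingHom.toAlgebra
  let _ : Algebra A E := ((algebraMap A0 E).comp (algebraMap A A0)).toAlgebra
  let _ : Algebra A L := ((algebraMap A0 L).comp (algebraMap A A0)).toAlgebra
  have t1 : IsScalarTower A A0 E := IsScalarTower.of_algebraMap_eq fun _ => rfl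
  have t2 : IsScalarTower A A0 L := IsScalarTower.of_algebraMap_eq fun _ => rfl
  have t3 : IsScalarTower A E L := IsScalarTower.of_algebraMap_eq fun _ => rfl
  have t4 : IsScalarTower K A L := by
    refine IsScalarTower.of_algebraMap_eq fun r => ?_
    have h1 : algebraMap K L r = algebraMap A0 L (e0 (algebraMap K A r)) := by
      rw [AlgEquiv.commutes]
      rfl
    exact h1
  have f1 : Algebra.FormallyEtale A A0 :=
    Algebra.FormallyEtale.of_equiv (AlgEquiv.ofBijective (Algebra.ofId A A0) e0.bijective)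
  have f2 : Algebra.FormallyEtale A0 E :=
    Algebra.FormallyEtale.of_isLocalization (nonZeroDivisors A0)
  have f3 : Algebra.IsAlgebraic E L := hx.isAlgebraic_field
  have f4 : Algebra.FormallyEtale E L := Algebra.FormallyEtale.of_isSeparable E L
  have f5 : Algebra.FormallyEtale A E := Algebra.FormallyEtale.comp A A0 E
  have f6 : Algebra.FormallyEtale A L := Algebra.FormallyEtale.comp A E L
  let d0 : Derivation K A L := MvPolynomial.mkDerivation K a
  let l0 := d0.liftKaehlerDifferential
  let l1 := LinearMap.liftBaseChange L l0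
  let l2 := l1.comp (KaehlerDifferential.tensorKaehlerEquivOfFormallyEtale K A L).symm.toLinearMap
  refine ⟨l2.compDer (KaehlerDifferential.D K L), ?_⟩
  intro i
  have hxi : algebraMap A L (X i) = x i := by
    change algebraMap A0 L (e0 (X i)) = x i
    have h1 := hx.1.algebraMap_aevalEquiv (X i)
    rw [aeval_X] at h1
    exact h1
  rw [← hxi]
  change l1 ((KaehlerDifferential.tensorKaehlerEquivOfFormallyEtale K A L).symm
    (KaehlerDifferential.D K L (algebraMap A L (X i)))) = a i
  rw [KaehlerDifferential.tensorKaehlerEquivOfFormallyEtale_symm_D_algebraMap]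
  rw [LinearMap.liftBaseChange_tmul, one_smul]
  change d0.liftKaehlerDifferential (KaehlerDifferential.D K A (X i)) = a i
  rw [Derivation.liftKaehlerDifferential_comp_D]
  exact MvPolynomial.mkDerivation_X K a i

/-- derivations with prescribed values on an algebraically independent family -/
theorem exists_der_indep {K L ι : Type} [Field K] [Field L] [Algebra K L] [CharZero K]
    {x : ι → L} (hx : AlgebraicIndependent K x) (a : ι → L) :
    ∃ D : Derivation K L L, ∀ i, D (x i) = a i := by
  classical
  obtain ⟨t, ht, htb⟩ := exists_isTranscendenceBasis_superset hx.to_subtype_range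
  obtain ⟨D, hD⟩ := exists_der_basis htb
    (fun y => if h : ∃ i, x i = (y : L) then a h.choose else 0)
  refine ⟨D, fun i => ?_⟩
  have h1 := hD ⟨x i, ht ⟨i, rfl⟩⟩
  have h2 : ∃ j, x j = x i := ⟨i, rfl⟩
  simp only at h1
  rw [dif_pos h2, hx.injective h2.choose_spec] at h1
  exact h1

/-- derivations of `ℂ` killing a subfield with prescribed values on an algebraically independent
family -/
theorem exists_derC {kW : IntermediateField ℚ ℂ} {ι : Type} {x : ι → ℂ}
    (hx : AlgebraicIndependent kW x) (a : ι → ℂ) :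
    ∃ D : Derivation ℤ ℂ ℂ, (∀ z ∈ kW, D z = 0) ∧ ∀ i, D (x i) = a i := by
  obtain ⟨D, hD⟩ := exists_der_indep hx a
  refine ⟨D.restrictScalars ℤ, ?_, hD⟩
  intro z hz
  exact D.map_algebraMap (⟨z, hz⟩ : kW)

end der

section coef

variable {N : ℕ}

theorem coefD_def (D : Derivation ℤ ℂ ℂ) (f : S N) :
    coefD D f = ∑ m ∈ f.support, monomial m (D (coeff m f)) := rfl

theorem coeff_coefD (D : Derivation ℤ ℂ ℂ) (f : S N) (m : Fin (N + 1) →₀ ℕ) :
    coeff m (coefD D f) = D (coeff m f) := by
  classical
  rw [coefD_def, coeff_sum]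
  simp only [coeff_monomial]
  rw [Finset.sum_ite_eq']
  split_ifs with h
  · rfl
  · rw [notMem_support_iff.1 h, map_zero]

theorem coefD_add (D : Derivation ℤ ℂ ℂ) (f g : S N) :
    coefD D (f + g) = coefD D f + coefD D g := by
  ext m
  simp [coeff_coefD]

theorem coefD_mul (D : Derivation ℤ ℂ ℂ) (f g : S N) :
    coefD D (f * g) = coefD D f * g + f * coefD D g := by
  classical
  ext m
  rw [coeff_coefD, coeff_add, coeff_mul, coeff_mul, coeff_mul, map_sum, ← Finset.sum_add_distrib]
  apply Finset.sum_congr rfl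
  intro p _
  rw [coeff_coefD, coeff_coefD, Derivation.leibniz, smul_eq_mul, smul_eq_mul]
  ring

theorem coefD_C (D : Derivation ℤ ℂ ℂ) (a : ℂ) :
    coefD D (C a : S N) = C (D a) := by
  classical
  ext m
  rw [coeff_coefD, coeff_C, coeff_C]
  split_ifs
  · rfl
  · exact map_zero D

theorem coefD_X (D : Derivation ℤ ℂ ℂ) (i : Fin (N + 1)) : coefD D (X i : S N) = 0 := by
  classical
  ext m
  rw [coeff_coefD, coeff_X, coeff_zero]
  split_ifs
  · exact D.map_one_eq_zero
  · exact map_zero D

theorem derivation_rat (D : Derivation ℤ ℂ ℂ) (q : ℚ) : D (q : ℂ) = 0 := by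
  have h1 : (q.den : ℂ) * (q : ℂ) = (q.num : ℂ) := by
    have := Rat.den_mul_eq_num q
    exact_mod_cast congrArg (fun r : ℚ => (r : ℂ)) this
  have h2 := congrArg D h1
  rw [Derivation.leibniz, Derivation.map_natCast, smul_zero, add_zero, smul_eq_mul] at h2
  have h3 : D (q.num : ℂ) = 0 := by
    have := D.map_algebraMap q.num
    exact this
  rw [h3] at h2
  rcases mul_eq_zero.1 h2 with h | h
  · exact absurd h (by exact_mod_cast q.den_nz)
  · exact h

theorem coefD_zero (D : Derivation ℤ ℂ ℂ) : coefD D (0 : S N) = 0 := by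
  ext m
  simp [coeff_coefD]

theorem coefD_sum (D : Derivation ℤ ℂ ℂ) {ι : Type*} (s : Finset ι) (f : ι → S N) :
    coefD D (∑ i ∈ s, f i) = ∑ i ∈ s, coefD D (f i) := by
  classical
  induction s using Finset.induction_on with
  | empty => simp [coefD_zero]
  | insert i s hi ih => rw [Finset.sum_insert hi, Finset.sum_insert hi, coefD_add, ih]

theorem coefD_lin (D : Derivation ℤ ℂ ℂ) (c : Fin (N + 1) → ℚ) :
    coefD D (lin c) = 0 := by
  rw [lin, coefD_sum]
  apply Finset.sum_eq_zero
  intro j _
  rw [coefD_mul, coefD_C, coefD_X, derivation_rat, map_zero, zero_mul, mul_zero, add_zero]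

theorem coefD_mem {k' : IntermediateField ℚ ℂ} {I : Ideal (S N)} (hI : DefOver k' I)
    (D : Derivation ℤ ℂ ℂ) (hD : ∀ z ∈ k', D z = 0) {f : S N} (hf : f ∈ I) :
    coefD D f ∈ I := by
  have hle : Ideal.span {f | f ∈ I ∧ ∀ m, coeff m f ∈ k'} ≤ I := by
    rw [Ideal.span_le]
    rintro g ⟨hg, -⟩
    exact hg
  refine Submodule.span_induction (p := fun f _ => coefD D f ∈ I) ?_ ?_ ?_ ?_ (hI hf)
  · rintro g ⟨hg, hgk⟩
    have h1 : coefD D g = 0 := by
      ext m
      rw [coeff_coefD, coeff_zero]
      exact hD _ (hgk m)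
    rw [h1]
    exact I.zero_mem
  · rw [coefD_zero]
    exact I.zero_mem
  · intro x y _ _ hx hy
    rw [coefD_add]
    exact I.add_mem hx hy
  · intro a x hx hx'
    rw [smul_eq_mul, coefD_mul]
    exact I.add_mem (I.mul_mem_left _ (hle hx)) (I.mul_mem_left _ hx')

theorem coefD_Sd (D : Derivation ℤ ℂ ℂ) {d : ℕ} {f : S N} (hf : f ∈ Sd N d) :
    coefD D f ∈ Sd N d := by
  rw [mem_homogeneousSubmodule] at hf ⊢
  intro m hm
  apply hf
  intro h
  apply hm
  rw [coeff_coefD, h, map_zero]

/-- the space of all derivatives of `F` along derivations killing `kW` -/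
noncomputable def tangSpace (kW : IntermediateField ℚ ℂ) (F : S N) : Submodule ℂ (S N) where
  carrier := {G | ∃ D : Derivation ℤ ℂ ℂ, (∀ z ∈ kW, D z = 0) ∧ coefD D F = G}
  zero_mem' := ⟨0, fun _ _ => rfl, by ext m; simp [coeff_coefD]⟩
  add_mem' := by
    rintro _ _ ⟨D, hD, rfl⟩ ⟨D', hD', rfl⟩
    refine ⟨D + D', fun z hz => ?_, ?_⟩
    · rw [Derivation.add_apply, hD z hz, hD' z hz, add_zero]
    · ext m
      simp [coeff_coefD]
  smul_mem' := by
    rintro a _ ⟨D, hD, rfl⟩
    refine ⟨a • D, fun z hz => ?_, ?_⟩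
    · rw [Derivation.smul_apply, hD z hz, smul_zero]
    · ext m
      simp [coeff_coefD]

theorem exists_tang {k kW : IntermediateField ℚ ℂ} {c : ℕ} (hs : Small k kW c)
    {d : ℕ} {F : S N} (hF : GenOver k d F) : ∃ T, Tang kW d c F T := by
  obtain ⟨hFd, hFi⟩ := hF
  obtain ⟨B, hB, hBc⟩ := exists_indep_subset hs hFi
  refine ⟨tangSpace kW F, ?_, ?_, fun G hG => hG⟩
  · rintro _ ⟨D, -, rfl⟩
    exact coefD_Sd D hFd
  · have hle : tangSpace kW F ≤ Sd N d := by
      rintro _ ⟨D, -, rfl⟩
      exact coefD_Sd D hFd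
    have hfin : FiniteDimensional ℂ (tangSpace kW F) :=
      Submodule.finiteDimensional_of_le hle
    let g : tangSpace kW F →ₗ[ℂ] (B → ℂ) :=
      { toFun := fun G b => coeff b.1.1 (G : S N)
        map_add' := fun G G' => by ext b; simp
        map_smul' := fun a G => by ext b; simp }
    have hg : Function.Surjective g := by
      intro a
      obtain ⟨D, hD, hDa⟩ := exists_derC hB a
      refine ⟨⟨coefD D F, D, hD, rfl⟩, ?_⟩
      ext b
      change coeff b.1.1 (coefD D F) = a b
      rw [coeff_coefD]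
      exact hDa b
    have h1 := LinearMap.finrank_le_finrank_of_surjective hg
    rw [Module.finrank_fintype_fun_eq_card, Fintype.card_coe] at h1
    rw [finrank_Sd]
    omega

end coef

end SepCI
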