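import Mathlib

set_option autoImplicit false

/-! # Summation operators on sequences -/

namespace SepCI

/-- partial sums -/
def Sm (f : ℕ → ℕ) (l : ℕ) : ℕ := ∑ a ∈ Finset.range (l + 1), f a

theorem Sm_zero (f : ℕ → ℕ) : Sm f 0 = f 0 := by simp [Sm]

theorem Sm_succ (f : ℕ → ℕ) (l : ℕ) : Sm f (l + 1) = Sm f l + f (l + 1) := by
  simp [Sm, Finset.sum_range_succ]

theorem Sm_mono {f g : ℕ → ℕ} (h : ∀ l, f l ≤ g l) (l : ℕ) : Sm f l ≤ Sm g l :=
  Finset.sum_le_sum fun a _ => h a

theorem Sm_inj {f g : ℕ → ℕ} (h : ∀ l, Sm f l = Sm g l) (l : ℕ) : f l = g l := by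
  cases l with
  | zero => simpa [Sm_zero] using h 0
  | succ l =>
    have h1 := h (l + 1)
    rw [Sm_succ, Sm_succ, h l] at h1
    omega

theorem Sm_monotone (f : ℕ → ℕ) : Monotone (Sm f) := by
  apply monotone_nat_of_le_succ
  intro l
  rw [Sm_succ]
  omega

/-- iterated partial sums -/
def SM (k : ℕ) (f : ℕ → ℕ) : ℕ → ℕ := Sm^[k] f

theorem SM_zero (f : ℕ → ℕ) : SM 0 f = f := rfl

theorem SM_succ (k : ℕ) (f : ℕ → ℕ) : SM (k + 1) f = Sm (SM k f) := by
  simp [SM, Function.iterate_succ_apply']

theorem SM_succ' (k : ℕ) (f : ℕ → ℕ) : SM (k + 1) f = SM k (Sm f) := by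
  simp [SM, Function.iterate_succ_apply]

theorem SM_mono (k : ℕ) {f g : ℕ → ℕ} (h : ∀ l, f l ≤ g l) : ∀ l, SM k f l ≤ SM k g l := by
  induction k with
  | zero => exact h
  | succ k ih => rw [SM_succ, SM_succ]; exact Sm_mono ih

theorem SM_inj (k : ℕ) {f g : ℕ → ℕ} (h : ∀ l, SM k f l = SM k g l) : ∀ l, f l = g l := by
  induction k with
  | zero => exact h
  | succ k ih => rw [SM_succ, SM_succ] at h; exact ih (Sm_inj h)

theorem SM_add (k : ℕ) (f g : ℕ → ℕ) : ∀ l, SM k (fun a => f a + g a) l = SM k f l + SM k g l := by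
  induction k with
  | zero => exact fun _ => rfl
  | succ k ih =>
    intro l
    rw [SM_succ, SM_succ, SM_succ, Sm, Sm, Sm, ← Finset.sum_add_distrib]
    exact Finset.sum_congr rfl fun a _ => ih a

/-- shift -/
def Sh (d : ℕ) (f : ℕ → ℕ) (l : ℕ) : ℕ := if l < d then 0 else f (l - d)

theorem Sm_Sh (d : ℕ) (f : ℕ → ℕ) : Sm (Sh d f) = Sh d (Sm f) := by
  funext l
  induction l with
  | zero =>
    rw [Sm_zero, Sh, Sh]
    split_ifs with h
    · rfl
    · have : (0 : ℕ) - d = 0 := by omega
      rw [this, Sm_zero]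
  | succ l ih =>
    rw [Sm_succ, ih]
    simp only [Sh]
    by_cases h1 : l + 1 < d
    · rw [if_pos (by omega), if_pos h1, if_pos h1]
    · by_cases h2 : l < d
      · rw [if_pos h2, if_neg h1, if_neg h1]
        have : l + 1 - d = 0 := by omega
        rw [this, Sm_zero]; omega
      · rw [if_neg h2, if_neg h1, if_neg h1]
        have : l + 1 - d = (l - d) + 1 := by omega
        rw [this, Sm_succ]

theorem SM_Sh (k d : ℕ) (f : ℕ → ℕ) : SM k (Sh d f) = Sh d (SM k f) := by
  induction k with
  | zero => rfl
  | succ k ih => rw [SM_succ, ih, Sm_Sh, SM_succ]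

/-- upper bound -/
theorem SM_upper {h : ℕ → ℕ} {σ : ℕ} (hσ : ∀ l, Sm h l ≤ σ) (a : ℕ) :
    ∀ l, SM (a + 1) h l ≤ σ * (l + a).choose a := by
  induction a with
  | zero => intro l; simpa [SM_succ, SM_zero] using hσ l
  | succ a ih =>
    intro l
    rw [SM_succ]
    induction l with
    | zero =>
      rw [Sm_zero]
      have := ih 0
      simpa using this
    | succ l ihl =>
      rw [Sm_succ]
      have h1 := ih (l + 1)
      have h2 : (l + 1 + (a + 1)).choose (a + 1) =
          (l + 1 + a).choose a + (l + (a + 1)).choose (a + 1) := by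
        have : l + 1 + (a + 1) = (l + 1 + a) + 1 := by ring
        rw [this, Nat.choose_succ_succ]
        congr 2
        ring
      rw [h2, mul_add]
      omega

/-- lower bound -/
theorem SM_lower {h : ℕ → ℕ} {σ A : ℕ} (hσ : ∀ l, A ≤ l → σ ≤ Sm h l) (a : ℕ) :
    ∀ l, σ * (l + a).choose a ≤ SM (a + 1) h (l + A) := by
  induction a with
  | zero => intro l; simpa [SM_succ, SM_zero] using hσ (l + A) (by omega)
  | succ a ih =>
    intro l
    rw [SM_succ]
    induction l with
    | zero =>
      have h1 := ih 0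
      have h2 : SM (a + 1) h (0 + A) ≤ Sm (SM (a + 1) h) (0 + A) :=
        Finset.single_le_sum (f := SM (a + 1) h) (fun _ _ => Nat.zero_le _)
          (Finset.mem_range.2 (by omega))
      refine le_trans ?_ h2
      simpa using h1
    | succ l ihl =>
      have h0 : l + 1 + A = (l + A) + 1 := by ring
      rw [h0, Sm_succ, ← h0]
      have h1 := ih (l + 1)
      have h2 : (l + 1 + (a + 1)).choose (a + 1) =
          (l + 1 + a).choose a + (l + (a + 1)).choose (a + 1) := by
        have : l + 1 + (a + 1) = (l + 1 + a) + 1 := by ring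
        rw [this, Nat.choose_succ_succ]
        congr 2
        ring
      rw [h2, mul_add]
      omega

/-- comparison of leading coefficients -/
theorem le_of_growth {s t a B : ℕ}
    (h : ∀ l, s * (l + a).choose a ≤ t * (l + B + a).choose a) : s ≤ t := by
  cases a with
  | zero => simpa using h 0
  | succ a =>
    by_contra hst
    push Not at hst
    set l : ℕ := (t + 1) * B * (a + 1) with hl
    -- X ≤ Y + B * Z
    have key : ∀ B : ℕ, (l + B + (a + 1)).choose (a + 1) ≤
        (l + (a + 1)).choose (a + 1) + B * (l + B + a).choose a := by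
      intro B
      induction B with
      | zero => simp
      | succ B ih =>
        have h1 : (l + (B + 1) + (a + 1)).choose (a + 1) =
            (l + (B + 1) + a).choose a + (l + B + (a + 1)).choose (a + 1) := by
          have : l + (B + 1) + (a + 1) = (l + (B + 1) + a) + 1 := by ring
          rw [this, Nat.choose_succ_succ]
          congr 2
          ring
        have h2 : (l + B + a).choose a ≤ (l + (B + 1) + a).choose a :=
          Nat.choose_le_choose _ (by omega)
        rw [h1]
        nlinarith
    set X := (l + B + (a + 1)).choose (a + 1) with hX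
    set Y := (l + (a + 1)).choose (a + 1) with hY
    set Z := (l + B + a).choose a with hZ
    have h1 : X ≤ Y + B * Z := key B
    have h2 : X * (a + 1) = Z * (l + B + a + 1) := by
      have := Nat.add_one_mul_choose_eq (l + B + a) a
      rw [hX, hZ]
      have h3 : l + B + (a + 1) = l + B + a + 1 := by ring
      rw [h3]
      linarith [this]
    have h3 : (t + 1) * Y ≤ t * X := (Nat.mul_le_mul_right _ hst).trans (h l)
    have h4 : X ≤ (t + 1) * B * Z := by nlinarith
    have hXpos : 0 < X := Nat.choose_pos (by omega)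
    have h5 : X * (l + B + a + 1) ≤ (t + 1) * B * (a + 1) * X := by
      calc X * (l + B + a + 1) ≤ ((t + 1) * B * Z) * (l + B + a + 1) := Nat.mul_le_mul_right _ h4
        _ = (t + 1) * B * (Z * (l + B + a + 1)) := by ring
        _ = (t + 1) * B * (X * (a + 1)) := by rw [h2]
        _ = (t + 1) * B * (a + 1) * X := by ring
    rw [← hl, mul_comm X] at h5
    have := Nat.le_of_mul_le_mul_right h5 hXpos
    omega

/-- bound for `Bd`-type sums from below -/
theorem sum_lower (e l a : ℕ) : e * (l + a).choose a ≤
    ∑ i ∈ Finset.range e, (if i ≤ l + e then (l + e - i + (a + 1) - 1).choose (a + 1 - 1) else 0) := by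
  calc e * (l + a).choose a = ∑ i ∈ Finset.range e, (l + a).choose a := by simp
    _ ≤ _ := by
      apply Finset.sum_le_sum
      intro i hi
      have := Finset.mem_range.1 hi
      rw [if_pos (by omega)]
      have h1 : l + e - i + (a + 1) - 1 = l + e - i + a := by omega
      rw [h1, Nat.add_sub_cancel]
      exact Nat.choose_le_choose _ (by omega)

theorem sum_upper (e l a : ℕ) :
    ∑ i ∈ Finset.range e, (l + i + (a + 1) - 1).choose (a + 1 - 1) ≤ e * (l + e + a).choose a := by
  calc ∑ i ∈ Finset.range e, (l + i + (a + 1) - 1).choose (a + 1 - 1)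
      ≤ ∑ i ∈ Finset.range e, (l + e + a).choose a := by
        apply Finset.sum_le_sum
        intro i hi
        have := Finset.mem_range.1 hi
        have h1 : l + i + (a + 1) - 1 = l + i + a := by omega
        rw [h1, Nat.add_sub_cancel]
        exact Nat.choose_le_choose _ (by omega)
    _ = e * (l + e + a).choose a := by simp

end SepCI
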