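import Pool.Agent.SepCI.Cut

set_option autoImplicit false

/-! # The complete intersection step -/

namespace SepCI

open MvPolynomial

attribute [local instance] MvPolynomial.gradedAlgebra

/-- the Hilbert function of `Q + (y_0, ..., y_(m-1))` is bounded by the degree -/
theorem hf_cut_le {N : ℕ} {Q : Ideal (S N)} (hQ : Hom Q) {y : ℕ → Fin (N + 1) → ℚ} {m s : ℕ}
    (hreg : Reg Q y (m + 1)) {M0 : ℕ}
    (hM0 : ∀ l, M0 ≤ l → ∀ f ∈ Sd N l, f ∈ cut Q y (m + 1)) (hs : Bd Q (m + 1) s) (l : ℕ) :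
    hf (cut Q y m) l ≤ s := by
  set h := hf (cut Q y (m + 1)) with hh
  have h0 : ∀ l, M0 ≤ l → h l = 0 := fun l hl => hf_eq_zero (hM0 l hl)
  have h1 : hf (cut Q y m) l ≤ Sm h l := by
    have := hf_le_Sm (hom_cut hQ y m) (y m) l
    rwa [← cut_succ] at this
  have h2 : ∀ l, M0 ≤ l → Sm h l = Sm h M0 := by
    intro l hl
    obtain ⟨j, rfl⟩ := Nat.exists_eq_add_of_le hl
    induction j with
    | zero => rfl
    | succ j ih =>
      rw [← add_assoc, Sm_succ, ih (by omega), h0 _ (by omega), add_zero]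
  have h3 : ∀ l, Sm h l ≤ Sm h M0 := by
    intro l
    rcases le_total l M0 with hl | hl
    · exact Sm_monotone h hl
    · exact (h2 l hl).le
  refine h1.trans ((h3 l).trans ?_)
  apply le_of_growth (a := m) (B := M0 + s)
  intro l
  have h4 := SM_lower (h := h) (σ := Sm h M0) (A := M0) (fun l hl => (h2 l hl).ge) m l
  rw [← hreg] at h4
  refine h4.trans ((hs _).2.trans ?_)
  refine (sum_upper s (l + M0) m).trans ?_
  rw [add_assoc l M0 s]

/-- upper bound for the Hilbert function of `Q + (F)` -/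
theorem hf_sup_upper {N d : ℕ} {Q : Ideal (S N)} (hQ : Hom Q) {y : ℕ → Fin (N + 1) → ℚ} {a s : ℕ}
    {F : S N} (hF : F ∈ Sd N d) (hK : ∀ l, hf (cut Q y (a + 1)) l ≤ s)
    (hFK : cln (cut Q y (a + 1)) F = cut Q y (a + 1))
    (hreg : Reg (Q ⊔ Ideal.span {F}) y (a + 1)) (l : ℕ) :
    hf (Q ⊔ Ideal.span {F}) l ≤ s * d * (l + a).choose a := by
  rw [hreg l]
  apply SM_upper
  intro l
  set K := cut Q y (a + 1) with hKdef
  have h1 : ∀ l, Sm (hf (K ⊔ Ideal.span {F})) l + Sh d (Sm (hf K)) l = Sm (hf K) l := by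
    intro l
    rw [← Sm_Sh, Sm, Sm, ← Finset.sum_add_distrib, Sm]
    exact Finset.sum_congr rfl fun b _ => hf_add_Sh (hom_cut hQ y (a + 1)) hF hFK b
  rw [cut_sup, ← hKdef]
  -- sums over `d` consecutive terms
  have h2 : ∀ l j, Sm (hf K) (l + j) ≤ Sm (hf K) l + s * j := by
    intro l j
    induction j with
    | zero => simp
    | succ j ih =>
      rw [← add_assoc, Sm_succ]
      have := hK (l + j + 1)
      rw [mul_add, mul_one]
      omega
  have h3 := h1 l
  by_cases hl : l < d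
  · rw [Sh, if_pos hl, add_zero] at h3
    rw [h3]
    have h4 := h2 0 l
    rw [zero_add, Sm_zero] at h4
    have h5 := hK 0
    calc Sm (hf K) l ≤ s + s * l := by omega
      _ = s * (l + 1) := by ring
      _ ≤ s * d := Nat.mul_le_mul_left _ hl
  · rw [Sh, if_neg hl] at h3
    have h4 := h2 (l - d) d
    rw [Nat.sub_add_cancel (by omega)] at h4
    omega

/-- homogeneous elements with small annihilator descend along a regular flag -/
theorem descent {N : ℕ} {J K : Ideal (S N)} (hJ : Hom J) {y : ℕ → Fin (N + 1) → ℚ} {m : ℕ}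
    (hreg : Reg J y m) {γ : ℕ} {x : S N} (hx : x ∈ Sd N γ) (hxJ : x ∉ J)
    (hK : ∀ u ∈ K, u * x ∈ J) (k : ℕ) (hk : k < m) :
    ∃ (γ' : ℕ) (x' : S N), x' ∈ Sd N γ' ∧ x' ∉ cut J y k ∧ ∀ u ∈ K, u * x' ∈ cut J y k := by
  induction k with
  | zero => exact ⟨γ, x, hx, by rwa [cut_zero], by rwa [cut_zero]⟩
  | succ k ih =>
    obtain ⟨γ1, x1, hx1, hx1J, hx1K⟩ := ih (by omega)
    have hnzd : cln (cut J y k) (lin (y k)) = cut J y k := hreg.nzd hJ (by omega)
    clear ih hx hxJ hK
    induction γ1 generalizing x1 with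
    | zero =>
      by_cases hmem : x1 ∈ cut J y (k + 1)
      · rw [cut_succ] at hmem
        exact absurd (mem_sup_span_low (hom_cut hJ y k) (lin_mem (y k)) (by omega) hx1 hmem) hx1J
      · exact ⟨0, x1, hx1, hmem, fun u hu => cut_mono J y (Nat.le_succ k) (hx1K u hu)⟩
    | succ γ1 ih =>
      by_cases hmem : x1 ∈ cut J y (k + 1)
      · rw [cut_succ] at hmem
        obtain ⟨x2, hx2, hx12⟩ := mem_sup_span_form (hom_cut hJ y k) (lin_mem (y k)) hx1 hmem
        apply ih x2 hx2
        · intro h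
          apply hx1J
          have : x1 = (x1 - lin (y k) * x2) + lin (y k) * x2 := by ring
          rw [this]
          exact (cut J y k).add_mem hx12 ((cut J y k).mul_mem_left _ h)
        · intro u hu
          rw [← hnzd, mem_cln]
          have : lin (y k) * (u * x2) = u * x1 - u * (x1 - lin (y k) * x2) := by ring
          rw [this]
          exact (cut J y k).sub_mem (hx1K u hu) ((cut J y k).mul_mem_left _ hx12)
      · exact ⟨γ1 + 1, x1, hx1, hmem, fun u hu => cut_mono J y (Nat.le_succ k) (hx1K u hu)⟩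

/-- unmixedness -/
theorem unmixed {N : ℕ} {J : Ideal (S N)} (hJ : Hom J) {y : ℕ → Fin (N + 1) → ℚ} {a : ℕ}
    (hreg : Reg J y (a + 1)) {γ : ℕ} {x : S N} (hx : x ∈ Sd N γ) (hxJ : x ∉ J)
    (hpnn : PNN (cln J x) a (fun i : Fin a => y i)) : False := by
  obtain ⟨γ', x', hx', hx'J, hx'K⟩ := descent (K := cln J x) hJ hreg hx hxJ
    (fun u hu => by rw [mul_comm]; exact hu) a (by omega)
  obtain ⟨M0, hM0⟩ := irrelevant_of_pnn (hom_cln hJ hx) _ hpnn
  apply hx'J
  apply mem_of_pow_mul (hreg.nzd hJ (Nat.lt_succ_self a)) (n := M0)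
  have h1 : lin (y a) ^ M0 ∈ cut (cln J x) y a := by
    apply hM0 M0 le_rfl
    have h1 := ((mem_homogeneousSubmodule _ _).mp (lin_mem (y a))).pow M0
    rw [mem_homogeneousSubmodule]
    rwa [one_mul] at h1
  have h2 : cut (cln J x) y a ≤ cln (cut J y a) x' := by
    rw [cut]
    apply sup_le
    · intro u hu
      rw [mem_cln, mul_comm]
      exact hx'K u hu
    · rw [Ideal.span_le]
      rintro _ ⟨i, rfl⟩
      change lin (y i) ∈ cln (cut J y a) x'
      rw [mem_cln]
      exact Ideal.mul_mem_left _ _ (lin_mem_cut J y i.2)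
  have h3 := h2 h1
  rw [mem_cln, mul_comm] at h3
  exact h3

end SepCI
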