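import Pool.Agent.SepCI.Step

set_option autoImplicit false

namespace SepCI

open MvPolynomial Finset

attribute [local instance] MvPolynomial.gradedAlgebra

theorem prod_lt_castSucc {r : ℕ} (d : Fin (r + 1) → ℕ) (i : Fin r) :
    ∏ j ∈ Finset.univ.filter (· < i.castSucc), d j =
      ∏ j ∈ Finset.univ.filter (· < i), d j.castSucc := by
  rw [Finset.prod_filter, Finset.prod_filter, Fin.prod_univ_castSucc]
  have : ¬ (Fin.last r < i.castSucc) := by
    simp [not_lt, Fin.le_last]
  rw [if_neg this, mul_one]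
  rfl

theorem prod_lt_last {r : ℕ} (d : Fin (r + 1) → ℕ) :
    ∏ j ∈ Finset.univ.filter (· < Fin.last r), d j = ∏ j : Fin r, d j.castSucc := by
  rw [Finset.prod_filter, Fin.prod_univ_castSucc, if_neg (lt_irrefl _), mul_one]
  apply Finset.prod_congr rfl
  intro j _
  rw [if_pos (Fin.castSucc_lt_last j)]

theorem exists_chain (N : ℕ) : ∃ C A : ℕ, ∀ (r : ℕ) (F : Fin r → S N) (d : Fin r → ℕ),
    (∀ i, C * (∏ j ∈ Finset.univ.filter (· < i), d j) ^ A < d i) →
    (∀ i, GenOver ⊥ (d i) (F i)) → ∀ (P : Ideal (S N)) (e : ℕ), HP P → 2 ≤ md P →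
    (∀ i, F i ∈ P) → Bd P (md P) e → e ≤ ∏ i, d i → Chain r F d P := by
  obtain ⟨C, A, hstep⟩ := step N
  refine ⟨C + N + 2, A + 1, ?_⟩
  intro r
  induction r with
  | zero =>
    intro F d _ _ P e hP hm _ he hle
    simp only [Finset.univ_eq_empty, Finset.prod_empty] at hle
    obtain ⟨e', he'1, he'⟩ := exists_Bd hP (by omega)
    have := Bd_unique (by omega) he he'
    subst this
    have : e = 1 := by omega
    subst this
    exact ⟨hP, he⟩
  | succ r ih =>
    intro F d hd hgen P e hP hm hFP he hle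
    have hpos : ∀ i, 1 ≤ d i := fun i => by have := hd i; omega
    set D := ∏ j : Fin r, d j.castSucc with hD
    have hD1 : 1 ≤ D := by
      rw [hD]
      exact Nat.succ_le_of_lt (Finset.prod_pos fun i _ => hpos _)
    have hlast := hd (Fin.last r)
    rw [prod_lt_last, ← hD] at hlast
    have hprod : ∏ i, d i = D * d (Fin.last r) := by rw [Fin.prod_univ_castSucc]
    have hCD : C * D ^ A ≤ d (Fin.last r) := by
      have h1 : C * D ^ A ≤ (C + N + 2) * D ^ (A + 1) :=
        Nat.mul_le_mul (by omega) (Nat.pow_le_pow_right hD1 (by omega))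
      omega
    obtain ⟨Q, s, hQ, hQP, hmQ, hs, hFQ, hsd, hag⟩ := hstep D hD1 ⊥ (d (Fin.last r))
      (F (Fin.last r)) P (md P) e hm hCD (hgen _) hP (hFP _) rfl he (by rw [← hprod]; exact hle)
    have hsD : s ≤ D := by
      have h1 : s * d (Fin.last r) ≤ D * d (Fin.last r) := hsd.trans (by rw [← hprod]; exact hle)
      exact Nat.le_of_mul_le_mul_right h1 (hpos _)
    refine ⟨hP, Q, s, e, ?_, hQ, hQP, hmQ, (hgen _).1, hpos _, hFQ, hFP _, by rw [hmQ]; exact hs,
      he, hsd⟩
    refine ih (fun i => F i.castSucc) (fun i => d i.castSucc) ?_ (fun i => hgen _) Q s hQ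
      (by omega) ?_ (by rw [hmQ]; exact hs) hsD
    · intro i
      have := hd i.castSucc
      rwa [prod_lt_castSucc] at this
    · intro i
      have hle1 : d i.castSucc ≤ D :=
        Finset.single_le_prod' (f := fun j : Fin r => d j.castSucc) (fun j _ => hpos _)
          (Finset.mem_univ i)
      have h2 : (N + 2) * d i.castSucc ≤ d (Fin.last r) := by
        have h3 : (N + 2) * D ≤ (C + N + 2) * D ^ (A + 1) := by
          apply Nat.mul_le_mul (by omega)
          calc D = D ^ 1 := (pow_one D).symm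
            _ ≤ D ^ (A + 1) := Nat.pow_le_pow_right hD1 (by omega)
        have h4 : (N + 2) * d i.castSucc ≤ (N + 2) * D := Nat.mul_le_mul_left _ hle1
        omega
      exact hag _ h2 _ (hgen _).1 (hFP _)

end SepCI
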