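import Pool.Agent.SepCI.Colon
import Pool.Agent.SepCI.CINum

set_option autoImplicit false

/-! # Cutting by linear forms -/

namespace SepCI

open MvPolynomial

attribute [local instance] MvPolynomial.gradedAlgebra

/-- `J + (y_0, ..., y_(k-1))` -/
noncomputable def cut {N : ℕ} (J : Ideal (S N)) (y : ℕ → Fin (N + 1) → ℚ) (k : ℕ) : Ideal (S N) :=
  J ⊔ Ideal.span (Set.range fun i : Fin k => lin (y i))

theorem cut_zero {N : ℕ} (J : Ideal (S N)) (y : ℕ → Fin (N + 1) → ℚ) : cut J y 0 = J := by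
  have : Set.range (fun i : Fin 0 => lin (y i) : Fin 0 → S N) = ∅ := Set.range_eq_empty _
  rw [cut, this, Ideal.span_empty, sup_bot_eq]

theorem cut_succ {N : ℕ} (J : Ideal (S N)) (y : ℕ → Fin (N + 1) → ℚ) (k : ℕ) :
    cut J y (k + 1) = cut J y k ⊔ Ideal.span {lin (y k)} := by
  rw [cut, cut, sup_assoc, ← Ideal.span_union]
  congr 2
  ext z
  simp only [Set.mem_range, Set.union_singleton, Set.mem_insert_iff]
  constructor
  · rintro ⟨i, rfl⟩
    refine Fin.lastCases ?_ (fun b => ?_) i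
    · left; rfl
    · right; exact ⟨b, rfl⟩
  · rintro (rfl | ⟨b, rfl⟩)
    · exact ⟨Fin.last k, rfl⟩
    · exact ⟨b.castSucc, rfl⟩

theorem cut_sup {N : ℕ} (J : Ideal (S N)) (g : S N) (y : ℕ → Fin (N + 1) → ℚ) (k : ℕ) :
    cut (J ⊔ Ideal.span {g}) y k = cut J y k ⊔ Ideal.span {g} := by
  rw [cut, cut, sup_assoc, sup_comm (Ideal.span {g}), ← sup_assoc]

theorem hom_cut {N : ℕ} {J : Ideal (S N)} (hJ : Hom J) (y : ℕ → Fin (N + 1) → ℚ) (k : ℕ) :
    Hom (cut J y k) := hom_sup_lin hJ _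

theorem le_cut {N : ℕ} (J : Ideal (S N)) (y : ℕ → Fin (N + 1) → ℚ) (k : ℕ) : J ≤ cut J y k :=
  le_sup_left

theorem cut_mono {N : ℕ} (J : Ideal (S N)) (y : ℕ → Fin (N + 1) → ℚ) :
    Monotone (cut J y) := by
  apply monotone_nat_of_le_succ
  intro k
  rw [cut_succ]
  exact le_sup_left

theorem cut_le {N : ℕ} {J J' : Ideal (S N)} (h : J ≤ J') (y : ℕ → Fin (N + 1) → ℚ) (k : ℕ) :
    cut J y k ≤ cut J' y k := sup_le_sup_right h _

theorem lin_mem_cut {N : ℕ} (J : Ideal (S N)) (y : ℕ → Fin (N + 1) → ℚ) {i k : ℕ} (h : i < k) :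
    lin (y i) ∈ cut J y k :=
  Ideal.mem_sup_right (Ideal.subset_span ⟨⟨i, h⟩, rfl⟩)

/-- one cut: inequality -/
theorem hf_le_Sm {N : ℕ} {J : Ideal (S N)} (hJ : Hom J) (c : Fin (N + 1) → ℚ) (l : ℕ) :
    hf J l ≤ Sm (hf (J ⊔ Ideal.span {lin c})) l := by
  induction l with
  | zero => rw [Sm_zero, hf_sup_low hJ (lin_mem c) (by omega)]
  | succ l ih =>
    have h1 := hf_colon hJ (lin_mem c) l
    have h2 := hf_anti (le_cln J (lin c)) l
    rw [Sm_succ]
    omega

/-- one cut: equality implies that the linear form is a nonzerodivisor -/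
theorem cln_eq_of_hf {N : ℕ} {J : Ideal (S N)} (hJ : Hom J) (c : Fin (N + 1) → ℚ)
    (h : ∀ l, hf J l = Sm (hf (J ⊔ Ideal.span {lin c})) l) : cln J (lin c) = J := by
  symm
  apply eq_of_hf_eq (hom_cln hJ (lin_mem c)) (le_cln J (lin c))
  intro l
  have h1 := hf_colon hJ (lin_mem c) l
  have h2 := h (l + 1)
  rw [Sm_succ, ← h l] at h2
  omega

theorem hf_le_SM {N : ℕ} {J : Ideal (S N)} (hJ : Hom J) (y : ℕ → Fin (N + 1) → ℚ) (k : ℕ) :
    ∀ l, hf J l ≤ SM k (hf (cut J y k)) l := by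
  induction k with
  | zero => intro l; rw [cut_zero, SM_zero]
  | succ k ih =>
    intro l
    refine (ih l).trans ?_
    rw [SM_succ']
    apply SM_mono
    intro l
    rw [cut_succ]
    exact hf_le_Sm (hom_cut hJ y k) (y k) l

/-- numerical regularity -/
def Reg {N : ℕ} (J : Ideal (S N)) (y : ℕ → Fin (N + 1) → ℚ) (k : ℕ) : Prop :=
  ∀ l, hf J l = SM k (hf (cut J y k)) l

theorem Reg.pred {N : ℕ} {J : Ideal (S N)} (hJ : Hom J) {y : ℕ → Fin (N + 1) → ℚ} {k : ℕ}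
    (h : Reg J y (k + 1)) : Reg J y k ∧ cln (cut J y k) (lin (y k)) = cut J y k := by
  have h1 : ∀ l, SM k (hf (cut J y k)) l ≤ SM k (Sm (hf (cut J y (k + 1)))) l := by
    apply SM_mono
    intro l
    rw [cut_succ]
    exact hf_le_Sm (hom_cut hJ y k) (y k) l
  have h2 : Reg J y k := by
    intro l
    apply le_antisymm (hf_le_SM hJ y k l)
    rw [h l, SM_succ']
    exact h1 l
  refine ⟨h2, ?_⟩
  apply cln_eq_of_hf (hom_cut hJ y k)
  have h3 : ∀ l, SM k (hf (cut J y k)) l = SM k (Sm (hf (cut J y (k + 1)))) l := by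
    intro l
    rw [← h2 l, h l, SM_succ']
  have h4 := SM_inj k h3
  intro l
  rw [h4 l, cut_succ]

theorem Reg.nzd {N : ℕ} {J : Ideal (S N)} (hJ : Hom J) {y : ℕ → Fin (N + 1) → ℚ} {k j : ℕ}
    (h : Reg J y k) (hj : j < k) : cln (cut J y j) (lin (y j)) = cut J y j := by
  induction k with
  | zero => omega
  | succ k ih =>
    rcases Nat.lt_succ_iff_lt_or_eq.1 hj with h1 | h1
    · exact ih (h.pred hJ).1 h1
    · rw [h1]; exact (h.pred hJ).2

/-- powers of a nonzerodivisor -/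
theorem mem_of_pow_mul {N : ℕ} {J : Ideal (S N)} {g x : S N} (hg : cln J g = J) {n : ℕ}
    (h : g ^ n * x ∈ J) : x ∈ J := by
  induction n with
  | zero => simpa using h
  | succ n ih =>
    apply ih
    rw [← hg, mem_cln, ← mul_assoc, ← pow_succ']
    exact h

theorem hf_eq_zero {N : ℕ} {I : Ideal (S N)} {l : ℕ} (h : ∀ f ∈ Sd N l, f ∈ I) : hf I l = 0 := by
  have := hf_le_of_codim (I := I) (c := 0) (T := Sd N l) le_rfl (by omega) h
  omega

/-- `F` is a nonzerodivisor modulo `Q + (y_0, ..., y_(m-1))` -/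
theorem cln_form_eq {N d : ℕ} {Q : Ideal (S N)} (hQ : Hom Q) {y : ℕ → Fin (N + 1) → ℚ} {m : ℕ}
    {F : S N} (hF : F ∈ Sd N d) (hreg : Reg Q y (m + 1)) {M0 M1 : ℕ}
    (hM0 : ∀ l, M0 ≤ l → ∀ f ∈ Sd N l, f ∈ cut Q y (m + 1))
    (hM1 : ∀ l, M1 ≤ l → ∀ f ∈ Sd N l, f ∈ cut Q y m ⊔ Ideal.span {F}) :
    cln (cut Q y m) F = cut Q y m := by
  set K := cut Q y m with hK
  have hKh : Hom K := hom_cut hQ y m
  have hnzd : cln K (lin (y m)) = K := (hreg.pred hQ).2
  have hstep : ∀ l, M0 ≤ l → hf K (l + 1) = hf K l := by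
    intro l hl
    have h1 := hf_colon hKh (lin_mem (y m)) l
    rw [hnzd] at h1
    have h2 : hf (K ⊔ Ideal.span {lin (y m)}) (l + 1) = 0 := by
      apply hf_eq_zero
      intro f hf
      rw [hK, ← cut_succ]
      exact hM0 (l + 1) (by omega) f hf
    omega
  have hconst : ∀ l j, M0 ≤ l → hf K (l + j) = hf K l := by
    intro l j hl
    induction j with
    | zero => rfl
    | succ j ih => rw [← ih, ← add_assoc]; exact hstep (l + j) (by omega)
  apply le_antisymm _ (le_cln K F)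
  apply le_of_agree (hom_cln hKh hF)
  intro l x hx hxF
  apply mem_of_pow_mul hnzd (n := M0 + M1)
  have hdeg : lin (y m) ^ (M0 + M1) * x ∈ Sd N (M0 + M1 + l) := by
    have h1 := ((mem_homogeneousSubmodule _ _).mp (lin_mem (y m))).pow (M0 + M1)
    rw [mem_homogeneousSubmodule]
    have h2 := h1.mul ((mem_homogeneousSubmodule _ _).mp hx)
    rwa [one_mul] at h2
  have hag : Agree (cln K F) K (M0 + M1 + l) := by
    apply agree_of_hf_eq (le_cln K F)
    have h1 := hf_colon hKh hF (M0 + M1 + l)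
    have h2 : hf (K ⊔ Ideal.span {F}) (M0 + M1 + l + d) = 0 :=
      hf_eq_zero (hM1 _ (by omega))
    have h3 := hconst (M0 + M1 + l) d (by omega)
    omega
  exact hag _ hdeg ((cln K F).mul_mem_left _ hxF)

/-- shift form of the exact formula -/
theorem hf_add_Sh {N d : ℕ} {J : Ideal (S N)} (hJ : Hom J) {F : S N} (hF : F ∈ Sd N d)
    (h : cln J F = J) (l : ℕ) : hf (J ⊔ Ideal.span {F}) l + Sh d (hf J) l = hf J l := by
  by_cases hl : l < d
  · rw [hf_sup_low hJ hF hl, Sh, if_pos hl]; rfl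
  · rw [Sh, if_neg hl]
    have h1 := hf_colon hJ hF (l - d)
    rw [h, Nat.sub_add_cancel (by omega)] at h1
    exact h1

/-- regularity passes to `Q + (F)` -/
theorem Reg.sup {N d : ℕ} {Q : Ideal (S N)} (hQ : Hom Q) {y : ℕ → Fin (N + 1) → ℚ} {m : ℕ}
    {F : S N} (hF : F ∈ Sd N d) (hreg : Reg Q y m) (hFQ : cln Q F = Q)
    (hFK : cln (cut Q y m) F = cut Q y m) : Reg (Q ⊔ Ideal.span {F}) y m := by
  intro l
  rw [cut_sup]
  have h1 := hf_add_Sh hQ hF hFQ l
  have h2 : SM m (fun a => hf (cut Q y m ⊔ Ideal.span {F}) a + Sh d (hf (cut Q y m)) a) l =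
      SM m (hf (cut Q y m)) l := by
    congr 1
    funext a
    exact hf_add_Sh (hom_cut hQ y m) hF hFK a
  have h4 : SM m (hf (cut Q y m)) = hf Q := by
    funext l
    exact (hreg l).symm
  rw [SM_add, SM_Sh, h4] at h2
  omega

end SepCI
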