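import Pool.Agent.SepCI.Basic

set_option autoImplicit false

namespace SepCI

open MvPolynomial

attribute [local instance] MvPolynomial.gradedAlgebra

section general
variable {σ : Type*}

/-- A derivation of `ℂ` acting on the coefficients of polynomials. -/
noncomputable def cDf (D : Derivation ℤ ℂ ℂ) (f : MvPolynomial σ ℂ) : MvPolynomial σ ℂ :=
  ∑ m ∈ f.support, monomial m (D (coeff m f))

theorem coeff_cDf (D : Derivation ℤ ℂ ℂ) (f : MvPolynomial σ ℂ) (m : σ →₀ ℕ) :
    coeff m (cDf D f) = D (coeff m f) := by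
  classical
  rw [cDf, coeff_sum]
  simp only [coeff_monomial]
  rw [Finset.sum_ite_eq' f.support m (fun a => D (coeff a f))]
  split_ifs with h
  · rfl
  · rw [notMem_support_iff.1 h, map_zero]

/-- The derivation of the polynomial ring acting through the coefficients. -/
noncomputable def cD (σ : Type*) (D : Derivation ℤ ℂ ℂ) :
    Derivation ℤ (MvPolynomial σ ℂ) (MvPolynomial σ ℂ) :=
  Derivation.mk'
    (AddMonoidHom.mk' (cDf D) (fun f g => by ext m; simp [coeff_cDf])).toIntLinearMap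
    (fun f g => by
      ext m
      classical
      simp only [AddMonoidHom.coe_toIntLinearMap, AddMonoidHom.mk'_apply, coeff_cDf, coeff_add,
        coeff_mul, map_sum, Derivation.leibniz, smul_eq_mul, Finset.sum_add_distrib]
      congr 1
      refine Finset.sum_nbij' Prod.swap Prod.swap ?_ ?_ ?_ ?_ ?_
      · intro a ha; simpa [Finset.mem_antidiagonal, add_comm] using ha
      · intro a ha; simpa [Finset.mem_antidiagonal, add_comm] using ha
      · intro a _; rfl
      · intro a _; rfl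
      · intro a _; rfl)

theorem coeff_cD (D : Derivation ℤ ℂ ℂ) (f : MvPolynomial σ ℂ) (m : σ →₀ ℕ) :
    coeff m (cD σ D f) = D (coeff m f) := coeff_cDf D f m

theorem cD_C (D : Derivation ℤ ℂ ℂ) (a : ℂ) : cD σ D (C a) = C (D a) := by
  classical
  ext m
  rw [coeff_cD, coeff_C, coeff_C]
  split_ifs <;> simp

theorem cD_X (D : Derivation ℤ ℂ ℂ) (i : σ) : cD σ D (X i) = 0 := by
  classical
  ext m
  rw [coeff_cD, coeff_X, coeff_zero]
  split_ifs <;> simp

end general

theorem cD_eq_coefD {N : ℕ} (D : Derivation ℤ ℂ ℂ) (f : S N) :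
    cD (Fin (N + 1)) D f = coefD D f := rfl

theorem D_rat (D : Derivation ℤ ℂ ℂ) (q : ℚ) : D (q : ℂ) = 0 := by
  have h1 : D ((q.den : ℂ) * (q : ℂ)) = 0 := by
    have : ((q.den : ℂ) * (q : ℂ)) = ((q.num : ℤ) : ℂ) := by
      have := Rat.den_mul_eq_num q
      exact_mod_cast congrArg (fun x : ℚ => (x : ℂ)) this
    rw [this]
    exact D.map_intCast q.num
  rw [D.leibniz, D.map_natCast, smul_zero, add_zero, smul_eq_mul] at h1
  rcases mul_eq_zero.1 h1 with h | h
  · exact absurd (by exact_mod_cast h) q.den_nz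
  · exact h

theorem cD_lin {N : ℕ} (D : Derivation ℤ ℂ ℂ) (c : Fin (N + 1) → ℚ) :
    cD (Fin (N + 1)) D (lin c) = 0 := by
  rw [lin, map_sum]
  apply Finset.sum_eq_zero
  intro j _
  rw [Derivation.leibniz, cD_X, cD_C, D_rat, map_zero, smul_zero, smul_zero, add_zero]

theorem cD_mem {N : ℕ} {k' : IntermediateField ℚ ℂ} {I : Ideal (S N)} (hI : DefOver k' I)
    (D : Derivation ℤ ℂ ℂ) (hD : ∀ z ∈ k', D z = 0) {f : S N} (hf : f ∈ I) :
    cD (Fin (N + 1)) D f ∈ I := by
  have hf' := hI hf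
  refine Submodule.span_induction (p := fun x _ => cD (Fin (N + 1)) D x ∈ I) ?_ ?_ ?_ ?_ hf'
  · rintro x ⟨_, hx⟩
    have : cD (Fin (N + 1)) D x = 0 := by
      ext m
      rw [coeff_cD, hD _ (hx m), coeff_zero]
    rw [this]; exact I.zero_mem
  · rw [map_zero]; exact I.zero_mem
  · intro x y _ _ hx hy
    rw [map_add]; exact I.add_mem hx hy
  · intro a x hx' hx
    have hxI : x ∈ I := by
      have h0 : Ideal.span {f | f ∈ I ∧ ∀ m, coeff m f ∈ k'} ≤ I := by
        rw [Ideal.span_le]; intro g hg; exact hg.1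
      exact h0 hx'
    rw [smul_eq_mul, Derivation.leibniz, smul_eq_mul, smul_eq_mul]
    exact I.add_mem (I.mul_mem_left _ hx) (I.mul_mem_right _ hxI)

section quot
variable {N : ℕ} {Q : Ideal (S N)} {kW : IntermediateField ℚ ℂ} (hdef : DefOver kW Q)
  (D : Derivation ℤ ℂ ℂ) (hD : ∀ z ∈ kW, D z = 0) {m : ℕ} (y : Fin m → Fin (N + 1) → ℚ)

theorem CR_mk_surjective : Function.Surjective (CR.mk Q y) := Ideal.Quotient.mk_surjective

theorem CR_mk_eq_zero {f : S N} : CR.mk Q y f = 0 ↔ f ∈ Q := Ideal.Quotient.eq_zero_iff_mem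

include hdef hD in
theorem dA_aux (f : S N) (hf : (CR.mk Q y).toRingHom.toIntAlgHom f = 0) :
    (CR.mk Q y).toRingHom.toIntAlgHom (cD (Fin (N + 1)) D f) = 0 := by
  have hf' : CR.mk Q y f = 0 := hf
  change CR.mk Q y (cD (Fin (N + 1)) D f) = 0
  rw [CR_mk_eq_zero] at hf' ⊢
  exact cD_mem hdef D hD hf'

/-- the derivation induced on the coordinate ring -/
noncomputable def dA : Derivation ℤ (CR Q y) (CR Q y) :=
  Derivation.liftOfSurjective (f := (CR.mk Q y).toRingHom.toIntAlgHom) (CR_mk_surjective y)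
    (d := cD (Fin (N + 1)) D) (dA_aux hdef D hD y)

theorem dA_mk (f : S N) : dA hdef D hD y (CR.mk Q y f) = CR.mk Q y (cD (Fin (N + 1)) D f) :=
  Derivation.liftOfSurjective_apply (f := (CR.mk Q y).toRingHom.toIntAlgHom)
    (CR_mk_surjective y) (d := cD (Fin (N + 1)) D) (dA_aux hdef D hD y) f

/-- lift of the normalisation ring to the polynomial ring -/
noncomputable def liftS {N m : ℕ} (y : Fin m → Fin (N + 1) → ℚ) :
    MvPolynomial (Fin m) ℂ →ₐ[ℂ] S N := aeval fun i => lin (y i)

theorem algebraMap_CR (r : MvPolynomial (Fin m) ℂ) :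
    algebraMap (MvPolynomial (Fin m) ℂ) (CR Q y) r = CR.mk Q y (liftS y r) := by
  change phi Q y r = CR.mk Q y (liftS y r)
  have : phi Q y = (Ideal.Quotient.mkₐ ℂ Q).comp (liftS y) := by
    apply MvPolynomial.algHom_ext
    intro i
    simp [phi, liftS]
  rw [this]
  rfl

theorem liftS_cD (r : MvPolynomial (Fin m) ℂ) :
    liftS y (cD (Fin m) D r) = cD (Fin (N + 1)) D (liftS y r) := by
  induction r using MvPolynomial.induction_on with
  | C a =>
    rw [cD_C]
    have h1 : liftS y (C a) = C a := by rw [liftS]; exact aeval_C _ _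
    have h2 : liftS y (C (D a)) = C (D a) := by rw [liftS]; exact aeval_C _ _
    rw [h1, h2, cD_C]
  | add p q hp hq => rw [map_add, map_add, map_add, map_add, hp, hq]
  | mul_X p i hp =>
    rw [Derivation.leibniz, cD_X, smul_zero, zero_add, smul_eq_mul, map_mul, map_mul, hp]
    have h1 : liftS y (X i) = lin (y i) := by rw [liftS]; exact aeval_X _ _
    rw [Derivation.leibniz, h1, cD_lin, smul_zero, zero_add, smul_eq_mul]

theorem dA_algebraMap (r : MvPolynomial (Fin m) ℂ) :
    dA hdef D hD y (algebraMap _ (CR Q y) r) = algebraMap _ (CR Q y) (cD (Fin m) D r) := by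
  rw [algebraMap_CR, dA_mk, algebraMap_CR, liftS_cD]

/-- the subalgebra generated by a linear form over the normalisation ring -/
noncomputable abbrev BB {N : ℕ} (Q : Ideal (S N)) {m : ℕ} (y : Fin m → Fin (N + 1) → ℚ)
    (c : Fin (N + 1) → ℚ) : Subalgebra (MvPolynomial (Fin m) ℂ) (CR Q y) :=
  Algebra.adjoin (MvPolynomial (Fin m) ℂ) {CR.mk Q y (lin c)}

theorem dA_lin (c : Fin (N + 1) → ℚ) : dA hdef D hD y (CR.mk Q y (lin c)) = 0 := by
  rw [dA_mk, cD_lin, map_zero]

theorem dA_mem (c : Fin (N + 1) → ℚ) {b : CR Q y} (hb : b ∈ BB Q y c) :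
    dA hdef D hD y b ∈ BB Q y c := by
  induction hb using Algebra.adjoin_induction with
  | mem x hx =>
    rw [Set.mem_singleton_iff.1 hx, dA_lin]; exact Subalgebra.zero_mem _
  | algebraMap r =>
    rw [dA_algebraMap]; exact Subalgebra.algebraMap_mem _ _
  | add x z _ _ hx hz => rw [map_add]; exact Subalgebra.add_mem _ hx hz
  | mul x z hx0 hz0 hx hz =>
    rw [Derivation.leibniz]
    exact Subalgebra.add_mem _ (Subalgebra.mul_mem _ hx0 hz) (Subalgebra.mul_mem _ hz0 hx)

/-- the derivation on the subalgebra generated by a rational linear form -/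
noncomputable def dB (c : Fin (N + 1) → ℚ) : Derivation ℤ (BB Q y c) (BB Q y c) :=
  Derivation.mk'
    (AddMonoidHom.mk' (fun b : BB Q y c => (⟨dA hdef D hD y b.1, dA_mem hdef D hD y c b.2⟩ : BB Q y c))
      (fun a b => Subtype.ext (by simp))).toIntLinearMap
    (fun a b => Subtype.ext (by
      simp only [AddMonoidHom.coe_toIntLinearMap, AddMonoidHom.mk'_apply, Subalgebra.coe_mul,
        Derivation.leibniz, smul_eq_mul, Subalgebra.coe_add]))

theorem coe_dB (c : Fin (N + 1) → ℚ) (b : BB Q y c) :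
    ((dB hdef D hD y c b : BB Q y c) : CR Q y) = dA hdef D hD y (b : CR Q y) := rfl

theorem dB_algebraMap (c : Fin (N + 1) → ℚ) (r : MvPolynomial (Fin m) ℂ) :
    dB hdef D hD y c (algebraMap _ (BB Q y c) r) = algebraMap _ (BB Q y c) (cD (Fin m) D r) := by
  apply Subtype.ext
  rw [coe_dB]
  exact dA_algebraMap hdef D hD y r

theorem dB_pow (c : Fin (N + 1) → ℚ) (b : BB Q y c) (i : ℕ)
    (hb : (b : CR Q y) = CR.mk Q y (lin c) ^ i) : dB hdef D hD y c b = 0 := by
  apply Subtype.ext
  rw [coe_dB, hb, Derivation.leibniz_pow, dA_lin]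
  simp

end quot

end SepCI
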