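import Pool.Agent.SepCI.ZNonzero

set_option autoImplicit false

/-! # M12: logarithmic derivative of the norm -/

namespace SepCI

open Matrix

theorem deriv_prod {R : Type*} [CommRing R] {ι : Type*} [DecidableEq ι] (D : Derivation ℤ R R)
    (s : Finset ι) (f : ι → R) :
    D (∏ i ∈ s, f i) = ∑ j ∈ s, (∏ i ∈ s.erase j, f i) * D (f j) := by
  induction s using Finset.induction_on with
  | empty => simp
  | insert a s ha ih =>
    rw [Finset.prod_insert ha, Derivation.leibniz, ih, Finset.sum_insert ha,
      Finset.erase_insert ha, smul_eq_mul, smul_eq_mul, add_comm, Finset.mul_sum]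
    congr 1
    refine Finset.sum_congr rfl fun j hj => ?_
    have hja : a ≠ j := fun h => ha (h ▸ hj)
    rw [Finset.erase_insert_of_ne hja, Finset.prod_insert (by simp [ha]), mul_assoc]

/-- Jacobi's formula for a derivation. -/
theorem jacobi {R : Type*} [CommRing R] {ι : Type*} [Fintype ι] [DecidableEq ι]
    (D : Derivation ℤ R R) (M : Matrix ι ι R) :
    D M.det = (M.adjugate * M.map D).trace := by
  have h1 : D M.det = ∑ j, (M.updateCol j fun i => D (M i j)).det := by
    simp only [Matrix.det_apply]
    rw [map_sum, Finset.sum_comm]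
    refine Finset.sum_congr rfl fun σ _ => ?_
    rw [← Finset.smul_sum]
    have h2 : D (Equiv.Perm.sign σ • ∏ i, M (σ i) i) = Equiv.Perm.sign σ • D (∏ i, M (σ i) i) := by
      rcases Int.units_eq_one_or (Equiv.Perm.sign σ) with h | h <;> rw [h] <;> simp
    rw [h2]
    congr 1
    rw [deriv_prod]
    refine Finset.sum_congr rfl fun j _ => ?_
    rw [← Finset.mul_prod_erase Finset.univ (fun i => (M.updateCol j fun i => D (M i j)) (σ i) i)
      (Finset.mem_univ j)]
    rw [mul_comm]
    congr 1
    · simp
    · refine Finset.prod_congr rfl fun i hi => ?_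
      rw [Matrix.updateCol_ne (Finset.ne_of_mem_erase hi)]
  rw [h1, Matrix.trace]
  refine Finset.sum_congr rfl fun j _ => ?_
  rw [← Matrix.cramer_apply, Matrix.cramer_eq_adjugate_mulVec, Matrix.diag_apply,
    Matrix.mul_apply]
  rfl

theorem dlog {R B : Type*} [CommRing R] [IsDomain R] [CommRing B] [IsDomain B] [Algebra R B]
    [FaithfulSMul R B] {ι : Type*} [Fintype ι] [DecidableEq ι]
    (b : Module.Basis ι R B) (Ft : B) (hFt : Ft ≠ 0) :
    ∃ Fs : B, Ft * Fs = algebraMap R B (Algebra.norm R Ft) ∧
      ∀ (D : Derivation ℤ B B) (DR : R → R), (∀ r, D (algebraMap R B r) = algebraMap R B (DR r)) →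
        (∀ i, D (b i) = 0) →
        DR (Algebra.norm R Ft) = Algebra.trace R B (Fs * D Ft) := by
  classical
  obtain ⟨Fs, hFs⟩ := exists_mul_eq_norm b Ft
  refine ⟨Fs, hFs, ?_⟩
  intro D DR hD hDb
  have hinj : Function.Injective (algebraMap R B) := FaithfulSMul.algebraMap_injective R B
  -- `DR` is a derivation
  have hadd : ∀ x y, DR (x + y) = DR x + DR y := by
    intro x y
    apply hinj
    rw [← hD, map_add, map_add, map_add, hD, hD]
  let DRlin : R →+ R := AddMonoidHom.mk' DR hadd
  let D' : Derivation ℤ R R := Derivation.mk' DRlin.toIntLinearMap (by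
    intro x y
    apply hinj
    change algebraMap R B (DR (x * y)) = algebraMap R B (x • DR y + y • DR x)
    rw [← hD, map_mul, Derivation.leibniz, map_add, smul_eq_mul, smul_eq_mul, smul_eq_mul,
      smul_eq_mul, map_mul, map_mul, hD, hD])
  have hD' : ∀ r, D' r = DR r := fun r => rfl
  set M := Algebra.leftMulMatrix b Ft with hM
  -- the matrix of `D Ft` is the derivative of the matrix of `Ft`
  have hmat : Algebra.leftMulMatrix b (D Ft) = M.map D' := by
    ext i j
    rw [Algebra.leftMulMatrix_eq_repr_mul, Matrix.map_apply, hM,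
      Algebra.leftMulMatrix_eq_repr_mul]
    have h1 : D Ft * b j = D (Ft * b j) := by
      rw [Derivation.leibniz, hDb, smul_zero, zero_add, smul_eq_mul, mul_comm]
    have h2 : D (Ft * b j) = ∑ i, D' (b.repr (Ft * b j) i) • b i := by
      conv_lhs => rw [← b.sum_repr (Ft * b j)]
      rw [map_sum]
      refine Finset.sum_congr rfl fun i _ => ?_
      rw [Algebra.smul_def, Derivation.leibniz, hDb, smul_zero, zero_add, hD, smul_eq_mul,
        mul_comm, hD', Algebra.smul_def]
    rw [h1, h2]
    have := b.repr_sum_self (fun i => D' (b.repr (Ft * b j) i))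
    exact congrFun this i
  -- multiplication by `Fs` is the adjugate
  have hadj : Algebra.leftMulMatrix b Fs = M.adjugate := by
    have h1 : M * Algebra.leftMulMatrix b Fs = M * M.adjugate := by
      rw [hM, ← map_mul, hFs, Matrix.mul_adjugate, ← Algebra.norm_eq_matrix_det b,
        AlgHom.commutes, Algebra.algebraMap_eq_smul_one]
    have hdet : M.det ≠ 0 := by
      rw [hM, ← Algebra.norm_eq_matrix_det b]
      exact norm_ne_zero_of_nzd b Ft fun v hv => (mul_eq_zero.1 hv).resolve_left hFt
    have h2 : M.adjugate * (M * Algebra.leftMulMatrix b Fs) = M.adjugate * (M * M.adjugate) := by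
      rw [h1]
    rw [← Matrix.mul_assoc, ← Matrix.mul_assoc, Matrix.adjugate_mul, Matrix.smul_mul,
      Matrix.smul_mul, Matrix.one_mul, Matrix.one_mul] at h2
    ext i j
    have h3 := congrFun (congrFun h2 i) j
    simp only [Matrix.smul_apply, smul_eq_mul] at h3
    exact mul_left_cancel₀ hdet h3
  rw [Algebra.norm_eq_matrix_det b, ← hD', jacobi, Algebra.trace_eq_matrix_trace b, map_mul,
    hmat, hadj]

end SepCI
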