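import Mathlib

set_option autoImplicit false

/-! # Subvarieties of small degree in complete intersections: basic definitions -/

namespace SepCI

open MvPolynomial

attribute [local instance] MvPolynomial.gradedAlgebra

/-- The polynomial ring in `N + 1` variables over `ℂ`. -/
abbrev S (N : ℕ) := MvPolynomial (Fin (N + 1)) ℂ

/-- Forms of degree `l`. -/
abbrev Sd (N l : ℕ) : Submodule ℂ (S N) := homogeneousSubmodule (Fin (N + 1)) ℂ l

/-- Homogeneous ideals. -/
abbrev Hom {N : ℕ} (I : Ideal (S N)) : Prop :=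
  I.IsHomogeneous (homogeneousSubmodule (Fin (N + 1)) ℂ)

/-- Hilbert function: dimension of the image of the forms of degree `l` in `S / I`. -/
noncomputable def hf {N : ℕ} (I : Ideal (S N)) (l : ℕ) : ℕ :=
  Module.finrank ℂ ((Sd N l).map (Ideal.Quotient.mkₐ ℂ I).toLinearMap)

/-- Homogeneous prime ideals. -/
structure HP {N : ℕ} (P : Ideal (S N)) : Prop where
  prime : P.IsPrime
  hom : Hom P

/-- Transcendence degree of the coordinate ring `S / P` (projective dimension plus one). -/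
noncomputable def md {N : ℕ} (P : Ideal (S N)) : ℕ :=
  Cardinal.toNat (Algebra.trdeg ℂ (S N ⧸ P))

/-- `P` has (affine) dimension `m` and degree `e`, expressed by two-sided bounds on the
Hilbert function. -/
def Bd {N : ℕ} (P : Ideal (S N)) (m e : ℕ) : Prop :=
  ∀ l, (∑ i ∈ Finset.range e, (if i ≤ l then (l - i + m - 1).choose (m - 1) else 0)) ≤ hf P l ∧
    hf P l ≤ ∑ i ∈ Finset.range e, (l + i + m - 1).choose (m - 1)

/-- The linear form with rational coefficients `c`. -/
noncomputable def lin {N : ℕ} (c : Fin (N + 1) → ℚ) : S N :=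
  ∑ j, C ((c j : ℚ) : ℂ) * X j

/-- Partial Noether position: every homogeneous prime above `J` and the linear forms `y` has
dimension at most `M - j`. -/
def PNN {N : ℕ} (J : Ideal (S N)) (M : ℕ) {j : ℕ} (y : Fin j → Fin (N + 1) → ℚ) : Prop :=
  ∀ q : Ideal (S N), HP q → J ≤ q → (∀ i, lin (y i) ∈ q) → md q ≤ M - j

/-- The map from the polynomial ring in `m` variables given by the linear forms `y`. -/
noncomputable def phi {N : ℕ} (P : Ideal (S N)) {m : ℕ} (y : Fin m → Fin (N + 1) → ℚ) :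
    MvPolynomial (Fin m) ℂ →ₐ[ℂ] S N ⧸ P :=
  aeval fun i => Ideal.Quotient.mkₐ ℂ P (lin (y i))

/-- Noether normalisation by the linear forms `y`. -/
def IsNN {N : ℕ} (P : Ideal (S N)) {m : ℕ} (y : Fin m → Fin (N + 1) → ℚ) : Prop :=
  Function.Injective (phi P y) ∧ (phi P y).toRingHom.Finite

/-- Exponent vectors of degree `d`. -/
abbrev Mon (N d : ℕ) := {m : Fin (N + 1) →₀ ℕ // m.degree = d}

/-- `F` is a form of degree `d` whose coefficients are algebraically independent over `k`. -/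
def GenOver {N : ℕ} (k : IntermediateField ℚ ℂ) (d : ℕ) (F : S N) : Prop :=
  F ∈ Sd N d ∧ AlgebraicIndependent k (fun m : Mon N d => coeff m.1 F)

/-- `k'` is an algebraically closed field, algebraic over an extension of `k` generated by
`c` elements. -/
def Small (k k' : IntermediateField ℚ ℂ) (c : ℕ) : Prop :=
  k ≤ k' ∧ IsAlgClosed k' ∧ ∃ w : Fin c → ℂ, ∀ z ∈ k',
    IsAlgebraic (IntermediateField.adjoin ℚ ((k : Set ℂ) ∪ Set.range w)) z

/-- The ideal `I` is generated by polynomials with coefficients in `k'`. -/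
def DefOver {N : ℕ} (k' : IntermediateField ℚ ℂ) (I : Ideal (S N)) : Prop :=
  I ≤ Ideal.span {f | f ∈ I ∧ ∀ m, coeff m f ∈ k'}

/-- Every form of degree `j` in `P` lies in `Q`. -/
def Agree {N : ℕ} (P Q : Ideal (S N)) (j : ℕ) : Prop :=
  ∀ f ∈ Sd N j, f ∈ P → f ∈ Q

/-- A derivation of `ℂ` acting on coefficients. -/
noncomputable def coefD {N : ℕ} (D : Derivation ℤ ℂ ℂ) (f : S N) : S N :=
  ∑ m ∈ f.support, monomial m (D (coeff m f))

/-- `T` is a space of forms of degree `d`, of codimension at most `c`, consisting of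
derivatives of `F` along derivations of `ℂ` killing `kW`. -/
def Tang {N : ℕ} (kW : IntermediateField ℚ ℂ) (d c : ℕ) (F : S N) (T : Submodule ℂ (S N)) :
    Prop :=
  T ≤ Sd N d ∧ Module.finrank ℂ (Sd N d) ≤ Module.finrank ℂ T + c ∧
    ∀ G ∈ T, ∃ D : Derivation ℤ ℂ ℂ, (∀ z ∈ kW, D z = 0) ∧ coefD D F = G

end SepCI

namespace SepCI

open MvPolynomial

/-- The coordinate ring `S / P`, regarded as an algebra over the polynomial ring in `m`
variables through the linear forms `y`. -/
def CR {N : ℕ} (P : Ideal (S N)) {m : ℕ} (_y : Fin m → Fin (N + 1) → ℚ) : Type := S N ⧸ P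

section
variable {N : ℕ} (P : Ideal (S N)) {m : ℕ} (y : Fin m → Fin (N + 1) → ℚ)

noncomputable instance : CommRing (CR P y) := inferInstanceAs (CommRing (S N ⧸ P))
noncomputable instance : Algebra ℂ (CR P y) := inferInstanceAs (Algebra ℂ (S N ⧸ P))
noncomputable instance instAlgCR : Algebra (MvPolynomial (Fin m) ℂ) (CR P y) :=
  (phi P y).toRingHom.toAlgebra

/-- The class of a polynomial in the coordinate ring. -/
noncomputable def CR.mk : S N →ₐ[ℂ] CR P y := Ideal.Quotient.mkₐ ℂ P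

end

/-- A `Good`ness package: the subalgebra generated by the linear form `c` over the Noether
normalisation `y` is free with basis the powers of `c`, its discriminant `δ` is nonzero,
homogeneous of degree `s (s - 1)` and multiplies the coordinate ring into it. -/
structure Pack {N : ℕ} (P : Ideal (S N)) {m : ℕ} (y : Fin m → Fin (N + 1) → ℚ)
    (c : Fin (N + 1) → ℚ) (s : ℕ) where
  b : Module.Basis (Fin s) (MvPolynomial (Fin m) ℂ)
    (Algebra.adjoin (MvPolynomial (Fin m) ℂ) {CR.mk P y (lin c)})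
  hb : ∀ i, ((b i : Algebra.adjoin (MvPolynomial (Fin m) ℂ) {CR.mk P y (lin c)}) : CR P y)
    = CR.mk P y (lin c) ^ (i : ℕ)
  hd : Algebra.discr (MvPolynomial (Fin m) ℂ) b ≠ 0
  hden : ∀ a : CR P y, Algebra.discr (MvPolynomial (Fin m) ℂ) b • a ∈
    Algebra.adjoin (MvPolynomial (Fin m) ℂ) {CR.mk P y (lin c)}
  hhom : ∃ f ∈ Sd N (s * (s - 1)),
    algebraMap (MvPolynomial (Fin m) ℂ) (CR P y) (Algebra.discr (MvPolynomial (Fin m) ℂ) b)
      = CR.mk P y f

/-- Chains of primes `Q_0 ≤ Q_1 ≤ ... ≤ Q_r = P`, dimension dropping by one, `Q_0` of degree one,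
`F_j ∈ Q_j`, `F_j ∉ Q_(j-1)` and `deg Q_j ≥ d_j * deg Q_(j-1)`. -/
def Chain {N : ℕ} : (r : ℕ) → (Fin r → S N) → (Fin r → ℕ) → Ideal (S N) → Prop
  | 0, _, _, P => HP P ∧ Bd P (md P) 1
  | r + 1, F, d, P => HP P ∧ ∃ (Q : Ideal (S N)) (s e : ℕ),
      Chain r (fun i => F i.castSucc) (fun i => d i.castSucc) Q ∧ HP Q ∧ Q ≤ P ∧
      md Q = md P + 1 ∧ F (Fin.last r) ∈ Sd N (d (Fin.last r)) ∧ 1 ≤ d (Fin.last r) ∧
      F (Fin.last r) ∉ Q ∧ F (Fin.last r) ∈ P ∧ Bd Q (md Q) s ∧ Bd P (md P) e ∧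
      s * d (Fin.last r) ≤ e

end SepCI
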