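import Pool.Agent.SepCI.Fields

set_option autoImplicit false

/-! # Definitions for the general case (comparable degrees) -/

namespace SepCI

open MvPolynomial Finset

attribute [local instance] MvPolynomial.gradedAlgebra

/-- The coefficients of the forms `F j` with `j < i`. -/
def cof {N r : ℕ} (F : Fin r → S N) (i : ℕ) : Set ℂ :=
  {z | ∃ j : Fin r, (j : ℕ) < i ∧ ∃ m, z = coeff m (F j)}

/-- The forms `F 0, F 1, ...` are jointly generic over `k`. -/
def JGen {N r : ℕ} (k : IntermediateField ℚ ℂ) (d : Fin r → ℕ) (F : Fin r → S N) : Prop :=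
  ∀ i : Fin r, GenOver (gen k (cof F i)) (d i) (F i)

/-- A place of `ℂ` over `K` with values in `ℂ`. -/
structure Plc (K : IntermediateField ℚ ℂ) where
  O : ValuationSubring ℂ
  φ : O →+* ℂ
  hK : ∀ z ∈ K, z ∈ O
  hφ : ∀ (z : ℂ) (hz : z ∈ K), φ ⟨z, hK z hz⟩ = z
  hneg : ∀ (x : ℂ) (_ : x ∉ O) (h : x⁻¹ ∈ O), φ ⟨x⁻¹, h⟩ = 0

/-- Specialisation of an ideal along a place. -/
noncomputable def sp {N : ℕ} {K : IntermediateField ℚ ℂ} (p : Plc K) (J : Ideal (S N)) :
    Ideal (S N) :=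
  Ideal.map (MvPolynomial.map p.φ)
    (J.comap (MvPolynomial.map (σ := Fin (N + 1)) p.O.subtype))

end SepCI
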