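import Pool.Agent.SepCI.Base
import Pool.Agent.SepCI.Base2
import Pool.Agent.SepCI.Beta2

set_option autoImplicit false

namespace SepCI

open MvPolynomial Finset

attribute [local instance] MvPolynomial.gradedAlgebra

/-! ## Field bookkeeping -/

theorem countable_small {k k' : IntermediateField ℚ ℂ} {c : ℕ} (hs : Small k k' c)
    (hk : (k : Set ℂ).Countable) : (k' : Set ℂ).Countable := by
  obtain ⟨-, -, w, hw⟩ := hs
  refine (countable_acl_gen hk (Set.countable_range w)).mono ?_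
  intro z hz
  exact mem_acl.2 (hw z hz)

/-! ## Sums of degrees -/

theorem comp_add {N : ℕ} {Q P J Pg : Ideal (S N)} (hQ : HP Q) (hP : HP P) (hJ : Hom J)
    {μ s e e' d : ℕ} (hμ : 2 ≤ μ) (hs : Bd Q (μ + 1) s) (he : Bd P μ e) (he' : Bd Pg μ e')
    {F : S N} (hF : F ∈ Sd N d) (hFQ : F ∉ Q) (h1 : Q ⊔ Ideal.span {F} ≤ P)
    (h2 : Q ⊔ Ideal.span {F} ≤ J) (hdim : ∀ q, HP q → P ≤ q → J ≤ q → md q ≤ μ - 1)
    (hle : ∀ l, hf Pg l ≤ hf J l) : e + e' ≤ s * d := by
  obtain ⟨C, hC⟩ := growth (J := P ⊔ J) (hP.hom.sup hJ) μ hμ (fun q hq hle =>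
    hdim q hq (le_sup_left.trans hle) (le_sup_right.trans hle))
  refine deg_add_le (C := C * (d + 1) ^ (μ - 2)) hμ he he' hs ?_
  intro l
  have h3 := hf_inf_sup hP.hom hJ (l + d)
  have h4 := hf_principal hQ hF hFQ l
  have h5 := hf_anti (le_inf h1 h2) (l + d)
  have h6 := hC (l + d)
  have h7 := hle (l + d)
  have h8 : (l + d + 1) ^ (μ - 2) ≤ (d + 1) ^ (μ - 2) * (l + 1) ^ (μ - 2) := by
    rw [← mul_pow]
    apply Nat.pow_le_pow_left
    nlinarith
  have h9 : C * (l + d + 1) ^ (μ - 2) ≤ C * (d + 1) ^ (μ - 2) * (l + 1) ^ (μ - 2) := by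
    rw [mul_assoc]
    exact Nat.mul_le_mul_left _ h8
  omega

/-! ## The residual ideal -/

/-- the ideal quotient `(I : P)` of homogeneous ideals -/
noncomputable def resid {N : ℕ} (I P : Ideal (S N)) : Ideal (S N) :=
  ⨅ y : {y : S N // y ∈ P ∧ ∃ l, y ∈ Sd N l}, cln I y.1

theorem hom_resid {N : ℕ} {I P : Ideal (S N)} (hI : Hom I) : Hom (resid I P) := by
  refine Ideal.IsHomogeneous.iInf fun y => ?_
  obtain ⟨y, hy, l, hl⟩ := y
  exact hom_cln hI hl

theorem le_resid {N : ℕ} (I P : Ideal (S N)) : I ≤ resid I P := le_iInf fun _ => le_cln _ _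

theorem mul_resid_le {N : ℕ} {I P : Ideal (S N)} (hP : Hom P) : P * resid I P ≤ I := by
  rw [Ideal.mul_le]
  intro y hy x hx
  have hx' : ∀ z : {y : S N // y ∈ P ∧ ∃ l, y ∈ Sd N l}, x ∈ cln I z.1 := by
    intro z
    exact (iInf_le (fun y : {y : S N // y ∈ P ∧ ∃ l, y ∈ Sd N l} => cln I y.1) z) hx
  rw [← sum_homogeneousComponent y, Finset.sum_mul]
  refine Ideal.sum_mem _ fun l _ => ?_
  have h1 : homogeneousComponent l y ∈ P := homogeneousComponent_mem_of_mem hP hy l
  exact hx' ⟨homogeneousComponent l y, h1, l, homogeneousComponent_mem l y⟩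

theorem mem_resid {N : ℕ} {I P : Ideal (S N)} {g : S N} (h : ∀ x ∈ P, g * x ∈ I) :
    g ∈ resid I P := by
  rw [resid, Ideal.mem_iInf]
  rintro ⟨y, hy, -⟩
  change y * g ∈ I
  rw [mul_comm]
  exact h y hy

/-! ## Lifting polynomials with coefficients in `K` -/

theorem exists_lift {N : ℕ} {K : IntermediateField ℚ ℂ} (p : Plc K) {v : S N}
    (hv : ∀ m, coeff m v ∈ K) : ∃ V : MvPolynomial (Fin (N + 1)) p.O,
      MvPolynomial.map p.O.subtype V = v ∧ MvPolynomial.map p.φ V = v := by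
  refine ⟨∑ m ∈ v.support, monomial m ⟨coeff m v, p.hK _ (hv m)⟩, ?_, ?_⟩
  · rw [map_sum]
    conv_rhs => rw [v.as_sum]
    refine Finset.sum_congr rfl fun m _ => ?_
    rw [map_monomial]
    rfl
  · rw [map_sum]
    conv_rhs => rw [v.as_sum]
    refine Finset.sum_congr rfl fun m _ => ?_
    rw [map_monomial, p.hφ _ (hv m)]

theorem dichotomy {N : ℕ} {Q P : Ideal (S N)} (hQ : HP Q) (hP : HP P)
    {k k' : IntermediateField ℚ ℂ} {μ s e c d a : ℕ} (hkc : (k : Set ℂ).Countable)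
    (hk : Small k k' c) (hdef : DefOver k' Q)
    (hμ : 2 ≤ μ) (hmQ : md Q = μ + 1) (hmP : md P = μ) (hQP : Q ≤ P) (hs : Bd Q (μ + 1) s)
    (he : Bd P μ e) {F : S N} (hF : GenOver k d F) (hFQ : F ∉ Q) (hFP : F ∈ P)
    (hmult : ∃ g, g ∉ P ∧ ∀ x ∈ P, g * x ∈ Q ⊔ Ideal.span {F}) (hca : c < hf Q a) (had : a < d) :
    e ≤ s * a ∨ s * (d - a) ≤ e := by
  classical
  obtain ⟨b, hb⟩ : ∃ b, a + b = d := ⟨d - a, by omega⟩
  have hb1 : 1 ≤ b := by omega
  -- two generic parameters
  set W0 : Set ℂ := {z | ∃ m, z = coeff m F} with hW0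
  have hW0c : W0.Countable := by
    refine (Set.countable_range (fun m => coeff m F)).mono ?_
    rintro z ⟨m, rfl⟩
    exact ⟨m, rfl⟩
  have hk'c := countable_small hk hkc
  have hK0c : (gen k' W0 : Set ℂ).Countable :=
    (countable_acl_gen hk'c hW0c).mono (le_acl _)
  obtain ⟨u, hu⟩ := exists_indep2 (gen k' W0) hK0c
  have hu' : AlgebraicIndependent k' u := algInd_mono (le_gen _ _) hu
  have hF1 : GenOver (gen k (Set.range u)) d F := by
    refine genOver_ext hF (algInd_mono ?_ hu)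
    exact gen_le (hk.1.trans (le_gen _ _)) (subset_gen _ _)
  have hk1 := small_gen hk (Set.range u)
  have hk'1 : k' ≤ acl (gen k' (Set.range u)) := (le_gen _ _).trans (le_acl _)
  have hdef1 : DefOver (acl (gen k' (Set.range u))) Q := defOver_mono hk'1 hdef
  obtain ⟨g, hg, hgk, hgQ, Pg, eg, hPg, hQPg, hgPg, hmPg, hbPg, hseg⟩ :=
    exists_irr hQ hμ hmQ hs hb1 hk.2.1 hdef u hu'
  obtain ⟨n, T, v, f, K, hKc, hkK, hv, hvT, hvi, hFv, hfT, hfj⟩ :=
    generic_coords hk1 hQ hdef1 hb hF1 hg (fun m => le_acl _ (hgk m)) hgQ hca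
  obtain ⟨p, t, ht0, ht, htT, j, htj⟩ := exists_place hKc f T hfT hfj
  choose V hV1 hV2 using fun i => exists_lift (N := N) p (v := v i) (fun m => hkK ((hv i).2 m))
  set F1 : MvPolynomial (Fin (N + 1)) p.O := ∑ i, C (⟨t * f i, ht i⟩ : p.O) * V i with hF1def
  have hF1c : MvPolynomial.map p.O.subtype F1 = C t * ∑ i, f i • v i := by
    rw [hF1def, map_sum, Finset.mul_sum]
    refine Finset.sum_congr rfl fun i _ => ?_
    rw [map_mul, map_C, hV1, smul_eq_C_mul, ← mul_assoc, ← map_mul]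
    rfl
  set G : S N := MvPolynomial.map p.φ F1 with hG
  have hGs : G = ∑ i, (p.φ ⟨t * f i, ht i⟩) • v i := by
    rw [hG, hF1def, map_sum]
    refine Finset.sum_congr rfl fun i _ => ?_
    rw [map_mul, map_C, hV2, smul_eq_C_mul]
  have hGQ : G ∉ Q := by
    intro h
    rw [hGs] at h
    have := congrFun (hvi _ h) j
    simp only [Pi.zero_apply] at this
    rw [htj] at this
    exact one_ne_zero this
  have hGg : G ∈ Ideal.span {g} := by
    rw [hGs]
    refine Ideal.sum_mem _ fun i _ => ?_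
    by_cases hi : i ∈ T
    · rw [htT i hi, zero_smul]
      exact Ideal.zero_mem _
    · obtain ⟨x, -, hx⟩ := hvT i hi
      rw [hx, smul_eq_C_mul]
      exact Ideal.mul_mem_left _ _ (Ideal.mul_mem_right _ _ (Ideal.mem_span_singleton_self g))
  -- the ideal `I = Q + (F)`
  set I : Ideal (S N) := Q ⊔ Ideal.span {F} with hI
  have hII : Q ⊔ Ideal.span {MvPolynomial.map p.O.subtype F1} = I := by
    have hun : IsUnit (C t : S N) := (isUnit_iff_ne_zero.2 ht0).map C
    apply le_antisymm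
    · refine sup_le le_sup_left ?_
      rw [Ideal.span_singleton_le_iff_mem, hF1c]
      refine Ideal.mul_mem_left _ _ ?_
      have : ∑ i, f i • v i = F - (F - ∑ i, f i • v i) := by ring
      rw [this]
      exact Ideal.sub_mem _ (Ideal.mem_sup_right (Ideal.mem_span_singleton_self F))
        (Ideal.mem_sup_left hFv)
    · refine sup_le le_sup_left ?_
      rw [Ideal.span_singleton_le_iff_mem]
      have : F = (F - ∑ i, f i • v i) + ∑ i, f i • v i := by ring
      rw [this]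
      refine Ideal.add_mem _ (Ideal.mem_sup_left hFv) (Ideal.mem_sup_right ?_)
      rw [hF1c]
      have h3 := Ideal.mem_span_singleton_self (C t * ∑ i, f i • v i)
      rwa [Ideal.unit_mul_mem_iff_mem _ hun] at h3
  have hFd : F ∈ Sd N d := hF.1
  have hIh : Hom I := hom_sup_span hQ.hom hFd
  have hIP : I ≤ P := sup_le hQP ((Ideal.span_singleton_le_iff_mem _).2 hFP)
  set J2 := resid I P with hJ2
  obtain ⟨g1, hg1, hg1'⟩ := hmult
  have hg1J : g1 ∈ J2 := mem_resid hg1'
  have hspI : sp p I ≤ Pg := by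
    have h1 := sp_gen_le p hQ (defOver_mono (hk'1.trans hkK) hdef) F1 hGQ
    rw [hII] at h1
    refine h1.trans (sup_le hQPg ?_)
    rw [Ideal.span_singleton_le_iff_mem]
    exact (Ideal.span_singleton_le_iff_mem _).2 hgPg hGg
  have hprod : sp p P * sp p J2 ≤ Pg := (sp_mul_le p (mul_resid_le hP.hom)).trans hspI
  rcases (hPg.prime.mul_le).1 hprod with h | h
  · right
    have h1 : eg ≤ e := deg_le_of_hf (C := 0) hμ hbPg he (fun l => by
      rw [zero_mul, add_zero]
      exact (hf_anti h l).trans (hf_sp_le p P l))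
    have : d - a = b := by omega
    rw [this]
    exact hseg.trans h1
  · left
    have h1 : e + eg ≤ s * d := by
      refine comp_add hQ hP (hom_resid hIh) hμ hs he hbPg hFd hFQ hIP (le_resid I P) ?_
        (fun l => (hf_anti h l).trans (hf_sp_le p J2 l))
      intro q hq hPq hJq
      have hne : P ≠ q := by
        rintro rfl
        exact hg1 (hJq hg1J)
      have := md_lt hP hq (lt_of_le_of_ne hPq hne)
      omega
    have h2 : s * d = s * a + s * b := by rw [← hb, mul_add]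
    omega

end SepCI
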