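import Pool.Agent.SepCI.Chain

set_option autoImplicit false

namespace SepCI

open MvPolynomial Finset Filter Topology

attribute [local instance] MvPolynomial.gradedAlgebra

/-- From `Bd P 2 e` the Hilbert function divided by `l` tends to `e`. -/
theorem tendsto_of_Bd {N : ℕ} {P : Ideal (S N)} {e : ℕ} (h : Bd P 2 e) :
    Tendsto (fun l : ℕ => (hf P l : ℝ) / l) atTop (𝓝 e) := by
  have hlow : ∀ l : ℕ, (e : ℝ) * l - e * e ≤ hf P l := by
    intro l
    have h1 := (h l).1
    have h2 : (e : ℤ) * l - e * e ≤ hf P l := by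
      have h1' : ((∑ i ∈ range e, (if i ≤ l then (l - i + 2 - 1).choose (2 - 1) else 0) : ℕ) : ℤ) ≤
          (hf P l : ℤ) := by exact_mod_cast h1
      refine le_trans ?_ h1'
      push_cast
      calc (e : ℤ) * l - e * e = ∑ i ∈ range e, ((l : ℤ) - e) := by simp
        _ ≤ ∑ i ∈ range e, (if i ≤ l then (((l - i + 2 - 1).choose (2 - 1) : ℕ) : ℤ) else 0) := by
            apply Finset.sum_le_sum
            intro i hi
            have := Finset.mem_range.1 hi
            split_ifs with hc
            · have : (l - i + 2 - 1).choose (2 - 1) = l - i + 1 := by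
                simp
              rw [this]
              push_cast
              omega
            · omega
        _ = _ := by
            apply Finset.sum_congr rfl
            intro i _
            split_ifs <;> simp
    exact_mod_cast h2
  have hup : ∀ l : ℕ, (hf P l : ℝ) ≤ e * l + e * e := by
    intro l
    have h1 := (h l).2
    have h2 : hf P l ≤ e * l + e * e := by
      refine h1.trans ?_
      calc ∑ i ∈ range e, (l + i + 2 - 1).choose (2 - 1) ≤ ∑ i ∈ range e, (l + e) := by
            apply Finset.sum_le_sum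
            intro i hi
            have := Finset.mem_range.1 hi
            have : (l + i + 2 - 1).choose (2 - 1) = l + i + 1 := by simp
            omega
        _ = e * l + e * e := by simp; ring
    exact_mod_cast h2
  have hlim1 : Tendsto (fun l : ℕ => (e : ℝ) - (e * e) / l) atTop (𝓝 e) := by
    have : Tendsto (fun l : ℕ => ((e : ℝ) * e) / l) atTop (𝓝 0) :=
      tendsto_const_div_atTop_nhds_zero_nat _
    simpa using tendsto_const_nhds.sub this
  have hlim2 : Tendsto (fun l : ℕ => (e : ℝ) + (e * e) / l) atTop (𝓝 e) := by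
    have : Tendsto (fun l : ℕ => ((e : ℝ) * e) / l) atTop (𝓝 0) :=
      tendsto_const_div_atTop_nhds_zero_nat _
    simpa using tendsto_const_nhds.add this
  refine tendsto_of_tendsto_of_tendsto_of_le_of_le' hlim1 hlim2 ?_ ?_
  · filter_upwards [eventually_gt_atTop 0] with l hl
    have hl' : (0 : ℝ) < l := by exact_mod_cast hl
    rw [le_div_iff₀ hl', sub_mul, div_mul_cancel₀ _ hl'.ne']
    exact hlow l
  · filter_upwards [eventually_gt_atTop 0] with l hl
    have hl' : (0 : ℝ) < l := by exact_mod_cast hl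
    rw [div_le_iff₀ hl', add_mul, div_mul_cancel₀ _ hl'.ne']
    exact hup l

theorem algInd_bot {ι : Type*} {t : ι → ℂ} (h : AlgebraicIndependent ℚ t) :
    AlgebraicIndependent (⊥ : IntermediateField ℚ ℂ) t := by
  rw [algebraicIndependent_iff] at h ⊢
  intro p hp
  have hsurj : Function.Surjective (algebraMap ℚ (⊥ : IntermediateField ℚ ℂ)) :=
    (IntermediateField.botEquiv ℚ ℂ).symm.surjective
  obtain ⟨q, rfl⟩ := MvPolynomial.map_surjective _ hsurj p
  have hq : aeval t q = 0 := by
    rw [aeval_map_algebraMap] at hp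
    exact hp
  rw [h q hq, map_zero]

/-- the union of all proper closed subsets defined over `ℚ` -/
def ZQ (σ : Type) : Set (MvPolynomial σ ℂ) :=
  {z | ∃ q : MvPolynomial σ ℚ, q ≠ 0 ∧ z = map (algebraMap ℚ ℂ) q}

theorem ZQ_countable (σ : Type) [Finite σ] : (ZQ σ).Countable := by
  have : Countable (MvPolynomial σ ℚ) := by
    rw [← Cardinal.mk_le_aleph0_iff]
    refine (MvPolynomial.cardinalMk_le_max (σ := σ) (R := ℚ)).trans ?_
    simp [Cardinal.mk_le_aleph0]
  refine (Set.countable_range (fun q : MvPolynomial σ ℚ => map (algebraMap ℚ ℂ) q)).mono ?_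
  rintro _ ⟨q, _, rfl⟩
  exact ⟨q, rfl⟩

theorem ZQ_ne (σ : Type) : ∀ z ∈ ZQ σ, z ≠ 0 := by
  rintro _ ⟨q, hq, rfl⟩ h
  apply hq
  apply MvPolynomial.map_injective (algebraMap ℚ ℂ) (algebraMap ℚ ℂ).injective
  rw [h, map_zero]

theorem algInd_of_ZQ {σ : Type} {t : σ → ℂ} (h : ∀ z ∈ ZQ σ, eval t z ≠ 0) :
    AlgebraicIndependent ℚ t := by
  rw [algebraicIndependent_iff]
  intro q hq
  by_contra hne
  refine h _ ⟨q, hne, rfl⟩ ?_
  rw [eval_map]
  exact hq

end SepCI
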