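import Pool.Agent.SepCI.Defs2
import Pool.Agent.SepCI.Dim
import Pool.Agent.SepCI.Colon

/-!
# Height: jointly generic forms in a prime cut down the dimension
-/

set_option autoImplicit false

namespace SepCI

open MvPolynomial Finset

attribute [local instance] MvPolynomial.gradedAlgebra

theorem defOver_mono {N : ℕ} {k k' : IntermediateField ℚ ℂ} (h : k ≤ k') {I : Ideal (S N)}
    (hI : DefOver k I) : DefOver k' I := by
  refine hI.trans (Ideal.span_mono ?_)
  rintro f ⟨hf, hfk⟩
  exact ⟨hf, fun m => h (hfk m)⟩

/-- adjoining a set to both fields keeps the smallness -/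
theorem small_gen {k k' : IntermediateField ℚ ℂ} {c : ℕ} (hs : Small k k' c) (T : Set ℂ) :
    Small (gen k T) (acl (gen k' T)) c := by
  obtain ⟨hk, -, w, hw⟩ := hs
  refine ⟨?_, isAlgClosed_acl _, w, ?_⟩
  · refine le_trans (gen_le (hk.trans (le_gen _ _)) (subset_gen _ _)) (le_acl _)
  · intro z hz
    have h1 : k' ≤ acl (gen k (Set.range w)) := by
      intro z hz
      rw [mem_acl]
      exact hw z hz
    have h2 := acl_gen_trans (T := T) h1 hz
    have h3 : gen k (Set.range w ∪ T) ≤ gen (gen k T) (Set.range w) := by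
      apply gen_le ((le_gen _ _).trans (le_gen _ _))
      apply Set.union_subset
      · exact subset_gen _ _
      · intro x hx
        exact le_gen _ _ (subset_gen _ _ hx)
    have h4 := acl_mono h3 h2
    rw [mem_acl] at h4
    exact h4

theorem cof_mono {N r : ℕ} (F : Fin r → S N) {i j : ℕ} (h : i ≤ j) : cof F i ⊆ cof F j := by
  rintro z ⟨a, ha, m, hm⟩
  exact ⟨a, lt_of_lt_of_le ha h, m, hm⟩

theorem chain_height {N t : ℕ} {k k' : IntermediateField ℚ ℂ} {c : ℕ} (hs : Small k k' c)
    {P Q : Ideal (S N)} (hP : HP P) (hQ : HP Q) (hQP : Q ≤ P) (hdef : DefOver k' Q)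
    (F : Fin t → S N) (d : Fin t → ℕ) (hgen : JGen k d F) (hFP : ∀ i, F i ∈ P)
    (hc : ∀ i, c < hf P (d i)) : md P + t ≤ md Q := by
  have key : ∀ i : ℕ, i ≤ t → ∃ q : Ideal (S N), HP q ∧ q ≤ P ∧
      DefOver (acl (gen k' (cof F i))) q ∧ md q + i ≤ md Q := by
    intro i
    induction i with
    | zero =>
      intro _
      exact ⟨Q, hQ, hQP, defOver_mono ((le_gen _ _).trans (le_acl _)) hdef, le_refl _⟩
    | succ i ih =>
      intro hi
      obtain ⟨q, hq, hqP, hqd, hqm⟩ := ih (by omega)
      have hit : i < t := hi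
      set i' : Fin t := ⟨i, hit⟩ with hi'
      have hgi : GenOver (gen k (cof F i)) (d i') (F i') := hgen i'
      have hFq : F i' ∉ q := by
        intro hF
        have h1 := count (small_gen hs (cof F i)) hq.hom hqd hgi hF
        have h2 := hf_anti hqP (d i')
        have h3 := hc i'
        omega
      have hJP : q ⊔ Ideal.span {F i'} ≤ P := by
        apply sup_le hqP
        rw [Ideal.span_le, Set.singleton_subset_iff]
        exact hFP i'
      have hPp := hP.prime
      obtain ⟨q', hq', hq'P⟩ := Ideal.exists_minimalPrimes_le hJP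
      have hq'hp : HP q' := minimal_hom (hom_sup_span hq.hom hgi.1) hq'
      have hlt : q < q' := by
        refine lt_of_le_of_ne (le_sup_left.trans hq'.1.2) ?_
        intro he
        apply hFq
        rw [he]
        exact hq'.1.2 (Ideal.mem_sup_right (Ideal.mem_span_singleton_self _))
      have hmd := md_lt hq hq'hp hlt
      refine ⟨q', hq'hp, hq'P, ?_, by omega⟩
      have := isAlgClosed_acl (gen k' (cof F (i + 1)))
      refine defOver_minimal ?_ hq'
      apply sup_le
      · refine (defOver_mono (acl_mono (gen_mono (cof_mono F (Nat.le_succ i)))) hqd).trans ?_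
        apply Ideal.span_mono
        rintro f ⟨hf, hfk⟩
        exact ⟨Ideal.mem_sup_left hf, hfk⟩
      · rw [Ideal.span_le, Set.singleton_subset_iff]
        apply Ideal.subset_span
        refine ⟨Ideal.mem_sup_right (Ideal.mem_span_singleton_self _), ?_⟩
        intro m
        apply le_acl
        apply subset_gen
        exact ⟨i', Nat.lt_succ_self i, m, rfl⟩
  obtain ⟨q, hq, hqP, -, hqm⟩ := key t le_rfl
  have := md_le hq hP hqP
  omega

end SepCI
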