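import Pool.Agent.SepCI.Pack
import Pool.Agent.SepCI.Beta2

set_option autoImplicit false

/-! # Bertini: the minimal polynomial of a form over the normalisation ring -/

namespace SepCI

open MvPolynomial

attribute [local instance] MvPolynomial.gradedAlgebra

section general

variable {R A : Type*} [CommRing R] [IsDomain R] [CommRing A] [IsDomain A] [Algebra R A]

/-- a monic equation of least degree is irreducible -/
theorem irr_of_indep {θ : A} {Φ : Polynomial R} (hm : Φ.Monic)
    (h0 : Polynomial.aeval θ Φ = 0) (hpos : Φ.natDegree ≠ 0)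
    (hind : ∀ f : Polynomial R, f.degree < Φ.natDegree → Polynomial.aeval θ f = 0 → f = 0) :
    Irreducible Φ := by
  rw [hm.irreducible_iff_natDegree]
  refine ⟨?_, ?_⟩
  · rintro rfl
    exact hpos (by simp)
  · intro f g hf hg hfg
    have hdeg : f.natDegree + g.natDegree = Φ.natDegree := by
      rw [← hfg, hf.natDegree_mul hg]
    rw [← hfg, map_mul] at h0
    rcases mul_eq_zero.1 h0 with h | h
    · right
      by_contra hg0
      refine hf.ne_zero (hind f ?_ h)
      rw [Polynomial.degree_eq_natDegree hf.ne_zero]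
      exact_mod_cast (by omega : f.natDegree < Φ.natDegree)
    · left
      by_contra hf0
      refine hg.ne_zero (hind g ?_ h)
      rw [Polynomial.degree_eq_natDegree hg.ne_zero]
      exact_mod_cast (by omega : g.natDegree < Φ.natDegree)

omit [IsDomain A] in
/-- scaling of the generator -/
theorem indep_scale {θ : A} {s : ℕ} {w : R} (hw : w ≠ 0)
    (hind : ∀ f : Polynomial R, f.degree < s → Polynomial.aeval θ f = 0 → f = 0) :
    ∀ f : Polynomial R, f.degree < s → Polynomial.aeval (algebraMap R A w * θ) f = 0 → f = 0 := by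
  intro f hf h
  have h1 : f.comp (Polynomial.C w * Polynomial.X) = 0 := by
    apply hind
    · rw [Polynomial.degree_lt_iff_coeff_zero] at hf ⊢
      intro i hi
      rw [Polynomial.comp_C_mul_X_coeff, hf i hi, zero_mul]
    · rw [Polynomial.aeval_comp, map_mul, Polynomial.aeval_C, Polynomial.aeval_X]
      exact h
  ext i
  have h2 := congrArg (fun g => Polynomial.coeff g i) h1
  simp only [Polynomial.comp_C_mul_X_coeff, Polynomial.coeff_zero] at h2
  rw [Polynomial.coeff_zero]
  exact (mul_eq_zero.1 h2).resolve_right (pow_ne_zero _ hw)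

end general

section pack

variable {N : ℕ} {Q : Ideal (S N)} {m : ℕ} {y : Fin m → Fin (N + 1) → ℚ}
  {c : Fin (N + 1) → ℚ} {s : ℕ}

/-- linear independence of the powers of the linear form -/
theorem pack_indep (pk : Pack Q y c s) (f : Polynomial (MvPolynomial (Fin m) ℂ))
    (hf : f.degree < s) (h : Polynomial.aeval (CR.mk Q y (lin c)) f = 0) : f = 0 := by
  classical
  rw [Polynomial.degree_lt_iff_coeff_zero] at hf
  have h1 : ∑ i : Fin s, f.coeff i • pk.b i = 0 := by
    apply Subtype.ext
    rw [AddSubmonoidClass.coe_finsetSum]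
    by_cases hs : s = 0
    · subst hs
      simp
    have hn : f.natDegree < s := by
      by_cases hf0 : f = 0
      · rw [hf0]; simp; omega
      · by_contra hcon
        push Not at hcon
        exact hf0 (Polynomial.leadingCoeff_eq_zero.1 (hf _ hcon))
    rw [Polynomial.aeval_eq_sum_range' hn, ← Fin.sum_univ_eq_sum_range
      (fun i => f.coeff i • (CR.mk Q y (lin c)) ^ i) s] at h
    refine Eq.trans ?_ h
    apply Finset.sum_congr rfl
    intro i _
    rw [Subalgebra.coe_smul, pk.hb]
  have h2 := Fintype.linearIndependent_iff.1 pk.b.linearIndependent _ h1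
  ext1 i
  rw [Polynomial.coeff_zero]
  by_cases hi : i < s
  · exact h2 ⟨i, hi⟩
  · exact hf i (by omega)

/-- the monic equation of the linear form -/
theorem pack_monic (pk : Pack Q y c s) : ∃ χ : Polynomial (MvPolynomial (Fin m) ℂ), χ.Monic ∧
    χ.natDegree = s ∧ Polynomial.aeval (CR.mk Q y (lin c)) χ = 0 := by
  classical
  set B := Algebra.adjoin (MvPolynomial (Fin m) ℂ) {CR.mk Q y (lin c)} with hB
  have hc : CR.mk Q y (lin c) ∈ B := Algebra.subset_adjoin rfl
  obtain ⟨z, hz⟩ : ∃ z : B, (z : CR Q y) = CR.mk Q y (lin c) ^ s :=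
    ⟨⟨CR.mk Q y (lin c), hc⟩ ^ s, rfl⟩
  set g : Polynomial (MvPolynomial (Fin m) ℂ) :=
    ∑ i : Fin s, Polynomial.C (pk.b.repr z i) * Polynomial.X ^ (i : ℕ) with hg
  have hgdeg : g.degree < s := by
    rw [Polynomial.degree_lt_iff_coeff_zero]
    intro i hi
    rw [hg, Polynomial.finsetSum_coeff]
    apply Finset.sum_eq_zero
    intro j _
    rw [Polynomial.coeff_C_mul, Polynomial.coeff_X_pow, if_neg (by have := j.2; omega), mul_zero]
  refine ⟨Polynomial.X ^ s - g, Polynomial.monic_X_pow_sub hgdeg, ?_, ?_⟩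
  · apply Polynomial.natDegree_eq_of_degree_eq_some
    rw [Polynomial.degree_sub_eq_left_of_degree_lt]
    · exact Polynomial.degree_X_pow s
    · rw [Polynomial.degree_X_pow]
      exact hgdeg
  · rw [map_sub, map_pow, Polynomial.aeval_X, hg, map_sum]
    have h1 := congrArg Subtype.val (pk.b.sum_repr z)
    rw [AddSubmonoidClass.coe_finsetSum] at h1
    change _ = (z : CR Q y) at h1
    rw [hz] at h1
    rw [← h1, sub_eq_zero]
    apply Finset.sum_congr rfl
    intro i _
    rw [Subalgebra.coe_smul, pk.hb, map_mul (Polynomial.aeval (CR.mk Q y (lin c))),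
      map_pow (Polynomial.aeval (CR.mk Q y (lin c))), Polynomial.aeval_X, Polynomial.aeval_C,
      Algebra.smul_def]

/-- the coefficients of the equation are homogeneous -/
theorem phi_hom (hQ : HP Q) (hy : IsNN Q y) {t : S N} {b : ℕ} (ht : t ∈ Sd N b)
    {Φ : Polynomial (MvPolynomial (Fin m) ℂ)} (hm : Φ.Monic)
    (h0 : Polynomial.aeval (CR.mk Q y t) Φ = 0)
    (hind : ∀ f : Polynomial (MvPolynomial (Fin m) ℂ), f.degree < Φ.natDegree →
      Polynomial.aeval (CR.mk Q y t) f = 0 → f = 0) (i : ℕ) (hi : i ≤ Φ.natDegree) :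
    Φ.coeff i ∈ homogeneousSubmodule (Fin m) ℂ (b * (Φ.natDegree - i)) := by
  classical
  have i1 : IsDomain (CR Q y) := isDomain_CR hQ
  have i2 : Module.Finite (MvPolynomial (Fin m) ℂ) (CR Q y) := finite_CR hy
  have i3 : FaithfulSMul (MvPolynomial (Fin m) ℂ) (CR Q y) := faithful_CR hy
  obtain ⟨σ, hσ⟩ := exists_scalA (y := y) hQ
  set s := Φ.natDegree with hs
  set f : Polynomial (MvPolynomial (Fin m) ℂ) := ∑ i ∈ Finset.range (s + 1),
    Polynomial.C (scal (Fin m) 2 (Φ.coeff i) * C (2 ^ (b * i)) - C (2 ^ (b * s)) * Φ.coeff i) *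
      Polynomial.X ^ i with hf
  have hfc : ∀ j, f.coeff j = if j < s + 1 then
      scal (Fin m) 2 (Φ.coeff j) * C (2 ^ (b * j)) - C (2 ^ (b * s)) * Φ.coeff j else 0 := by
    intro j
    rw [hf, Polynomial.finsetSum_coeff]
    simp only [Polynomial.coeff_C_mul, Polynomial.coeff_X_pow, mul_ite, mul_one, mul_zero]
    rw [Finset.sum_ite_eq]
    simp only [Finset.mem_range]
  have hdeg : f.degree < s := by
    rw [Polynomial.degree_lt_iff_coeff_zero]
    intro j hj
    rw [hfc]
    split_ifs with h
    · have : j = s := by omega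
      rw [this, hs, hm.coeff_natDegree, map_one, one_mul, mul_one, sub_self]
    · rfl
  have hz : Polynomial.aeval (CR.mk Q y t) f = 0 := by
    have h1 : σ (CR.mk Q y t) = algebraMap (MvPolynomial (Fin m) ℂ) (CR Q y) (C (2 ^ b)) *
        CR.mk Q y t := by
      rw [hσ, mk_hom_scal ht, Algebra.smul_def]
    have h2 := congrArg σ h0
    rw [Polynomial.aeval_eq_sum_range, map_sum, map_zero] at h2
    have h3 : ∑ i ∈ Finset.range (s + 1), algebraMap (MvPolynomial (Fin m) ℂ) (CR Q y)
        (scal (Fin m) 2 (Φ.coeff i) * C (2 ^ (b * i))) * CR.mk Q y t ^ i = 0 := by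
      refine Eq.trans ?_ h2
      apply Finset.sum_congr rfl
      intro i _
      have e1 : scalE (Fin m) (Φ.coeff i) = scal (Fin m) 2 (Φ.coeff i) := rfl
      have e2 : (C (2 ^ (b * i)) : MvPolynomial (Fin m) ℂ) = C (2 ^ b) ^ i := by
        rw [← C_pow, ← pow_mul]
      rw [Algebra.smul_def, map_mul σ, map_pow σ, h1, scalA_algMap hσ, mul_pow, e1, e2,
        map_mul (algebraMap (MvPolynomial (Fin m) ℂ) (CR Q y)),
        map_pow (algebraMap (MvPolynomial (Fin m) ℂ) (CR Q y))]
      ring
    rw [hf, map_sum]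
    have h4 : ∑ i ∈ Finset.range (s + 1), algebraMap (MvPolynomial (Fin m) ℂ) (CR Q y)
        (C (2 ^ (b * s)) * Φ.coeff i) * CR.mk Q y t ^ i = 0 := by
      rw [Polynomial.aeval_eq_sum_range] at h0
      have h5 := congrArg (fun z => algebraMap (MvPolynomial (Fin m) ℂ) (CR Q y)
        (C (2 ^ (b * s))) * z) h0
      simp only [mul_zero, Finset.mul_sum] at h5
      refine Eq.trans ?_ h5
      apply Finset.sum_congr rfl
      intro i _
      rw [Algebra.smul_def, map_mul, mul_assoc]
    have h6 : ∀ i ∈ Finset.range (s + 1), Polynomial.aeval (CR.mk Q y t)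
        (Polynomial.C (scal (Fin m) 2 (Φ.coeff i) * C (2 ^ (b * i)) -
          C (2 ^ (b * s)) * Φ.coeff i) * Polynomial.X ^ i) =
        algebraMap (MvPolynomial (Fin m) ℂ) (CR Q y)
          (scal (Fin m) 2 (Φ.coeff i) * C (2 ^ (b * i))) * CR.mk Q y t ^ i -
        algebraMap (MvPolynomial (Fin m) ℂ) (CR Q y)
          (C (2 ^ (b * s)) * Φ.coeff i) * CR.mk Q y t ^ i := by
      intro i _
      rw [map_mul (Polynomial.aeval (CR.mk Q y t)), map_pow (Polynomial.aeval (CR.mk Q y t)),
        Polynomial.aeval_X, Polynomial.aeval_C,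
        map_sub (algebraMap (MvPolynomial (Fin m) ℂ) (CR Q y)), sub_mul]
    rw [Finset.sum_congr rfl h6, Finset.sum_sub_distrib, h3, h4, sub_zero]
  have h7 := hind f hdeg hz
  have h8 := hfc i
  rw [h7, Polynomial.coeff_zero, if_pos (by omega)] at h8
  apply hom_of_scal
  have h9 : (C (2 ^ (b * i)) : MvPolynomial (Fin m) ℂ) ≠ 0 := by
    rw [Ne, C_eq_zero]
    exact pow_ne_zero _ two_ne_zero
  apply mul_left_cancel₀ h9
  have h10 : (C (2 ^ (b * s)) : MvPolynomial (Fin m) ℂ) =
      C (2 ^ (b * i)) * C (2 ^ (b * (s - i))) := by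
    rw [← C_mul, ← pow_add, ← mul_add]
    congr 3
    omega
  rw [h10] at h8
  linear_combination -h8

/-- the coefficients of the equation lie in the field of definition -/
theorem phi_coeff {kW : IntermediateField ℚ ℂ} (hk : IsAlgClosed kW) (hdef : DefOver kW Q)
    {t : S N} (ht : ∀ D : Derivation ℤ ℂ ℂ, (∀ w ∈ kW, D w = 0) → cD (Fin (N + 1)) D t = 0)
    {Φ : Polynomial (MvPolynomial (Fin m) ℂ)} (hm : Φ.Monic)
    (h0 : Polynomial.aeval (CR.mk Q y t) Φ = 0)
    (hind : ∀ f : Polynomial (MvPolynomial (Fin m) ℂ), f.degree < Φ.natDegree →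
      Polynomial.aeval (CR.mk Q y t) f = 0 → f = 0) (i : ℕ) (x : Fin m →₀ ℕ) :
    coeff x (Φ.coeff i) ∈ kW := by
  classical
  apply coeff_mem_of_cD hk
  intro D hD
  set s := Φ.natDegree with hs
  set f : Polynomial (MvPolynomial (Fin m) ℂ) := ∑ i ∈ Finset.range (s + 1),
    Polynomial.C (cD (Fin m) D (Φ.coeff i)) * Polynomial.X ^ i with hf
  have hfc : ∀ j, f.coeff j = if j < s + 1 then cD (Fin m) D (Φ.coeff j) else 0 := by
    intro j
    rw [hf, Polynomial.finsetSum_coeff]
    simp only [Polynomial.coeff_C_mul, Polynomial.coeff_X_pow, mul_ite, mul_one, mul_zero]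
    rw [Finset.sum_ite_eq]
    simp only [Finset.mem_range]
  have hdeg : f.degree < s := by
    rw [Polynomial.degree_lt_iff_coeff_zero]
    intro j hj
    rw [hfc]
    split_ifs with h
    · have : j = s := by omega
      rw [this, hs, hm.coeff_natDegree, Derivation.map_one_eq_zero]
    · rfl
  have hz : Polynomial.aeval (CR.mk Q y t) f = 0 := by
    have h1 : dA hdef D hD y (CR.mk Q y t) = 0 := by
      rw [dA_mk, ht D hD, map_zero]
    have h2 := congrArg (dA hdef D hD y) h0
    rw [Polynomial.aeval_eq_sum_range, map_sum, map_zero] at h2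
    rw [hf, map_sum]
    refine Eq.trans ?_ h2
    apply Finset.sum_congr rfl
    intro i _
    rw [Algebra.smul_def, Derivation.leibniz, dA_algebraMap, Derivation.leibniz_pow, h1, map_mul,
      map_pow, Polynomial.aeval_X, Polynomial.aeval_C]
    simp [mul_comm]
  have h7 := hind f hdeg hz
  have h8 := hfc i
  rw [h7, Polynomial.coeff_zero] at h8
  by_cases hi : i < s + 1
  · rw [if_pos hi] at h8
    exact h8.symm
  · rw [Polynomial.coeff_eq_zero_of_natDegree_lt (by omega), map_zero]

end pack

end SepCI
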