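import Pool.Agent.SepCI.IrrA

set_option autoImplicit false

/-! # Bertini: rational points and linear forms -/

namespace SepCI

open MvPolynomial

attribute [local instance] MvPolynomial.gradedAlgebra

/-! ### polynomials with coefficients in a subfield -/

/-- the polynomials with coefficients in `F` -/
def CF (σ : Type*) (F : IntermediateField ℚ ℂ) : Subring (MvPolynomial σ ℂ) where
  carrier := {f | ∀ x, coeff x f ∈ F}
  mul_mem' := by
    classical
    intro f g hf hg x
    rw [coeff_mul]
    exact F.sum_mem fun p _ => F.mul_mem (hf _) (hg _)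
  one_mem' := by
    classical
    intro x
    rw [coeff_one]
    split_ifs
    · exact F.one_mem
    · exact F.zero_mem
  add_mem' := by
    intro f g hf hg x
    rw [coeff_add]
    exact F.add_mem (hf _) (hg _)
  zero_mem' := by
    intro x
    rw [coeff_zero]
    exact F.zero_mem
  neg_mem' := by
    intro f hf x
    rw [coeff_neg]
    exact F.neg_mem (hf _)

section cf

variable {σ : Type*} {F : IntermediateField ℚ ℂ}

theorem mem_CF {f : MvPolynomial σ ℂ} : f ∈ CF σ F ↔ ∀ x, coeff x f ∈ F := Iff.rfl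

theorem C_mem_CF {a : ℂ} (ha : a ∈ F) : (C a : MvPolynomial σ ℂ) ∈ CF σ F := by
  classical
  intro x
  rw [coeff_C]
  split_ifs
  · exact ha
  · exact F.zero_mem

theorem X_mem_CF (i : σ) : (X i : MvPolynomial σ ℂ) ∈ CF σ F := by
  classical
  intro x
  rw [coeff_X]
  split_ifs
  · exact F.one_mem
  · exact F.zero_mem

theorem aeval_mem_CF {τ : Type*} {φ : σ → MvPolynomial τ ℂ} (hφ : ∀ i, φ i ∈ CF τ F)
    {f : MvPolynomial σ ℂ} (hf : f ∈ CF σ F) : aeval φ f ∈ CF τ F := by
  rw [aeval_def, eval₂_eq]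
  apply (CF τ F).sum_mem
  intro x _
  apply (CF τ F).mul_mem
  · exact C_mem_CF (hf x)
  · exact (CF τ F).prod_mem fun i _ => (CF τ F).pow_mem (hφ i) _

theorem eval_mem_CF {a : σ → ℂ} (ha : ∀ i, a i ∈ F) {f : MvPolynomial σ ℂ} (hf : f ∈ CF σ F) :
    eval a f ∈ F := by
  rw [eval_eq]
  exact F.sum_mem fun x _ => F.mul_mem (hf x) (F.prod_mem fun i _ => pow_mem (ha i) _)

theorem pderiv_mem_CF (i : σ) {f : MvPolynomial σ ℂ} (hf : f ∈ CF σ F) :
    pderiv i f ∈ CF σ F := by
  intro x
  rw [coeff_pderiv]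
  apply F.mul_mem (hf _)
  exact F.add_mem (natCast_mem F _) F.one_mem

theorem CF_mono {F' : IntermediateField ℚ ℂ} (h : F ≤ F') {f : MvPolynomial σ ℂ}
    (hf : f ∈ CF σ F) : f ∈ CF σ F' := fun x => h (hf x)

theorem lin_mem_CF {N : ℕ} (c : Fin (N + 1) → ℚ) : lin c ∈ CF (Fin (N + 1)) F := by
  rw [lin]
  apply (CF _ F).sum_mem
  intro j _
  apply (CF _ F).mul_mem
  · apply C_mem_CF
    exact F.algebraMap_mem (c j)
  · exact X_mem_CF j

end cf

/-! ### algebraically closed subfields -/

theorem mem_of_isAlgebraic {K : IntermediateField ℚ ℂ} (hK : IsAlgClosed K) {z : ℂ}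
    (hz : IsAlgebraic K z) : z ∈ K := by
  have h3 : algebraicClosure K ℂ = ⊥ :=
    (IsAlgClosed.algebraicClosure_eq_bot_iff K ℂ).mpr hK
  have h4 : z ∈ algebraicClosure K ℂ := mem_algebraicClosure_iff.2 hz
  rw [h3, IntermediateField.mem_bot] at h4
  obtain ⟨w, rfl⟩ := h4
  exact w.2

/-- roots of monic polynomials with coefficients in `K` -/
theorem root_mem {K : IntermediateField ℚ ℂ} (hK : IsAlgClosed K) {f : Polynomial ℂ}
    (hf : f.Monic) (hc : ∀ i, f.coeff i ∈ K) {z : ℂ} (hz : f.eval z = 0) : z ∈ K := by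
  apply mem_of_isAlgebraic hK
  have h1 : f ∈ Polynomial.lifts (algebraMap K ℂ) := by
    rw [Polynomial.lifts_iff_coeff_lifts]
    intro i
    exact ⟨⟨f.coeff i, hc i⟩, rfl⟩
  obtain ⟨g, hg⟩ := (Polynomial.mem_lifts f).1 h1
  refine ⟨g, ?_, ?_⟩
  · rintro rfl
    rw [Polynomial.map_zero] at hg
    exact hf.ne_zero hg.symm
  · rw [← hz, ← hg, Polynomial.eval_map_algebraMap]

/-- clearing denominators -/
theorem clear_den' {R : Type*} [CommRing R] [IsDomain R] (P : Polynomial (FractionRing R)) :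
    ∃ (s : R) (P₀ : Polynomial R), s ≠ 0 ∧
      P₀.map (algebraMap R (FractionRing R)) =
        Polynomial.C (algebraMap R (FractionRing R) s) * P := by
  obtain ⟨b, hb0, hb⟩ := IsLocalization.integerNormalization_spec (nonZeroDivisors R) P
  refine ⟨b, _, nonZeroDivisors.ne_zero hb0, hb.trans ?_⟩
  rw [Algebra.smul_def]
  rfl

/-- separability of a monic irreducible polynomial, without denominators -/
theorem sep_identity {m : ℕ} {Φ : Polynomial (MvPolynomial (Fin m) ℂ)} (hm : Φ.Monic)
    (hirr : Irreducible Φ) : ∃ (ρ : MvPolynomial (Fin m) ℂ) (A B : Polynomial (MvPolynomial (Fin m) ℂ)),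
      ρ ≠ 0 ∧ A * Φ + B * Polynomial.derivative Φ = Polynomial.C ρ := by
  set R := MvPolynomial (Fin m) ℂ
  have h0 : CharZero (FractionRing R) := algebraRat.charZero _
  have h1 : Irreducible (Φ.map (algebraMap R (FractionRing R))) :=
    (hm.irreducible_iff_irreducible_map_fraction_map (K := FractionRing R)).1 hirr
  have h2 : (Φ.map (algebraMap R (FractionRing R))).Separable := h1.separable
  obtain ⟨A, B, hAB⟩ := h2
  obtain ⟨s, A0, hs, hA⟩ := clear_den' A
  obtain ⟨t, B0, ht, hB⟩ := clear_den' B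
  refine ⟨s * t, Polynomial.C t * A0, Polynomial.C s * B0, mul_ne_zero hs ht, ?_⟩
  apply Polynomial.map_injective _ (IsFractionRing.injective R (FractionRing R))
  rw [Polynomial.map_add, Polynomial.map_mul, Polynomial.map_mul, Polynomial.map_mul,
    Polynomial.map_mul, hA, hB, Polynomial.map_C, Polynomial.map_C, Polynomial.map_C,
    ← Polynomial.derivative_map, map_mul, Polynomial.C_mul]
  linear_combination (Polynomial.C (algebraMap R (FractionRing R) s) *
    Polynomial.C (algebraMap R (FractionRing R) t)) * hAB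

/-- a good rational point -/
theorem exists_point {m : ℕ} {K : IntermediateField ℚ ℂ} (hK : IsAlgClosed K) (i₀ : Fin m)
    {Φ : Polynomial (MvPolynomial (Fin m) ℂ)} (hm : Φ.Monic) (hirr : Irreducible Φ)
    (hc : ∀ i, Φ.coeff i ∈ CF (Fin m) K) :
    ∃ (a : Fin m → ℂ) (τ : ℂ), (∀ i, a i ∈ K) ∧ a i₀ ≠ 0 ∧ τ ∈ K ∧
      (Φ.map (eval a)).eval τ = 0 ∧ ((Polynomial.derivative Φ).map (eval a)).eval τ ≠ 0 := by
  obtain ⟨ρ, A, B, hρ, hAB⟩ := sep_identity hm hirr
  have hne : (X i₀ * ρ : MvPolynomial (Fin m) ℂ) ≠ 0 := mul_ne_zero (X_ne_zero i₀) hρ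
  obtain ⟨a, ha, ha0⟩ : ∃ a : Fin m → ℂ, (∀ i, a i ∈ K) ∧ eval a (X i₀ * ρ) ≠ 0 := by
    by_contra hcon
    push Not at hcon
    apply hne
    apply funext_set (fun _ => (K : Set ℂ))
    · intro _
      have : Function.Injective (fun n : ℕ => (n : ℂ)) := Nat.cast_injective
      refine (Set.infinite_range_of_injective this).mono ?_
      rintro _ ⟨n, rfl⟩
      exact natCast_mem K n
    · intro x hx
      rw [map_zero]
      exact hcon x fun i => hx i (Set.mem_univ i)
  rw [map_mul, eval_X] at ha0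
  have ha1 := left_ne_zero_of_mul ha0
  have ha2 := right_ne_zero_of_mul ha0
  have hmm : (Φ.map (eval a)).Monic := hm.map _
  have hdeg : (Φ.map (eval a)).degree ≠ 0 := by
    rw [hm.degree_map]
    intro h0
    have h1 : Φ = 1 :=
      Polynomial.eq_one_of_monic_natDegree_zero hm (Polynomial.natDegree_eq_of_degree_eq_some h0)
    rw [h1] at hirr
    exact hirr.1 isUnit_one
  obtain ⟨τ, hτ⟩ := IsAlgClosed.exists_root _ hdeg
  refine ⟨a, τ, ha, ha1, ?_, hτ, ?_⟩
  · apply root_mem hK hmm _ hτ
    intro i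
    rw [Polynomial.coeff_map]
    exact eval_mem_CF ha (hc i)
  · intro h0
    have h1 := congrArg (fun f => (Polynomial.map (eval a) f).eval τ) hAB
    simp only [Polynomial.map_add, Polynomial.map_mul, Polynomial.eval_add, Polynomial.eval_mul,
      Polynomial.map_C, Polynomial.eval_C] at h1
    rw [h0] at h1
    have h2 : (Φ.map (eval a)).eval τ = 0 := hτ
    rw [h2, mul_zero, mul_zero, add_zero] at h1
    exact ha2 h1.symm

/-! ### the linear forms -/

section forms

variable {m : ℕ}

/-- `X_i - r X_j` -/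
noncomputable def LF (i j : Fin m) (r : ℂ) : MvPolynomial (Fin m) ℂ := X i - C r * X j

theorem LF_hom (i j : Fin m) (r : ℂ) : LF i j r ∈ homogeneousSubmodule (Fin m) ℂ 1 := by
  apply Submodule.sub_mem
  · exact isHomogeneous_X _ _
  · have := (isHomogeneous_C (Fin m) r).mul (isHomogeneous_X ℂ j)
    rwa [zero_add] at this

theorem LF_irr {i j : Fin m} (hij : i ≠ j) (r : ℂ) : Irreducible (LF i j r) := by
  classical
  have hc : coeff (Finsupp.single i 1) (LF i j r) = 1 := by
    rw [LF, coeff_sub, coeff_X, if_pos rfl, coeff_C_mul, coeff_X, if_neg, mul_zero, sub_zero]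
    intro h
    exact hij (Finsupp.single_left_injective one_ne_zero h).symm
  have h0 : LF i j r ≠ 0 := by
    intro h0
    rw [h0, coeff_zero] at hc
    exact zero_ne_one hc
  apply irreducible_of_totalDegree_eq_one
  · exact IsHomogeneous.totalDegree (LF_hom i j r) h0
  · intro x hx
    have := hx (Finsupp.single i 1)
    rw [hc] at this
    exact isUnit_of_dvd_one this

theorem LF_not_dvd {i j : Fin m} (r : ℂ) (a : Fin m → ℂ) (h : a i = r * a j)
    {f : MvPolynomial (Fin m) ℂ} (hf : eval a f ≠ 0) : ¬ LF i j r ∣ f := by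
  rintro ⟨g, rfl⟩
  apply hf
  rw [map_mul, LF, map_sub, map_mul, eval_X, eval_C, eval_X, h, sub_self, zero_mul]

theorem LF_cop {i j k : Fin m} (hij : i ≠ j) (hik : i ≠ k) (hjk : j ≠ k) (r r' : ℂ) (n b : ℕ) :
    IsRelPrime (LF i j r * X j ^ n) (LF k j r' ^ b) := by
  have hL := LF_irr (Ne.symm hjk) r'
  apply IsRelPrime.pow_right
  apply IsRelPrime.mul_left
  · apply IsRelPrime.symm
    rw [hL.isRelPrime_iff_not_dvd]
    apply LF_not_dvd r' (Pi.single i 1)
    · rw [Pi.single_eq_of_ne (Ne.symm hik), Pi.single_eq_of_ne (Ne.symm hij), mul_zero]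
    · rw [LF, map_sub, map_mul, eval_X, eval_C, eval_X, Pi.single_eq_same,
        Pi.single_eq_of_ne (Ne.symm hij), mul_zero, sub_zero]
      exact one_ne_zero
  · apply IsRelPrime.pow_left
    apply IsRelPrime.symm
    rw [hL.isRelPrime_iff_not_dvd]
    apply LF_not_dvd r' (fun l => if l = k then r' else 1)
    · rw [if_pos rfl, if_neg hjk, mul_one]
    · rw [eval_X, if_neg hjk]
      exact one_ne_zero

end forms

/-- derivative of an evaluation -/
theorem deriv_eval {κ R : Type*} [CommRing κ] [CommRing R] [Algebra κ R] (D : Derivation κ R R)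
    (Φ : Polynomial R) (G : R) :
    D (Φ.eval G) = Φ.sum (fun i r => D r * G ^ i) + (Polynomial.derivative Φ).eval G * D G := by
  classical
  induction Φ using Polynomial.induction_on' with
  | add p q hp hq =>
    rw [Polynomial.eval_add, map_add, hp, hq, Polynomial.sum_add_index, Polynomial.derivative_add,
      Polynomial.eval_add]
    · ring
    · intro i; rw [map_zero, zero_mul]
    · intro i a b; rw [map_add, add_mul]
  | monomial n a =>
    rw [Polynomial.eval_monomial, Polynomial.sum_monomial_index, Polynomial.derivative_monomial,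
      Polynomial.eval_monomial, Derivation.leibniz, Derivation.leibniz_pow]
    · simp only [smul_eq_mul, nsmul_eq_mul]
      ring
    · rw [map_zero, zero_mul]

end SepCI
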