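import Mathlib

set_option autoImplicit false

/-! # Irreducibility of the generic member of a linear system (Gauss lemma part) -/

namespace SepCI

open Polynomial

theorem irreducible_gen {A : Type} [CommRing A] [IsDomain A] [UniqueFactorizationMonoid A]
    (Φ : A[X]) (hmonic : Φ.Monic) (hirr : Irreducible Φ) (h0 h1 h2 : A) (hh1 : h1 ≠ 0)
    (hh2 : h2 ≠ 0) (hcop : IsRelPrime h1 h2) :
    Irreducible ((Φ.map (C : A →+* A[X])).comp (C (C h1) * X + C (C h2 * X + C h0))) := by
  set ψ : A[X][X] := Φ.map (C : A →+* A[X]) with hψ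
  have hψm : ψ.Monic := hmonic.map _
  have hψirr : Irreducible ψ := by
    have h3 : Prime (C Φ : A[X][X]) := Polynomial.prime_C_iff.2 hirr.prime
    have h4 : Prime (Bivariate.swap (R := A) (C Φ)) := by
      rw [MulEquiv.prime_iff]
      exact h3
    rw [Bivariate.swap_C] at h4
    exact h4.irreducible
  set c : A[X] := C h2 * X + C h0 with hc
  have hCh1 : (C h1 : A[X]) ≠ 0 := by
    rw [Ne, C_eq_zero]
    exact hh1
  -- primitivity
  have hprim : (ψ.comp (C (C h1) * X + C c)).IsPrimitive := by
    intro r hr
    rw [C_dvd_iff_dvd_coeff] at hr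
    have h3 := hr (ψ.comp (C (C h1) * X + C c)).natDegree
    rw [coeff_natDegree, leadingCoeff_comp, hψm.leadingCoeff, one_mul,
      leadingCoeff_linear hCh1, ← C_pow] at h3
    · have h4 : r.natDegree = 0 := by
        have h5 := natDegree_le_of_dvd h3 (by
          rw [Ne, C_eq_zero]
          exact pow_ne_zero _ hh1)
        rw [natDegree_C] at h5
        omega
      obtain ⟨r0, hr0⟩ : ∃ r0, r = C r0 := ⟨_, eq_C_of_natDegree_eq_zero h4⟩
      subst hr0
      have h6 : r0 ∣ h1 ^ ψ.natDegree := by
        rw [C_dvd_iff_dvd_coeff] at h3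
        have h7 := h3 0
        rwa [coeff_C_zero] at h7
      have h8 : r0 ∣ h2 ^ Φ.natDegree := by
        have h9 := hr 0
        rw [coeff_zero_eq_eval_zero, eval_comp, eval_add, eval_mul, eval_X, mul_zero, zero_add,
          eval_C, hψ, eval_map] at h9
        have h10 : (C r0 : A[X]) ∣ Φ.comp c := h9
        rw [C_dvd_iff_dvd_coeff] at h10
        have h11 := h10 (Φ.comp c).natDegree
        rw [coeff_natDegree, leadingCoeff_comp, hmonic.leadingCoeff, one_mul, hc,
          leadingCoeff_linear hh2] at h11
        · exact h11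
        · rw [hc, natDegree_linear hh2]
          exact one_ne_zero
      have h12 : IsUnit r0 := (hcop.pow : IsRelPrime (h1 ^ ψ.natDegree) (h2 ^ Φ.natDegree)) h6 h8
      exact h12.map C
    · rw [natDegree_linear hCh1]
      exact one_ne_zero
  rw [hprim.irreducible_iff_irreducible_map_fraction_map (K := FractionRing A[X])]
  have hψ2 : Irreducible (ψ.map (algebraMap A[X] (FractionRing A[X]))) :=
    (hψm.irreducible_iff_irreducible_map_fraction_map).1 hψirr
  rw [Polynomial.map_comp, Polynomial.map_add, Polynomial.map_mul, map_C, map_C, map_X]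
  have hne : algebraMap A[X] (FractionRing A[X]) (C h1) ≠ 0 := by
    rw [Ne, FaithfulSMul.algebraMap_eq_zero_iff]
    exact hCh1
  let _ := invertibleOfNonzero hne
  have h5 := (MulEquiv.irreducible_iff (algEquivCMulXAddC
    (algebraMap A[X] (FractionRing A[X]) (C h1)) (algebraMap A[X] (FractionRing A[X]) c))).2 hψ2
  rw [algEquivCMulXAddC_apply, ← comp_eq_aeval] at h5
  exact h5

end SepCI
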