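import Pool.Agent.SepCI.IrrPoint
import Pool.Agent.SepCI.IrrGauss

set_option autoImplicit false

/-! # The algebraic core of Bertini's theorem -/

namespace SepCI

open MvPolynomial

/-- a prime polynomial over a domain stays prime over the field of fractions -/
theorem prime_map_fraction {σ B F : Type} [CommRing B] [IsDomain B] [Field F] [Algebra B F]
    [IsFractionRing B F] (p : MvPolynomial σ B) (hp : Prime p) (hnc : ∀ b : B, p ≠ C b) :
    Prime (MvPolynomial.map (algebraMap B F) p) := by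
  let _ : Algebra (MvPolynomial σ B) (MvPolynomial σ F) := MvPolynomial.algebraMvPolynomial
  have hloc : IsLocalization ((nonZeroDivisors B).map (C (σ := σ))) (MvPolynomial σ F) :=
    MvPolynomial.isLocalization (nonZeroDivisors B) F
  have h1 : (Ideal.span {p}).IsPrime := (Ideal.span_singleton_prime hp.ne_zero).2 hp
  have hdisj : Disjoint (((nonZeroDivisors B).map (C (σ := σ)) : Submonoid (MvPolynomial σ B)) :
      Set (MvPolynomial σ B)) (Ideal.span {p} : Ideal (MvPolynomial σ B)) := by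
    rw [Set.disjoint_left]
    rintro x ⟨b, hb, rfl⟩ hx
    have h2 : p ∣ C b := Ideal.mem_span_singleton.1 hx
    obtain ⟨q, hq⟩ := h2
    have hb0 : b ≠ 0 := nonZeroDivisors.ne_zero hb
    have hq0 : q ≠ 0 := by
      rintro rfl
      rw [mul_zero, C_eq_zero] at hq
      exact hb0 hq
    have h3 := congrArg totalDegree hq
    rw [totalDegree_C, totalDegree_mul_of_isDomain hp.ne_zero hq0] at h3
    have h4 : p.totalDegree = 0 := by omega
    rw [totalDegree_eq_zero_iff_eq_C] at h4
    exact hnc _ h4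
  have h5 := IsLocalization.isPrime_of_isPrime_disjoint
    ((nonZeroDivisors B).map (C (σ := σ))) (MvPolynomial σ F) (Ideal.span {p}) h1 hdisj
  rw [Ideal.map_span, Set.image_singleton] at h5
  have h6 : algebraMap (MvPolynomial σ B) (MvPolynomial σ F) p =
    MvPolynomial.map (algebraMap B F) p := rfl
  rw [h6] at h5
  refine (Ideal.span_singleton_prime ?_).1 h5
  intro h7
  apply hp.ne_zero
  apply MvPolynomial.map_injective _ (IsFractionRing.injective B F)
  rw [h7, map_zero]

/-- polynomials in two variables as iterated univariate polynomials -/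
noncomputable def twoEquiv (A : Type) [CommRing A] :
    MvPolynomial (Fin 2) A ≃+* Polynomial (Polynomial A) :=
  (finSuccEquiv A 1).toRingEquiv.trans
    (Polynomial.mapEquiv (uniqueAlgEquiv A (Fin 1)).toRingEquiv)

theorem twoEquiv_C {A : Type} [CommRing A] (x : A) :
    twoEquiv A (C x) = Polynomial.C (Polynomial.C x) := by
  simp [twoEquiv, finSuccEquiv_apply]

theorem twoEquiv_X0 {A : Type} [CommRing A] :
    twoEquiv A (X 0) = Polynomial.X := by
  simp [twoEquiv, finSuccEquiv_X_zero]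

theorem twoEquiv_X1 {A : Type} [CommRing A] :
    twoEquiv A (X 1) = Polynomial.C Polynomial.X := by
  change Polynomial.map ((uniqueAlgEquiv A (Fin 1)).toRingEquiv.toRingHom)
    (finSuccEquiv A 1 (X (Fin.succ 0))) = _
  rw [finSuccEquiv_X_succ, Polynomial.map_C]
  congr 1
  change uniqueAlgEquiv A (Fin 1) (X 0) = _
  simp

/-- the generic member of the linear system is prime -/
theorem prime_gen {A : Type} [CommRing A] [IsDomain A] [UniqueFactorizationMonoid A]
    (Φ : Polynomial A) (hmonic : Φ.Monic) (hirr : Irreducible Φ) (h0 h1 h2 : A) (hh1 : h1 ≠ 0)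
    (hh2 : h2 ≠ 0) (hcop : IsRelPrime h1 h2) :
    Prime (Φ.eval₂ (C : A →+* MvPolynomial (Fin 2) A) (C h0 + X 0 * C h1 + X 1 * C h2)) := by
  rw [← MulEquiv.prime_iff (twoEquiv A)]
  have h3 : twoEquiv A (Φ.eval₂ (C : A →+* MvPolynomial (Fin 2) A)
      (C h0 + X 0 * C h1 + X 1 * C h2)) =
      (Φ.map (Polynomial.C : A →+* Polynomial A)).comp
        (Polynomial.C (Polynomial.C h1) * Polynomial.X +
          Polynomial.C (Polynomial.C h2 * Polynomial.X + Polynomial.C h0)) := by
    have h4 := Polynomial.hom_eval₂ Φ (C : A →+* MvPolynomial (Fin 2) A)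
      (twoEquiv A : MvPolynomial (Fin 2) A →+* Polynomial (Polynomial A))
      (C h0 + X 0 * C h1 + X 1 * C h2)
    have h5 : (twoEquiv A : MvPolynomial (Fin 2) A →+* Polynomial (Polynomial A)).comp
        (C : A →+* MvPolynomial (Fin 2) A) = Polynomial.C.comp Polynomial.C :=
      RingHom.ext fun x => twoEquiv_C x
    rw [h5] at h4
    rw [Polynomial.comp, Polynomial.eval₂_map]
    refine h4.trans ?_
    congr 1
    change twoEquiv A (C h0 + X 0 * C h1 + X 1 * C h2) = _
    rw [map_add, map_add, map_mul, map_mul, twoEquiv_C, twoEquiv_C, twoEquiv_C, twoEquiv_X0,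
      twoEquiv_X1, map_add, map_mul]
    ring
  rw [h3]
  exact (irreducible_gen Φ hmonic hirr h0 h1 h2 hh1 hh2 hcop).prime

theorem isRelPrime_descend {N : ℕ} {K : IntermediateField ℚ ℂ}
    {h1 h2 : MvPolynomial (Fin (N + 1)) K} (h : IsRelPrime (bc N K h1) (bc N K h2)) :
    IsRelPrime h1 h2 := by
  intro d hd1 hd2
  have h3 : IsUnit (bc N K d) := h (map_dvd _ hd1) (map_dvd _ hd2)
  rw [isUnit_iff_totalDegree_of_isReduced] at h3 ⊢
  obtain ⟨h4, h5⟩ := h3
  have hc : ∀ m, coeff m (bc N K d) = ((coeff m d : K) : ℂ) := fun m => coeff_bc d m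
  refine ⟨?_, ?_⟩
  · rw [isUnit_iff_ne_zero] at h4 ⊢
    intro h6
    apply h4
    rw [hc, h6]
    rfl
  · rw [totalDegree_eq_zero_iff_eq_C] at h5 ⊢
    apply MvPolynomial.map_injective _ (algebraMap K ℂ).injective
    refine h5.trans ?_
    rw [map_C, hc]
    rfl

theorem irr_core {m : ℕ} {K : IntermediateField ℚ ℂ} (_hK : IsAlgClosed K)
    (Φ : Polynomial (MvPolynomial (Fin m) ℂ)) (hmonic : Φ.Monic) (hirr : Irreducible Φ)
    (hcK : ∀ i x, coeff x (Φ.coeff i) ∈ K) (H : Fin 2 → MvPolynomial (Fin m) ℂ)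
    (H0 : MvPolynomial (Fin m) ℂ) (hHK : ∀ i x, coeff x (H i) ∈ K) (hH0K : ∀ x, coeff x H0 ∈ K)
    (hH : ∀ i, H i ≠ 0) (hcop : IsRelPrime (H 0) (H 1)) (u : Fin 2 → ℂ) (hu : AlgebraicIndependent K u)
    (a : Fin m → ℂ) (ha : ∀ i, a i ∈ K) (j : Fin m)
    (hzero : eval a (Φ.eval (H0 + C (u 0) * H 0 + C (u 1) * H 1)) = 0)
    (hsimple : eval a (pderiv j (Φ.eval (H0 + C (u 0) * H 0 + C (u 1) * H 1))) ≠ 0) :
    Irreducible (Φ.eval (H0 + C (u 0) * H 0 + C (u 1) * H 1)) := by
  obtain ⟨N, rfl⟩ : ∃ N, m = N + 1 := ⟨m - 1, by have := j.pos; omega⟩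
  -- descend everything to `K`
  obtain ⟨h0, hh0⟩ := exists_bc hH0K
  have hex : ∀ i, ∃ r, bc N K r = H i := fun i => exists_bc (hHK i)
  choose h hh using hex
  obtain ⟨Φ0, hΦ0, -, hΦ0m⟩ : ∃ q : Polynomial (MvPolynomial (Fin (N + 1)) K),
      Polynomial.map (bc N K) q = Φ ∧ q.natDegree = Φ.natDegree ∧ q.Monic := by
    apply Polynomial.lifts_and_natDegree_eq_and_monic _ hmonic
    rw [Polynomial.lifts_iff_coeff_lifts]
    intro i
    obtain ⟨r, hr⟩ := exists_bc (hcK i)
    exact ⟨r, hr⟩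
  have hΦ0irr : Irreducible Φ0 := by
    apply hΦ0m.irreducible_of_irreducible_map (bc N K)
    rw [hΦ0]
    exact hirr
  have hcop0 : IsRelPrime (h 0) (h 1) := by
    apply isRelPrime_descend
    rw [hh, hh]
    exact hcop
  have hne : ∀ i, h i ≠ 0 := by
    intro i h1
    apply hH i
    rw [← hh, h1, map_zero]
  have hprime := prime_gen Φ0 hΦ0m hΦ0irr h0 (h 0) (h 1) (hne 0) (hne 1) hcop0
  -- the field `K(u)`
  set F : IntermediateField ℚ ℂ := (IntermediateField.adjoin K (Set.range u)).restrictScalars ℚ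
    with hF
  have hmemF : ∀ b : MvPolynomial (Fin 2) K, aeval u b ∈ F := by
    intro b
    rw [hF, IntermediateField.mem_restrictScalars, IntermediateField.mem_adjoin_range_iff]
    exact ⟨b, 1, by rw [map_one, div_one]⟩
  let ε : MvPolynomial (Fin 2) K →+* F :=
    (aeval u : MvPolynomial (Fin 2) K →ₐ[K] ℂ).toRingHom.codRestrict F hmemF
  have hε : ∀ b, ((ε b : F) : ℂ) = aeval u b := fun b => rfl
  have hεinj : Function.Injective ε := by
    intro x y hxy
    have h1 : aeval u x = aeval u y := congrArg (fun z : F => (z : ℂ)) hxy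
    exact hu h1
  let _ : Algebra (MvPolynomial (Fin 2) K) F := ε.toAlgebra
  have _ : FaithfulSMul (MvPolynomial (Fin 2) K) F :=
    (faithfulSMul_iff_algebraMap_injective _ _).2 hεinj
  have _ : IsFractionRing (MvPolynomial (Fin 2) K) F := by
    apply IsFractionRing.of_field
    intro z
    have hz : (z : ℂ) ∈ IntermediateField.adjoin K (Set.range u) := z.2
    rw [IntermediateField.mem_adjoin_range_iff] at hz
    obtain ⟨r, s, hrs⟩ := hz
    refine ⟨r, s, Subtype.ext ?_⟩
    exact hrs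
  -- the generic polynomial over `K(u)`
  set Ψ1 := commAlgEquiv K (Fin 2) (Fin (N + 1))
    (Φ0.eval₂ C (C h0 + X 0 * C (h 0) + X 1 * C (h 1))) with hΨ1
  have hΨ1p : Prime Ψ1 := by
    rw [hΨ1, MulEquiv.prime_iff]
    exact hprime
  set Ψ0 : MvPolynomial (Fin (N + 1)) F :=
    MvPolynomial.map (algebraMap (MvPolynomial (Fin 2) K) F) Ψ1 with hΨ0
  have hbc : bc N F Ψ0 = Φ.eval (H0 + C (u 0) * H 0 + C (u 1) * H 1) := by
    let θ : MvPolynomial (Fin 2) (MvPolynomial (Fin (N + 1)) K) →+* S N :=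
      ((bc N F).comp (MvPolynomial.map (algebraMap (MvPolynomial (Fin 2) K) F))).comp
        (commAlgEquiv K (Fin 2) (Fin (N + 1))).toRingEquiv.toRingHom
    have hθC : θ.comp C = bc N K := by
      apply MvPolynomial.ringHom_ext
      · intro r
        change bc N F (MvPolynomial.map (algebraMap (MvPolynomial (Fin 2) K) F)
          (commAlgEquiv K (Fin 2) (Fin (N + 1)) (C (C r)))) = bc N K (C r)
        rw [commAlgEquiv_C, map_C, map_C, map_C, map_C]
        congr 1
        change aeval u (C r) = _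
        rw [aeval_C]
      · intro i
        change bc N F (MvPolynomial.map (algebraMap (MvPolynomial (Fin 2) K) F)
          (commAlgEquiv K (Fin 2) (Fin (N + 1)) (C (X i)))) = bc N K (X i)
        rw [commAlgEquiv_C, map_X, map_X, map_X, map_X]
    have hθX : ∀ i, θ (X i) = C (u i) := by
      intro i
      change bc N F (MvPolynomial.map (algebraMap (MvPolynomial (Fin 2) K) F)
          (commAlgEquiv K (Fin 2) (Fin (N + 1)) (X i))) = C (u i)
      rw [commAlgEquiv_X, map_C, map_C]
      congr 1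
      change aeval u (X i) = _
      rw [aeval_X]
    have hθC' : ∀ x, θ (C x) = bc N K x := fun x => congrArg (fun g => g x) hθC
    have h1 : bc N F Ψ0 = θ (Φ0.eval₂ C (C h0 + X 0 * C (h 0) + X 1 * C (h 1))) := rfl
    rw [h1, Polynomial.hom_eval₂, hθC, map_add, map_add, map_mul, map_mul, hθC', hθC', hθC',
      hθX, hθX, hh, hh, hh0, ← Polynomial.eval_map, hΦ0]
  have hnc : ∀ b, Ψ1 ≠ C b := by
    intro b hb
    apply hsimple
    rw [← hbc, hΨ0, hb, map_C, map_C, pderiv_C, map_zero]
  have hΨ0p : Prime Ψ0 := prime_map_fraction Ψ1 hΨ1p hnc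
  have haF : ∀ i, a i ∈ F := by
    intro i
    have h1 := hmemF (C ⟨a i, ha i⟩)
    rw [aeval_C] at h1
    exact h1
  rw [← hbc] at hzero hsimple ⊢
  apply irreducible_of_point Ψ0 hΨ0p.irreducible (fun i => ⟨a i, haF i⟩) j
  · exact hzero
  · exact hsimple

end SepCI
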