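import Pool.Agent.SepCI.IrrB
import Pool.Agent.SepCI.IrrCore

set_option autoImplicit false

/-! # Bertini: an irreducible norm -/

namespace SepCI

open MvPolynomial

attribute [local instance] MvPolynomial.gradedAlgebra

theorem exists_N {m : ℕ} {K : IntermediateField ℚ ℂ} (hK : IsAlgClosed K) {i j k : Fin m}
    (hij : i ≠ j) (hik : i ≠ k) (hjk : j ≠ k) {Φ : Polynomial (MvPolynomial (Fin m) ℂ)}
    (hm : Φ.Monic) (hirr : Irreducible Φ) (hc : ∀ l, Φ.coeff l ∈ CF (Fin m) K) {b : ℕ}
    (hb : 1 ≤ b) (hhom : ∀ l ≤ Φ.natDegree,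
      Φ.coeff l ∈ homogeneousSubmodule (Fin m) ℂ (b * (Φ.natDegree - l)))
    (u : Fin 2 → ℂ) (hu : AlgebraicIndependent K u) :
    ∃ G ∈ homogeneousSubmodule (Fin m) ℂ b, G ∈ CF (Fin m) (gen K (Set.range u)) ∧
      Irreducible (Φ.eval G) ∧ Φ.eval G ∈ homogeneousSubmodule (Fin m) ℂ (b * Φ.natDegree) := by
  classical
  obtain ⟨a, τ, ha, haj, hτ, hroot, hsimp⟩ := exists_point hK j hm hirr hc
  set H0 : MvPolynomial (Fin m) ℂ := C (τ / a j ^ b) * X j ^ b with hH0
  set H : Fin 2 → MvPolynomial (Fin m) ℂ :=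
    ![LF i j (a i / a j) * X j ^ (b - 1), LF k j (a k / a j) ^ b] with hH
  have hH0' : H 0 = LF i j (a i / a j) * X j ^ (b - 1) := rfl
  have hH1' : H 1 = LF k j (a k / a j) ^ b := rfl
  set G := H0 + C (u 0) * H 0 + C (u 1) * H 1 with hG
  have hLFK : ∀ l, LF l j (a l / a j) ∈ CF (Fin m) K := by
    intro l
    rw [LF]
    exact (CF _ K).sub_mem (X_mem_CF l) ((CF _ K).mul_mem (C_mem_CF (K.div_mem (ha l) (ha j)))
      (X_mem_CF j))
  have hH0K : H0 ∈ CF (Fin m) K :=
    (CF _ K).mul_mem (C_mem_CF (K.div_mem hτ (pow_mem (ha j) b))) ((CF _ K).pow_mem (X_mem_CF j) b)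
  have hHK : ∀ l, H l ∈ CF (Fin m) K := by
    intro l
    fin_cases l
    · exact (CF _ K).mul_mem (hLFK i) ((CF _ K).pow_mem (X_mem_CF j) _)
    · exact (CF _ K).pow_mem (hLFK k) b
  have hev : ∀ l, eval a (LF l j (a l / a j)) = 0 := by
    intro l
    rw [LF, map_sub, map_mul, eval_X, eval_C, eval_X, div_mul_cancel₀ _ haj, sub_self]
  have hevG : eval a G = τ := by
    have v0 : eval a H0 = τ := by
      rw [hH0, map_mul, map_pow, eval_C, eval_X, div_mul_cancel₀ _ (pow_ne_zero _ haj)]
    have v1 : eval a (H 0) = 0 := by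
      rw [hH0', map_mul, hev, zero_mul]
    have v2 : eval a (H 1) = 0 := by
      rw [hH1', map_pow, hev, zero_pow (by omega)]
    have v3 : eval a G = eval a H0 + u 0 * eval a (H 0) + u 1 * eval a (H 1) := by
      rw [hG]
      simp only [map_add, map_mul, eval_C]
    rw [v3, v0, v1, v2]
    ring
  have hevP : ∀ Ψ : Polynomial (MvPolynomial (Fin m) ℂ),
      eval a (Ψ.eval G) = (Ψ.map (eval a)).eval τ := by
    intro Ψ
    rw [← hevG, Polynomial.eval_map, Polynomial.eval₂_hom]
  have hdLF : ∀ l, l ≠ i → pderiv i (LF l j (a l / a j)) = 0 := by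
    intro l hl
    rw [LF, map_sub, pderiv_X_of_ne hl.symm.symm, pderiv_C_mul, pderiv_X_of_ne hij.symm, mul_zero,
      sub_zero]
  have hdG : pderiv i G = C (u 0) * X j ^ (b - 1) := by
    have e1 : pderiv i (X j ^ (b - 1) : MvPolynomial (Fin m) ℂ) = 0 := by
      rw [pderiv_pow, pderiv_X_of_ne hij.symm, mul_zero]
    have e2 : pderiv i (X j ^ b : MvPolynomial (Fin m) ℂ) = 0 := by
      rw [pderiv_pow, pderiv_X_of_ne hij.symm, mul_zero]
    have e3 : pderiv i (LF i j (a i / a j)) = 1 := by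
      rw [LF, map_sub, pderiv_X_self, pderiv_C_mul, pderiv_X_of_ne hij.symm, mul_zero, sub_zero]
    have e4 : pderiv i (LF k j (a k / a j) ^ b) = 0 := by
      rw [pderiv_pow, hdLF k hik.symm, mul_zero]
    rw [hG, map_add, map_add, hH0, pderiv_C_mul, e2, pderiv_C_mul, hH0', pderiv_mul, e3, e1,
      pderiv_C_mul, hH1', e4]
    ring
  have hGhom : G ∈ homogeneousSubmodule (Fin m) ℂ b := by
    have f1 : (X j ^ b : MvPolynomial (Fin m) ℂ).IsHomogeneous b := isHomogeneous_X_pow j b
    have f2 : (LF i j (a i / a j) * X j ^ (b - 1) : MvPolynomial (Fin m) ℂ).IsHomogeneous b := by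
      have := IsHomogeneous.mul (LF_hom i j (a i / a j)) (isHomogeneous_X_pow (R := ℂ) j (b - 1))
      rwa [show 1 + (b - 1) = b by omega] at this
    have f3 : (LF k j (a k / a j) ^ b : MvPolynomial (Fin m) ℂ).IsHomogeneous b := by
      have := IsHomogeneous.pow (LF_hom k j (a k / a j)) b
      rwa [one_mul] at this
    have g1 : ∀ (r : ℂ) (f : MvPolynomial (Fin m) ℂ), f.IsHomogeneous b →
        C r * f ∈ homogeneousSubmodule (Fin m) ℂ b := by
      intro r f hf
      have := (isHomogeneous_C (Fin m) r).mul hf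
      rwa [zero_add] at this
    rw [hG]
    exact Submodule.add_mem _ (Submodule.add_mem _ (g1 _ _ f1) (g1 _ _ f2)) (g1 _ _ f3)
  have huK : u 0 ∉ K := by
    intro h0
    exact hu.transcendental 0 (isAlgebraic_algebraMap (⟨u 0, h0⟩ : K))
  refine ⟨G, hGhom, ?_, ?_, ?_⟩
  · have hle : K ≤ gen K (Set.range u) := le_gen _ _
    have hug : ∀ l, u l ∈ gen K (Set.range u) := fun l => subset_gen _ _ ⟨l, rfl⟩
    rw [hG]
    exact (CF _ _).add_mem ((CF _ _).add_mem (CF_mono hle hH0K)
      ((CF _ _).mul_mem (C_mem_CF (hug 0)) (CF_mono hle (hHK 0))))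
      ((CF _ _).mul_mem (C_mem_CF (hug 1)) (CF_mono hle (hHK 1)))
  · apply irr_core hK Φ hm hirr (fun l x => hc l x) H H0 (fun l x => hHK l x) (fun x => hH0K x)
      _ _ u hu a ha i
    · rw [← hG, hevP]
      exact hroot
    · rw [← hG, deriv_eval, hdG, map_add, map_mul, map_mul, map_pow, eval_C, eval_X]
      intro h0
      have h1 : eval a (Φ.sum fun l r => pderiv i r * G ^ l) ∈ K := by
        rw [Polynomial.sum_def, map_sum]
        apply K.sum_mem
        intro l _
        rw [map_mul, map_pow, hevG]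
        exact K.mul_mem (eval_mem_CF ha (pderiv_mem_CF i (hc l))) (pow_mem hτ l)
      have h2 : eval a ((Polynomial.derivative Φ).eval G) ∈ K := by
        rw [hevP, Polynomial.eval_eq_sum_range]
        apply K.sum_mem
        intro l _
        rw [Polynomial.coeff_map, Polynomial.coeff_derivative]
        apply K.mul_mem _ (pow_mem hτ l)
        rw [map_mul]
        apply K.mul_mem (eval_mem_CF ha (hc _))
        rw [map_add, map_natCast, map_one]
        exact K.add_mem (natCast_mem K l) K.one_mem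
      have h3 : eval a ((Polynomial.derivative Φ).eval G) ≠ 0 := by
        rw [hevP]
        exact hsimp
      have h4 : eval a ((Polynomial.derivative Φ).eval G) * a j ^ (b - 1) ≠ 0 :=
        mul_ne_zero h3 (pow_ne_zero _ haj)
      apply huK
      have h5 : u 0 = -(eval a (Φ.sum fun l r => pderiv i r * G ^ l)) /
          (eval a ((Polynomial.derivative Φ).eval G) * a j ^ (b - 1)) := by
        rw [eq_div_iff h4]
        linear_combination h0
      rw [h5]
      exact K.div_mem (K.neg_mem h1) (K.mul_mem h2 (pow_mem (ha j) _))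
    · intro l
      fin_cases l
      · exact mul_ne_zero (LF_irr hij _).ne_zero (pow_ne_zero _ (X_ne_zero j))
      · exact pow_ne_zero _ (LF_irr hjk.symm _).ne_zero
    · exact LF_cop hij hik hjk _ _ _ _
  · rw [Polynomial.eval_eq_sum_range]
    apply Submodule.sum_mem
    intro l hl
    have hl' : l ≤ Φ.natDegree := by
      rw [Finset.mem_range] at hl
      omega
    have h1 := IsHomogeneous.mul (hhom l hl') (IsHomogeneous.pow hGhom l)
    have h2 : b * (Φ.natDegree - l) + b * l = b * Φ.natDegree := by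
      rw [← mul_add]
      congr 1
      omega
    rw [h2] at h1
    exact h1

end SepCI
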