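import Pool.Agent.SepCI.Fields

set_option autoImplicit false

/-! # Irreducible polynomials with a rational simple zero are geometrically irreducible -/

namespace SepCI

open MvPolynomial

theorem exists_fmap_ne_zero {N : ℕ} {F : IntermediateField ℚ ℂ} {f : S N} (hf : f ≠ 0) :
    ∃ φ : ℂ →ₗ[F] F, fmap φ f ≠ 0 := by
  by_contra hcon
  push Not at hcon
  apply hf
  have h1 := mem_span_fmap (K := F) f
  have h2 : Submodule.span ℂ (Set.range fun φ : ℂ →ₗ[F] F => bc N F (fmap φ f)) ≤ ⊥ := by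
    rw [Submodule.span_le]
    rintro _ ⟨φ, rfl⟩
    have h3 : bc N F (fmap φ f) = 0 := by
      rw [hcon φ, map_zero]
    exact h3
  exact (Submodule.mem_bot ℂ).1 (h2 h1)

/-- an irreducible polynomial over a subfield `F` of `ℂ` with an `F`-rational simple zero is
irreducible over `ℂ` -/
theorem irreducible_of_point {N : ℕ} {F : IntermediateField ℚ ℂ}
    (Ψ : MvPolynomial (Fin (N + 1)) F) (hirr : Irreducible Ψ) (a : Fin (N + 1) → F)
    (j : Fin (N + 1)) (hzero : aeval (fun i => (a i : ℂ)) (bc N F Ψ) = 0)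
    (hsimple : aeval (fun i => (a i : ℂ)) (pderiv j (bc N F Ψ)) ≠ 0) :
    Irreducible (bc N F Ψ) := by
  set P : S N := bc N F Ψ with hP
  set ev : S N →ₐ[ℂ] ℂ := aeval (fun i => (a i : ℂ)) with hev
  have hP0 : P ≠ 0 := by
    intro h
    apply hsimple
    rw [h, map_zero, map_zero]
  obtain ⟨ν, hν, hνP, hνa⟩ : ∃ ν : S N, Irreducible ν ∧ ν ∣ P ∧ ev ν = 0 := by
    obtain ⟨s, hs, hsP⟩ := WfDvdMonoid.exists_factors P hP0
    have h1 : ev s.prod = 0 := by
      obtain ⟨w, hw⟩ := hsP
      have h2 := congrArg ev hw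
      rw [map_mul, hzero, mul_eq_zero] at h2
      rcases h2 with h | h
      · exact h
      · exact absurd h (w.isUnit.map ev).ne_zero
    rw [map_multiset_prod, Multiset.prod_eq_zero_iff, Multiset.mem_map] at h1
    obtain ⟨ν, hν, h2⟩ := h1
    exact ⟨ν, hs ν hν, (Multiset.dvd_prod hν).trans hsP.dvd, h2⟩
  have hνprime : Prime ν := hν.prime
  obtain ⟨ρ, hρ⟩ := hνP
  have hρa : ev ρ ≠ 0 := by
    intro h
    apply hsimple
    rw [hρ, (pderiv j).leibniz, map_add, smul_eq_mul, smul_eq_mul, map_mul, map_mul, h, hνa,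
      zero_mul, zero_mul, add_zero]
  -- the ideals
  set mI0 : Ideal (MvPolynomial (Fin (N + 1)) F) :=
    RingHom.ker (aeval a : MvPolynomial (Fin (N + 1)) F →ₐ[F] F) with hmI0
  set mI : Ideal (S N) := mI0.map (bc N F) with hmI
  have hmem1 : ∀ r : S N, ev r = 0 → r ∈ mI := by
    intro r hr
    rw [hmI, mem_map_bc_iff]
    intro φ
    rw [hmI0, RingHom.mem_ker]
    have h1 := eval_fmap φ r a
    rw [h1]
    have h2 : (aeval (fun i => (a i : ℂ))) r = 0 := hr
    rw [h2, map_zero]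
  have hmem2 : ∀ r ∈ mI, ev r = 0 := by
    intro r hr
    have h1 : mI ≤ RingHom.ker ev := by
      rw [hmI, Ideal.map_le_iff_le_comap]
      intro x hx
      rw [Ideal.mem_comap, RingHom.mem_ker]
      have h2 := aeval_bc x a
      have h3 : aeval a x = 0 := hx
      rw [h3] at h2
      exact h2
    exact h1 hr
  have hJ : ∀ n, (Ideal.span {Ψ} ⊔ mI0 ^ n).map (bc N F) = Ideal.span {P} ⊔ mI ^ n := by
    intro n
    rw [Ideal.map_sup, Ideal.map_pow, Ideal.map_span, Set.image_singleton]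
  -- the factor is in all of them
  have hνJ : ∀ n, ν ∈ Ideal.span {P} ⊔ mI ^ n := by
    set r : S N := 1 - C (ev ρ)⁻¹ * ρ with hr
    have hr1 : r ∈ mI := by
      apply hmem1
      rw [hr, map_sub, map_one, map_mul, hev, aeval_C]
      change 1 - (ev ρ)⁻¹ * ev ρ = 0
      rw [inv_mul_cancel₀ hρa, sub_self]
    have hr2 : (1 - r) * ν ∈ Ideal.span {P} := by
      rw [Ideal.mem_span_singleton]
      refine ⟨C (ev ρ)⁻¹, ?_⟩
      rw [hρ, hr]
      ring
    intro n
    induction n with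
    | zero =>
      rw [pow_zero, Ideal.one_eq_top, sup_top_eq]
      exact Submodule.mem_top
    | succ n ih =>
      have h1 : ν = (1 - r) * ν + r * ν := by ring
      rw [h1]
      apply Ideal.add_mem
      · exact Ideal.mem_sup_left hr2
      · have h2 : r * ν ∈ mI * (Ideal.span {P} ⊔ mI ^ n) := Ideal.mul_mem_mul hr1 ih
        have h3 : mI * (Ideal.span {P} ⊔ mI ^ n) ≤ Ideal.span {P} ⊔ mI ^ (n + 1) := by
          rw [Ideal.mul_sup, pow_succ']
          exact sup_le_sup_right Ideal.mul_le_right _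
        exact h3 h2
  -- Krull
  have hdvd : ∀ g : S N, (∀ n, g ∈ Ideal.span {P} ⊔ mI ^ n) → ν ∣ g := by
    intro g hg
    have h1 : (Ideal.Quotient.mk (Ideal.span {P}) g) ∈
        (⨅ i : ℕ, mI ^ i • ⊤ : Submodule (S N) (S N ⧸ Ideal.span {P})) := by
      rw [Submodule.mem_iInf]
      intro i
      obtain ⟨p, hp, q, hq, hpq⟩ := Submodule.mem_sup.1 (hg i)
      have h2 : Ideal.Quotient.mk (Ideal.span {P}) g =
          q • (Ideal.Quotient.mk (Ideal.span {P}) 1) := by
        have h3 : q • (Ideal.Quotient.mk (Ideal.span {P}) 1) =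
          Ideal.Quotient.mk (Ideal.span {P}) (q * 1) := rfl
        rw [← hpq, map_add, Ideal.Quotient.eq_zero_iff_mem.2 hp, zero_add, h3, mul_one]
      rw [h2]
      exact Submodule.smul_mem_smul hq Submodule.mem_top
    rw [Ideal.mem_iInf_smul_pow_eq_bot_iff] at h1
    obtain ⟨r, hr⟩ := h1
    have h3 : (r : S N) * g - g ∈ Ideal.span {P} := by
      rw [← Ideal.Quotient.eq_zero_iff_mem, map_sub, sub_eq_zero]
      exact hr
    rw [Ideal.mem_span_singleton] at h3
    have h4 : ν ∣ ((r : S N) - 1) * g := by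
      have h5 : ((r : S N) - 1) * g = (r : S N) * g - g := by ring
      rw [h5]
      exact (Dvd.intro ρ hρ.symm).trans h3
    rcases hνprime.dvd_or_dvd h4 with h5 | h5
    · exfalso
      obtain ⟨w, hw⟩ := h5
      have h6 := congrArg ev hw
      rw [map_sub, map_one, hmem2 _ r.2, map_mul, hνa, zero_mul] at h6
      norm_num at h6
    · exact h5
  -- a rational multiple of the factor
  obtain ⟨φ, hφ⟩ := exists_fmap_ne_zero (F := F) hν.ne_zero
  set g0 := fmap φ ν with hg0
  have hg0J : ∀ n, bc N F g0 ∈ Ideal.span {P} ⊔ mI ^ n := by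
    intro n
    have h1 := hνJ n
    rw [← hJ n] at h1 ⊢
    rw [mem_map_bc_iff] at h1
    exact Ideal.mem_map_of_mem _ (h1 φ)
  obtain ⟨h, hh⟩ := hdvd _ hg0J
  have hbcinj : Function.Injective (bc N F) :=
    MvPolynomial.map_injective _ (algebraMap F ℂ).injective
  have hbg0 : bc N F g0 ≠ 0 := by
    intro h1
    apply hφ
    apply hbcinj
    rw [h1, map_zero]
  have hh0 : h ≠ 0 := by
    intro h1
    apply hbg0
    rw [hh, h1, mul_zero]
  have hdeg : (bc N F g0).totalDegree ≤ ν.totalDegree := by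
    apply totalDegree_le_of_support_subset
    intro m hm
    rw [mem_support_iff] at hm ⊢
    intro h1
    apply hm
    have h5 : coeff m ((bc N F) (fmap φ ν)) = ((coeff m (fmap φ ν) : F) : ℂ) := coeff_bc _ m
    rw [hg0, h5, coeff_fmap, h1, map_zero]
    rfl
  have hdegh : h.totalDegree = 0 := by
    rw [hh, totalDegree_mul_of_isDomain hν.ne_zero hh0] at hdeg
    omega
  have hhu : IsUnit h := by
    rw [totalDegree_eq_zero_iff_eq_C] at hdegh
    rw [hdegh] at hh0 ⊢
    have h1 : coeff 0 h ≠ 0 := by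
      intro h2
      apply hh0
      rw [h2, C_0]
    exact (isUnit_iff_ne_zero.2 h1).map C
  have hassoc : Associated ν (bc N F g0) := by
    obtain ⟨w, hw⟩ := hhu
    exact ⟨w, by rw [hw, hh]⟩
  -- descent of divisibility
  have hdvd0 : g0 ∣ Ψ := by
    have h1 : bc N F g0 ∣ P := hassoc.symm.dvd.trans (Dvd.intro ρ hρ.symm)
    obtain ⟨φ', hφ'⟩ := exists_fmap_ne_zero (F := F) (one_ne_zero : (1 : S N) ≠ 0)
    have h2 : P ∈ (Ideal.span {g0}).map (bc N F) := by
      rw [Ideal.map_span, Set.image_singleton, Ideal.mem_span_singleton]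
      exact h1
    rw [mem_map_bc_iff] at h2
    have h3 := h2 φ'
    have h4 : fmap φ' P = C (φ' 1) * Ψ := fmap_bc φ' Ψ
    rw [h4, Ideal.mem_span_singleton] at h3
    have h5 : φ' 1 ≠ 0 := by
      intro h6
      apply hφ'
      have h7 : fmap φ' (bc N F 1) = C (φ' 1) * 1 := fmap_bc φ' 1
      rw [map_one] at h7
      rw [h7, h6, C_0, zero_mul]
    have h6 : IsUnit (C (φ' 1) : MvPolynomial (Fin (N + 1)) F) :=
      (isUnit_iff_ne_zero.2 h5).map C
    exact (h6.dvd_mul_left).1 h3
  obtain ⟨h0, hh0'⟩ := hdvd0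
  rcases hirr.isUnit_or_isUnit hh0' with h1 | h1
  · exfalso
    have h2 : IsUnit (bc N F g0) := h1.map (bc N F)
    exact hν.not_isUnit (hassoc.symm.isUnit h2)
  · have h2 : Associated (bc N F g0) P := by
      obtain ⟨w, hw⟩ := h1.map (bc N F)
      refine ⟨w, ?_⟩
      rw [hw, hP, hh0', map_mul]
    exact (hassoc.trans h2).irreducible hν

end SepCI
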