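import Pool.Agent.SepCI.Bertini

set_option autoImplicit false

namespace SepCI

open MvPolynomial Finset

attribute [local instance] MvPolynomial.gradedAlgebra

theorem genOver_mono {N d : ℕ} {K L : IntermediateField ℚ ℂ} (h : K ≤ L) {F : S N}
    (hF : GenOver L d F) : GenOver K d F := ⟨hF.1, algInd_mono h hF.2⟩

theorem jgen_comp {N r t : ℕ} {k : IntermediateField ℚ ℂ} {d : Fin r → ℕ} {F : Fin r → S N}
    (h : JGen k d F) (f : Fin t → Fin r) (hf : StrictMono f) :
    JGen k (fun i => d (f i)) (fun i => F (f i)) := by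
  intro i
  refine genOver_mono ?_ (h (f i))
  refine gen_mono ?_
  rintro z ⟨j, hj, m, rfl⟩
  exact ⟨f j, hf (show j < i from hj), m, rfl⟩

/-- the variety cut out by the forms of degree `l` in `P` -/
theorem level_prime {N : ℕ} {P : Ideal (S N)} (hP : HP P) (l : ℕ)
    (k : IntermediateField ℚ ℂ) :
    ∃ Q : Ideal (S N), HP Q ∧ Q ≤ P ∧ Agree P Q l ∧
      Q ∈ (Ideal.span {f | f ∈ Q ∧ f ∈ Sd N l}).minimalPrimes ∧
      ∃ k', Small k k' ((N + 1) * hf P l) ∧ DefOver k' Q := by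
  have hPp := hP.prime
  have hle : Ideal.span {f | f ∈ P ∧ f ∈ Sd N l} ≤ P := Ideal.span_le.2 fun g hg => hg.1
  obtain ⟨Q, hQ, hQP⟩ := Ideal.exists_minimalPrimes_le hle
  have hQh : HP Q := minimal_hom (hom_span_level P l) hQ
  have hag : Agree P Q l := fun f hf hfP => hQ.1.2 (Ideal.subset_span ⟨hfP, hf⟩)
  have hset : {f | f ∈ Q ∧ f ∈ Sd N l} = {f | f ∈ P ∧ f ∈ Sd N l} := by
    ext f
    constructor
    · rintro ⟨h1, h2⟩
      exact ⟨hQP h1, h2⟩
    · rintro ⟨h1, h2⟩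
      exact ⟨hag f h2 h1, h2⟩
  have hhf : hf Q l = hf P l := (hf_eq_of_agree hQP hag).symm
  obtain ⟨k0, hk0⟩ := small_zero k
  obtain ⟨k', hk', hdef⟩ := small_of_level hk0 (Q := ⊥) (P := Q) (defOver_bot k0) hQh l (by
    rw [bot_sup_eq, hset]
    exact hQ)
  refine ⟨Q, hQh, hQP, hag, by rw [hset]; exact hQ, k', ?_, hdef⟩
  rwa [hhf, zero_add] at hk'

theorem pow_le_choose (l w : ℕ) : l ^ w ≤ w.factorial * (l + w).choose w := by
  induction w with
  | zero => simp
  | succ w ih =>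
    have h := choose_mul_succ l w
    calc l ^ (w + 1) = l ^ w * l := pow_succ _ _
      _ ≤ (w.factorial * (l + w).choose w) * (l + w + 1) := Nat.mul_le_mul ih (by omega)
      _ = w.factorial * ((l + w).choose w * (l + w + 1)) := by ring
      _ = w.factorial * ((l + (w + 1)).choose (w + 1) * (w + 1)) := by rw [h]
      _ = (w + 1).factorial * (l + (w + 1)).choose (w + 1) := by
          rw [Nat.factorial_succ]; ring

/-- the numerical part of the multiscale argument -/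
theorem multi_num (r m C₁ L0 X0 : ℕ) (lam X : ℕ → ℕ) (hlam : ∀ i < r, 1 ≤ lam i)
    (h0 : lam 0 ^ (m + r - 1) * X0 ≤ C₁ * L0 ^ (m + r - 1) * X 0)
    (hstep : ∀ i, i + 1 < r → lam (i + 1) ^ (m + r - (i + 1) - 1) * X i ≤
      C₁ * lam i ^ (m + r - (i + 1) - 1) * X (i + 1)) (hm : 1 ≤ m) :
    ∀ i < r, X0 * (∏ j ∈ range i, lam j) * lam i ^ (m + r - i - 1) ≤
      C₁ ^ (i + 1) * L0 ^ (m + r - 1) * X i := by
  intro i
  induction i with
  | zero =>
    intro _
    simpa [mul_comm] using h0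
  | succ i ih =>
    intro hi
    have h1 := ih (by omega)
    have h2 := hstep i hi
    obtain ⟨v, hv⟩ : ∃ v, m + r - (i + 1) - 1 = v := ⟨_, rfl⟩
    have hv' : m + r - i - 1 = v + 1 := by omega
    rw [hv] at h2 ⊢
    rw [hv'] at h1
    have hpos : 0 < lam i ^ v := pow_pos (hlam i (by omega)) _
    apply Nat.le_of_mul_le_mul_right (c := lam i ^ v) _ hpos
    calc X0 * (∏ j ∈ range (i + 1), lam j) * lam (i + 1) ^ v * lam i ^ v
        = (X0 * (∏ j ∈ range i, lam j) * lam i ^ (v + 1)) * lam (i + 1) ^ v := by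
          rw [prod_range_succ]; ring
      _ ≤ (C₁ ^ (i + 1) * L0 ^ (m + r - 1) * X i) * lam (i + 1) ^ v :=
          Nat.mul_le_mul_right _ h1
      _ = C₁ ^ (i + 1) * L0 ^ (m + r - 1) * (lam (i + 1) ^ v * X i) := by ring
      _ ≤ C₁ ^ (i + 1) * L0 ^ (m + r - 1) * (C₁ * lam i ^ v * X (i + 1)) :=
          Nat.mul_le_mul_left _ h2
      _ = C₁ ^ (i + 1 + 1) * L0 ^ (m + r - 1) * X (i + 1) * lam i ^ v := by ring

theorem small_mono {k k' : IntermediateField ℚ ℂ} {c c' : ℕ} (hs : Small k k' c) (h : c ≤ c') :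
    Small k k' c' := by
  obtain ⟨h1, h2, w, hw⟩ := hs
  refine ⟨h1, h2, fun i => if hi : (i : ℕ) < c then w ⟨i, hi⟩ else 0, ?_⟩
  intro z hz
  have h3 : z ∈ acl (gen k (Set.range w)) := mem_acl.2 (hw z hz)
  have h4 : gen k (Set.range w) ≤ gen k (Set.range
      (fun i : Fin c' => if hi : (i : ℕ) < c then w ⟨i, hi⟩ else 0)) := by
    apply gen_mono
    rintro _ ⟨i, rfl⟩
    refine ⟨⟨i, by omega⟩, ?_⟩
    simp
  exact mem_acl.1 (acl_mono h4 h3)

theorem exists_W {N C₁ : ℕ} (hG : GR N C₁) (hC : 1 ≤ C₁) (r : ℕ) (hr : 1 ≤ r) :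
    ∃ L₀ d₀ : ℕ, 1 ≤ L₀ ∧ ∀ (F : Fin r → S N) (d : Fin r → ℕ) (P : Ideal (S N)) (e : ℕ),
      Monotone d → (∀ i, d₀ ≤ d i) → JGen ⊥ d F → HP P → 2 ≤ md P → (∀ i, F i ∈ P) →
      Bd P (md P) e → e ≤ ∏ i, d i →
      ∃ (W : Ideal (S N)) (k' : IntermediateField ℚ ℂ) (s : ℕ), HP W ∧ W ≤ P ∧
        md W = md P + r ∧ Small ⊥ k' ((N + 1) * (L₀ + N).choose N) ∧ DefOver k' W ∧
        Bd W (md W) s ∧ 1 ≤ s ∧ s ≤ L₀ ^ (N + 1) := by
  classical
  set κ := C₁ * (N + 2) with hκ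
  have hκ1 : 1 ≤ κ := by
    rw [hκ]; nlinarith
  set K0 := (2 * κ) ^ r * ((N + 1).factorial * C₁ ^ r * 2 ^ N) with hK0
  set L₀ := K0 + 1 with hL₀
  set c0 := (N + 1) * (L₀ + N).choose N with hc0
  refine ⟨L₀, κ * L₀ + c0, by omega, ?_⟩
  intro F d P e hmon hd hgen hP h2 hFP he hed
  obtain ⟨m, hm⟩ : ∃ m, md P = m := ⟨_, rfl⟩
  have hmP1 : 1 ≤ md P := by omega
  have hdκ : ∀ i, L₀ ≤ d i / κ := by
    intro i
    rw [Nat.le_div_iff_mul_le (by omega)]
    have := hd i
    nlinarith [mul_comm κ L₀]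
  obtain ⟨W, hW, hWP, hagW, hminW, k', hk', hdefW⟩ := level_prime hP L₀ ⊥
  have hup : hf P L₀ ≤ (L₀ + N).choose N := hf_upper P L₀
  have hcle : (N + 1) * hf P L₀ ≤ c0 := Nat.mul_le_mul_left _ hup
  have hdimW : md P + r ≤ md W := by
    refine chain_height hk' hP hW hWP hdefW F d hgen hFP ?_
    intro i
    have h3 := hf_lower hP h2 (d i)
    have h4 := hd i
    have : 0 ≤ κ * L₀ := Nat.zero_le _
    omega
  have hmdW : md W ≤ N + 1 := md_le_top hW
  -- the levels `lam i`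
  set lam : ℕ → ℕ := fun i => if h : i < r then d ⟨i, h⟩ / κ else 1 with hlam
  have hlamv : ∀ i (h : i < r), lam i = d ⟨i, h⟩ / κ := fun i h => by rw [hlam]; simp [h]
  have hlamL : ∀ i < r, L₀ ≤ lam i := fun i h => by rw [hlamv i h]; exact hdκ _
  have hlammono : ∀ i, i + 1 < r → lam i ≤ lam (i + 1) := by
    intro i hi
    rw [hlamv i (by omega), hlamv (i + 1) hi]
    exact Nat.div_le_div_right (hmon (by
      rw [Fin.mk_le_mk]
      omega))
  have hgrow : ∀ i < r, ∀ l', 1 ≤ l' → l' ≤ lam i →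
      lam i ^ (m + r - i - 1) * hf P l' ≤ C₁ * l' ^ (m + r - i - 1) * hf P (lam i) := by
    intro i hi l' hl' hll
    obtain ⟨Q, hQ, hQP, hag, -, k'', hk'', hdefQ⟩ := level_prime hP (lam i) ⊥
    have hheight : md P + (r - i) ≤ md Q := by
      have hinj : StrictMono (fun a : Fin (r - i) => (⟨i + a, by omega⟩ : Fin r)) := by
        intro a b hab
        rw [Fin.mk_lt_mk]
        have : (a : ℕ) < b := hab
        omega
      refine chain_height hk'' hP hQ hQP hdefQ _ _ (jgen_comp hgen _ hinj)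
        (fun a => hFP _) ?_
      intro a
      have h3 : (N + 2) * hf P (lam i) ≤ hf P (d ⟨i, hi⟩) := by
        refine hf_double hG hP h2 ((by omega : 1 ≤ L₀).trans (hlamL i hi)) ?_ hC
        rw [hlamv i hi]
        exact Nat.mul_div_le _ _
      have h4 : hf P (d ⟨i, hi⟩) ≤ hf P (d ⟨i + a, by omega⟩) := by
        refine hf_mono hP hmP1 (hmon ?_)
        rw [Fin.mk_le_mk]
        omega
      have h5 := hf_lower hP h2 (lam i)
      have h6 : (N + 2) * hf P (lam i) = (N + 1) * hf P (lam i) + hf P (lam i) := by ring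
      omega
    have hX : ∃ j, (X j : S N) ∉ Q := exists_X_notMem hQ (by omega)
    have hag' : Agree P Q l' := agree_down hQ.prime hX hll hag
    have h7 := hG Q l' (lam i) (m + (r - i)) hQ hl' hll (by omega) (by omega)
    rw [← hf_eq_of_agree hQP hag, ← hf_eq_of_agree hQP hag'] at h7
    have h8 : m + (r - i) - 1 = m + r - i - 1 := by omega
    rwa [h8] at h7
  have hdimW' : md W ≤ md P + r := by
    by_contra hcon
    have hcon' : md P + r + 1 ≤ md W := by omega
    have hnum := multi_num r m C₁ L₀ (hf P L₀) lam (fun i => hf P (lam i))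
      (fun i hi => (by omega : 1 ≤ L₀).trans (hlamL i hi))
      (by
        have := hgrow 0 (by omega) L₀ (by omega) (hlamL 0 (by omega))
        simpa using this)
      (by
        intro i hi
        exact hgrow (i + 1) hi (lam i) ((by omega : 1 ≤ L₀).trans (hlamL i (by omega)))
          (hlammono i hi))
      (by omega) (r - 1) (by omega)
    obtain ⟨r', rfl⟩ : ∃ r', r = r' + 1 := ⟨r - 1, by omega⟩
    simp only [Nat.add_sub_cancel] at hnum
    have he1 : m + (r' + 1) - r' - 1 = m := by omega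
    have he2 : m + (r' + 1) - 1 = m + r' := by omega
    rw [he1, he2] at hnum
    set lr := lam r' with hlr
    have hlr1 : 1 ≤ lr := (by omega : 1 ≤ L₀).trans (hlamL r' (by omega))
    obtain ⟨v, rfl⟩ : ∃ v, m = v + 1 := ⟨m - 1, by omega⟩
    have h3 : hf P lr ≤ e * (2 ^ N * lr ^ v) := by
      have h4 := hf_le_deg hP hmP1 rfl he lr
      rw [hm] at h4
      simp only [Nat.add_sub_cancel, show lr + (v + 1) - 1 = lr + v by omega] at h4
      refine h4.trans (Nat.mul_le_mul_left _ ?_)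
      calc (lr + v).choose v ≤ (lr + 1) ^ v := choose_le_pow _ _
        _ ≤ (2 * lr) ^ v := Nat.pow_le_pow_left (by omega) _
        _ = 2 ^ v * lr ^ v := mul_pow _ _ _
        _ ≤ 2 ^ N * lr ^ v :=
            Nat.mul_le_mul_right _ (Nat.pow_le_pow_right (by omega) (by omega))
    have h5 : hf P L₀ * ∏ j ∈ range (r' + 1), lam j ≤
        C₁ ^ (r' + 1) * L₀ ^ (v + 1 + r') * (2 ^ N * e) := by
      apply Nat.le_of_mul_le_mul_right (c := lr ^ v) _ (by positivity)
      calc hf P L₀ * (∏ j ∈ range (r' + 1), lam j) * lr ^ v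
          = hf P L₀ * (∏ j ∈ range r', lam j) * lr ^ (v + 1) := by
            rw [prod_range_succ, ← hlr]; ring
        _ ≤ C₁ ^ (r' + 1) * L₀ ^ (v + 1 + r') * hf P lr := hnum
        _ ≤ C₁ ^ (r' + 1) * L₀ ^ (v + 1 + r') * (e * (2 ^ N * lr ^ v)) :=
            Nat.mul_le_mul_left _ h3
        _ = _ := by ring
    have h6 : L₀ ^ (v + 1 + (r' + 1)) ≤ (N + 1).factorial * hf P L₀ := by
      obtain ⟨w, hw⟩ : ∃ w, md W = w + 1 := ⟨md W - 1, by omega⟩
      have h7 := hf_lower' hW (by omega) L₀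
      rw [hw] at h7
      simp only [Nat.add_sub_cancel, show L₀ + (w + 1) - 1 = L₀ + w by omega] at h7
      rw [← hf_eq_of_agree hWP hagW] at h7
      calc L₀ ^ (v + 1 + (r' + 1)) ≤ L₀ ^ w := Nat.pow_le_pow_right (by omega) (by omega)
        _ ≤ w.factorial * (L₀ + w).choose w := pow_le_choose _ _
        _ ≤ (N + 1).factorial * hf P L₀ :=
            Nat.mul_le_mul (Nat.factorial_le (by omega)) h7
    have h8 : L₀ * ∏ j ∈ range (r' + 1), lam j ≤
        (N + 1).factorial * C₁ ^ (r' + 1) * 2 ^ N * e := by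
      apply Nat.le_of_mul_le_mul_right (c := L₀ ^ (v + 1 + r')) _ (by positivity)
      calc L₀ * (∏ j ∈ range (r' + 1), lam j) * L₀ ^ (v + 1 + r')
          = L₀ ^ (v + 1 + (r' + 1)) * ∏ j ∈ range (r' + 1), lam j := by ring
        _ ≤ ((N + 1).factorial * hf P L₀) * ∏ j ∈ range (r' + 1), lam j :=
            Nat.mul_le_mul_right _ h6
        _ = (N + 1).factorial * (hf P L₀ * ∏ j ∈ range (r' + 1), lam j) := by ring
        _ ≤ (N + 1).factorial * (C₁ ^ (r' + 1) * L₀ ^ (v + 1 + r') * (2 ^ N * e)) :=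
            Nat.mul_le_mul_left _ h5
        _ = _ := by ring
    have hdpos : 0 < ∏ i, d i := Finset.prod_pos fun i _ => by
      have := hd i
      have : 0 < κ * L₀ := by positivity
      omega
    have h9 : ∏ i, d i ≤ (2 * κ) ^ (r' + 1) * ∏ j ∈ range (r' + 1), lam j := by
      have h10 : ∏ j ∈ range (r' + 1), lam j = ∏ i : Fin (r' + 1), lam i :=
        (Fin.prod_univ_eq_prod_range lam (r' + 1)).symm
      have h11 : (2 * κ) ^ (r' + 1) = ∏ _i : Fin (r' + 1), (2 * κ) := by simp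
      rw [h10, h11, ← Finset.prod_mul_distrib]
      refine Finset.prod_le_prod' fun i _ => ?_
      rw [hlamv i i.2]
      have h12 : d i < κ * (d i / κ + 1) := Nat.lt_mul_div_succ (d i) (by omega)
      have h13 := hdκ i
      calc d i ≤ κ * (d i / κ + 1) := h12.le
        _ ≤ κ * (2 * (d i / κ)) := Nat.mul_le_mul_left _ (by omega)
        _ = 2 * κ * (d ⟨i, i.2⟩ / κ) := by ring
    have h14 : L₀ * ∏ i, d i ≤ K0 * ∏ i, d i := by
      calc L₀ * ∏ i, d i ≤ L₀ * ((2 * κ) ^ (r' + 1) * ∏ j ∈ range (r' + 1), lam j) :=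
            Nat.mul_le_mul_left _ h9
        _ = (2 * κ) ^ (r' + 1) * (L₀ * ∏ j ∈ range (r' + 1), lam j) := by ring
        _ ≤ (2 * κ) ^ (r' + 1) * ((N + 1).factorial * C₁ ^ (r' + 1) * 2 ^ N * e) :=
            Nat.mul_le_mul_left _ h8
        _ = K0 * e := by rw [hK0]; ring
        _ ≤ K0 * ∏ i, d i := Nat.mul_le_mul_left _ hed
    have := Nat.le_of_mul_le_mul_right h14 hdpos
    omega
  obtain ⟨s, hs1, hs⟩ := exists_Bd hW (by omega)
  refine ⟨W, k', s, hW, hWP, le_antisymm hdimW' hdimW, small_mono hk' hcle, hdefW, hs, hs1, ?_⟩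
  exact deg_level hW (by omega) (by omega) hminW hs

end SepCI
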