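import Mathlib

set_option autoImplicit false
set_option linter.unusedSectionVars false

/-! # Trace, discriminant and powers of a primitive element over an integrally closed domain -/

namespace SepCI

open scoped nonZeroDivisors IntermediateField

section

variable {R A : Type*} [CommRing R] [IsDomain R] [IsIntegrallyClosed R] [CommRing A] [IsDomain A]
  [Algebra R A] [Module.Finite R A] [FaithfulSMul R A]
variable (K L : Type*) [Field K] [Field L] [Algebra R K] [IsFractionRing R K] [Algebra A L]
  [IsFractionRing A L] [Algebra R L] [Algebra K L] [IsScalarTower R K L] [IsScalarTower R A L]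

include R A in
theorem finDim_frac : FiniteDimensional K L :=
  Module.Finite.of_isLocalization R A R⁰

theorem exists_tr (a : A) : ∃ r : R, algebraMap R K r = Algebra.trace K L (algebraMap A L a) := by
  have : FiniteDimensional K L := finDim_frac (R := R) (A := A) K L
  have h1 : IsIntegral R a := Algebra.IsIntegral.isIntegral a
  have h2 : IsIntegral R (algebraMap A L a) := h1.map (IsScalarTower.toAlgHom R A L)
  exact IsIntegrallyClosed.isIntegral_iff.1 (Algebra.isIntegral_trace h2)

/-- The trace of the fraction fields, restricted to `A → R` (as a function). -/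
noncomputable def trF (a : A) : R := (exists_tr (R := R) K L a).choose

theorem trF_spec (a : A) :
    algebraMap R K (trF (R := R) K L a) = Algebra.trace K L (algebraMap A L a) :=
  (exists_tr K L a).choose_spec

/-- The trace of the fraction fields, restricted to `A → R`. -/
noncomputable def trA : A →ₗ[R] R where
  toFun a := trF K L a
  map_add' a b := by
    apply IsFractionRing.injective R K
    rw [map_add, trF_spec, trF_spec, trF_spec, map_add, map_add]
  map_smul' r a := by
    apply IsFractionRing.injective R K
    rw [trF_spec, RingHom.id_apply, smul_eq_mul, map_mul,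
      trF_spec, Algebra.smul_def, map_mul, ← IsScalarTower.algebraMap_apply R A L,
      IsScalarTower.algebraMap_apply R K L, ← Algebra.smul_def, map_smul, smul_eq_mul]

theorem trA_spec (a : A) :
    algebraMap R K (trA (R := R) K L a) = Algebra.trace K L (algebraMap A L a) :=
  trF_spec K L a

theorem trA_equiv (σR : R ≃+* R) (σA : A ≃+* A)
    (h : ∀ r, σA (algebraMap R A r) = algebraMap R A (σR r)) (a : A) :
    trA (R := R) K L (σA a) = σR (trA (R := R) K L a) := by
  apply IsFractionRing.injective R K
  set σK : K ≃+* K := IsFractionRing.ringEquivOfRingEquiv σR with hσK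
  set σL : L ≃+* L := IsFractionRing.ringEquivOfRingEquiv σA with hσL
  have hK : ∀ r, σK (algebraMap R K r) = algebraMap R K (σR r) := fun r =>
    IsFractionRing.ringEquivOfRingEquiv_algebraMap σR r
  have hL : ∀ r, σL (algebraMap A L r) = algebraMap A L (σA r) := fun r =>
    IsFractionRing.ringEquivOfRingEquiv_algebraMap σA r
  have hcomp : RingHom.comp (algebraMap K L) ↑σK = RingHom.comp ↑σL (algebraMap K L) := by
    apply IsLocalization.ringHom_ext R⁰
    ext r
    show algebraMap K L (σK (algebraMap R K r)) = σL (algebraMap K L (algebraMap R K r))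
    rw [hK, ← IsScalarTower.algebraMap_apply R K L, ← IsScalarTower.algebraMap_apply R K L,
      IsScalarTower.algebraMap_apply R A L, IsScalarTower.algebraMap_apply R A L, hL, h]
  have h1 := Algebra.trace_eq_of_equiv_equiv σK σL hcomp (algebraMap A L a)
  rw [trA_spec, ← hL]
  rw [← hK, trA_spec, h1]
  simp

/-- Powers of a primitive integral element. -/
theorem prim_data [CharZero K] {x : A} (hx : K⟮algebraMap A L x⟯ = ⊤) {s : ℕ}
    (hs : Module.finrank K L = s) :
    ∃ (b : Module.Basis (Fin s) R (Algebra.adjoin R {x})) (b' : Module.Basis (Fin s) K L),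
      (∀ i, ((b i : Algebra.adjoin R {x}) : A) = x ^ (i : ℕ)) ∧
      (∀ i, b' i = algebraMap A L x ^ (i : ℕ)) ∧
      (∀ i j, Algebra.trace R (Algebra.adjoin R {x}) (b i * b j) =
        trA (R := R) K L (x ^ ((i : ℕ) + j))) ∧
      Algebra.discr R b ≠ 0 ∧ ∀ a : A, Algebra.discr R b • a ∈ Algebra.adjoin R {x} := by
  classical
  have hfd : FiniteDimensional K L := finDim_frac (R := R) (A := A) K L
  have hint : IsIntegral R x := Algebra.IsIntegral.isIntegral x
  set xL : L := algebraMap A L x with hxL
  have hintK : IsIntegral K xL := IsIntegral.of_finite K xL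
  have htop : Algebra.adjoin K {xL} = ⊤ := by
    rw [← IntermediateField.adjoin_simple_toSubalgebra_of_isAlgebraic hintK.isAlgebraic, hx]
    rfl
  have hFS : FaithfulSMul R L := by
    rw [faithfulSMul_iff_algebraMap_injective, IsScalarTower.algebraMap_eq R K L]
    exact (algebraMap K L).injective.comp (IsFractionRing.injective R K)
  -- the `K`-power basis
  set B : PowerBasis K L := PowerBasis.ofAdjoinEqTop hintK htop with hB
  have hBgen : B.gen = xL := PowerBasis.ofAdjoinEqTop_gen hintK htop
  have hBdim : B.dim = s := by rw [← hs, B.finrank]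
  -- the `R`-power basis
  set pb := Algebra.adjoin.powerBasis' hint with hpb
  have hdim : pb.dim = s := by
    rw [← hBdim]
    show (minpoly R x).natDegree = (minpoly K xL).natDegree
    rw [hxL, minpoly.isIntegrallyClosed_eq_field_fractions K L hint,
      (minpoly.monic hint).natDegree_map]
  subst hBdim
  set b : Module.Basis (Fin B.dim) R (Algebra.adjoin R {x}) := pb.basis.reindex (finCongr hdim) with hb
  have hbi : ∀ i, ((b i : Algebra.adjoin R {x}) : A) = x ^ (i : ℕ) := by
    intro i
    rw [hb, Module.Basis.reindex_apply, pb.basis_eq_pow, Algebra.adjoin.powerBasis'_gen]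
    simp
  have hb'i : ∀ i, B.basis i = xL ^ (i : ℕ) := by
    intro i
    rw [B.basis_eq_pow, hBgen]
  -- comparison of coordinates
  have hcoord : ∀ (a : Algebra.adjoin R {x}) (i : Fin B.dim),
      B.basis.repr (algebraMap A L (a : A)) i = algebraMap R K (b.repr a i) := by
    intro a i
    have h1 : algebraMap A L (a : A) = ∑ j, algebraMap R K (b.repr a j) • B.basis j := by
      conv_lhs => rw [← b.sum_repr a]
      rw [AddSubmonoidClass.coe_finsetSum, map_sum]
      apply Finset.sum_congr rfl
      intro j _
      rw [Subalgebra.coe_smul, Algebra.smul_def, map_mul, ← IsScalarTower.algebraMap_apply R A L,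
        hbi, map_pow, hb'i, Algebra.smul_def, ← IsScalarTower.algebraMap_apply R K L]
    rw [h1, B.basis.repr_sum_self]
  have htr : ∀ a : Algebra.adjoin R {x}, algebraMap R K (Algebra.trace R (Algebra.adjoin R {x}) a) =
      Algebra.trace K L (algebraMap A L (a : A)) := by
    intro a
    rw [Algebra.trace_eq_matrix_trace b, Algebra.trace_eq_matrix_trace B.basis, Matrix.trace,
      Matrix.trace, map_sum]
    apply Finset.sum_congr rfl
    intro i _
    rw [Matrix.diag_apply, Matrix.diag_apply, Algebra.leftMulMatrix_eq_repr_mul,
      Algebra.leftMulMatrix_eq_repr_mul, ← hcoord]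
    congr 2
    rw [Subalgebra.coe_mul, map_mul, hbi, map_pow, hb'i]
  have htr2 : ∀ i j, Algebra.trace R (Algebra.adjoin R {x}) (b i * b j) =
      trA (R := R) K L (x ^ ((i : ℕ) + j)) := by
    intro i j
    apply IsFractionRing.injective R K
    rw [htr, trA_spec, Subalgebra.coe_mul, hbi, hbi, pow_add]
  have hdiscr : Algebra.discr K B.basis = algebraMap R K (Algebra.discr R b) := by
    rw [Algebra.discr_def, Algebra.discr_def, RingHom.map_det]
    congr 1
    ext i j
    rw [Algebra.traceMatrix_apply, RingHom.mapMatrix_apply, Matrix.map_apply,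
      Algebra.traceMatrix_apply, Algebra.traceForm_apply, Algebra.traceForm_apply, htr,
      Subalgebra.coe_mul, hbi, hbi, hb'i, hb'i, map_mul (algebraMap A L), map_pow (algebraMap A L),
      map_pow (algebraMap A L)]
  refine ⟨b, B.basis, hbi, hb'i, htr2, ?_, ?_⟩
  · intro h0
    have h1 := Algebra.discr_not_zero_of_basis K B.basis
    rw [hdiscr, h0, map_zero] at h1
    exact h1 rfl
  · intro a
    have hintB : IsIntegral R B.gen := by
      rw [hBgen]
      exact hint.map (IsScalarTower.toAlgHom R A L)
    have hinta : IsIntegral R (algebraMap A L a) :=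
      (Algebra.IsIntegral.isIntegral a).map (IsScalarTower.toAlgHom R A L)
    have h1 := Algebra.discr_mul_isIntegral_mem_adjoin K hintB hinta
    rw [hdiscr, hBgen] at h1
    have h2 : Algebra.adjoin R {xL} = (Algebra.adjoin R {x}).map (IsScalarTower.toAlgHom R A L) := by
      rw [AlgHom.map_adjoin]
      simp [hxL]
    rw [h2, Subalgebra.mem_map] at h1
    obtain ⟨w, hw, hw2⟩ := h1
    have h3 : algebraMap A L w = algebraMap A L (Algebra.discr R b • a) := by
      rw [Algebra.smul_def, map_mul, ← IsScalarTower.algebraMap_apply R A L]
      have : (IsScalarTower.toAlgHom R A L) w = algebraMap A L w := rfl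
      rw [← this, hw2, Algebra.smul_def, ← IsScalarTower.algebraMap_apply R K L]
    rw [← IsFractionRing.injective A L h3]
    exact hw

/-- Nondegeneracy: an element is determined by its traces against the powers of `x`. -/
theorem trA_nondeg [CharZero K] {x : A} {s : ℕ} (b' : Module.Basis (Fin s) K L)
    (hb' : ∀ i, b' i = algebraMap A L x ^ (i : ℕ)) {a : A}
    (h : ∀ i : Fin s, trA (R := R) K L (a * x ^ (i : ℕ)) = 0) : a = 0 := by
  have hfd : FiniteDimensional K L := finDim_frac (R := R) (A := A) K L
  apply IsFractionRing.injective A L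
  rw [map_zero]
  have h1 : ∀ z : L, Algebra.trace K L (algebraMap A L a * z) = 0 := by
    intro z
    rw [← b'.sum_repr z, Finset.mul_sum, map_sum]
    apply Finset.sum_eq_zero
    intro i _
    rw [mul_smul_comm, map_smul, hb', ← map_pow, ← map_mul, ← trA_spec (R := R), h i]
    simp
  exact (traceForm_nondegenerate K L).1 _ h1

end

end SepCI
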