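import Pool.Agent.SepCI.Defs
import Pool.Agent.SepCI.PackAlg

set_option autoImplicit false

/-! # Grading: dimension of the space of forms, scaling automorphism -/

namespace SepCI

open MvPolynomial

attribute [local instance] MvPolynomial.gradedAlgebra

theorem finrank_forms {m : ℕ} (hm : 1 ≤ m) (l : ℕ) :
    Module.finrank ℂ (homogeneousSubmodule (Fin m) ℂ l) = (l + m - 1).choose (m - 1) := by
  classical
  set T : Finset (Fin m →₀ ℕ) := (Finset.univ : Finset (Fin m)).finsuppAntidiag l with hT
  have hmem : ∀ d : Fin m →₀ ℕ, d ∈ T ↔ d.degree = l := by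
    intro d
    rw [hT, Finset.mem_finsuppAntidiag]
    simp [Finsupp.degree_eq_sum]
  let φ : homogeneousSubmodule (Fin m) ℂ l →ₗ[ℂ] (T → ℂ) :=
    { toFun := fun f d => coeff d.1 (f : MvPolynomial (Fin m) ℂ)
      map_add' := by
        intro f g
        ext d
        simp
      map_smul' := by
        intro c f
        ext d
        simp }
  have hinj : Function.Injective φ := by
    intro f g hfg
    ext d
    by_cases hd : d.degree = l
    · exact congrFun hfg ⟨d, (hmem d).2 hd⟩
    · rw [IsHomogeneous.coeff_eq_zero f.2 hd, IsHomogeneous.coeff_eq_zero g.2 hd]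
  have hsurj : Function.Surjective φ := by
    intro g
    refine ⟨⟨∑ d : T, monomial d.1 (g d), ?_⟩, ?_⟩
    · apply Submodule.sum_mem
      intro d _
      exact isHomogeneous_monomial _ ((hmem d.1).1 d.2)
    · ext d
      show coeff d.1 (∑ e : T, monomial e.1 (g e)) = g d
      rw [coeff_sum]
      simp only [coeff_monomial]
      rw [Finset.sum_eq_single d]
      · simp
      · intro e _ hed
        rw [if_neg]
        intro h
        exact hed (Subtype.ext h)
      · intro h
        exact absurd (Finset.mem_univ d) h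
  rw [(LinearEquiv.ofBijective φ ⟨hinj, hsurj⟩).finrank_eq, Module.finrank_fintype_fun_eq_card,
    Fintype.card_coe, hT, Finset.card_finsuppAntidiag_nat_eq_choose, Finset.card_univ,
    Fintype.card_fin]
  rw [show m + l - 1 = l + m - 1 by omega]
  apply Nat.choose_symm_of_eq_add
  omega

/-- Multiplication of the variables by `2`. -/
noncomputable def scal (ι : Type*) (c : ℂ) : MvPolynomial ι ℂ →ₐ[ℂ] MvPolynomial ι ℂ :=
  aeval fun j => C c * X j

theorem coeff_scal {ι : Type*} (c : ℂ) (f : MvPolynomial ι ℂ) (d : ι →₀ ℕ) :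
    coeff d (scal ι c f) = c ^ d.degree * coeff d f := by
  classical
  induction f using MvPolynomial.induction_on' with
  | monomial u a =>
    have h1 : scal ι c (monomial u a) = monomial u (c ^ u.degree * a) := by
      rw [scal, aeval_monomial]
      simp only [mul_pow, algebraMap_eq]
      rw [Finsupp.prod_mul, ← mul_assoc]
      have h2 : (u.prod fun i k => (C c : MvPolynomial ι ℂ) ^ k) = C (c ^ u.degree) := by
        rw [Finsupp.prod, Finset.prod_pow_eq_pow_sum, ← C_pow]
        rfl
      rw [h2, ← C_mul, monomial_eq, mul_comm a]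
    rw [h1, coeff_monomial, coeff_monomial]
    split_ifs with h
    · rw [h]
    · simp
  | add p q hp hq =>
    rw [map_add, coeff_add, coeff_add, hp, hq]
    ring

theorem scal_of_hom {ι : Type*} (c : ℂ) {f : MvPolynomial ι ℂ} {l : ℕ}
    (hf : f ∈ homogeneousSubmodule ι ℂ l) : scal ι c f = C (c ^ l) * f := by
  ext d
  rw [coeff_scal, coeff_C_mul]
  by_cases hd : d.degree = l
  · rw [hd]
  · rw [IsHomogeneous.coeff_eq_zero hf hd]
    simp

theorem hom_of_scal {ι : Type*} {f : MvPolynomial ι ℂ} {l : ℕ}
    (hf : scal ι 2 f = C (2 ^ l) * f) : f ∈ homogeneousSubmodule ι ℂ l := by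
  intro d hd
  have h1 : coeff d (scal ι 2 f) = coeff d (C (2 ^ l) * f) := by rw [hf]
  rw [coeff_scal, coeff_C_mul] at h1
  have h2 := mul_right_cancel₀ hd h1
  have h3 : (2 : ℕ) ^ d.degree = 2 ^ l := by exact_mod_cast h2
  have h4 := Nat.pow_right_injective (le_refl 2) h3
  rw [← h4, Finsupp.degree_eq_weight_one]
  rfl

theorem scal_comp {ι : Type*} (c c' : ℂ) (h : c * c' = 1) (f : MvPolynomial ι ℂ) :
    scal ι c (scal ι c' f) = f := by
  ext d
  rw [coeff_scal, coeff_scal, ← mul_assoc, ← mul_pow, h]
  simp

/-- The scaling automorphism. -/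
noncomputable def scalE (ι : Type*) : MvPolynomial ι ℂ ≃+* MvPolynomial ι ℂ where
  toFun := scal ι 2
  invFun := scal ι (1 / 2)
  left_inv f := scal_comp _ _ (by norm_num) f
  right_inv f := scal_comp _ _ (by norm_num) f
  map_mul' := map_mul _
  map_add' := map_add _

theorem scal_mem {N : ℕ} {P : Ideal (S N)} (hP : Hom P) (c : ℂ) {f : S N} (hf : f ∈ P) :
    scal (Fin (N + 1)) c f ∈ P := by
  rw [← sum_homogeneousComponent f, map_sum]
  apply Ideal.sum_mem
  intro i _
  rw [scal_of_hom c (homogeneousComponent_isHomogeneous i f)]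
  apply Ideal.mul_mem_left
  exact homogeneousComponent_mem_of_mem hP hf i

end SepCI
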