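import Pool.Agent.SepCI.Beta
import Pool.Agent.SepCI.Fields
import Pool.Agent.SepCI.Tangent
import Pool.Agent.SepCI.Dim
import Pool.Agent.SepCI.Base
import Pool.Agent.SepCI.Basic
import Pool.Agent.SepCI.Numeric

set_option autoImplicit false

namespace SepCI

open MvPolynomial Finset

attribute [local instance] MvPolynomial.gradedAlgebra

theorem exists_X_notMem_step {N : ℕ} {Q : Ideal (S N)} (hQ : HP Q) (h : 1 ≤ md Q) :
    ∃ i, (X i : S N) ∉ Q := by
  by_contra hc
  push Not at hc
  have := (md_eq_zero hQ).2 hc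
  omega

theorem small_mono {k k' : IntermediateField ℚ ℂ} {c c' : ℕ} (h : Small k k' c) (hc : c ≤ c') :
    Small k k' c' := by
  obtain ⟨h1, h2, w, hw⟩ := h
  refine ⟨h1, h2, fun i => if h : (i : ℕ) < c then w ⟨i, h⟩ else 0, fun z hz => ?_⟩
  have hle : IntermediateField.adjoin ℚ ((k : Set ℂ) ∪ Set.range w) ≤
      IntermediateField.adjoin ℚ ((k : Set ℂ) ∪ Set.range
        (fun i : Fin c' => if h : (i : ℕ) < c then w ⟨i, h⟩ else 0)) := by
    apply IntermediateField.adjoin.mono
    apply Set.union_subset_union_right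
    rintro _ ⟨i, rfl⟩
    refine ⟨⟨i, i.2.trans_le hc⟩, ?_⟩
    simp
  obtain ⟨p, hp, hpz⟩ := hw z hz
  refine ⟨p.map (IntermediateField.inclusion hle).toRingHom, ?_, ?_⟩
  · intro h0
    apply hp
    apply Polynomial.map_injective (IntermediateField.inclusion hle).toRingHom
      (IntermediateField.inclusion hle).toRingHom.injective
    simpa using h0
  · rw [Polynomial.aeval_def, Polynomial.eval₂_map]
    rw [Polynomial.aeval_def] at hpz
    exact hpz

theorem choose_mono_add (l a b : ℕ) (h : a ≤ b) : (l + a).choose a ≤ (l + b).choose b := by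
  rw [← Nat.choose_symm_add, ← Nat.choose_symm_add (a := l) (b := b)]
  exact Nat.choose_le_choose l (by omega)

theorem finrank_Sd_le {N : ℕ} (P : Ideal (S N)) (l : ℕ) : hf P l ≤ (l + 1) ^ N :=
  (hf_upper P l).trans (choose_le_pow' l N)

/-- first half of the step: the bigger variety -/
theorem step_first {N D : ℕ} (k : IntermediateField ℚ ℂ) (d : ℕ) (F : S N)
    (P : Ideal (S N)) (m e : ℕ) (hm : 2 ≤ m) (hd : cPhi N D ≤ d) (hF : GenOver k d F) (hP : HP P)
    (hFP : F ∈ P) (hmd : md P = m) (he : Bd P m e) (heD : e ≤ D * d) :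
    m ≤ N ∧ ∃ (Q : Ideal (S N)) (s : ℕ), HP Q ∧ Q ≤ P ∧ md Q = m + 1 ∧ Bd Q (m + 1) s ∧
      s ≤ cB N D ∧ 1 ≤ s ∧ ∀ j, (N + 2) * j ≤ d → Agree P Q j := by
  have hphi : cPhi N D ≤ d := hd
  unfold cPhi at hphi
  set l := d / (N + 2) with hl
  have hl1 : (N + 2) * l ≤ d := Nat.mul_div_le d (N + 2)
  have hl2 : d < (N + 2) * (l + 1) := by
    have := Nat.lt_mul_div_succ d (show 0 < N + 2 by omega)
    simpa [hl] using this
  have hd1 : 1 ≤ d := by omega
  have hlB : 2 * cB N D + N + 1 ≤ l := by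
    have : (N + 2) * (2 * cB N D + N + 1) ≤ d := by omega
    exact (Nat.le_div_iff_mul_le (by omega)).2 (by rw [mul_comm]; exact this)
  -- P is not minimal over P_l
  have hJP : Ideal.span {f | f ∈ P ∧ f ∈ Sd N l} ≤ P := by
    rw [Ideal.span_le]; intro f hf; exact hf.1
  have hmin : P ∉ (Ideal.span {f | f ∈ P ∧ f ∈ Sd N l}).minimalPrimes := by
    intro hmin
    obtain ⟨k0, hk0⟩ := small_zero k
    obtain ⟨k', hk', hdef⟩ := small_of_level (P := P) hk0 (defOver_bot k0) hP l
      (by rwa [bot_sup_eq])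
    have h1 := count hk' hP.hom hdef hF hFP
    have hmul : ∀ q, q * hf P l ≤ hf P (q * l) + q := by
      intro q
      induction q with
      | zero => simp
      | succ q ih =>
        have := hf_add hP (by omega) (q * l) l
        have e1 : (q + 1) * l = q * l + l := by ring
        have e2 : (q + 1) * hf P l = q * hf P l + hf P l := by ring
        rw [e1, e2]
        omega
    -- sharper: (q) copies cost q - 1
    have hmul' : ∀ q, (q + 1) * hf P l ≤ hf P ((q + 1) * l) + q := by
      intro q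
      induction q with
      | zero => simp
      | succ q ih =>
        have := hf_add hP (by omega) ((q + 1) * l) l
        have e1 : (q + 1 + 1) * l = (q + 1) * l + l := by ring
        have e2 : (q + 1 + 1) * hf P l = (q + 1) * hf P l + hf P l := by ring
        rw [e1, e2]
        omega
    have h2 := hmul' (N + 1)
    have h3 : hf P ((N + 1 + 1) * l) ≤ hf P d := hf_mono hP (by omega) hl1
    have h4 := hf_lower hP (by omega) l
    have e3 : (N + 1 + 1) * hf P l = (N + 1) * hf P l + hf P l := by ring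
    omega
  obtain ⟨Q, hQ, hJQ, hQP⟩ := exists_smaller (hom_span_level P l) hP hJP hmin
  have hmdQ := md_lt hQ hP hQP
  have hag : Agree P Q l := fun f hf hfP => hJQ (Ideal.subset_span ⟨hfP, hf⟩)
  have hX := exists_X_notMem_step hQ (by omega)
  have hagj : ∀ j, (N + 2) * j ≤ d → Agree P Q j := by
    intro j hj
    refine agree_down hQ.prime hX ?_ hag
    exact (Nat.le_div_iff_mul_le (by omega)).2 (by rw [mul_comm]; exact hj)
  have hmN : m ≤ N := by
    have := md_le_top hQ
    omega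
  have hfl : hf P l = hf Q l := hf_eq_of_agree hQP.le hag
  have hup : hf Q l ≤ cU N D * d ^ m := by
    rw [← hfl]
    refine (hf_mono hP (by omega) (show l ≤ d from (Nat.div_le_self _ _))).trans ?_
    exact ((he d).2).trans (upper_U hm hmN hd1 heD)
  have hmdQ2 : md Q = m + 1 := by
    by_contra hne
    have h2 : m + 2 ≤ md Q := by omega
    have h3 := hf_lower' hQ (by omega) l
    have h4 : (l + (m + 1)).choose (m + 1) ≤ hf Q l := by
      refine (choose_mono_add l (m + 1) (md Q - 1) (by omega)).trans ?_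
      have e1 : l + (md Q - 1) = l + md Q - 1 := by omega
      rw [e1]; exact h3
    exact numB hm hmN hl2 (by omega) (h4.trans hup)
  obtain ⟨s, hs1, hs⟩ := exists_Bd hQ (by omega)
  rw [hmdQ2] at hs
  refine ⟨hmN, Q, s, hQ, hQP.le, hmdQ2, hs, ?_, hs1, hagj⟩
  exact numC hm hmN hd1 hl2 (by omega) (((hs l).1).trans hup)

theorem step (N : ℕ) : ∃ C A : ℕ, ∀ D, 1 ≤ D → ∀ (k : IntermediateField ℚ ℂ) (d : ℕ) (F : S N)
    (P : Ideal (S N)) (m e : ℕ), 2 ≤ m → C * D ^ A ≤ d → GenOver k d F → HP P → F ∈ P →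
    md P = m → Bd P m e → e ≤ D * d →
    ∃ (Q : Ideal (S N)) (s : ℕ), HP Q ∧ Q ≤ P ∧ md Q = m + 1 ∧ Bd Q (m + 1) s ∧ F ∉ Q ∧
      s * d ≤ e ∧ ∀ j, (N + 2) * j ≤ d → Agree P Q j := by
  obtain ⟨C, A, hCA⟩ := polyB_cPhi N
  refine ⟨C, A, ?_⟩
  intro D hD k d F P m e hm hd hF hP hFP hmd he heD
  have hphi : cPhi N D ≤ d := (hCA D hD).trans hd
  obtain ⟨hmN, Q, s, hQ, hQP, hmQ, hs, hsB, hs1, hag⟩ :=
    step_first k d F P m e hm hphi hF hP hFP hmd he heD
  have hphi' := hphi
  unfold cPhi at hphi'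
  have hd1 : 1 ≤ d := by omega
  have hBpos := cB_pos (N := N) hD
  -- Q is minimal over Q_L, hence defined over a small field
  have hJQ : Ideal.span {f | f ∈ Q ∧ f ∈ Sd N (cL N D)} ≤ Q := by
    rw [Ideal.span_le]; intro f hf; exact hf.1
  have hminQ : Q ∈ (Ideal.span {f | f ∈ Q ∧ f ∈ Sd N (cL N D)}).minimalPrimes := by
    by_contra hmin
    obtain ⟨Q', hQ', hJQ', hQ'Q⟩ := exists_smaller (hom_span_level Q (cL N D)) hQ hJQ hmin
    have h1 := md_lt hQ' hQ hQ'Q
    have hag' : Agree Q Q' (cL N D) := fun f hf hfP => hJQ' (Ideal.subset_span ⟨hfP, hf⟩)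
    have h2 := hf_eq_of_agree hQ'Q.le hag'
    have h3 := hf_lower' hQ' (by omega) (cL N D)
    have h4 : (cL N D + (m + 1)).choose (m + 1) ≤ hf Q' (cL N D) := by
      refine (choose_mono_add (cL N D) (m + 1) (md Q' - 1) (by omega)).trans ?_
      have e1 : cL N D + (md Q' - 1) = cL N D + md Q' - 1 := by omega
      rw [e1]; exact h3
    rw [← h2] at h4
    exact numD hmN hsB (h4.trans (hs (cL N D)).2)
  obtain ⟨k0, hk0⟩ := small_zero k
  obtain ⟨kW, hkW, hdef⟩ := small_of_level (P := Q) hk0 (defOver_bot k0) hQ (cL N D)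
    (by rwa [bot_sup_eq])
  have hkW' : Small k kW (c0 N D) := by
    refine small_mono hkW ?_
    unfold c0
    have := finrank_Sd_le Q (cL N D)
    rw [Nat.zero_add]
    exact Nat.mul_le_mul_left _ this
  -- F is not in Q
  have hc01 : c0 N D ≤ c1 N D := by unfold c1; omega
  have hFQ : F ∉ Q := by
    intro hFQ
    have h1 := count hkW' hQ.hom hdef hF hFQ
    have h2 := hf_lower hQ (by omega) d
    omega
  obtain ⟨T, hT⟩ := exists_tang hkW' hF
  -- any prime of dimension m above Q + F agrees with Q in bounded degrees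
  have hagree : ∀ P' : Ideal (S N), HP P' → Q ≤ P' → F ∈ P' → md P' = m →
      ∀ j, j ≤ cl N D + 2 * (cB N D * cB N D) → Agree P' Q j := by
    intro P' hP' hQP' hFP' hmP' j hj
    by_contra hna
    have hmin' : P' ∈ (Q ⊔ Ideal.span {f | f ∈ P' ∧ f ∈ Sd N j}).minimalPrimes := by
      by_contra hmin
      have hhom : Hom (Q ⊔ Ideal.span {f | f ∈ P' ∧ f ∈ Sd N j}) :=
        hQ.hom.sup (hom_span_level P' j)
      have hle : Q ⊔ Ideal.span {f | f ∈ P' ∧ f ∈ Sd N j} ≤ P' := by
        refine sup_le hQP' ?_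
        rw [Ideal.span_le]; intro f hf; exact hf.1
      obtain ⟨R, hR, hJR, hRP⟩ := exists_smaller hhom hP' hle hmin
      have hQR : Q ≤ R := le_sup_left.trans hJR
      have hne : Q ≠ R := by
        rintro rfl
        apply hna
        intro f hf hfP
        exact hJR (Ideal.mem_sup_right (Ideal.subset_span ⟨hfP, hf⟩))
      have h1 := md_lt hQ hR (lt_of_le_of_ne hQR hne)
      have h2 := md_lt hR hP' hRP
      omega
    obtain ⟨k', hk', hdef'⟩ := small_of_level (P := P') hkW' hdef hP' j hmin'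
    have h1 := count hk' hP'.hom hdef' hF hFP'
    have h2 := hf_lower hP' (by omega) d
    have h3 := finrank_Sd_le P' j
    have h4 : (N + 1) * hf P' j ≤ (N + 1) * (cl N D + 2 * (cB N D * cB N D) + 1) ^ N :=
      Nat.mul_le_mul_left _ (h3.trans (Nat.pow_le_pow_left (by omega) N))
    have h5 : c1 N D = c0 N D + (N + 1) * (cl N D + 2 * (cB N D * cB N D) + 1) ^ N := rfl
    omega
  have hss : s * (s - 1) ≤ cB N D * cB N D :=
    Nat.mul_le_mul hsB ((Nat.sub_le _ _).trans hsB)
  have huniq : ∀ q, HP q → Q ⊔ Ideal.span {F} ≤ q → md q = m → q = P := by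
    intro q hq hle hmq
    by_contra hne
    have hQq : Q ≤ q := le_sup_left.trans hle
    have hFq : F ∈ q := hle (Ideal.mem_sup_right (Ideal.mem_span_singleton_self F))
    have h1 := alpha (l := cl N D) hQ hq hP hm hmQ hmq hmd hQq hQP hne hs hFq hFP hFQ hdef hT
      (by omega) (hagree q hq hQq hFq hmq _ (by omega)) (hagree P hP hQP hFP hmd _ (by omega))
    have h2 := hf_lower hQ (by omega) (cl N D)
    have h3 : s * c0 N D ≤ cl N D := Nat.mul_le_mul_right _ hsB
    omega
  have hmult := beta hQ hP hmQ hmd hQP hs hFP hdef hT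
    (by
      have h2 := hf_lower hP (by omega) d
      omega)
    (hagree P hP hQP hFP hmd _ (by omega))
  refine ⟨Q, s, hQ, hQP, hmQ, hs, hFQ, ?_, hag⟩
  exact deg_lower hQ hP hm hmQ hmd hs he hd1 hF.1 hFQ hFP hQP huniq hmult

end SepCI
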